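import Pool.Agent.Lib.MP_b525bf_ag_X.Tame2

/-!
# Y7, third part: étale coordinates from a basis of the cotangent space
-/

set_option autoImplicit false

namespace Pool.Agent.MP_b525bf_ag_X

open TensorProduct KaehlerDifferential IsLocalRing MvPolynomial

section

variable {k B : Type} [Field k] [CommRing B] [Algebra k B] (P : Ideal B) [P.IsPrime]

/-- The local ring: representation of elements. -/
theorem exists_repr (hres : ∀ b : B, ∃ c : k, b - algebraMap k B c ∈ P)
    (s : Localization.AtPrime P) : ∃ (b p : B) (t : k), t ≠ 0 ∧ p ∈ P ∧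
      algebraMap k (Localization.AtPrime P) t * s =
        algebraMap B _ b - algebraMap B _ p * s := by
  obtain ⟨⟨b, t⟩, hbt⟩ := IsLocalization.surj P.primeCompl s
  obtain ⟨t0, ht0⟩ := hres t
  refine ⟨b, (t : B) - algebraMap k B t0, t0, ?_, ht0, ?_⟩
  · rintro rfl
    rw [map_zero, sub_zero] at ht0
    exact t.2 ht0
  · rw [← hbt, map_sub, ← IsScalarTower.algebraMap_apply k B]
    ring

theorem local_res (hres : ∀ b : B, ∃ c : k, b - algebraMap k B c ∈ P)
    (s : Localization.AtPrime P) : ∃ c : k,
      s - algebraMap k _ c ∈ maximalIdeal (Localization.AtPrime P) := by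
  obtain ⟨b, p, t, ht, hp, hs⟩ := exists_repr P hres s
  obtain ⟨b0, hb0⟩ := hres b
  refine ⟨t⁻¹ * b0, ?_⟩
  have e : s - algebraMap k _ (t⁻¹ * b0) = algebraMap k (Localization.AtPrime P) t⁻¹ *
      (algebraMap B _ (b - algebraMap k B b0) - algebraMap B _ p * s) := by
    have h1 : algebraMap k (Localization.AtPrime P) t⁻¹ * algebraMap k _ t = 1 := by
      rw [← map_mul, inv_mul_cancel₀ ht, map_one]
    rw [map_sub, ← IsScalarTower.algebraMap_apply k B, map_mul]
    have h2 : algebraMap B (Localization.AtPrime P) b = algebraMap k _ t * s +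
        algebraMap B _ p * s := by rw [hs]; ring
    rw [h2]
    linear_combination (-s) * h1
  rw [e]
  refine Ideal.mul_mem_left _ _ (Ideal.sub_mem _ ?_ (Ideal.mul_mem_right _ _ ?_))
  · exact (IsLocalization.AtPrime.to_map_mem_maximal_iff (Localization.AtPrime P) P _).2 hb0
  · exact (IsLocalization.AtPrime.to_map_mem_maximal_iff (Localization.AtPrime P) P _).2 hp

variable {n : ℕ} (x : Fin n → B)

theorem local_span (hres : ∀ b : B, ∃ c : k, b - algebraMap k B c ∈ P)
    (h1 : ∀ b ∈ P, ∃ c : Fin n → k, b - ∑ i, c i • x i ∈ P ^ 2)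
    (s : Localization.AtPrime P) (hs : s ∈ maximalIdeal (Localization.AtPrime P)) :
    ∃ c : Fin n → k, s - ∑ i, c i • algebraMap B _ (x i) ∈
      maximalIdeal (Localization.AtPrime P) ^ 2 := by
  obtain ⟨b, p, t, ht, hp, hts⟩ := exists_repr P hres s
  have hmap : ∀ b ∈ P, algebraMap B (Localization.AtPrime P) b ∈
      maximalIdeal (Localization.AtPrime P) := fun b hb =>
    (IsLocalization.AtPrime.to_map_mem_maximal_iff (Localization.AtPrime P) P _).2 hb
  have hb : b ∈ P := by
    rw [← IsLocalization.AtPrime.to_map_mem_maximal_iff (Localization.AtPrime P) P]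
    have e : algebraMap B (Localization.AtPrime P) b =
      algebraMap k _ t * s + algebraMap B _ p * s := by rw [hts]; ring
    rw [e]
    exact Ideal.add_mem _ (Ideal.mul_mem_left _ _ hs) (Ideal.mul_mem_left _ _ hs)
  obtain ⟨c, hc⟩ := h1 b hb
  have hc' : algebraMap B (Localization.AtPrime P) (b - ∑ i, c i • x i) ∈
      maximalIdeal (Localization.AtPrime P) ^ 2 := by
    have h2 := Ideal.mem_map_of_mem (algebraMap B (Localization.AtPrime P)) hc
    rw [Ideal.map_pow] at h2
    have h3 : P.map (algebraMap B (Localization.AtPrime P)) ≤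
        maximalIdeal (Localization.AtPrime P) :=
      Ideal.map_le_iff_le_comap.2 fun b hb => Ideal.mem_comap.2 (hmap b hb)
    exact Ideal.pow_right_mono h3 2 h2
  refine ⟨fun i => t⁻¹ * c i, ?_⟩
  have h3 : algebraMap k (Localization.AtPrime P) t⁻¹ * algebraMap k _ t = 1 := by
    rw [← map_mul, inv_mul_cancel₀ ht, map_one]
  have e : s - ∑ i, (t⁻¹ * c i) • algebraMap B (Localization.AtPrime P) (x i) =
      algebraMap k (Localization.AtPrime P) t⁻¹ *
        (algebraMap B _ (b - ∑ i, c i • x i) - algebraMap B _ p * s) := by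
    have h4 : ∑ i, (t⁻¹ * c i) • algebraMap B (Localization.AtPrime P) (x i) =
        algebraMap k (Localization.AtPrime P) t⁻¹ * algebraMap B _ (∑ i, c i • x i) := by
      rw [map_sum, Finset.mul_sum]
      refine Finset.sum_congr rfl fun i _ => ?_
      rw [Algebra.smul_def, map_mul, Algebra.smul_def, map_mul,
        ← IsScalarTower.algebraMap_apply k B, mul_assoc]
    rw [h4, map_sub]
    have h2 : algebraMap B (Localization.AtPrime P) b = algebraMap k _ t * s +
        algebraMap B _ p * s := by rw [hts]; ring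
    rw [h2]
    linear_combination (-s) * h3
  rw [e]
  refine Ideal.mul_mem_left _ _ (Ideal.sub_mem _ hc' ?_)
  rw [pow_two]
  exact Ideal.mul_mem_mul (hmap p hp) hs

theorem local_indep (hres : ∀ b : B, ∃ c : k, b - algebraMap k B c ∈ P) (hx : ∀ i, x i ∈ P)
    (h2 : ∀ c : Fin n → k, ∑ i, c i • x i ∈ P ^ 2 → c = 0) (c : Fin n → k)
    (hc : ∑ i, c i • algebraMap B (Localization.AtPrime P) (x i) ∈
      maximalIdeal (Localization.AtPrime P) ^ 2) : c = 0 := by
  set z : B := ∑ i, c i • x i with hz
  have hzP : z ∈ P := Ideal.sum_mem _ fun i _ => by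
    rw [Algebra.smul_def]
    exact Ideal.mul_mem_left _ _ (hx i)
  have h3 : algebraMap B (Localization.AtPrime P) z ∈
      (P ^ 2).map (algebraMap B (Localization.AtPrime P)) := by
    have e : algebraMap B (Localization.AtPrime P) z =
        ∑ i, c i • algebraMap B (Localization.AtPrime P) (x i) := by
      rw [hz, map_sum]
      refine Finset.sum_congr rfl fun i _ => ?_
      rw [Algebra.smul_def, map_mul, Algebra.smul_def, ← IsScalarTower.algebraMap_apply k B]
    rw [e, Ideal.map_pow, Localization.AtPrime.map_eq_maximalIdeal]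
    exact hc
  obtain ⟨t, ht, htz⟩ := (IsLocalization.algebraMap_mem_map_algebraMap_iff P.primeCompl
    (Localization.AtPrime P) _ _).1 h3
  obtain ⟨t0, ht0⟩ := hres t
  have ht00 : t0 ≠ 0 := by
    rintro rfl
    rw [map_zero, sub_zero] at ht0
    exact ht ht0
  refine h2 c ?_
  have e : z = algebraMap k B t0⁻¹ * (t * z - (t - algebraMap k B t0) * z) := by
    have h4 : algebraMap k B t0⁻¹ * algebraMap k B t0 = 1 := by
      rw [← map_mul, inv_mul_cancel₀ ht00, map_one]
    linear_combination (-z) * h4
  rw [← hz, e]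
  refine Ideal.mul_mem_left _ _ (Ideal.sub_mem _ htz ?_)
  rw [pow_two]
  exact Ideal.mul_mem_mul ht0 hzP

/-- Elements of `B` which are a basis of the cotangent space at `P` are étale coordinates near
`P`. -/
theorem exists_etale_of_coords [Algebra.Smooth k B]
    (hres : ∀ b : B, ∃ c : k, b - algebraMap k B c ∈ P)
    (hx : ∀ i, x i ∈ P)
    (h1 : ∀ b ∈ P, ∃ c : Fin n → k, b - ∑ i, c i • x i ∈ P ^ 2)
    (h2 : ∀ c : Fin n → k, ∑ i, c i • x i ∈ P ^ 2 → c = 0) :
    ∃ f : B, f ∉ P ∧ ∀ f' : B, f ∣ f' →
      (aeval (fun i => algebraMap B (Localization.Away f') (x i)) :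
        MvPolynomial (Fin n) k →ₐ[k] Localization.Away f').toRingHom.Etale := by
  have hfp : Algebra.FinitePresentation k B := Algebra.Smooth.finitePresentation
  have hsm : Algebra.IsSmoothAt k P := inferInstance
  have hsm' : Algebra.FormallySmooth k (Localization.AtPrime P) := hsm
  let _ : Algebra (MvPolynomial (Fin n) k) B := (aeval x).toRingHom.toAlgebra
  have htow : IsScalarTower k (MvPolynomial (Fin n) k) B :=
    IsScalarTower.of_algebraMap_eq' (aeval x).comp_algebraMap.symm
  have htow2 : IsScalarTower k (MvPolynomial (Fin n) k) (Localization.AtPrime P) :=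
    IsScalarTower.of_algebraMap_eq fun r => by
      rw [IsScalarTower.algebraMap_apply (MvPolynomial (Fin n) k) B (Localization.AtPrime P),
        ← IsScalarTower.algebraMap_apply k (MvPolynomial (Fin n) k) B,
        ← IsScalarTower.algebraMap_apply k B]
  have hfp2 : Algebra.FinitePresentation (MvPolynomial (Fin n) k) B :=
    Algebra.FinitePresentation.of_restrict_scalars_finitePresentation k _ _
  obtain ⟨bS, hbS⟩ := exists_basis_kaehler (k := k) (S := Localization.AtPrime P)
    (local_res P hres) (fun i => algebraMap B _ (x i))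
    (fun i => (IsLocalization.AtPrime.to_map_mem_maximal_iff (Localization.AtPrime P) P _).2 (hx i))
    (local_span P x hres h1) (local_indep P x hres hx h2)
  have het : Algebra.FormallyEtale (MvPolynomial (Fin n) k) (Localization.AtPrime P) := by
    refine formallyEtale_of_basis (k := k) (mvPolynomialBasis k (Fin n)) bS fun i => ?_
    rw [mvPolynomialBasis_apply, mapBaseChange_tmul, one_smul, map_D, hbS]
    rw [IsScalarTower.algebraMap_apply (MvPolynomial (Fin n) k) B (Localization.AtPrime P)]
    congr 2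
    exact aeval_X x i
  have het' : Algebra.IsEtaleAt (MvPolynomial (Fin n) k) P := het
  obtain ⟨f, hf, hfe⟩ := Algebra.exists_etale_of_isEtaleAt (R := MvPolynomial (Fin n) k) P
  refine ⟨f, hf, fun f' hff' => ?_⟩
  have h3 : (PrimeSpectrum.basicOpen f' : Set (PrimeSpectrum B)) ⊆
      Algebra.etaleLocus (MvPolynomial (Fin n) k) B := by
    refine Set.Subset.trans ?_ (Algebra.basicOpen_subset_etaleLocus_iff_etale.2 hfe)
    intro q hq hfq
    obtain ⟨c, rfl⟩ := hff'
    exact hq (Ideal.mul_mem_right _ _ hfq)
  have h4 := Algebra.basicOpen_subset_etaleLocus_iff_etale.1 h3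
  have h5 := RingHom.etale_algebraMap.2 h4
  convert h5 using 1
  apply MvPolynomial.ringHom_ext
  · intro r
    rw [IsScalarTower.algebraMap_apply (MvPolynomial (Fin n) k) B (Localization.Away f')]
    change aeval _ (C r) = algebraMap B _ (aeval x (C r))
    rw [aeval_C, aeval_C, ← IsScalarTower.algebraMap_apply k B]
  · intro i
    rw [IsScalarTower.algebraMap_apply (MvPolynomial (Fin n) k) B (Localization.Away f')]
    change aeval _ (X i) = algebraMap B _ (aeval x (X i))
    rw [aeval_X, aeval_X]

end

end Pool.Agent.MP_b525bf_ag_X
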