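import Pool.Agent.Lib.MP_b525bf_ag_X.Tame1
import Pool.Agent.Lib.MP_b525bf_ag_X.Tame3
import Pool.Agent.Lib.MP_b525bf_ag.DefsLocal

/-!
# Y7: tame points are linear
-/

set_option autoImplicit false

namespace Pool.Agent.MP_b525bf_ag_X

open Pool.Agent.MP_b525bf_ag MvPolynomial

variable {k B : Type} [Field k] [CommRing B] [Algebra k B]

theorem exists_sub_mem_of_isAlgClosed [IsAlgClosed k] [Algebra.FiniteType k B] (P : Ideal B)
    [P.IsMaximal] (b : B) : ∃ c : k, b - algebraMap k B c ∈ P := by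
  let _ : Field (B ⧸ P) := Ideal.Quotient.field P
  have h1 : Algebra.FiniteType k (B ⧸ P) := inferInstance
  have h2 : Module.Finite k (B ⧸ P) := finite_of_finite_type_of_isJacobsonRing k (B ⧸ P)
  have h3 : Algebra.IsIntegral k (B ⧸ P) := inferInstance
  obtain ⟨c, hc⟩ := (IsAlgClosed.algebraMap_bijective_of_isIntegral (k := k) (K := B ⧸ P)).2
    (Ideal.Quotient.mk P b)
  refine ⟨c, ?_⟩
  rw [← Ideal.Quotient.eq_zero_iff_mem, map_sub, sub_eq_zero, ← hc]
  rfl

/-- A finite group of order prime to the characteristic which acts trivially modulo the maximal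
ideal `P` acts linearly in suitable étale coordinates near `P`. -/
theorem exists_linear_coords_of_tame [IsAlgClosed k] [Algebra.Smooth k B] (P : Ideal B)
    [P.IsMaximal] (I : Subgroup (B ≃ₐ[k] B)) [Finite I] (hI : ∀ g ∈ I, ∀ b, g b - b ∈ P)
    (hcard : (Nat.card I : k) ≠ 0) :
    ∃ (f : B) (hf : ∀ g ∈ I, g f = f), f ∉ P ∧
    ∃ (n : ℕ) (x : Fin n → Localization.Away f),
      (aeval x : MvPolynomial (Fin n) k →ₐ[k] Localization.Away f).toRingHom.Etale ∧
      ∀ g (hg : g ∈ I), ∃ A : Matrix (Fin n) (Fin n) k,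
        ∀ j, awayMap g f (hf g hg) (x j) = ∑ i, A i j • x i := by
  classical
  let _ : Fintype I := Fintype.ofFinite I
  have hft : Algebra.FiniteType k B := inferInstance
  have hno : IsNoetherianRing B := Algebra.FiniteType.isNoetherianRing k B
  have hres := exists_sub_mem_of_isAlgClosed (k := k) P
  obtain ⟨n, x, hx, hA, h1, h2⟩ := exists_equivariant_coords P I hI hcard
    (IsNoetherian.noetherian P) hres
  obtain ⟨f, hfP, hf⟩ := exists_etale_of_coords P x hres hx h1 h2
  set f' : B := ∏ g : I, (g : B ≃ₐ[k] B) f with hf'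
  have hff' : f ∣ f' := by
    have := Finset.dvd_prod_of_mem (fun g : I => (g : B ≃ₐ[k] B) f) (Finset.mem_univ (1 : I))
    exact this
  have hinv : ∀ g ∈ I, g f' = f' := by
    intro g hg
    rw [hf', map_prod]
    exact Fintype.prod_equiv (Equiv.mulLeft (⟨g, hg⟩ : I)) _ _ fun h => rfl
  have hf'P : f' ∉ P := by
    intro h
    obtain ⟨g, -, hg⟩ := Ideal.IsPrime.prod_mem_iff.1 h
    have h3 := P.sub_mem hg (hI g g.2 f)
    rw [sub_sub_cancel] at h3
    exact hfP h3
  refine ⟨f', hinv, hf'P, n, _, hf f' hff', fun g hg => ?_⟩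
  obtain ⟨A, hA⟩ := hA g hg
  refine ⟨A, fun j => ?_⟩
  have h3 : awayMap g f' (hinv g hg) (algebraMap B _ (x j)) = algebraMap B _ (g (x j)) :=
    IsLocalization.map_eq _ _
  rw [h3, hA, map_sum]
  refine Finset.sum_congr rfl fun i _ => ?_
  rw [Algebra.smul_def, map_mul, Algebra.smul_def, ← IsScalarTower.algebraMap_apply k B]

end Pool.Agent.MP_b525bf_ag_X
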