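import Pool.Agent.Lib.MP_b525bf_ag.DefsLocal

/-!
# Étale-locally linear actions: definitions
-/

set_option autoImplicit false

namespace Pool.Agent.MP_b525bf_ag_X

open Pool.Agent.MP_b525bf_ag MvPolynomial

/-- The inertia group of an ideal `P` in the group `G` of automorphisms of `B`: the elements of `G`
which act trivially modulo `P`. -/
def inertiaGroup {k B : Type} [Field k] [CommRing B] [Algebra k B] (G : Subgroup (B ≃ₐ[k] B))
    (P : Ideal B) : Subgroup (B ≃ₐ[k] B) where
  carrier := {g | g ∈ G ∧ ∀ b, g b - b ∈ P}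
  mul_mem' := by
    rintro g h ⟨hg, hg'⟩ ⟨hh, hh'⟩
    refine ⟨G.mul_mem hg hh, fun b => ?_⟩
    have := P.add_mem (hg' (h b)) (hh' b)
    rwa [sub_add_sub_cancel] at this
  one_mem' := ⟨G.one_mem, fun b => by rw [AlgEquiv.one_apply, sub_self]; exact P.zero_mem⟩
  inv_mem' := by
    rintro g ⟨hg, hg'⟩
    refine ⟨G.inv_mem hg, fun b => ?_⟩
    have h1 := hg' (g⁻¹ b)
    have h2 : g (g⁻¹ b) = b := by rw [← AlgEquiv.mul_apply, mul_inv_cancel, AlgEquiv.one_apply]
    rw [h2] at h1
    have := P.neg_mem h1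
    rwa [neg_sub] at this

/-- The inertia group of `P` acts linearly in suitable étale coordinates `x i` of an affine open
neighbourhood `Spec B[1/f]` of `P`. -/
def LinearAt {k B : Type} [Field k] [CommRing B] [Algebra k B] (G : Subgroup (B ≃ₐ[k] B))
    (P : Ideal B) : Prop :=
  ∃ (f : B) (hf : ∀ g ∈ inertiaGroup G P, g f = f), f ∉ P ∧
    ∃ (n : ℕ) (x : Fin n → Localization.Away f),
      (aeval x : MvPolynomial (Fin n) k →ₐ[k] Localization.Away f).toRingHom.Etale ∧
      ∀ g (hg : g ∈ inertiaGroup G P), ∃ A : Matrix (Fin n) (Fin n) k,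
        ∀ j, awayMap g f (hf g hg) (x j) = ∑ i, A i j • x i

end Pool.Agent.MP_b525bf_ag_X
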