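import Pool.Agent.Lib.MP_b525bf_ag_X.EtDefs
import Pool.Agent.Lib.MP_b525bf_ag_h5.Base
import Pool.Agent.Lib.MP_b525bf_ag_W.Chart

/-!
# Y4: smoothness of the chart algebras in étale coordinates
-/

set_option autoImplicit false
set_option linter.unusedSectionVars false
set_option linter.unusedVariables false

namespace Pool.Agent.MP_b525bf_ag_X

open Pool.Agent.MP_b525bf_ag Pool.Agent.MP_b525bf_ag_W

namespace Y4

open AddMonoidAlgebra TensorProduct

section Base

variable {k K ι : Type} [Field k] [Field K] [Algebra k K] [AddCommGroup ι]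

/-- The map from a ring to the degree zero part. -/
noncomputable def baseMap (N : Fam k K ι) (A : Type) [CommRing A] [Algebra k A] [Algebra A K]
    [IsScalarTower k A K] (h : ∀ a : A, algebraMap A K a ∈ N.s 0) : A →ₐ[k] N.alg where
  toFun a := N.el (h a)
  map_one' := Subtype.ext (by rw [Fam.coe_el, map_one]; rfl)
  map_mul' a b := Subtype.ext (by simp)
  map_zero' := Subtype.ext (by simp)
  map_add' a b := Subtype.ext (by simp [single_add])
  commutes' c := by
    refine Subtype.ext ?_
    change single 0 (algebraMap A K (algebraMap k A c)) = algebraMap k (AddMonoidAlgebra K ι) c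
    rw [AddMonoidAlgebra.coe_algebraMap, ← IsScalarTower.algebraMap_apply]; rfl

/-- Flat base change: the graded algebra of the extended family is the tensor product. -/
theorem base_change {A B : Type} [CommRing A] [CommRing B] [Algebra k A] [Algebra k B]
    [Algebra A B] [Algebra A K] [Algebra B K] [IsScalarTower k A K] [IsScalarTower k B K]
    [IsScalarTower A B K] [IsScalarTower k A B] (hinjA : Function.Injective (algebraMap A K))
    (hinj : Function.Injective (algebraMap B K)) (hflat : Module.Flat A B)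
    (NA NB : Fam k K ι) (hA : ∀ n, ∀ z ∈ NA.s n, ∃ a : A, algebraMap A K a = z)
    (hA0 : ∀ a : A, algebraMap A K a ∈ NA.s 0)
    (hB0 : ∀ b : B, algebraMap B K b ∈ NB.s 0) (hle : ∀ n, NA.s n ≤ NB.s n)
    (hgen : ∀ n, NB.s n ≤
      Submodule.span k {z | ∃ b : B, ∃ x ∈ NA.s n, z = algebraMap B K b * x}) :
    ∃ (_ : Algebra A NA.alg) (_ : IsScalarTower k A NA.alg) (_ : Algebra NA.alg NB.alg)
      (_ : IsScalarTower k NA.alg NB.alg), Nonempty (NA.alg ⊗[A] B ≃ₐ[NA.alg] NB.alg) ∧
      ∀ x : NA.alg, ((algebraMap NA.alg NB.alg x : NB.alg) : AddMonoidAlgebra K ι) = x := by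
  classical
  have hinc : NA.alg ≤ NB.alg := fun G hG a => hle a (hG a)
  let i2 : Algebra A NA.alg := (baseMap NA A hA0).toAlgebra
  let i3 : Algebra NA.alg NB.alg := (Subalgebra.inclusion hinc).toAlgebra
  let i4 : Algebra A NB.alg := ((Subalgebra.inclusion hinc).comp (baseMap NA A hA0)).toAlgebra
  have i7 : IsScalarTower k A NA.alg := IsScalarTower.of_algebraMap_eq
    fun c => ((baseMap NA A hA0).commutes c).symm
  have i5 : IsScalarTower k NA.alg NB.alg := IsScalarTower.of_algebraMap_eq
    fun c => Subtype.ext rfl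
  have i6 : IsScalarTower A NA.alg NB.alg := IsScalarTower.of_algebraMap_eq
    fun c => rfl
  let g : B →ₐ[A] NB.alg :=
    { (baseMap NB B hB0).toRingHom with
      commutes' := fun a => by
        refine Subtype.ext ?_
        change single 0 (algebraMap B K (algebraMap A B a)) = single 0 (algebraMap A K a)
        rw [← IsScalarTower.algebraMap_apply] }
  let m : NA.alg ⊗[A] B →ₐ[NA.alg] NB.alg :=
    Algebra.TensorProduct.lift (Algebra.ofId _ _) g fun _ _ => Commute.all _ _
  have hm : ∀ r b, m (r ⊗ₜ b) = Subalgebra.inclusion hinc r * baseMap NB B hB0 b := by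
    intro r b
    simp only [m]
    rw [Algebra.TensorProduct.lift_tmul]
    rfl
  have hcoef : ∀ (r : NA.alg) (n : ι), ∃ a : A, algebraMap A K a =
      (r : AddMonoidAlgebra K ι).coeff n := fun r n => hA n _ (r.2 n)
  choose cf hcf using hcoef
  have hcf0 : ∀ (r : NA.alg) (n : ι), cf r n ≠ 0 → n ∈ (r : AddMonoidAlgebra K ι).coeff.support := by
    intro r n h
    rw [Finsupp.mem_support_iff]
    intro h0
    exact h (hinjA (by rw [hcf, h0, map_zero]))
  -- the coefficients as a linear map
  let j : NA.alg →ₗ[A] (ι →₀ A) :=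
    { toFun := fun r => Finsupp.onFinset (r : AddMonoidAlgebra K ι).coeff.support (cf r) (hcf0 r)
      map_add' := by
        intro r r'
        refine Finsupp.ext fun n => hinjA ?_
        rw [Finsupp.add_apply, map_add, Finsupp.onFinset_apply, Finsupp.onFinset_apply,
          Finsupp.onFinset_apply, hcf, hcf, hcf]
        rfl
      map_smul' := by
        intro a r
        refine Finsupp.ext fun n => hinjA ?_
        rw [RingHom.id_apply, Finsupp.smul_apply, smul_eq_mul, map_mul, Finsupp.onFinset_apply,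
          Finsupp.onFinset_apply, hcf, hcf, Algebra.smul_def]
        change (single 0 (algebraMap A K a) * (r : AddMonoidAlgebra K ι)).coeff n = _
        rw [coeff_single_mul_eq_mul_coeff n (by intro _ _; simp)] }
  have hj : ∀ r n, algebraMap A K (j r n) = (r : AddMonoidAlgebra K ι).coeff n := fun r n => hcf r n
  have hjinj : Function.Injective j := by
    intro r r' h
    refine Subtype.ext (AddMonoidAlgebra.ext (Finsupp.ext fun n => ?_))
    rw [← hj, ← hj, h]
  have hflat' := Module.Flat.rTensor_preserves_injective_linearMap (M := B) j hjinj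
  have hbij : Function.Bijective m := by
    constructor
    · rw [injective_iff_map_eq_zero]
      intro z hz
      have key : ∀ (z : NA.alg ⊗[A] B) (n : ι),
          algebraMap B K (TensorProduct.finsuppScalarLeft A B ι (LinearMap.rTensor B j z) n) =
            (m z : AddMonoidAlgebra K ι).coeff n := by
        intro z n
        induction z with
        | zero => simp
        | tmul r b =>
          rw [LinearMap.rTensor_tmul, TensorProduct.finsuppScalarLeft_apply_tmul_apply,
            Algebra.smul_def, map_mul, ← IsScalarTower.algebraMap_apply, hj, hm]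
          change _ = ((r : AddMonoidAlgebra K ι) * single 0 (algebraMap B K b)).coeff n
          rw [coeff_mul_single_eq_coeff_mul n (by intro _ _; simp)]
        | add x y hx hy =>
          rw [map_add, map_add, Finsupp.add_apply, map_add, hx, hy, map_add]
          rfl
      apply hflat'
      rw [map_zero]
      refine (TensorProduct.finsuppScalarLeft A B ι).injective ?_
      rw [map_zero]
      refine Finsupp.ext fun n => hinj ?_
      rw [key, hz, Finsupp.zero_apply, map_zero]
      rfl
    · intro G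
      have : G ∈ m.range := by
        refine Fam.alg_induction NB (p := fun G => G ∈ m.range) (zero_mem _)
          (fun _ _ h h' => add_mem h h') ?_ G
        intro a x hx
        have hxF := hgen a hx
        have key : ∀ y ∈ Submodule.span k {z | ∃ b : B, ∃ x ∈ NA.s a, z = algebraMap B K b * x},
            ∃ hy : y ∈ NB.s a, NB.el hy ∈ m.range := by
          intro y hy
          refine Submodule.span_induction ?_ ?_ ?_ ?_ hy
          · rintro _ ⟨b, y, hy, rfl⟩
            have h1 : algebraMap B K b * y ∈ NB.s a := by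
              have := NB.mul' (hB0 b) (hle a hy)
              rwa [zero_add] at this
            refine ⟨h1, NA.el hy ⊗ₜ b, ?_⟩
            refine (hm _ _).trans ?_
            refine Subtype.ext ?_
            change single a y * single 0 (algebraMap B K b) = single a (algebraMap B K b * y)
            rw [single_mul_single, add_zero, mul_comm]
          · refine ⟨Submodule.zero_mem _, ?_⟩
            rw [show NB.el (Submodule.zero_mem (NB.s a)) = 0 from
              Subtype.ext (by simp)]
            exact zero_mem _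
          · rintro u v _ _ ⟨hu, hu'⟩ ⟨hv, hv'⟩
            refine ⟨Submodule.add_mem _ hu hv, ?_⟩
            rw [show NB.el (Submodule.add_mem _ hu hv) =
              NB.el hu + NB.el hv from Subtype.ext (by simp [single_add])]
            exact add_mem hu' hv'
          · rintro c u _ ⟨hu, hu'⟩
            refine ⟨Submodule.smul_mem _ c hu, ?_⟩
            rw [show NB.el (Submodule.smul_mem _ c hu) =
              algebraMap NA.alg NB.alg (algebraMap k _ c) * NB.el hu from by
                rw [← IsScalarTower.algebraMap_apply, ← Algebra.smul_def]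
                exact Subtype.ext (smul_single c a u).symm]
            exact mul_mem (Subalgebra.algebraMap_mem _ _) hu'
        exact (key x hxF).2
      exact this
  exact ⟨i2, i7, i3, i5, ⟨AlgEquiv.ofBijective m hbij⟩, fun x => rfl⟩

theorem smooth_of_tensor {A B R R' : Type} [CommRing A] [CommRing B] [CommRing R] [CommRing R']
    [Algebra A B] [Algebra A R] [Algebra R R'] [Algebra.Smooth A B] (e : R ⊗[A] B ≃ₐ[R] R') :
    Algebra.Smooth R R' := Algebra.Smooth.of_equiv e

theorem smooth_fg_of_base_change {A B : Type} [CommRing A] [CommRing B] [Algebra k A] [Algebra k B]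
    [Algebra A B] [Algebra A K] [Algebra B K] [IsScalarTower k A K] [IsScalarTower k B K]
    [IsScalarTower A B K] [IsScalarTower k A B] (hinjA : Function.Injective (algebraMap A K))
    (hinj : Function.Injective (algebraMap B K)) [Algebra.Smooth A B]
    (NA NB : Fam k K ι) (hA : ∀ n, ∀ z ∈ NA.s n, ∃ a : A, algebraMap A K a = z)
    (hA0 : ∀ a : A, algebraMap A K a ∈ NA.s 0)
    (hB0 : ∀ b : B, algebraMap B K b ∈ NB.s 0) (hle : ∀ n, NA.s n ≤ NB.s n)
    (hgen : ∀ n, NB.s n ≤
      Submodule.span k {z | ∃ b : B, ∃ x ∈ NA.s n, z = algebraMap B K b * x})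
    (hfg : Algebra.FiniteType k NA.alg) (hsm : Algebra.FormallySmooth k NA.alg) :
    Algebra.FiniteType k NB.alg ∧ Algebra.FormallySmooth k NB.alg ∧
      ∀ hinc : NA.alg ≤ NB.alg, (Subalgebra.inclusion hinc).toRingHom.FormallySmooth := by
  obtain ⟨i1, i2, i3, i4, ⟨e⟩, he⟩ := base_change hinjA hinj inferInstance NA NB hA hA0 hB0 hle hgen
  have h1 : Algebra.FiniteType A B := inferInstance
  have h2 : Algebra.FiniteType NA.alg (NA.alg ⊗[A] B) := inferInstance
  have h3 : Algebra.FiniteType NA.alg NB.alg := Algebra.FiniteType.equiv h2 e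
  have h4 : Algebra.Smooth NA.alg NB.alg := smooth_of_tensor (A := A) (B := B) e
  refine ⟨Algebra.FiniteType.trans hfg h3, Algebra.FormallySmooth.comp k NA.alg NB.alg,
    fun hinc => ?_⟩
  have h5 : (Subalgebra.inclusion hinc).toRingHom = algebraMap NA.alg NB.alg :=
    RingHom.ext fun x => Subtype.ext (he x).symm
  rw [h5, RingHom.formallySmooth_algebraMap]
  infer_instance

/-- Relative smoothness of monoid algebras. -/
theorem formallySmooth_rel (k : Type) [Field k] {Γ Δ σ : Type} [AddCommMonoid Γ]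
    [AddCommMonoid Δ] (hΓ : Lft Γ) (hΔ : Lft Δ) :
    (MvPolynomial.aeval fun i : σ =>
      (single (0, Finsupp.single i 1, 0) 1 : AddMonoidAlgebra k (Γ × (σ →₀ ℕ) × Δ)) :
      MvPolynomial σ k →ₐ[k] AddMonoidAlgebra k (Γ × (σ →₀ ℕ) × Δ)).toRingHom.FormallySmooth := by
  let ψ : MvPolynomial σ k →ₐ[k] AddMonoidAlgebra k (Γ × (σ →₀ ℕ) × Δ) :=
    MvPolynomial.aeval fun i : σ => single (0, Finsupp.single i 1, 0) 1
  let i1 : Algebra (MvPolynomial σ k) (AddMonoidAlgebra k (Γ × (σ →₀ ℕ) × Δ)) :=
    ψ.toRingHom.toAlgebra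
  have hψ : ∀ r, algebraMap (MvPolynomial σ k) (AddMonoidAlgebra k (Γ × (σ →₀ ℕ) × Δ)) r = ψ r :=
    fun _ => rfl
  change Algebra.FormallySmooth (MvPolynomial σ k) (AddMonoidAlgebra k (Γ × (σ →₀ ℕ) × Δ))
  refine Algebra.FormallySmooth.of_comp_surjective fun B _ _ I hI f => ?_
  let F : Multiplicative (Γ × (σ →₀ ℕ) × Δ) →* B ⧸ I :=
    ((f : AddMonoidAlgebra k (Γ × (σ →₀ ℕ) × Δ) →+* B ⧸ I) : AddMonoidAlgebra k
      (Γ × (σ →₀ ℕ) × Δ) →* B ⧸ I).comp (AddMonoidAlgebra.of k (Γ × (σ →₀ ℕ) × Δ))
  have hF : ∀ a, F (Multiplicative.ofAdd a) = f (single a 1) := fun _ => rfl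
  obtain ⟨gΓ, hgΓ⟩ := hΓ B I hI (F.comp (AddMonoidHom.toMultiplicative
    (AddMonoidHom.inl Γ ((σ →₀ ℕ) × Δ))))
  obtain ⟨gΔ, hgΔ⟩ := hΔ B I hI (F.comp (AddMonoidHom.toMultiplicative
    ((AddMonoidHom.inr Γ ((σ →₀ ℕ) × Δ)).comp (AddMonoidHom.inr (σ →₀ ℕ) Δ))))
  let gσ : Multiplicative (σ →₀ ℕ) →* B :=
    ((algebraMap (MvPolynomial σ k) B : MvPolynomial σ k →* B)).comp
      (AddMonoidHom.toMultiplicativeLeft
        { toFun := fun a => Additive.ofMul (MvPolynomial.monomial a (1 : k))
          map_zero' := rfl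
          map_add' := fun a b => by
            rw [← ofMul_mul, MvPolynomial.monomial_mul, one_mul] })
  have hgσ : ∀ a : σ →₀ ℕ, gσ (Multiplicative.ofAdd a) =
      algebraMap (MvPolynomial σ k) B (MvPolynomial.monomial a 1) := fun _ => rfl
  let g : Multiplicative (Γ × (σ →₀ ℕ) × Δ) →* B :=
    (gΓ.comp (AddMonoidHom.toMultiplicative (AddMonoidHom.fst Γ ((σ →₀ ℕ) × Δ)))) *
    (gσ.comp (AddMonoidHom.toMultiplicative
      ((AddMonoidHom.fst (σ →₀ ℕ) Δ).comp (AddMonoidHom.snd Γ ((σ →₀ ℕ) × Δ))))) *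
    (gΔ.comp (AddMonoidHom.toMultiplicative
      ((AddMonoidHom.snd (σ →₀ ℕ) Δ).comp (AddMonoidHom.snd Γ ((σ →₀ ℕ) × Δ)))))
  have hg : ∀ a : Γ × (σ →₀ ℕ) × Δ, g (Multiplicative.ofAdd a) =
      gΓ (Multiplicative.ofAdd a.1) * gσ (Multiplicative.ofAdd a.2.1) *
        gΔ (Multiplicative.ofAdd a.2.2) := fun _ => rfl
  let i2 : Algebra k B := ((algebraMap (MvPolynomial σ k) B).comp MvPolynomial.C).toAlgebra
  have hkB : ∀ c : k, algebraMap k B c = algebraMap (MvPolynomial σ k) B (MvPolynomial.C c) :=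
    fun _ => rfl
  let H : AddMonoidAlgebra k (Γ × (σ →₀ ℕ) × Δ) →ₐ[k] B :=
    AddMonoidAlgebra.lift k B (Γ × (σ →₀ ℕ) × Δ) g
  have hH : ∀ a c, H (single a c) = algebraMap k B c * g (Multiplicative.ofAdd a) := by
    intro a c
    change AddMonoidAlgebra.lift k B (Γ × (σ →₀ ℕ) × Δ) g (single a c) = _
    rw [AddMonoidAlgebra.lift_single, Algebra.smul_def]
  have hHψ : ∀ r : MvPolynomial σ k, H (ψ r) = algebraMap (MvPolynomial σ k) B r := by
    have : (H.comp ψ).toRingHom = algebraMap (MvPolynomial σ k) B := by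
      refine MvPolynomial.ringHom_ext (fun c => ?_) fun i => ?_
      · change H (ψ (MvPolynomial.C c)) = _
        rw [← MvPolynomial.algebraMap_eq, AlgHom.commutes, AlgHom.commutes]
        rfl
      · change H (ψ (MvPolynomial.X i)) = _
        simp only [ψ]
        have e1 : gΓ (Multiplicative.ofAdd (0 : Γ)) = 1 := map_one gΓ
        have e2 : gΔ (Multiplicative.ofAdd (0 : Δ)) = 1 := map_one gΔ
        have e3 : gσ (Multiplicative.ofAdd (Finsupp.single i 1)) =
          algebraMap (MvPolynomial σ k) B (MvPolynomial.X i) := rfl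
        rw [MvPolynomial.aeval_X, hH, hg, e1, e2, e3, one_mul, mul_one, map_one, one_mul]
    intro r
    exact congrArg (fun t : MvPolynomial σ k →+* B => t r) this
  have hmid : ∀ a : σ →₀ ℕ, (single (0, a, 0) 1 : AddMonoidAlgebra k (Γ × (σ →₀ ℕ) × Δ)) =
      ψ (MvPolynomial.monomial a 1) := by
    intro a
    induction a using Finsupp.induction_linear with
    | zero => exact (map_one ψ).symm
    | add a b ha hb =>
      have h1 : (MvPolynomial.monomial (a + b) (1 : k)) =
          MvPolynomial.monomial a 1 * MvPolynomial.monomial b 1 := by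
        rw [MvPolynomial.monomial_mul, one_mul]
      rw [h1, map_mul, ← ha, ← hb, single_mul_single, one_mul]
      congr 1
      simp
    | single i n =>
      have h1 : (MvPolynomial.monomial (Finsupp.single i n) (1 : k)) =
          MvPolynomial.X i ^ n := by
        rw [MvPolynomial.X_pow_eq_monomial]
      rw [h1, map_pow]
      simp only [ψ]
      rw [MvPolynomial.aeval_X, AddMonoidAlgebra.single_pow, one_pow]
      congr 1
      simp
  refine ⟨{ H.toRingHom with commutes' := fun r => hHψ r }, ?_⟩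
  refine AlgHom.ext fun x => ?_
  change Ideal.Quotient.mk I (H x) = f x
  induction x using AddMonoidAlgebra.induction_linear with
  | zero => rw [map_zero, map_zero, map_zero]
  | add x y hx hy => rw [map_add, map_add, map_add, hx, hy]
  | single a c =>
    have h1 : (single a c : AddMonoidAlgebra k (Γ × (σ →₀ ℕ) × Δ)) =
        ψ (MvPolynomial.C c) * single a 1 := by
      rw [← MvPolynomial.algebraMap_eq, AlgHom.commutes, ← Algebra.smul_def, smul_single,
        smul_eq_mul, mul_one]
    have h2 : (single a 1 : AddMonoidAlgebra k (Γ × (σ →₀ ℕ) × Δ)) =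
        single (a.1, 0, 0) 1 * single (0, a.2.1, 0) 1 * single (0, 0, a.2.2) 1 := by
      rw [single_mul_single, single_mul_single, one_mul, one_mul]
      congr 1
      simp
    have h3 : Ideal.Quotient.mk I (algebraMap (MvPolynomial σ k) B
        (MvPolynomial.monomial a.2.1 1)) = f (single (0, a.2.1, 0) 1) := by
      rw [hmid, ← hψ, AlgHom.commutes]
      rfl
    have h4 : Ideal.Quotient.mk I (gΓ (Multiplicative.ofAdd a.1)) = f (single (a.1, 0, 0) 1) :=
      hgΓ _
    have h5 : Ideal.Quotient.mk I (gΔ (Multiplicative.ofAdd a.2.2)) = f (single (0, 0, a.2.2) 1) :=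
      hgΔ _
    rw [h1, map_mul, map_mul, hHψ, hH, map_one, one_mul, hg, hgσ, map_mul, map_mul, map_mul, h3,
      h4, h5, ← hψ, AlgHom.commutes, h2, map_mul, map_mul]
    rfl

end Base

section Mono

variable {k U K ι Ix : Type} [Field k] [AddCommGroup U] [Module k U] [Field K] [Algebra k K]
  [AddCommGroup ι]

/-- The value of a monomial. -/
noncomputable def wh (w : U → ℕ) (β : Set U) : (β →₀ ℕ) →+ ℕ :=
  Finsupp.liftAddHom fun b => multiplesHom ℕ (w (b : U))

/-- The monomial as an element of `K`. -/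
noncomputable def xh (lin : U →ₗ[k] K) (β : Set U) : Multiplicative (β →₀ ℕ) →* K :=
  AddMonoidHom.toMultiplicativeLeft
    (Finsupp.liftAddHom fun b : β => multiplesHom (Additive K) (Additive.ofMul (lin b)))

theorem wh_single (w : U → ℕ) (β : Set U) (b : β) (n : ℕ) :
    wh w β (Finsupp.single b n) = n * w (b : U) := by
  simp [wh]

theorem xh_single (lin : U →ₗ[k] K) (β : Set U) (b : β) (n : ℕ) :
    xh lin β (Multiplicative.ofAdd (Finsupp.single b n)) = lin b ^ n := by
  simp [xh]

theorem xh_eq_prod (lin : U →ₗ[k] K) (β : Set U) (α : β →₀ ℕ) :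
    xh lin β (Multiplicative.ofAdd α) = α.prod fun b n => lin b ^ n := by
  induction α using Finsupp.induction_linear with
  | zero => rw [ofAdd_zero, map_one, Finsupp.prod_zero_index]
  | add a b ha hb =>
    rw [ofAdd_add, map_mul, ha, hb, Finsupp.prod_add_index' (by simp) (by intro _ _ _; rw [pow_add])]
  | single b n => rw [xh_single, Finsupp.prod_single_index (by simp)]

theorem xh_list (lin : U →ₗ[k] K) (β : Set U) (t : List β) :
    xh lin β (Multiplicative.ofAdd ((t.map fun b => Finsupp.single b 1).sum)) =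
      (t.map fun b : β => lin (b : U)).prod := by
  induction t with
  | nil => simp
  | cons b t ih =>
    rw [List.map_cons, List.sum_cons, ofAdd_add, map_mul, ih, xh_single, List.map_cons,
      List.prod_cons, pow_one]

theorem wh_list (w : U → ℕ) (β : Set U) (t : List β) :
    wh w β ((t.map fun b => Finsupp.single b 1).sum) = (t.map fun b : β => w (b : U)).sum := by
  induction t with
  | nil => simp
  | cons b t ih =>
    rw [List.map_cons, List.sum_cons, map_add, ih, wh_single, List.map_cons, List.sum_cons, one_mul]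

/-- Every monomial comes from a list. -/
theorem exists_list (β : Set U) (α : β →₀ ℕ) :
    ∃ t : List β, (t.map fun b => Finsupp.single b 1).sum = α := by
  induction α using Finsupp.induction_linear with
  | zero => exact ⟨[], rfl⟩
  | add a b ha hb =>
    obtain ⟨t, rfl⟩ := ha
    obtain ⟨t', rfl⟩ := hb
    exact ⟨t ++ t', by rw [List.map_append, List.sum_append]⟩
  | single b n =>
    refine ⟨List.replicate n b, ?_⟩
    rw [List.map_replicate, List.sum_replicate, Finsupp.smul_single, smul_eq_mul, mul_one]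

/-- The monomials in the sense of `Mon`. -/
theorem mon_iff (lin : U →ₗ[k] K) (β : Set U) (S : Set Ix) (w : Ix → U → ℕ) (m : Ix → ℤ) (y : K) :
    y ∈ Mon lin β S w m ↔ ∃ α : β →₀ ℕ, (∀ i ∈ S, m i ≤ (wh (w i) β α : ℕ)) ∧
      y = xh lin β (Multiplicative.ofAdd α) := by
  constructor
  · rintro ⟨t, ht, hc, rfl⟩
    lift t to List β using ht
    refine ⟨(t.map fun b => Finsupp.single b 1).sum, fun i hi => ?_, ?_⟩
    · have := hc i hi
      rw [wh_list]
      simpa [List.map_map, Function.comp_def] using this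
    · rw [xh_list, List.map_map]
      rfl
  · rintro ⟨α, hα, rfl⟩
    obtain ⟨t, rfl⟩ := exists_list β α
    refine ⟨t.map Subtype.val, ?_, fun i hi => ?_, ?_⟩
    · intro b hb
      obtain ⟨c, _, rfl⟩ := List.mem_map.1 hb
      exact c.2
    · have := hα i hi
      rw [wh_list] at this
      simpa [List.map_map, Function.comp_def] using this
    · rw [xh_list, List.map_map]
      rfl

/-- The monomials in a basis are linearly independent. -/
theorem linearIndependent_xh (lin : U →ₗ[k] K)
    (indep : ∀ {κ : Type} (b : Module.Basis κ k U), AlgebraicIndependent k fun i => lin (b i))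
    {β : Set U} (hβ : IsBasis k β) :
    LinearIndependent k fun α : β →₀ ℕ => xh lin β (Multiplicative.ofAdd α) := by
  let b : Module.Basis β k U := Module.Basis.mk hβ.1 (by rw [Subtype.range_coe]; exact hβ.2)
  have h1 := indep b
  have h2 : (fun i => lin (b i)) = fun i : β => lin i := by
    funext i
    rw [Module.Basis.mk_apply]
  rw [h2, AlgebraicIndependent] at h1
  have h3 := (MvPolynomial.basisMonomials β k).linearIndependent.map' 
    (MvPolynomial.aeval (R := k) fun i : β => lin (i : U)).toLinearMap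
    (LinearMap.ker_eq_bot.2 h1)
  have h4 : (fun α : β →₀ ℕ => xh lin β (Multiplicative.ofAdd α)) =
      (MvPolynomial.aeval (R := k) fun i : β => lin (i : U)).toLinearMap ∘
        (MvPolynomial.basisMonomials β k) := by
    funext α
    rw [Function.comp_apply, MvPolynomial.coe_basisMonomials, AlgHom.toLinearMap_apply,
      MvPolynomial.aeval_monomial, map_one, one_mul, xh_eq_prod]
  rw [h4]
  exact h3

/-- The degree of a monomial. -/
noncomputable def dh (w : Ix → U → ℕ) (e : Ix → ι) (S : Set Ix) [Fintype S]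
    (β : Set U) : (β →₀ ℕ) →+ ι :=
  ∑ E : S, (multiplesHom ι (e E)).comp (wh (w E) β)

theorem l_dh {l : Ix → ι →+ ℤ} {e : Ix → ι} {S : Set Ix} [Fintype S] (hdual : Dual l e S)
    (w : Ix → U → ℕ) (β : Set U) {E : Ix} (hE : E ∈ S) (α : β →₀ ℕ) :
    l E (dh w e S β α) = (wh (w E) β α : ℕ) := by
  rw [dh, AddMonoidHom.finsetSum_apply, map_sum, Finset.sum_eq_single ⟨E, hE⟩]
  · simp [hdual.self E hE]
  · rintro ⟨E', hE'⟩ _ hne
    have : E ≠ E' := fun h => hne (Subtype.ext h.symm)
    simp [hdual.ne E hE E' hE' this]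
  · intro h; exact absurd (Finset.mem_univ _) h

/-- The degree homomorphism. -/
noncomputable def dg (w : Ix → U → ℕ) (l : Ix → ι →+ ℤ) (e : Ix → ι) (S : Set Ix)
    [Fintype S] (β : Set U) : (β →₀ ℕ) × (S →₀ ℕ) × ZZ l S →+ ι :=
  (dh w e S β).coprod ((-sh e S).coprod (ZZ l S).subtype)

theorem dg_apply (w : Ix → U → ℕ) (l : Ix → ι →+ ℤ) (e : Ix → ι) (S : Set Ix)
    [Fintype S] (β : Set U) (γ : (β →₀ ℕ) × (S →₀ ℕ) × ZZ l S) :
    dg w l e S β γ = dh w e S β γ.1 + (- sh e S γ.2.1 + γ.2.2) := rfl

theorem l_dg {l : Ix → ι →+ ℤ} {e : Ix → ι} {S : Set Ix} [Fintype S] (hdual : Dual l e S)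
    (w : Ix → U → ℕ) (β : Set U) {E : Ix} (hE : E ∈ S)
    (γ : (β →₀ ℕ) × (S →₀ ℕ) × ZZ l S) :
    l E (dg w l e S β γ) = (wh (w E) β γ.1 : ℕ) - (γ.2.1 ⟨E, hE⟩ : ℕ) := by
  rw [dg_apply, map_add, map_add, map_neg, l_dh hdual w β hE, l_sh hdual hE, γ.2.2.2 E hE]
  ring

theorem dg_injective {l : Ix → ι →+ ℤ} {e : Ix → ι} {S : Set Ix} [Fintype S] (hdual : Dual l e S)
    (w : Ix → U → ℕ) (β : Set U) {γ γ' : (β →₀ ℕ) × (S →₀ ℕ) × ZZ l S}
    (h1 : γ.1 = γ'.1) (h : dg w l e S β γ = dg w l e S β γ') : γ = γ' := by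
  have h2 : γ.2.1 = γ'.2.1 := by
    refine Finsupp.ext ?_
    rintro ⟨E, hE⟩
    have := congrArg (l E) h
    rw [l_dg hdual w β hE, l_dg hdual w β hE, h1] at this
    omega
  have h3 : (γ.2.2 : ι) = γ'.2.2 := by
    rw [dg_apply, dg_apply, h1, h2] at h
    exact add_left_cancel (add_left_cancel h)
  exact Prod.ext h1 (Prod.ext h2 (Subtype.ext h3))

/-- The homogeneous element of a monomial. -/
noncomputable def mon (lin : U →ₗ[k] K) (w : Ix → U → ℕ) (l : Ix → ι →+ ℤ) (e : Ix → ι)
    (S : Set Ix) [Fintype S] (β : Set U) :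
    Multiplicative ((β →₀ ℕ) × (S →₀ ℕ) × ZZ l S) →* AddMonoidAlgebra K ι where
  toFun γ := single (dg w l e S β γ.toAdd) (xh lin β (Multiplicative.ofAdd γ.toAdd.1))
  map_one' := by
    rw [toAdd_one, map_zero, Prod.fst_zero, ofAdd_zero, map_one]
    rfl
  map_mul' γ γ' := by
    rw [toAdd_mul, map_add, Prod.fst_add, ofAdd_add, map_mul, single_mul_single]

/-- The homomorphism from the monoid algebra. -/
noncomputable def gh (lin : U →ₗ[k] K) (w : Ix → U → ℕ) (l : Ix → ι →+ ℤ) (e : Ix → ι)
    (S : Set Ix) [Fintype S] (β : Set U) :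
    AddMonoidAlgebra k ((β →₀ ℕ) × (S →₀ ℕ) × ZZ l S) →ₐ[k] AddMonoidAlgebra K ι :=
  AddMonoidAlgebra.lift k _ _ (mon lin w l e S β)

theorem gh_single (lin : U →ₗ[k] K) (w : Ix → U → ℕ) (l : Ix → ι →+ ℤ) (e : Ix → ι)
    (S : Set Ix) [Fintype S] (β : Set U) (γ : (β →₀ ℕ) × (S →₀ ℕ) × ZZ l S) (c : k) :
    gh lin w l e S β (single γ c) =
      single (dg w l e S β γ) (c • xh lin β (Multiplicative.ofAdd γ.1)) := by
  rw [gh, AddMonoidAlgebra.lift_single, ← smul_single]
  rfl

theorem gh_coeff (lin : U →ₗ[k] K) (w : Ix → U → ℕ) (l : Ix → ι →+ ℤ) (e : Ix → ι)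
    (S : Set Ix) [Fintype S] (β : Set U)
    (F : AddMonoidAlgebra k ((β →₀ ℕ) × (S →₀ ℕ) × ZZ l S)) :
    (gh lin w l e S β F).coeff = Finsupp.linearCombination k (fun γ =>
      (Finsupp.single (dg w l e S β γ) (xh lin β (Multiplicative.ofAdd γ.1)) : ι →₀ K)) F.coeff := by
  induction F using AddMonoidAlgebra.induction_linear with
  | zero => simp
  | add F G hF hG => rw [map_add, coeff_add, hF, hG, coeff_add, map_add]
  | single γ c =>
    rw [gh_single, coeff_single, coeff_single, Finsupp.linearCombination_single,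
      Finsupp.smul_single]

theorem gh_injective (lin : U →ₗ[k] K)
    (indep : ∀ {κ : Type} (b : Module.Basis κ k U), AlgebraicIndependent k fun i => lin (b i))
    (w : Ix → U → ℕ) {l : Ix → ι →+ ℤ} {e : Ix → ι}
    {S : Set Ix} [Fintype S] {β : Set U} (hβ : IsBasis k β) (hdual : Dual l e S) :
    Function.Injective (gh lin w l e S β) := by
  have h1 : LinearIndependent k fun ix : Σ _ : ι, (β →₀ ℕ) =>
      (Finsupp.single ix.1 (xh lin β (Multiplicative.ofAdd ix.2)) : ι →₀ K) :=
    Finsupp.linearIndependent_single (fun _ (α : β →₀ ℕ) => xh lin β (Multiplicative.ofAdd α))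
      fun _ => linearIndependent_xh lin indep hβ
  have h2 : Function.Injective fun γ : (β →₀ ℕ) × (S →₀ ℕ) × ZZ l S =>
      (⟨dg w l e S β γ, γ.1⟩ : Σ _ : ι, (β →₀ ℕ)) := by
    intro γ γ' h
    simp only [Sigma.mk.injEq, heq_eq_eq] at h
    exact dg_injective hdual w β h.2 h.1
  have h3 := h1.comp _ h2
  rw [injective_iff_map_eq_zero]
  intro F hF
  have h4 : (gh lin w l e S β F).coeff = 0 := by rw [hF, coeff_zero]
  rw [gh_coeff] at h4
  have h5 := linearIndependent_iff.1 h3 F.coeff h4
  exact AddMonoidAlgebra.ext h5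

theorem one_mem_mon (lin : U → K) (β : Set U) (S : Set Ix) (w : Ix → U → ℕ) (m : Ix → ℤ)
    (hm : ∀ i ∈ S, m i ≤ 0) : (1 : K) ∈ Mon lin β S w m :=
  ⟨[], by simp, by simpa using hm, by simp⟩

theorem mul_mem_mon {lin : U → K} {β : Set U} {S : Set Ix} {w : Ix → U → ℕ} {m m' : Ix → ℤ}
    {x y : K} (hx : x ∈ Mon lin β S w m) (hy : y ∈ Mon lin β S w m') :
    x * y ∈ Mon lin β S w fun i => m i + m' i := by
  obtain ⟨t, ht, hc, rfl⟩ := hx
  obtain ⟨t', ht', hc', rfl⟩ := hy
  refine ⟨t ++ t', ?_, fun i hi => ?_, ?_⟩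
  · intro b hb
    rcases List.mem_append.1 hb with hb | hb
    · exact ht b hb
    · exact ht' b hb
  · rw [List.map_append, List.sum_append, Nat.cast_add]
    exact add_le_add (hc i hi) (hc' i hi)
  · rw [List.map_append, List.prod_append]

/-- The family of combinations of monomials. -/
def NA (lin : U →ₗ[k] K) (β : Set U) (S : Set Ix) (w : Ix → U → ℕ) (l : Ix → ι →+ ℤ) :
    Fam k K ι where
  s d := Submodule.span k (Mon lin β S w fun i => l i d)
  one' := Submodule.subset_span (one_mem_mon _ _ _ _ _ fun i _ => by rw [map_zero])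
  mul' := by
    intro a b x y hx hy
    have h : Submodule.span k (Mon lin β S w fun i => l i a) *
        Submodule.span k (Mon lin β S w fun i => l i b) ≤
        Submodule.span k (Mon lin β S w fun i => l i (a + b)) := by
      rw [Submodule.span_mul_span]
      refine Submodule.span_mono ?_
      rintro _ ⟨x, hx, y, hy, rfl⟩
      have := mul_mem_mon hx hy
      simpa only [map_add] using this
    exact h (Submodule.mul_mem_mul hx hy)

/-- The family of combinations of monomials with coefficients in `C`. -/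
def NB (C : Subalgebra k K) (lin : U →ₗ[k] K) (β : Set U) (S : Set Ix) (w : Ix → U → ℕ)
    (l : Ix → ι →+ ℤ) : Fam k K ι where
  s d := fspan C (Mon lin β S w fun i => l i d)
  one' := Submodule.subset_span ⟨1, C.one_mem, 1,
    one_mem_mon _ _ _ _ _ fun i _ => by rw [map_zero], by rw [mul_one]⟩
  mul' := by
    intro a b x y hx hy
    have h : fspan C (Mon lin β S w fun i => l i a) * fspan C (Mon lin β S w fun i => l i b) ≤
        fspan C (Mon lin β S w fun i => l i (a + b)) := by
      unfold fspan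
      rw [Submodule.span_mul_span]
      refine Submodule.span_mono ?_
      rintro _ ⟨_, ⟨c, hc, x, hx, rfl⟩, _, ⟨c', hc', y, hy, rfl⟩, rfl⟩
      have := mul_mem_mon hx hy
      refine ⟨c * c', C.mul_mem hc hc', x * y, by simpa only [map_add] using this, ?_⟩
      change c * x * (c' * y) = _
      ring
    exact h (Submodule.mul_mem_mul hx hy)

/-- Monomials in the pieces of the family come from the monoid. -/
theorem single_mem_range (lin : U →ₗ[k] K) (w : Ix → U → ℕ) {l : Ix → ι →+ ℤ} {S : Set Ix}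
    [Fintype S] {β : Set U} {e : Ix → ι} (hdual : Dual l e S) {d : ι}
    (α : β →₀ ℕ) (h : ∀ E ∈ S, l E d ≤ (wh (w E) β α : ℕ)) :
    (single d (xh lin β (Multiplicative.ofAdd α)) : AddMonoidAlgebra K ι) ∈
      (gh lin w l e S β).range := by
  classical
  let b : S →₀ ℕ := Finsupp.equivFunOnFinite.symm fun E => ((wh (w E) β α : ℕ) - l E d).toNat
  have hb : ∀ E (hE : E ∈ S), ((b ⟨E, hE⟩ : ℕ) : ℤ) = (wh (w E) β α : ℕ) - l E d := by
    intro E hE
    have := h E hE
    simp only [b, Finsupp.equivFunOnFinite_symm_apply_apply]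
    rw [Int.toNat_of_nonneg (by omega)]
  have hz : d - dh w e S β α + sh e S b ∈ ZZ l S := by
    intro E hE
    rw [map_add, map_sub, l_dh hdual w β hE, l_sh hdual hE, hb E hE]
    ring
  refine ⟨single (α, b, ⟨_, hz⟩) 1, ?_⟩
  change gh lin w l e S β _ = _
  rw [gh_single, one_smul, dg_apply]
  have key : ∀ x y z : ι, x + (-y + (z - x + y)) = z := by intro x y z; abel
  rw [key]

theorem range_gh (lin : U →ₗ[k] K) (w : Ix → U → ℕ) {l : Ix → ι →+ ℤ} {S : Set Ix}
    [Fintype S] {β : Set U} {e : Ix → ι} (hdual : Dual l e S) :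
    (gh lin w l e S β).range = (NA lin β S w l).alg := by
  apply le_antisymm
  · rintro _ ⟨F, rfl⟩
    change gh lin w l e S β F ∈ _
    induction F using AddMonoidAlgebra.induction_linear with
    | zero => rw [map_zero]; exact Subalgebra.zero_mem _
    | add F G hF hG => rw [map_add]; exact Subalgebra.add_mem _ hF hG
    | single γ c =>
      rw [gh_single, Fam.single_mem_alg]
      refine Submodule.smul_mem _ _ (Submodule.subset_span ?_)
      rw [mon_iff]
      refine ⟨γ.1, fun E hE => ?_, rfl⟩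
      rw [l_dg hdual w β hE]
      omega
  · intro F hF
    rw [Fam.eq_sum F]
    refine Subalgebra.sum_mem _ fun d _ => ?_
    have h1 : F.coeff d ∈ Submodule.span k (Mon lin β S w fun i => l i d) := hF d
    have h2 : ∀ y ∈ Submodule.span k (Mon lin β S w fun i => l i d),
        (single d y : AddMonoidAlgebra K ι) ∈ (gh lin w l e S β).range := by
      intro y hy
      induction hy using Submodule.span_induction with
      | mem y hy =>
        obtain ⟨α, hα, rfl⟩ := (mon_iff _ _ _ _ _ _).1 hy
        exact single_mem_range lin w hdual α hα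
      | zero => rw [single_zero]; exact Subalgebra.zero_mem _
      | add x y _ _ hx hy => rw [single_add]; exact Subalgebra.add_mem _ hx hy
      | smul c x _ hx => rw [← smul_single]; exact Subalgebra.smul_mem _ hx c
    exact h2 _ h1

theorem fg_NA [FiniteDimensional k U] [Module.Free ℤ ι] [Module.Finite ℤ ι]
    (lin : U →ₗ[k] K) (w : Ix → U → ℕ) {l : Ix → ι →+ ℤ} {S : Set Ix}
    [Fintype S] {β : Set U} (hβ : IsBasis k β) {e : Ix → ι} (hdual : Dual l e S) :
    Algebra.FiniteType k (NA lin β S w l).alg := by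
  rw [← range_gh lin w hdual]
  have h1 : AddMonoid.FG ((β →₀ ℕ) × (S →₀ ℕ) × ZZ l S) := addMonoid_fg_of_finite hβ
  exact Algebra.FiniteType.of_surjective (gh lin w l e S β).rangeRestrict
    (gh lin w l e S β).rangeRestrict_surjective

theorem smooth_NA [FiniteDimensional k U] [Module.Free ℤ ι] [Module.Finite ℤ ι]
    (lin : U →ₗ[k] K)
    (indep : ∀ {κ : Type} (b : Module.Basis κ k U), AlgebraicIndependent k fun i => lin (b i))
    (w : Ix → U → ℕ) {l : Ix → ι →+ ℤ} {S : Set Ix}
    [Fintype S] {β : Set U} (hβ : IsBasis k β) {e : Ix → ι} (hdual : Dual l e S) :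
    Algebra.FormallySmooth k (NA lin β S w l).alg := by
  rw [← range_gh lin w hdual]
  have h2 : Module.Free ℤ (ZZ l S) :=
    inferInstanceAs (Module.Free ℤ (AddSubgroup.toIntSubmodule (ZZ l S)))
  have h3 := formallySmooth_of_lft k ((β →₀ ℕ) × (S →₀ ℕ) × ZZ l S)
    ((Lft.finsupp β).prod ((Lft.finsupp S).prod (Lft.free (ZZ l S))))
  exact Algebra.FormallySmooth.of_equiv
    (AlgEquiv.ofInjective (gh lin w l e S β) (gh_injective lin indep w hβ hdual))

theorem formallySmooth_NA [FiniteDimensional k U] [Module.Free ℤ ι] [Module.Finite ℤ ι]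
    (lin : U →ₗ[k] K)
    (indep : ∀ {κ : Type} (b : Module.Basis κ k U), AlgebraicIndependent k fun i => lin (b i))
    (w : Ix → U → ℕ) {l : Ix → ι →+ ℤ} {S : Set Ix}
    [Fintype S] {β : Set U} (hβ : IsBasis k β) {e : Ix → ι} (hdual : Dual l e S)
    (hs : ∀ i : S, (1 : K) ∈ (NA lin β S w l).s (-(e i))) :
    (MvPolynomial.aeval fun i : S => (NA lin β S w l).el (hs i) :
      MvPolynomial S k →ₐ[k] (NA lin β S w l).alg).toRingHom.FormallySmooth := by
  have h2 : Module.Free ℤ (ZZ l S) :=
    inferInstanceAs (Module.Free ℤ (AddSubgroup.toIntSubmodule (ZZ l S)))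
  have h3 := formallySmooth_rel k (σ := S) (Lft.finsupp β) (Lft.free (ZZ l S))
  let q : AddMonoidAlgebra k ((β →₀ ℕ) × (S →₀ ℕ) × ZZ l S) ≃ₐ[k] (NA lin β S w l).alg :=
    (AlgEquiv.ofInjective (gh lin w l e S β) (gh_injective lin indep w hβ hdual)).trans
      (Subalgebra.equivOfEq _ _ (range_gh lin w hdual))
  have hq : ∀ x, ((q x : (NA lin β S w l).alg) : AddMonoidAlgebra K ι) = gh lin w l e S β x :=
    fun _ => rfl
  have hb : Function.Bijective (q : AddMonoidAlgebra k ((β →₀ ℕ) × (S →₀ ℕ) × ZZ l S) →ₐ[k]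
      (NA lin β S w l).alg).toRingHom := q.bijective
  have h4 := h3.comp (RingHom.FormallySmooth.of_bijective hb)
  have h5 : (MvPolynomial.aeval fun i : S => (NA lin β S w l).el (hs i) :
      MvPolynomial S k →ₐ[k] (NA lin β S w l).alg) =
      (q : _ →ₐ[k] (NA lin β S w l).alg).comp (MvPolynomial.aeval fun i : S =>
        (single (0, Finsupp.single i 1, 0) 1 :
          AddMonoidAlgebra k ((β →₀ ℕ) × (S →₀ ℕ) × ZZ l S))) := by
    refine MvPolynomial.algHom_ext fun i => ?_
    rw [AlgHom.comp_apply, MvPolynomial.aeval_X, MvPolynomial.aeval_X]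
    refine Subtype.ext ?_
    rw [Fam.coe_el]
    change _ = gh lin w l e S β _
    rw [gh_single, ofAdd_zero, map_one, one_smul, dg_apply, map_zero, zero_add]
    congr 1
    change -(e i) = -(sh e S (Finsupp.single i 1)) + 0
    rw [add_zero]
    congr 1
    simp [sh]
  rw [h5]
  exact h4

/-- Monomials are in the polynomial ring. -/
theorem mon_mem_adjoin (lin : U →ₗ[k] K) (β : Set U) (S : Set Ix) (w : Ix → U → ℕ) (m : Ix → ℤ) :
    Submodule.span k (Mon lin β S w m) ≤
      Subalgebra.toSubmodule (Algebra.adjoin k (Set.range lin)) := by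
  rw [Submodule.span_le]
  rintro _ ⟨t, _, _, rfl⟩
  refine Subalgebra.list_prod_mem _ ?_
  intro x hx
  obtain ⟨u, _, rfl⟩ := List.mem_map.1 hx
  exact Algebra.subset_adjoin ⟨u, rfl⟩

/-- The polynomial ring is spanned by the monomials. -/
theorem adjoin_le (lin : U →ₗ[k] K) {β : Set U} (hβ : IsBasis k β) (S : Set Ix)
    (w : Ix → U → ℕ) (l : Ix → ι →+ ℤ) {a : K} (ha : a ∈ Algebra.adjoin k (Set.range lin)) :
    a ∈ (NA lin β S w l).s 0 := by
  induction ha using Algebra.adjoin_induction with
  | mem x hx =>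
    obtain ⟨u, rfl⟩ := hx
    have hu : u ∈ Submodule.span k β := hβ.2 Submodule.mem_top
    induction hu using Submodule.span_induction with
    | mem u hu =>
      refine Submodule.subset_span ⟨[u], by simpa using hu, fun i _ => ?_, by simp⟩
      change l i 0 ≤ _
      rw [map_zero]
      positivity
    | zero => rw [map_zero]; exact Submodule.zero_mem _
    | add x y _ _ hx hy => rw [map_add]; exact Submodule.add_mem _ hx hy
    | smul c x _ hx => rw [map_smul]; exact Submodule.smul_mem _ c hx
  | algebraMap r =>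
    rw [Algebra.algebraMap_eq_smul_one]
    exact Submodule.smul_mem _ _ (NA lin β S w l).one'
  | add x y _ _ hx hy => exact Submodule.add_mem _ hx hy
  | mul x y _ _ hx hy =>
    have := (NA lin β S w l).mul' hx hy
    rwa [add_zero] at this

end Mono

end Y4

variable {k K G : Type} [Field k] [Field K] [Algebra k K] [Group G]
  {B : Subalgebra k K} {φ : G →* (K ≃ₐ[k] K)} {P : Ideal B} [P.IsPrime] {H : Subgroup G}

/-- The chart algebra with coefficients in `B[1/f]` is of finite type and smooth. -/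
theorem exists_smooth_fam (hfg : B.FG) (E : EtLin B φ P H) {β : Set E.U} (hβ : IsBasis k β)
    {ι : Type} [AddCommGroup ι] [Module.Free ℤ ι] [Module.Finite ℤ ι] {Ix : Type} {S : Set Ix}
    (hS : S.Finite) (w : Ix → E.U → ℕ) (l : Ix → ι →+ ℤ) (e : Ix → ι) (hd : Dual l e S) :
    ∃ C : Fam k K ι, C.alg.FG ∧ Algebra.FormallySmooth k C.alg ∧
      (∀ d, C.s d = fspan E.C (Mon E.lin β S w fun i => l i d)) ∧
      ∃ hs : ∀ i : S, (1 : K) ∈ C.s (-(e i)), (MvPolynomial.aeval fun i : S => C.el (hs i) :
        MvPolynomial S k →ₐ[k] C.alg).toRingHom.FormallySmooth := by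
  have := hS.fintype
  let i1 : Algebra (Algebra.adjoin k (Set.range E.lin)) (awayB B E.f E.fB) :=
    (Subalgebra.inclusion E.le).toRingHom.toAlgebra
  have i2 : Algebra.Etale (Algebra.adjoin k (Set.range E.lin)) (awayB B E.f E.fB) := E.etale
  have i3 : IsScalarTower (Algebra.adjoin k (Set.range E.lin)) (awayB B E.f E.fB) K :=
    IsScalarTower.of_algebraMap_eq fun _ => rfl
  have i4 : IsScalarTower k (Algebra.adjoin k (Set.range E.lin)) (awayB B E.f E.fB) :=
    IsScalarTower.of_algebraMap_eq fun _ => rfl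
  have key := Y4.smooth_fg_of_base_change (A := Algebra.adjoin k (Set.range E.lin))
    (B := awayB B E.f E.fB) (K := K) Subtype.val_injective Subtype.val_injective
    (Y4.NA E.lin β S w l) (Y4.NB (awayB B E.f E.fB) E.lin β S w l)
    (fun n z hz => ⟨⟨z, Y4.mon_mem_adjoin _ _ _ _ _ hz⟩, rfl⟩)
    (fun a => Y4.adjoin_le E.lin hβ S w l a.2)
    (fun b => Submodule.subset_span ⟨b, b.2, 1,
      Y4.one_mem_mon _ _ _ _ _ fun i _ => by rw [map_zero], by rw [mul_one]; rfl⟩)
    (fun n => Submodule.span_mono fun x hx => ⟨1, Subalgebra.one_mem _, x, hx, by rw [one_mul]⟩)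
    (fun n => Submodule.span_mono (by
      rintro _ ⟨c, hc, x, hx, rfl⟩
      exact ⟨⟨c, hc⟩, x, Submodule.subset_span hx, rfl⟩))
    (Y4.fg_NA E.lin w hβ hd) (Y4.smooth_NA E.lin E.indep w hβ hd)
  have hmono : ∀ n, (Y4.NA E.lin β S w l).s n ≤
      (Y4.NB (awayB B E.f E.fB) E.lin β S w l).s n :=
    fun n => Submodule.span_mono fun x hx => ⟨1, Subalgebra.one_mem _, x, hx, by rw [one_mul]⟩
  have hinc : (Y4.NA E.lin β S w l).alg ≤ (Y4.NB (awayB B E.f E.fB) E.lin β S w l).alg :=
    fun G hG a => hmono a (hG a)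
  have hsA : ∀ i : S, (1 : K) ∈ (Y4.NA E.lin β S w l).s (-(e i)) := by
    intro i
    refine Submodule.subset_span (Y4.one_mem_mon _ _ _ _ _ fun j hj => ?_)
    rw [map_neg]
    by_cases hij : j = i
    · rw [hij, hd.self i i.2]
      norm_num
    · rw [hd.ne j hj i i.2 hij]
      norm_num
  have hsB : ∀ i : S, (1 : K) ∈ (Y4.NB (awayB B E.f E.fB) E.lin β S w l).s (-(e i)) := fun i =>
    hmono _ (hsA i)
  refine ⟨Y4.NB (awayB B E.f E.fB) E.lin β S w l, ?_, key.2.1, fun d => rfl, hsB, ?_⟩
  · rw [Subalgebra.fg_iff_finiteType]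
    exact key.1
  · have h3 := (Y4.formallySmooth_NA E.lin E.indep w hβ hd hsA).comp (key.2.2 hinc)
    have h4 : (MvPolynomial.aeval fun i : S =>
        (Y4.NB (awayB B E.f E.fB) E.lin β S w l).el (hsB i) :
          MvPolynomial S k →ₐ[k] (Y4.NB (awayB B E.f E.fB) E.lin β S w l).alg).toRingHom =
        (Subalgebra.inclusion hinc).toRingHom.comp (MvPolynomial.aeval fun i : S =>
        (Y4.NA E.lin β S w l).el (hsA i) :
          MvPolynomial S k →ₐ[k] (Y4.NA E.lin β S w l).alg).toRingHom := by
      have : (MvPolynomial.aeval fun i : S =>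
        (Y4.NB (awayB B E.f E.fB) E.lin β S w l).el (hsB i) :
          MvPolynomial S k →ₐ[k] (Y4.NB (awayB B E.f E.fB) E.lin β S w l).alg) =
        (Subalgebra.inclusion hinc).comp (MvPolynomial.aeval fun i : S =>
        (Y4.NA E.lin β S w l).el (hsA i)) := by
        refine MvPolynomial.algHom_ext fun i => ?_
        rw [AlgHom.comp_apply, MvPolynomial.aeval_X, MvPolynomial.aeval_X]
        rfl
      rw [this]
      rfl
    rw [h4]
    exact h3

end Pool.Agent.MP_b525bf_ag_X
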