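import Pool.Agent.Lib.MP_b525bf_ag_X.EtDefs

/-!
# Y3: intersections of monomial ideals in étale coordinates
-/

set_option autoImplicit false

namespace Pool.Agent.MP_b525bf_ag_X

open Pool.Agent.MP_b525bf_ag Pool.Agent.MP_b525bf_ag_W

section General

variable {k K : Type} [Field k] [Field K] [Algebra k K]

theorem fspan_mono (C : Subalgebra k K) {X X' : Set K} (h : X ⊆ X') : fspan C X ≤ fspan C X' := by
  refine Submodule.span_mono ?_
  rintro _ ⟨c, hc, x, hx, rfl⟩
  exact ⟨c, hc, x, h hx, rfl⟩

theorem mul_mem_fspan {C : Subalgebra k K} {X : Set K} {c x : K} (hc : c ∈ C) (hx : x ∈ X) :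
    c * x ∈ fspan C X := Submodule.subset_span ⟨c, hc, x, hx, rfl⟩

theorem fspan_span (C : Subalgebra k K) (X : Set K) :
    fspan C (Submodule.span k X : Set K) ≤ fspan C X := by
  refine Submodule.span_le.mpr ?_
  rintro _ ⟨c, hc, x, hx, rfl⟩
  change x ∈ Submodule.span k X at hx
  change c * x ∈ fspan C X
  induction hx using Submodule.span_induction with
  | mem y hy => exact mul_mem_fspan hc hy
  | zero => rw [mul_zero]; exact zero_mem _
  | add y z _ _ hy hz => rw [mul_add]; exact add_mem hy hz
  | smul r y _ hy => rw [mul_smul_comm]; exact Submodule.smul_mem _ _ hy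

/-- Elements of `fspan` are finite sums. -/
theorem mem_fspan_iff {C : Subalgebra k K} {X : Set K} {y : K} (h : y ∈ fspan C X) :
    ∃ (n : ℕ) (c v : Fin n → K), (∀ i, c i ∈ C) ∧ (∀ i, v i ∈ X) ∧ y = ∑ i, c i * v i := by
  obtain ⟨n, f, g, h1⟩ := Submodule.mem_span_set'.mp h
  choose c hc v hv hg using fun i => (g i).2
  refine ⟨n, fun i => f i • c i, v, fun i => C.smul_mem (hc i) _, hv, ?_⟩
  rw [← h1]
  refine Finset.sum_congr rfl fun i _ => ?_
  rw [hg i, smul_mul_assoc]

/-- The equational criterion for two representations of one element. -/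
theorem flat_two {A C : Type} [CommRing A] [CommRing C] [Algebra A C] [Module.Flat A C] {n n' : ℕ}
    (v : Fin n → A) (c : Fin n → C) (v' : Fin n' → A) (c' : Fin n' → C)
    (h : ∑ i, v i • c i = ∑ i, v' i • c' i) :
    ∃ (κ : ℕ) (a : Fin n → Fin κ → A) (a' : Fin n' → Fin κ → A) (z : Fin κ → C),
      (∀ i, c i = ∑ j, a i j • z j) ∧ ∀ j, ∑ i, v i * a i j = ∑ i, v' i * a' i j := by
  have hrel : ∑ i, (Sum.elim v (fun i => -v' i)) i • (Sum.elim c c') i = 0 := by
    rw [Fintype.sum_sum_type]
    simp only [Sum.elim_inl, Sum.elim_inr, neg_smul, Finset.sum_neg_distrib]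
    rw [h, add_neg_cancel]
  obtain ⟨κ, a, z, h1, h2⟩ := Module.Flat.isTrivialRelation_of_sum_smul_eq_zero (R := A) (M := C)
    (f := Sum.elim v fun i => -v' i) (x := Sum.elim c c') hrel
  refine ⟨κ, fun i => a (Sum.inl i), fun i => a (Sum.inr i), z, fun i => h1 (Sum.inl i), fun j => ?_⟩
  have h3 := h2 j
  rw [Fintype.sum_sum_type] at h3
  simp only [Sum.elim_inl, Sum.elim_inr, neg_mul, Finset.sum_neg_distrib] at h3
  exact eq_of_sub_eq_zero (by rw [sub_eq_add_neg]; exact h3)

theorem coe_sum' (A : Subalgebra k K) {n : ℕ} (f : Fin n → A) :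
    ((∑ i, f i : A) : K) = ∑ i, (f i : K) := by
  exact map_sum A.val f Finset.univ

/-- Intersections of ideals extended along a flat extension of subalgebras. -/
theorem flat_inter {A C : Subalgebra k K} (hAC : A ≤ C)
    (hfl : (Subalgebra.inclusion hAC).toRingHom.Flat) {V V' : Submodule k K}
    (hV : ∀ v ∈ V, v ∈ A) (hV' : ∀ v ∈ V', v ∈ A) (hs : ∀ a ∈ A, ∀ v ∈ V, a * v ∈ V)
    (hs' : ∀ a ∈ A, ∀ v ∈ V', a * v ∈ V') {y : K} (h : y ∈ fspan C (V : Set K))
    (h' : y ∈ fspan C (V' : Set K)) : y ∈ fspan C ((V ⊓ V' : Submodule k K) : Set K) := by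
  obtain ⟨n, c, v, hc, hv, hy⟩ := mem_fspan_iff h
  obtain ⟨n', c', v', hc', hv', hy'⟩ := mem_fspan_iff h'
  obtain ⟨κ, a, a', z, h1, h2⟩ : ∃ (κ : ℕ) (a : Fin n → Fin κ → A) (a' : Fin n' → Fin κ → A)
      (z : Fin κ → C), (∀ i, c i = ∑ j, (a i j : K) * (z j : K)) ∧
        ∀ j, ∑ i, v i * (a i j : K) = ∑ i, v' i * (a' i j : K) := by
    let _ : Algebra A C := (Subalgebra.inclusion hAC).toRingHom.toAlgebra
    have _ : Module.Flat A C := hfl
    have hsm : ∀ (x : A) (w : C), ((x • w : C) : K) = (x : K) * (w : K) := fun x w => rfl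
    obtain ⟨κ, a, a', z, h1, h2⟩ := flat_two (A := A) (C := C) (fun i => ⟨v i, hV _ (hv i)⟩)
      (fun i => ⟨c i, hc i⟩) (fun i => ⟨v' i, hV' _ (hv' i)⟩) (fun i => ⟨c' i, hc' i⟩) (by
        apply Subtype.ext
        rw [coe_sum', coe_sum']
        simp_rw [hsm]
        have e1 : ∑ i, v i * c i = y := by
          rw [hy]; exact Finset.sum_congr rfl fun i _ => mul_comm _ _
        have e2 : ∑ j, v' j * c' j = y := by
          rw [hy']; exact Finset.sum_congr rfl fun i _ => mul_comm _ _
        exact e1.trans e2.symm)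
    refine ⟨κ, a, a', z, fun i => ?_, fun j => ?_⟩
    · have h3 := congrArg (Subtype.val) (h1 i)
      rw [coe_sum'] at h3
      exact h3
    · have h3 := congrArg (Subtype.val) (h2 j)
      rw [coe_sum', coe_sum'] at h3
      exact h3
  have h5 : y = ∑ j, (z j : K) * ∑ i, v i * (a i j : K) := by
    rw [hy]
    simp_rw [h1, Finset.sum_mul, Finset.mul_sum]
    rw [Finset.sum_comm]
    refine Finset.sum_congr rfl fun j _ => Finset.sum_congr rfl fun i _ => ?_
    ring
  rw [h5]
  refine Submodule.sum_mem _ fun j _ => mul_mem_fspan (z j).2 ⟨?_, ?_⟩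
  · refine Submodule.sum_mem _ fun i _ => ?_
    rw [mul_comm]
    exact hs _ (a i j).2 _ (hv i)
  · change ∑ i, v i * (a i j : K) ∈ V'
    rw [h2]
    refine Submodule.sum_mem _ fun i _ => ?_
    rw [mul_comm]
    exact hs' _ (a' i j).2 _ (hv' i)

/-- Intersections of the spans of parts of a linearly independent family. -/
theorem span_image_inf {ι : Type} {v : ι → K} (hv : LinearIndependent k v) (M M' : Set ι) :
    Submodule.span k (v '' M) ⊓ Submodule.span k (v '' M') = Submodule.span k (v '' (M ∩ M')) := by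
  rw [Finsupp.span_image_eq_map_linearCombination, Finsupp.span_image_eq_map_linearCombination,
    Finsupp.span_image_eq_map_linearCombination, Finsupp.supported_inter,
    Submodule.map_inf _ hv]

end General

section Monomials

variable {k K U : Type} [Field k] [Field K] [Algebra k K] [AddCommGroup U] [Module k U]
  (lin : U →ₗ[k] K) (β : Set U)

/-- The monomial with given exponents. -/
noncomputable def mono (e : β →₀ ℕ) : K := e.prod fun b n => lin (b : U) ^ n

variable {β}

theorem mono_indep (h : AlgebraicIndependent k fun b : β => lin (b : U)) :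
    LinearIndependent k (mono lin β) := by
  have h1 := (MvPolynomial.basisMonomials β k).linearIndependent.map'
    (MvPolynomial.aeval fun b : β => lin (b : U)).toLinearMap (LinearMap.ker_eq_bot.mpr h)
  have e : (⇑(MvPolynomial.aeval fun b : β => lin (b : U)).toLinearMap
      ∘ ⇑(MvPolynomial.basisMonomials β k)) = mono lin β := by
    funext e
    rw [Function.comp_apply, MvPolynomial.coe_basisMonomials, AlgHom.toLinearMap_apply,
      MvPolynomial.aeval_monomial, map_one, one_mul]
    rfl
  rwa [e] at h1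

/-- The weight of an exponent. -/
noncomputable def wgt (w : U → ℕ) (e : β →₀ ℕ) : ℕ := e.sum fun b n => n * w (b : U)

omit [AddCommGroup U] in
theorem wgt_add (w : U → ℕ) (e e' : β →₀ ℕ) : wgt w (e + e') = wgt w e + wgt w e' := by
  classical
  unfold wgt
  exact Finsupp.sum_add_index' (fun _ => by simp) fun _ _ _ => by ring

theorem mono_add (e e' : β →₀ ℕ) : mono lin β (e + e') = mono lin β e * mono lin β e' := by
  classical
  unfold mono
  exact Finsupp.prod_add_index' (fun _ => by simp) fun _ _ _ => by ring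

theorem exists_exponent {Ix : Type} (w : Ix → U → ℕ) (t : List U) (ht : ∀ b ∈ t, b ∈ β) :
    ∃ e : β →₀ ℕ, mono lin β e = (t.map lin).prod ∧ ∀ i, wgt (w i) e = (t.map (w i)).sum := by
  classical
  induction t with
  | nil => exact ⟨0, by simp [mono], fun i => by simp [wgt]⟩
  | cons b t ih =>
    obtain ⟨e, h1, h2⟩ := ih fun c hc => ht c (List.mem_cons_of_mem _ hc)
    refine ⟨Finsupp.single ⟨b, ht b List.mem_cons_self⟩ 1 + e, ?_, fun i => ?_⟩
    · rw [mono_add, h1, List.map_cons, List.prod_cons]
      congr 1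
      unfold mono
      rw [Finsupp.prod_single_index (by simp), pow_one]
    · rw [wgt_add, h2, List.map_cons, List.sum_cons]
      congr 1
      unfold wgt
      rw [Finsupp.sum_single_index (by simp), one_mul]

theorem exists_list {Ix : Type} (w : Ix → U → ℕ) (e : β →₀ ℕ) :
    ∃ t : List U, (∀ b ∈ t, b ∈ β) ∧ mono lin β e = (t.map lin).prod ∧
      ∀ i, wgt (w i) e = (t.map (w i)).sum := by
  classical
  induction e using Finsupp.induction_linear with
  | zero => exact ⟨[], by simp, by simp [mono], fun i => by simp [wgt]⟩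
  | add e e' h h' =>
    obtain ⟨t, h1, h2, h3⟩ := h
    obtain ⟨t', h1', h2', h3'⟩ := h'
    refine ⟨t ++ t', ?_, ?_, fun i => ?_⟩
    · intro b hb
      rw [List.mem_append] at hb
      exact hb.elim (h1 b) (h1' b)
    · rw [mono_add, h2, h2', List.map_append, List.prod_append]
    · rw [wgt_add, h3, h3', List.map_append, List.sum_append]
  | single b n =>
    refine ⟨List.replicate n (b : U), ?_, ?_, fun i => ?_⟩
    · intro c hc
      rw [List.eq_of_mem_replicate hc]
      exact b.2
    · unfold mono
      rw [Finsupp.prod_single_index (by simp), List.map_replicate, List.prod_replicate]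
    · unfold wgt
      rw [Finsupp.sum_single_index (by simp), List.map_replicate, List.sum_replicate, smul_eq_mul]

/-- The monomials are the images of the exponents. -/
theorem Mon_eq {Ix : Type} (S : Set Ix) (w : Ix → U → ℕ) (m : Ix → ℤ) :
    Mon lin β S w m = mono lin β '' {e | ∀ i ∈ S, m i ≤ (wgt (w i) e : ℕ)} := by
  ext y
  constructor
  · rintro ⟨t, h1, h2, rfl⟩
    obtain ⟨e, h3, h4⟩ := exists_exponent lin w t h1
    refine ⟨e, fun i hi => ?_, h3⟩
    rw [h4]
    exact h2 i hi
  · rintro ⟨e, he, rfl⟩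
    obtain ⟨t, h1, h2, h3⟩ := exists_list lin w e
    refine ⟨t, h1, fun i hi => ?_, h2⟩
    rw [← h3]
    exact he i hi

theorem span_Mon_inf (h : AlgebraicIndependent k fun b : β => lin (b : U)) {Ix : Type} (i : Ix)
    (T : Set Ix) (w : Ix → U → ℕ) (m : Ix → ℤ) :
    Submodule.span k (Mon lin β T w m) ⊓ Submodule.span k (Mon lin β {i} w m)
      ≤ Submodule.span k (Mon lin β (insert i T) w m) := by
  rw [Mon_eq, Mon_eq, Mon_eq, span_image_inf (mono_indep lin h)]
  refine Submodule.span_mono (Set.image_mono ?_)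
  rintro e ⟨h1, h2⟩ j hj
  rcases Set.mem_insert_iff.mp hj with rfl | hj
  · exact h2 j rfl
  · exact h1 j hj

/-- The span of the monomials is an ideal of the polynomial ring. -/
theorem mul_mem_span_Mon (hβ : IsBasis k β) {Ix : Type} (T : Set Ix) (w : Ix → U → ℕ) (m : Ix → ℤ) :
    ∀ a ∈ Algebra.adjoin k (Set.range lin), ∀ v ∈ Submodule.span k (Mon lin β T w m),
      a * v ∈ Submodule.span k (Mon lin β T w m) := by
  intro a ha
  induction ha using Algebra.adjoin_induction with
  | mem x hx =>
    obtain ⟨u, rfl⟩ := hx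
    have hu : u ∈ Submodule.span k β := hβ.2 trivial
    intro v hv
    induction hv using Submodule.span_induction with
    | mem y hy =>
      induction hu using Submodule.span_induction with
      | mem b hb =>
        obtain ⟨t, h1, h2, rfl⟩ := hy
        refine Submodule.subset_span ⟨b :: t, ?_, ?_, ?_⟩
        · intro c hc
          rcases List.mem_cons.mp hc with rfl | hc
          · exact hb
          · exact h1 c hc
        · intro i hi
          have := h2 i hi
          rw [List.map_cons, List.sum_cons]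
          push_cast
          push_cast at this
          linarith [Int.natCast_nonneg (w i b)]
        · rw [List.map_cons, List.prod_cons]
      | zero => rw [map_zero, zero_mul]; exact zero_mem _
      | add u u' _ _ h h' => rw [map_add, add_mul]; exact add_mem h h'
      | smul r u _ h => rw [map_smul, smul_mul_assoc]; exact Submodule.smul_mem _ _ h
    | zero => rw [mul_zero]; exact zero_mem _
    | add y z _ _ hy hz => rw [mul_add]; exact add_mem hy hz
    | smul r y _ hy => rw [mul_smul_comm]; exact Submodule.smul_mem _ _ hy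
  | algebraMap r =>
    intro v hv
    rw [← Algebra.smul_def]
    exact Submodule.smul_mem _ _ hv
  | add x y _ _ hx hy => intro v hv; rw [add_mul]; exact add_mem (hx v hv) (hy v hv)
  | mul x y _ _ hx hy => intro v hv; rw [mul_assoc]; exact hx _ (hy v hv)

theorem span_Mon_le {Ix : Type} (T : Set Ix) (w : Ix → U → ℕ) (m : Ix → ℤ) :
    ∀ v ∈ Submodule.span k (Mon lin β T w m), v ∈ Algebra.adjoin k (Set.range lin) := by
  intro v hv
  have h : Submodule.span k (Mon lin β T w m)
      ≤ Subalgebra.toSubmodule (Algebra.adjoin k (Set.range lin)) := by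
    refine Submodule.span_le.mpr ?_
    rintro _ ⟨t, _, _, rfl⟩
    refine Subalgebra.list_prod_mem _ fun x hx => ?_
    obtain ⟨b, _, rfl⟩ := List.mem_map.mp hx
    exact Algebra.subset_adjoin ⟨b, rfl⟩
  exact h hv

end Monomials

variable {k K G : Type} [Field k] [Field K] [Algebra k K] [Group G]
  {B : Subalgebra k K} {φ : G →* (K ≃ₐ[k] K)} {P : Ideal B} [P.IsPrime] {H : Subgroup G}

omit [P.IsPrime] in
theorem EtLin.flat (E : EtLin B φ P H) : (Subalgebra.inclusion E.le).toRingHom.Flat := by
  have h := E.etale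
  exact ((RingHom.etale_iff_formallyUnramified_and_smooth _).mp h).2.flat

/-- Intersections of ideals generated by monomials (flatness of étale morphisms). -/
theorem fspan_inter (E : EtLin B φ P H) {β : Set E.U} (hβ : IsBasis k β) {Ix : Type} {S : Set Ix}
    (hS : S.Finite) (w : Ix → E.U → ℕ) (m : Ix → ℤ) {y : K} (hy : y ∈ E.C)
    (h : ∀ i ∈ S, y ∈ fspan E.C (Mon E.lin β {i} w m)) : y ∈ fspan E.C (Mon E.lin β S w m) := by
  have hind : AlgebraicIndependent k fun b : β => E.lin (b : E.U) := by
    have h1 := E.indep (bas hβ)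
    simp only [bas_apply] at h1
    exact h1
  have hfl := E.flat
  have key : ∀ T : Set Ix, T.Finite → T ⊆ S → y ∈ fspan E.C (Mon E.lin β T w m) := by
    intro T hT
    induction T, hT using Set.Finite.induction_on with
    | empty =>
      intro _
      have h1 : (1 : K) ∈ Mon E.lin β (∅ : Set Ix) w m := ⟨[], by simp, by simp, by simp⟩
      have h2 := mul_mem_fspan hy h1
      rwa [mul_one] at h2
    | @insert i T hi hT ih =>
      intro hsub
      have h1 := ih fun j hj => hsub (Set.mem_insert_of_mem _ hj)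
      have h2 := h i (hsub (Set.mem_insert _ _))
      have h3 := flat_inter E.le hfl (span_Mon_le E.lin T w m) (span_Mon_le E.lin {i} w m)
        (mul_mem_span_Mon E.lin hβ T w m) (mul_mem_span_Mon E.lin hβ {i} w m)
        (fspan_mono _ Submodule.subset_span h1) (fspan_mono _ Submodule.subset_span h2)
      have h4 := fspan_mono (awayB B E.f E.fB) (span_Mon_inf E.lin hind i T w m) h3
      exact fspan_span _ _ h4
  exact key S hS subset_rfl

end Pool.Agent.MP_b525bf_ag_X
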