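import Pool.Agent.Lib.MP_b525bf_ag_X.Defs

/-!
# X2: the linear algebra of Theorem W for a representation of a subgroup
-/

set_option autoImplicit false

namespace Pool.Agent.MP_b525bf_ag_X

open Pool.Agent.MP_b525bf_ag_W Module

variable {k U G : Type} [Field k] [AddCommGroup U] [Module k U] [Group G]
  {ρ : G → U →ₗ[k] U} {H : Subgroup G}

/-! ### Basic properties of the subspaces -/

namespace H41

theorem AN_le_iff {N : Subgroup G} {V : Submodule k U} :
    AN ρ N ≤ V ↔ ∀ h ∈ N, ∀ u, ρ h u - u ∈ V := by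
  constructor
  · intro h g hg u
    apply h
    have h1 : LinearMap.range (ρ g - LinearMap.id) ≤ AN ρ N :=
      le_iSup₂ (f := fun (h : G) (_ : h ∈ N) => LinearMap.range (ρ h - LinearMap.id)) g hg
    exact h1 ⟨u, by simp⟩
  · intro h
    refine iSup₂_le (fun g hg => ?_)
    rintro _ ⟨u, rfl⟩
    simpa using h g hg u

theorem sub_mem_AN {N : Subgroup G} {h : G} (hh : h ∈ N) (u : U) : ρ h u - u ∈ AN ρ N :=
  AN_le_iff.1 le_rfl h hh u

theorem mem_DP {P : Subgroup G} {X : Submodule k U} {h : G} (hh : h ∈ P) {u : U} (hu : u ∈ X) :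
    ρ h u - u ∈ DP ρ P X := by
  have h1 : X.map (ρ h - LinearMap.id) ≤ DP ρ P X :=
    le_iSup₂ (f := fun (h : G) (_ : h ∈ P) => X.map (ρ h - LinearMap.id)) h hh
  exact h1 ⟨u, hu, by simp⟩

theorem DP_le_iff {P : Subgroup G} {X V : Submodule k U} :
    DP ρ P X ≤ V ↔ ∀ h ∈ P, ∀ u ∈ X, ρ h u - u ∈ V := by
  constructor
  · intro h g hg u hu
    exact h (mem_DP hg hu)
  · intro h
    refine iSup₂_le (fun g hg => ?_)
    rintro _ ⟨u, hu, rfl⟩
    simpa using h g hg u hu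

theorem DP_mono {P : Subgroup G} {X Y : Submodule k U} (h : X ≤ Y) : DP ρ P X ≤ DP ρ P Y :=
  DP_le_iff.2 fun _ hg _ hu => mem_DP hg (h hu)

theorem flg_zero (E : Idx G) : flg ρ E 0 = ⊤ := by
  cases E <;> rfl

theorem flg_w_succ (P N : Subgroup G) (m : ℕ) :
    flg ρ (.w P N) (m + 1) = (DP ρ P)^[m] (AN ρ N) := by simp only [flg]

/-! ### Transfer to the group `H` -/

/-- The representation of `H`. -/
def rep (hρ : PRep H ρ) : Representation k H U where
  toFun h := ρ h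
  map_one' := hρ.one
  map_mul' g h := hρ.mul g g.2 h h.2

theorem rep_apply (hρ : PRep H ρ) (h : H) (u : U) : rep hρ h u = ρ h u := rfl

/-- The indices for `H`. -/
def res (H : Subgroup G) : Idx G → Idx H
  | .t N => .t (N.subgroupOf H)
  | .w P N => .w (P.subgroupOf H) (N.subgroupOf H)

/-- The inverse of `res`. -/
def ext (H : Subgroup G) : Idx H → Idx G
  | .t N => .t (N.map H.subtype)
  | .w P N => .w (P.map H.subtype) (N.map H.subtype)

theorem map_subgroupOf {N : Subgroup G} (h : N ≤ H) : (N.subgroupOf H).map H.subtype = N := by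
  rw [Subgroup.subgroupOf_map_subtype]
  exact inf_eq_left.2 h

/-- `E` is an index for `H`. -/
def In (H : Subgroup G) : Idx G → Prop
  | .t N => N ≤ H
  | .w P N => P ≤ H ∧ N ≤ H

theorem In.grp {E : Idx G} (h : In H E) : E.grp ≤ H := by
  cases E with
  | t N => exact h
  | w P N => exact h.2

theorem ext_res {E : Idx G} (h : In H E) : ext H (res H E) = E := by
  cases E with
  | t N => simp only [res, ext]; rw [map_subgroupOf h]
  | w P N => simp only [res, ext]; rw [map_subgroupOf h.1, map_subgroupOf h.2]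

theorem card_subgroupOf {N : Subgroup G} (h : N ≤ H) : Nat.card (N.subgroupOf H) = Nat.card N :=
  Nat.card_congr (Subgroup.subgroupOfEquivOfLe h).toEquiv

theorem subgroupOf_le_iff {N N' : Subgroup G} (h : N ≤ H) :
    N.subgroupOf H ≤ N'.subgroupOf H ↔ N ≤ N' := by
  constructor
  · intro h1 x hx
    exact h1 (show (⟨x, h hx⟩ : H) ∈ N.subgroupOf H from hx)
  · intro h1 x hx
    exact h1 hx

theorem subgroupOf_inj {N N' : Subgroup G} (h : N ≤ H) (h' : N' ≤ H)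
    (e : N.subgroupOf H = N'.subgroupOf H) : N = N' := by
  rw [← map_subgroupOf h, e, map_subgroupOf h']

theorem cj_subgroupOf (g : H) (N : Subgroup G) :
    cj g (N.subgroupOf H) = (cj (g : G) N).subgroupOf H := by
  ext x
  rw [MP_b525bf_ag_W.H41.mem_cj, Subgroup.mem_subgroupOf, Subgroup.mem_subgroupOf,
    MP_b525bf_ag_W.H41.mem_cj]
  rfl

theorem map_Op (p : ℕ) {N : Subgroup G} (h : N ≤ H) :
    (Op p (N.subgroupOf H)).map H.subtype = Op p N := by
  unfold Op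
  rw [MonoidHom.map_closure]
  congr 1
  ext x
  constructor
  · rintro ⟨y, ⟨hy, hy'⟩, rfl⟩
    refine ⟨hy, ?_⟩
    rw [Subgroup.coe_subtype, Subgroup.orderOf_coe]
    exact hy'
  · rintro ⟨hx, hx'⟩
    refine ⟨⟨x, h hx⟩, ⟨hx, ?_⟩, rfl⟩
    rwa [← Subgroup.orderOf_coe]

theorem pperf_subgroupOf {p : ℕ} {N : Subgroup G} (h : N ≤ H) :
    PPerf p (N.subgroupOf H) ↔ PPerf p N := by
  change N.subgroupOf H ≤ Op p (N.subgroupOf H) ↔ N ≤ Op p N
  rw [← map_Op p h, ← (Subgroup.map_le_map_iff_of_injective H.subtype_injective),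
    map_subgroupOf h]

theorem AN_res (hρ : PRep H ρ) {N : Subgroup G} (h : N ≤ H) :
    MP_b525bf_ag_W.AN (rep hρ) (N.subgroupOf H) = AN ρ N := by
  apply le_antisymm
  · rw [MP_b525bf_ag_W.H41.AN_le_iff]
    intro g hg u
    exact sub_mem_AN (ρ := ρ) (show (g : G) ∈ N from hg) u
  · rw [AN_le_iff]
    intro g hg u
    exact MP_b525bf_ag_W.H41.sub_mem_AN (ρ := rep hρ)
      (show (⟨g, h hg⟩ : H) ∈ N.subgroupOf H from hg) u

theorem DP_res (hρ : PRep H ρ) {P : Subgroup G} (h : P ≤ H) (X : Submodule k U) :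
    MP_b525bf_ag_W.DP (rep hρ) (P.subgroupOf H) X = DP ρ P X := by
  apply le_antisymm
  · rw [MP_b525bf_ag_W.H41.DP_le_iff]
    intro g hg u hu
    exact mem_DP (ρ := ρ) (show (g : G) ∈ P from hg) hu
  · rw [DP_le_iff]
    intro g hg u hu
    exact MP_b525bf_ag_W.H41.mem_DP (ρ := rep hρ)
      (show (⟨g, h hg⟩ : H) ∈ P.subgroupOf H from hg) hu

theorem iterate_DP_res (hρ : PRep H ρ) {P : Subgroup G} (h : P ≤ H) (X : Submodule k U) (m : ℕ) :
    (MP_b525bf_ag_W.DP (rep hρ) (P.subgroupOf H))^[m] X = (DP ρ P)^[m] X := by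
  induction m with
  | zero => rfl
  | succ m ih => rw [Function.iterate_succ_apply', Function.iterate_succ_apply', ih, DP_res hρ h]

theorem flg_res (hρ : PRep H ρ) {E : Idx G} (h : In H E) (m : ℕ) :
    MP_b525bf_ag_W.flg (rep hρ) (res H E) m = flg ρ E m := by
  cases E with
  | t N =>
    rcases m with _ | _ | m
    · rfl
    · exact AN_res hρ h
    · rfl
  | w P N =>
    rcases m with _ | m
    · rfl
    · rw [flg_w_succ]
      change MP_b525bf_ag_W.flg (rep hρ) (.w (P.subgroupOf H) (N.subgroupOf H)) (m + 1) = _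
      rw [MP_b525bf_ag_W.H41.flg_w_succ, AN_res hρ h.2, iterate_DP_res hρ h.1]

theorem res_grp (E : Idx G) : (res H E).grp = E.grp.subgroupOf H := by
  cases E <;> rfl

theorem res_wt (E : Idx G) : (res H E).wt = E.wt := by
  cases E <;> rfl

theorem In.of_ptHyp {p : ℕ} {P : Subgroup G} (hPH : P ≤ H) {S : Set (Idx G)} (hS : PtHyp p P S)
    (hSH : ∀ E ∈ S, Idx.grp E ≤ H) {E : Idx G} (hE : E ∈ S) : In H E := by
  cases E with
  | t N => exact hSH _ hE
  | w P' N =>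
    obtain ⟨rfl, _⟩ := hS.w P' N hE
    exact ⟨hPH, hSH _ hE⟩

theorem ptHyp_res {p : ℕ} {P : Subgroup G} (hPH : P ≤ H) {S : Set (Idx G)} (hS : PtHyp p P S)
    (hSH : ∀ E ∈ S, Idx.grp E ≤ H) : PtHyp p (P.subgroupOf H) (res H '' S) where
  t := by
    rintro N' ⟨E, hE, h⟩
    cases E with
    | w P' N => simp [res] at h
    | t N =>
      have h' : N.subgroupOf H = N' := by simpa [res] using h
      subst h'
      refine ⟨(pperf_subgroupOf (hSH _ hE)).2 (hS.t N hE).1, ?_⟩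
      intro g hg
      rw [cj_subgroupOf, (hS.t N hE).2 g hg]
  w := by
    rintro Q N' ⟨E, hE, h⟩
    cases E with
    | t N => simp [res] at h
    | w P' N =>
      have h' : P'.subgroupOf H = Q ∧ N.subgroupOf H = N' := by simpa [res] using h
      obtain ⟨rfl, rfl⟩ := h'
      obtain ⟨rfl, h1⟩ := hS.w P' N hE
      refine ⟨rfl, ?_⟩
      rcases h1 with rfl | ⟨h1, h2⟩
      · exact Or.inl rfl
      · exact Or.inr ⟨(pperf_subgroupOf (hSH _ hE)).2 h1, (subgroupOf_le_iff hPH).2 h2⟩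
  comp := by
    rintro _ ⟨E, hE, rfl⟩ _ ⟨E', hE', rfl⟩ h h'
    rw [res_grp] at h h' ⊢
    rw [res_grp]
    rw [pperf_subgroupOf (hSH _ hE)] at h
    rw [pperf_subgroupOf (hSH _ hE')] at h'
    rw [subgroupOf_le_iff (hSH _ hE), subgroupOf_le_iff (hSH _ hE')]
    exact hS.comp E hE E' hE' h h'

end H41

theorem AN_mono (ρ : G → U →ₗ[k] U) {N N' : Subgroup G} (h : N ≤ N') : AN ρ N ≤ AN ρ N' :=
  H41.AN_le_iff.2 fun _ hg u => H41.sub_mem_AN (h hg) u

theorem mem_AN (ρ : G → U →ₗ[k] U) {N : Subgroup G} {g : G} (hg : g ∈ N) (u : U) :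
    ρ g u - u ∈ AN ρ N :=
  H41.sub_mem_AN hg u

/-- `A_N = Σ (h - 1) A_N` for a `p`-perfect group `N`. -/
theorem AN_le_DP (hρ : PRep H ρ) {p : ℕ} [CharP k p] {N : Subgroup G} [Finite G] (hNH : N ≤ H)
    (hN : PPerf p N) : AN ρ N ≤ DP ρ N (AN ρ N) := by
  have h := MP_b525bf_ag_W.AN_le_DP (ρ := H41.rep hρ) (p := p) ((H41.pperf_subgroupOf hNH).2 hN)
  rwa [H41.AN_res hρ hNH, H41.DP_res hρ hNH] at h

theorem flg_one (ρ : G → U →ₗ[k] U) (E : Idx G) : flg ρ E 1 = AN ρ E.grp := by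
  cases E <;> rfl

theorem flg_w_diff (ρ : G → U →ₗ[k] U) {P N : Subgroup G} (h : P ≤ N) {g : G} (hg : g ∈ P)
    (m : ℕ) {z : U} (hz : z ∈ flg ρ (.w P N) m) : ρ g z - z ∈ flg ρ (.w P N) (m + 1) := by
  rcases m with _ | m
  · exact H41.sub_mem_AN (h hg) z
  · rw [H41.flg_w_succ] at hz ⊢
    rw [Function.iterate_succ_apply']
    exact H41.mem_DP hg hz

theorem flg_t_le (ρ : G → U →ₗ[k] U) (P N : Subgroup G) (m : ℕ) :
    flg ρ (.t N) m ≤ flg ρ (.w P N) m := by
  rcases m with _ | _ | m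
  · exact le_rfl
  · exact le_rfl
  · exact bot_le

theorem isFlag_t (ρ : G → U →ₗ[k] U) (N : Subgroup G) : IsFlag (flg ρ (.t N)) where
  zero := rfl
  anti := by
    refine antitone_nat_of_succ_le fun m => ?_
    rcases m with _ | m
    · exact le_top
    · exact bot_le
  fin := ⟨2, rfl⟩

theorem flg_t_two (ρ : G → U →ₗ[k] U) (N : Subgroup G) (m : ℕ) : flg ρ (.t N) (m + 2) = ⊥ := rfl

theorem isFlag_of_adm (hρ : PRep H ρ) {p : ℕ} (hp : p.Prime) [CharP k p] {E : Idx G}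
    (hE : Adm p H E) : IsFlag (flg ρ E) := by
  cases E with
  | t N => exact isFlag_t ρ N
  | w P N =>
    obtain ⟨h1, h2⟩ := hE
    obtain ⟨h3, h4⟩ := h2 P N rfl
    have hN : N ≤ H := h1
    have h := MP_b525bf_ag_W.isFlag_w (ρ := H41.rep hρ) hp (P := P.subgroupOf H)
      (N := N.subgroupOf H) (by rw [H41.card_subgroupOf (h3.trans hN), h4])
      ((H41.subgroupOf_le_iff (h3.trans hN)).2 h3)
    have e : MP_b525bf_ag_W.flg (H41.rep hρ) (.w (P.subgroupOf H) (N.subgroupOf H)) =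
        flg ρ (.w P N) := by
      funext m
      exact H41.flg_res hρ (E := .w P N) ⟨h3.trans hN, hN⟩ m
    rwa [e] at h

theorem flg_eq_bot_of_adm (hρ : PRep H ρ) {p : ℕ} (hp : p.Prime) [CharP k p] {E : Idx G}
    (hE : Adm p H E) : flg ρ E (p + 1) = ⊥ := by
  cases E with
  | t N =>
    obtain ⟨m, hm⟩ : ∃ m, p + 1 = m + 2 := ⟨p - 1, by have := hp.pos; omega⟩
    rw [hm]; rfl
  | w P N =>
    obtain ⟨h1, h2⟩ := hE
    obtain ⟨h3, h4⟩ := h2 P N rfl
    have hN : N ≤ H := h1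
    have h := MP_b525bf_ag_W.flg_w_eq_bot (ρ := H41.rep hρ) hp (P := P.subgroupOf H)
      (N := N.subgroupOf H) (by rw [H41.card_subgroupOf (h3.trans hN), h4])
      ((H41.subgroupOf_le_iff (h3.trans hN)).2 h3)
    rw [← h]
    exact (H41.flg_res hρ (E := .w P N) ⟨h3.trans hN, hN⟩ (p + 1)).symm

/-- Blueprint 5.4. -/
theorem adapted_of_ptHyp [Finite G] [FiniteDimensional k U] (hρ : PRep H ρ) {p : ℕ}
    (hp : p.Prime) [CharP k p] (hH : ¬ p ^ 2 ∣ Nat.card H) {P : Subgroup G}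
    (hP : Nat.card P = p) (hPH : P ≤ H) {S : Set (Idx G)} (hS : PtHyp p P S)
    (hSH : ∀ E ∈ S, Idx.grp E ≤ H) : AdaptedTo (flg ρ) S := by
  obtain ⟨β, hβ, h⟩ := MP_b525bf_ag_W.adapted_of_ptHyp (ρ := H41.rep hρ) hp hH
    (P := P.subgroupOf H) (by rw [H41.card_subgroupOf hPH, hP]) (H41.ptHyp_res hPH hS hSH)
  refine ⟨β, hβ, fun E hE m => ?_⟩
  have h1 := h _ ⟨E, hE, rfl⟩ m
  rwa [H41.flg_res hρ (H41.In.of_ptHyp hPH hS hSH hE)] at h1

/-- The flags of a chain of groups have a common adapted basis. -/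
theorem adapted_of_chain [Finite G] [FiniteDimensional k U] (ρ : G → U →ₗ[k] U) {S : Set (Idx G)}
    (hS : ∀ E ∈ S, ∃ N, E = Idx.t N)
    (hcomp : ∀ E ∈ S, ∀ E' ∈ S, Idx.grp E ≤ E'.grp ∨ E'.grp ≤ E.grp) :
    AdaptedTo (flg ρ) S := by
  obtain ⟨β, hβ, hβW⟩ := exists_adapted_two_aux (k := k) (U := U)
    (C₁ := {W | ∃ E ∈ S, ∃ m, W = flg ρ E m}) (C₂ := ∅) (by
      rintro _ ⟨E, hE, m, rfl⟩ _ ⟨E', hE', m', rfl⟩ _
      obtain ⟨N, rfl⟩ := hS E hE
      obtain ⟨N', rfl⟩ := hS E' hE'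
      rcases m with _ | _ | m
      · right; rw [H41.flg_zero]; exact le_top
      · rcases m' with _ | _ | m'
        · left; rw [H41.flg_zero]; exact le_top
        · rw [flg_one, flg_one]
          rcases hcomp _ hE _ hE' with h | h
          · left; exact AN_mono ρ h
          · right; exact AN_mono ρ h
        · right; rw [flg_t_two]; exact bot_le
      · left; rw [flg_t_two]; exact bot_le) (by simp [IsChain])
  exact ⟨β, hβ, fun E hE m => hβW _ (Or.inl ⟨E, hE, m, rfl⟩)⟩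

/-- Blueprint 5.1 (lift lemma). -/
theorem lift_lemma [Finite G] [FiniteDimensional k U] (hρ : PRep H ρ) {p : ℕ} (hp : p.Prime)
    [CharP k p] (hH : ¬ p ^ 2 ∣ Nat.card H) {P : Subgroup G} (hP : Nat.card P = p) (hPH : P ≤ H)
    {S : Set (Idx G)} (hS : PtHyp p P S) (hSH : ∀ E ∈ S, Idx.grp E ≤ H) {s : G} (hs : s ∈ P)
    (hs1 : s ≠ 1) {Y : Submodule k U}
    (hY : (∃ N, Y = AN ρ N ∧ N ≤ H ∧ PPerf p N ∧ P ≤ N ∧
        (∀ E ∈ S, PPerf p E.grp → E.grp ≤ N ∨ N ≤ E.grp) ∧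
        ∀ N1, Idx.t N1 ∈ S → p ∣ Nat.card N1 → N ≤ N1) ∨
      (Y = ⊤ ∧ ∀ N1, Idx.t N1 ∈ S → ¬ p ∣ Nat.card N1))
    {z : U} (hz : z ∈ DP ρ P Y) (m : Idx G → ℕ) (hm : ∀ E ∈ S, z ∈ flg ρ E (m E)) :
    ∃ y : U, ρ s y - y = z ∧ ∀ E ∈ S, y ∈ flg ρ E (m E - E.wt) := by
  have hIn : ∀ E ∈ S, H41.In H E := fun E hE => H41.In.of_ptHyp hPH hS hSH hE
  obtain ⟨y, h1, h2⟩ := MP_b525bf_ag_W.lift_lemma (ρ := H41.rep hρ) hp hH
    (P := P.subgroupOf H) (by rw [H41.card_subgroupOf hPH, hP]) (H41.ptHyp_res hPH hS hSH)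
    (s := ⟨s, hPH hs⟩) (show s ∈ P from hs) (fun h => hs1 (congrArg Subtype.val h)) (Y := Y)
    (by
      rcases hY with ⟨N, rfl, hNH, hN, hPN, hNc, hNm⟩ | ⟨rfl, hN⟩
      · left
        refine ⟨N.subgroupOf H, (H41.AN_res hρ hNH).symm, (H41.pperf_subgroupOf hNH).2 hN,
          (H41.subgroupOf_le_iff hPH).2 hPN, ?_, ?_⟩
        · rintro _ ⟨E, hE, rfl⟩ h
          rw [H41.res_grp] at h ⊢
          rw [H41.subgroupOf_le_iff (hSH E hE), H41.subgroupOf_le_iff hNH]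
          exact hNc E hE ((H41.pperf_subgroupOf (hSH E hE)).1 h)
        · rintro N1 ⟨E, hE, h⟩ h'
          cases E with
          | w P' N' => simp [H41.res] at h
          | t N' =>
            have h2 : N'.subgroupOf H = N1 := by simpa [H41.res] using h
            subst h2
            have hN' : N' ≤ H := hSH _ hE
            rw [H41.card_subgroupOf hN'] at h'
            exact (H41.subgroupOf_le_iff hNH).2 (hNm N' hE h')
      · right
        refine ⟨rfl, ?_⟩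
        rintro N1 ⟨E, hE, h⟩
        cases E with
        | w P' N' => simp [H41.res] at h
        | t N' =>
          have h2 : N'.subgroupOf H = N1 := by simpa [H41.res] using h
          subst h2
          have hN' : N' ≤ H := hSH _ hE
          rw [H41.card_subgroupOf hN']
          exact hN N' hE)
    (z := z) (by rwa [H41.DP_res hρ hPH]) (fun E => m (H41.ext H E))
    (by
      rintro _ ⟨E, hE, rfl⟩
      rw [H41.ext_res (hIn E hE), H41.flg_res hρ (hIn E hE)]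
      exact hm E hE)
  refine ⟨y, h1, fun E hE => ?_⟩
  have h3 := h2 _ ⟨E, hE, rfl⟩
  rwa [H41.ext_res (hIn E hE), H41.flg_res hρ (hIn E hE), H41.res_wt] at h3

/-! ### Group theory in a subgroup whose order is not divisible by `p ^ 2` -/

theorem card_of_Op_eq_bot_of_le [Finite G] {p : ℕ} (hp : p.Prime) (hH : ¬ p ^ 2 ∣ Nat.card H)
    {I : Subgroup G} (hI : I ≤ H) (h : Op p I = ⊥) : I = ⊥ ∨ Nat.card I = p := by
  have h1 : Op p (I.subgroupOf H) = ⊥ := by
    rw [← Subgroup.map_eq_bot_iff_of_injective _ H.subtype_injective, H41.map_Op p hI, h]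
  rcases MP_b525bf_ag_W.card_of_Op_eq_bot hp hH h1 with h2 | h2
  · left
    rw [← H41.map_subgroupOf hI, h2, Subgroup.map_bot]
  · right
    rwa [H41.card_subgroupOf hI] at h2

theorem le_of_dvd_card_of_le [Finite G] {p : ℕ} (hp : p.Prime) (hH : ¬ p ^ 2 ∣ Nat.card H)
    {P N : Subgroup G} (hPH : P ≤ H) (hNH : N ≤ H) (hP : Nat.card P = p)
    (hN : ∀ g ∈ P, cj g N = N) (h : p ∣ Nat.card N) : P ≤ N := by
  rw [← H41.subgroupOf_le_iff hPH]
  refine MP_b525bf_ag_W.le_of_dvd_card hp hH (by rw [H41.card_subgroupOf hPH, hP]) ?_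
    (by rwa [H41.card_subgroupOf hNH])
  intro g hg
  rw [H41.cj_subgroupOf, hN g hg]

theorem exists_cj_eq_of_card [Finite G] {p : ℕ} (hp : p.Prime) {P P' N : Subgroup G}
    (hN : ¬ p ^ 2 ∣ Nat.card N) (hP : Nat.card P = p) (hP' : Nat.card P' = p) (h : P ≤ N)
    (h' : P' ≤ N) : ∃ g ∈ N, cj g P = P' := by
  obtain ⟨g, _, hg⟩ := MP_b525bf_ag_W.exists_cj_eq (G := N) hp hN (P := P.subgroupOf N)
    (P' := P'.subgroupOf N) (N := ⊤) (by rw [H41.card_subgroupOf h, hP])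
    (by rw [H41.card_subgroupOf h', hP']) le_top le_top
  refine ⟨g, g.2, ?_⟩
  have hle : cj (g : G) P ≤ N := by
    have h1 := cj_mono (g : G) h
    rwa [cj_eq_self_of_mem g.2] at h1
  refine H41.subgroupOf_inj hle h' ?_
  rw [← H41.cj_subgroupOf, hg]

end Pool.Agent.MP_b525bf_ag_X
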