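import Pool.Agent.Lib.MP_b525bf_ag_X.EtDefs

/-!
# Y2: rigidity of étale coordinates
-/

set_option autoImplicit false

namespace Pool.Agent.MP_b525bf_ag_X

open Pool.Agent.MP_b525bf_ag Pool.Agent.MP_b525bf_ag_W

namespace Rg

/-- Formal unramifiedness: a ring endomorphism which is trivial on the base modulo `a` is trivial
modulo `a + b²` if it is trivial modulo `b`. -/
theorem mem_sup_sq {A C : Type} [CommRing A] [CommRing C] [Algebra A C]
    [Algebra.FormallyUnramified A C] (h : C →+* C) (a b : Ideal C)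
    (ha : ∀ x : A, h (algebraMap A C x) - algebraMap A C x ∈ a)
    (hb : ∀ c, h c - c ∈ b) (c : C) : h c - c ∈ a ⊔ b ^ 2 := by
  let J : Ideal C := a ⊔ b ^ 2
  let g₁ : C →ₐ[A] C ⧸ J := Ideal.Quotient.mkₐ A J
  let g₂ : C →ₐ[A] C ⧸ J :=
    { toRingHom := (Ideal.Quotient.mk J).comp h
      commutes' := fun r => by
        change Ideal.Quotient.mk J (h (algebraMap A C r)) = Ideal.Quotient.mk J (algebraMap A C r)
        rw [Ideal.Quotient.eq]
        exact (le_sup_left : a ≤ J) (ha r) }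
  have hnil : IsNilpotent (b.map (Ideal.Quotient.mk J)) := by
    refine ⟨2, ?_⟩
    rw [← Ideal.map_pow, Ideal.zero_eq_bot, Ideal.map_eq_bot_iff_le_ker, Ideal.mk_ker]
    exact le_sup_right
  have key : g₁ = g₂ := by
    refine Algebra.FormallyUnramified.ext (b.map (Ideal.Quotient.mk J)) hnil fun x => ?_
    rw [Ideal.Quotient.eq]
    have h1 : g₁ x - g₂ x = Ideal.Quotient.mk J (x - h x) := by
      rw [map_sub]; rfl
    rw [h1]
    refine Ideal.mem_map_of_mem _ ?_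
    rw [← neg_sub]
    exact b.neg_mem (hb x)
  have h2 : Ideal.Quotient.mk J (h c) = Ideal.Quotient.mk J c := (DFunLike.congr_fun key c).symm
  exact Ideal.Quotient.eq.1 h2

/-- Rigidity up to an element congruent to one. -/
theorem exists_smul_mem {A C : Type} [CommRing A] [CommRing C] [Algebra A C]
    [Algebra.FormallyUnramified A C] [IsNoetherianRing C] (h : C →+* C) (a b : Ideal C)
    (ha : ∀ x : A, h (algebraMap A C x) - algebraMap A C x ∈ a)
    (hb : b = Ideal.span (Set.range fun c => h c - c)) :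
    ∃ r : C, r - 1 ∈ b ∧ ∀ c, r * (h c - c) ∈ a := by
  have hb' : ∀ c, h c - c ∈ b := fun c => by
    rw [hb]; exact Ideal.subset_span ⟨c, rfl⟩
  have hle : b ≤ a ⊔ b • b := by
    conv_lhs => rw [hb]
    rw [Ideal.span_le]
    rintro _ ⟨c, rfl⟩
    have := mem_sup_sq (A := A) h a b ha hb' c
    rwa [pow_two] at this
  obtain ⟨r, hr, hle'⟩ := Submodule.exists_sub_one_mem_and_smul_le_of_fg_of_le_sup
    (IsNoetherian.noetherian b) (le_refl b) hle
  refine ⟨r, hr, fun c => ?_⟩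
  exact hle' (Submodule.smul_mem_pointwise_smul _ r b (hb' c))

section

variable {k K G : Type} [Field k] [Field K] [Algebra k K] [Group G]
  {B : Subalgebra k K} {φ : G →* (K ≃ₐ[k] K)} {P : Ideal B} [P.IsPrime] {H : Subgroup G}

theorem mul_mem_fspan {C : Subalgebra k K} {X : Set K} {c y : K} (hc : c ∈ C)
    (hy : y ∈ fspan C X) : c * y ∈ fspan C X := by
  refine Submodule.span_induction (p := fun y _ => c * y ∈ fspan C X) ?_ ?_ ?_ ?_ hy
  · rintro _ ⟨c', hc', x, hx, rfl⟩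
    exact Submodule.subset_span ⟨c * c', C.mul_mem hc hc', x, hx, by ring⟩
  · rw [mul_zero]; exact Submodule.zero_mem _
  · intro x y _ _ hx hy
    rw [mul_add]; exact Submodule.add_mem _ hx hy
  · intro a x _ hx
    rw [mul_smul_comm]; exact Submodule.smul_mem _ _ hx

theorem fspan_mono' {C C' : Subalgebra k K} (h : C ≤ C') (X : Set K) :
    fspan C X ≤ fspan C' X := by
  refine Submodule.span_mono ?_
  rintro _ ⟨c, hc, x, hx, rfl⟩
  exact ⟨c, h hc, x, hx, rfl⟩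

theorem le_awayB (f : K) (hf : f ∈ B) : B ≤ awayB B f hf := fun b hb => ⟨0, by
  rw [pow_zero, one_mul]; exact hb⟩

theorem inv_mem_awayB {f : K} (hf : f ∈ B) (hf0 : f ≠ 0) : f⁻¹ ∈ awayB B f hf := ⟨1, by
  rw [pow_one, mul_inv_cancel₀ hf0]; exact B.one_mem⟩

theorem awayB_eq {f : K} (hf : f ∈ B) (hf0 : f ≠ 0) :
    awayB B f hf = B ⊔ Algebra.adjoin k {f⁻¹} := by
  refine le_antisymm ?_ (sup_le (le_awayB f hf) ?_)
  · rintro y ⟨m, hm⟩
    have h1 : y = f⁻¹ ^ m * (f ^ m * y) := by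
      rw [← mul_assoc, ← mul_pow, inv_mul_cancel₀ hf0, one_pow, one_mul]
    rw [h1]
    refine Subalgebra.mul_mem _ ?_ ?_
    · exact Subalgebra.pow_mem _ ((le_sup_right : _ ≤ B ⊔ Algebra.adjoin k {f⁻¹})
        (Algebra.subset_adjoin rfl)) m
    · exact (le_sup_left : B ≤ B ⊔ Algebra.adjoin k {f⁻¹}) hm
  · rw [Algebra.adjoin_le_iff, Set.singleton_subset_iff]
    exact inv_mem_awayB hf hf0

theorem awayB_fg {f : K} (hf : f ∈ B) (hf0 : f ≠ 0) (hfg : B.FG) : (awayB B f hf).FG := by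
  rw [awayB_eq hf hf0]
  exact Subalgebra.FG.sup hfg (Subalgebra.fg_adjoin_finset {f⁻¹} |> fun h => by simpa using h)

omit [P.IsPrime] in
theorem ne_zero (E : EtLin B φ P H) : E.f ≠ 0 := by
  intro h0
  apply E.fP
  have : (⟨E.f, E.fB⟩ : B) = 0 := Subtype.ext h0
  rw [this]
  exact P.zero_mem

/-- The restriction of the action of `g` to `C = B[1/f]`. -/
noncomputable def act (hst : ∀ g, ∀ b ∈ B, φ g b ∈ B) (E : EtLin B φ P H) (g : G) (hg : g ∈ H) :
    E.C →+* E.C :=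
  ((φ g).toAlgHom.comp E.C.val).codRestrict E.C (by
    rintro ⟨y, m, hm⟩
    refine ⟨m, ?_⟩
    change E.f ^ m * φ g y ∈ B
    rw [← E.ff g hg, ← map_pow, ← map_mul]
    exact hst g _ hm)

omit [P.IsPrime] in
theorem coe_act (hst : ∀ g, ∀ b ∈ B, φ g b ∈ B) (E : EtLin B φ P H) (g : G) (hg : g ∈ H)
    (c : E.C) : ((act hst E g hg c : E.C) : K) = φ g c := rfl

/-- The extension of the ideal `P` to `C = B[1/f]`. -/
def extP (E : EtLin B φ P H) : Ideal E.C where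
  carrier := {c | ∃ m : ℕ, ∃ h : E.f ^ m * (c : K) ∈ B, (⟨E.f ^ m * (c : K), h⟩ : B) ∈ P}
  zero_mem' := ⟨0, by
    have h0 : E.f ^ 0 * ((0 : E.C) : K) = 0 := by simp
    refine ⟨h0 ▸ B.zero_mem, ?_⟩
    have : (⟨E.f ^ 0 * ((0 : E.C) : K), h0 ▸ B.zero_mem⟩ : B) = 0 := Subtype.ext h0
    rw [this]
    exact P.zero_mem⟩
  add_mem' := by
    rintro x y ⟨m, hm, hm'⟩ ⟨n, hn, hn'⟩
    have h1 : E.f ^ (m + n) * ((x + y : E.C) : K) =
        E.f ^ n * (E.f ^ m * (x : K)) + E.f ^ m * (E.f ^ n * (y : K)) := by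
      push_cast; ring
    have h2 : E.f ^ (m + n) * ((x + y : E.C) : K) ∈ B := by
      rw [h1]
      exact B.add_mem (B.mul_mem (B.pow_mem E.fB n) hm) (B.mul_mem (B.pow_mem E.fB m) hn)
    refine ⟨m + n, h2, ?_⟩
    have h3 : (⟨E.f ^ (m + n) * ((x + y : E.C) : K), h2⟩ : B) =
        (⟨E.f, E.fB⟩ : B) ^ n * ⟨E.f ^ m * (x : K), hm⟩ +
        (⟨E.f, E.fB⟩ : B) ^ m * ⟨E.f ^ n * (y : K), hn⟩ := Subtype.ext h1
    rw [h3]
    exact P.add_mem (P.mul_mem_left _ hm') (P.mul_mem_left _ hn')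
  smul_mem' := by
    rintro c x ⟨m, hm, hm'⟩
    obtain ⟨n, hn⟩ := c.2
    have h1 : E.f ^ (m + n) * ((c • x : E.C) : K) =
        (E.f ^ n * (c : K)) * (E.f ^ m * (x : K)) := by
      have : ((c • x : E.C) : K) = c * x := rfl
      rw [this]; ring
    have h2 : E.f ^ (m + n) * ((c • x : E.C) : K) ∈ B := by
      rw [h1]
      exact B.mul_mem hn hm
    refine ⟨m + n, h2, ?_⟩
    have h3 : (⟨E.f ^ (m + n) * ((c • x : E.C) : K), h2⟩ : B) =
        ⟨E.f ^ n * (c : K), hn⟩ * ⟨E.f ^ m * (x : K), hm⟩ := Subtype.ext h1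
    rw [h3]
    exact P.mul_mem_left _ hm'

theorem not_mem_of_sub_one_mem (E : EtLin B φ P H) {r : E.C} (hr : r - 1 ∈ extP E) :
    ∃ s ∈ cpl P, ∃ m : ℕ, s = E.f ^ m * (r : K) := by
  obtain ⟨m, hm, hm'⟩ := hr
  obtain ⟨n, hn⟩ := r.2
  have h1 : E.f ^ (m + n) * (r : K) ∈ B := by
    rw [pow_add, mul_assoc]
    exact B.mul_mem (B.pow_mem E.fB m) hn
  refine ⟨E.f ^ (m + n) * (r : K), ⟨h1, fun h2 => ?_⟩, m + n, rfl⟩
  have h3 : (⟨E.f, E.fB⟩ : B) ^ (m + n) = (⟨E.f ^ (m + n) * (r : K), h1⟩ : B) -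
      (⟨E.f, E.fB⟩ : B) ^ n * ⟨E.f ^ m * ((r - 1 : E.C) : K), hm⟩ := by
    refine Subtype.ext ?_
    change E.f ^ (m + n) = E.f ^ (m + n) * (r : K) - E.f ^ n * (E.f ^ m * ((r : K) - 1))
    ring
  have h4 : (⟨E.f, E.fB⟩ : B) ^ (m + n) ∈ P := by
    rw [h3]
    exact P.sub_mem h2 (P.mul_mem_left _ hm')
  exact E.fP (Ideal.IsPrime.mem_of_pow_mem inferInstance _ h4)

/-- Rigidity of one element of `H`, up to an element not in `P`. -/
theorem exists_mul_mem (hst : ∀ g, ∀ b ∈ B, φ g b ∈ B) (hfg : B.FG) (htriv : Triv φ P H)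
    (E : EtLin B φ P H) (g : G) (hg : g ∈ H) : ∃ s ∈ cpl P, ∀ b ∈ B,
      s * (φ g b - b) ∈ fspan E.C {y | ∃ u, y = E.lin (E.ρ g u) - E.lin u} := by
  classical
  have hf0 := ne_zero E
  have hCfg : E.C.FG := awayB_fg E.fB hf0 hfg
  have hft : Algebra.FiniteType k E.C := E.C.fg_iff_finiteType.1 hCfg
  have hnoeth : IsNoetherianRing E.C := Algebra.FiniteType.isNoetherianRing k E.C
  let A : Subalgebra k K := Algebra.adjoin k (Set.range E.lin)
  let i1 : Algebra A E.C := (Subalgebra.inclusion E.le).toRingHom.toAlgebra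
  have i2 : Algebra.Etale A E.C := E.etale
  have i3 : Algebra.FormallyUnramified A E.C := inferInstance
  have hlinC : ∀ u, E.lin u ∈ E.C := fun u => E.le (Algebra.subset_adjoin ⟨u, rfl⟩)
  let a : Ideal E.C := Ideal.span (Set.range fun u : E.U =>
    (⟨E.lin (E.ρ g u) - E.lin u, E.C.sub_mem (hlinC _) (hlinC _)⟩ : E.C))
  let h := act hst E g hg
  have ha : ∀ x : A, h (algebraMap A E.C x) - algebraMap A E.C x ∈ a := by
    rintro ⟨x, hx⟩
    induction hx using Algebra.adjoin_induction with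
    | mem x hx =>
      obtain ⟨u, rfl⟩ := hx
      refine Ideal.subset_span ⟨u, ?_⟩
      refine Subtype.ext ?_
      change E.lin (E.ρ g u) - E.lin u = φ g (E.lin u) - E.lin u
      rw [E.hφ g hg]
    | algebraMap r =>
      have h1 : h (algebraMap A E.C ⟨algebraMap k K r, A.algebraMap_mem r⟩) -
          algebraMap A E.C ⟨algebraMap k K r, A.algebraMap_mem r⟩ = 0 := by
        refine Subtype.ext ?_
        change φ g (algebraMap k K r) - algebraMap k K r = 0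
        rw [AlgEquiv.commutes, sub_self]
      rw [h1]
      exact a.zero_mem
    | add x y hx hy h1 h2 =>
      have h3 : h (algebraMap A E.C ⟨x + y, A.add_mem hx hy⟩) -
          algebraMap A E.C ⟨x + y, A.add_mem hx hy⟩ =
          (h (algebraMap A E.C ⟨x, hx⟩) - algebraMap A E.C ⟨x, hx⟩) +
          (h (algebraMap A E.C ⟨y, hy⟩) - algebraMap A E.C ⟨y, hy⟩) := by
        refine Subtype.ext ?_
        change φ g (x + y) - (x + y) = (φ g x - x) + (φ g y - y)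
        rw [map_add]; ring
      rw [h3]
      exact a.add_mem h1 h2
    | mul x y hx hy h1 h2 =>
      have h3 : h (algebraMap A E.C ⟨x * y, A.mul_mem hx hy⟩) -
          algebraMap A E.C ⟨x * y, A.mul_mem hx hy⟩ =
          h (algebraMap A E.C ⟨y, hy⟩) * (h (algebraMap A E.C ⟨x, hx⟩) -
            algebraMap A E.C ⟨x, hx⟩) + algebraMap A E.C ⟨x, hx⟩ *
          (h (algebraMap A E.C ⟨y, hy⟩) - algebraMap A E.C ⟨y, hy⟩) := by
        refine Subtype.ext ?_
        change φ g (x * y) - (x * y) = φ g y * (φ g x - x) + x * (φ g y - y)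
        rw [map_mul]; ring
      rw [h3]
      exact a.add_mem (a.mul_mem_left _ h1) (a.mul_mem_left _ h2)
  obtain ⟨r, hr, hr'⟩ := exists_smul_mem (A := A) h a
    (Ideal.span (Set.range fun c => h c - c)) ha rfl
  have hbP : Ideal.span (Set.range fun c => h c - c) ≤ extP E := by
    rw [Ideal.span_le]
    rintro _ ⟨⟨c, m, hm⟩, rfl⟩
    have h1 : E.f ^ m * ((h ⟨c, m, hm⟩ - ⟨c, m, hm⟩ : E.C) : K) =
        φ g (E.f ^ m * c) - E.f ^ m * c := by
      change E.f ^ m * (φ g c - c) = _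
      rw [map_mul, map_pow, E.ff g hg]; ring
    obtain ⟨h2, h3⟩ := htriv g hg _ hm
    refine ⟨m, by rw [h1]; exact h2, ?_⟩
    have h4 : (⟨E.f ^ m * ((h ⟨c, m, hm⟩ - ⟨c, m, hm⟩ : E.C) : K), by rw [h1]; exact h2⟩ : B) =
        ⟨φ g (E.f ^ m * c) - E.f ^ m * c, h2⟩ := Subtype.ext h1
    rw [h4]
    exact h3
  obtain ⟨s, hs, m, hsm⟩ := not_mem_of_sub_one_mem E (hbP hr)
  refine ⟨s, hs, fun b hb => ?_⟩
  have hbC : b ∈ E.C := le_awayB E.f E.fB hb
  have key : ∀ z ∈ a, (z : K) ∈ fspan E.C {y | ∃ u, y = E.lin (E.ρ g u) - E.lin u} := by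
    intro z hz
    refine Submodule.span_induction (p := fun (z : E.C) _ => (z : K) ∈
      fspan E.C {y | ∃ u, y = E.lin (E.ρ g u) - E.lin u}) ?_ ?_ ?_ ?_ hz
    · rintro _ ⟨u, rfl⟩
      exact Submodule.subset_span ⟨1, E.C.one_mem, _, ⟨u, rfl⟩, (one_mul _).symm⟩
    · exact Submodule.zero_mem _
    · intro x y _ _ hx hy
      exact Submodule.add_mem _ hx hy
    · intro c x _ hx
      exact mul_mem_fspan c.2 hx
  have h5 := key _ (hr' ⟨b, hbC⟩)
  have h6 := mul_mem_fspan (C := E.C) (le_awayB E.f E.fB (B.pow_mem E.fB m)) h5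
  have h7 : s * (φ g b - b) = E.f ^ m * ((r * (h ⟨b, hbC⟩ - ⟨b, hbC⟩) : E.C) : K) := by
    change s * (φ g b - b) = E.f ^ m * ((r : K) * (φ g b - b))
    rw [hsm]; ring
  rw [h7]
  exact h6

omit [P.IsPrime] in
theorem act_mem_cpl (hst : ∀ g, ∀ b ∈ B, φ g b ∈ B) (htriv : Triv φ P H) {g : G} (hg : g ∈ H)
    {s : K} (hs : s ∈ cpl P) : φ g s ∈ cpl P := by
  obtain ⟨hsB, hsP⟩ := hs
  obtain ⟨h1, h2⟩ := htriv g hg s hsB
  refine ⟨hst g s hsB, fun h3 => hsP ?_⟩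
  have h4 : (⟨s, hsB⟩ : B) = ⟨φ g s, hst g s hsB⟩ - ⟨φ g s - s, h1⟩ := Subtype.ext (by
    change s = φ g s - (φ g s - s)
    ring)
  rw [h4]
  exact P.sub_mem h3 h2

theorem prod_mem_cpl {κ : Type} (t : Finset κ) (s : κ → K) (hs : ∀ i ∈ t, s i ∈ cpl P) :
    ∏ i ∈ t, s i ∈ cpl P := by
  classical
  refine Finset.prod_induction s (fun x => x ∈ cpl P) ?_ ?_ hs
  · rintro x y ⟨hx, hx'⟩ ⟨hy, hy'⟩
    refine ⟨B.mul_mem hx hy, fun h => ?_⟩
    have h1 : (⟨x * y, B.mul_mem hx hy⟩ : B) = ⟨x, hx⟩ * ⟨y, hy⟩ := rfl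
    rw [h1] at h
    rcases Ideal.IsPrime.mem_or_mem inferInstance h with h | h
    · exact hx' h
    · exact hy' h
  · refine ⟨B.one_mem, fun h => ?_⟩
    exact (Ideal.IsPrime.ne_top inferInstance) ((Ideal.eq_top_iff_one P).2 h)

omit [P.IsPrime] in
theorem cpl_ne_zero {s : K} (hs : s ∈ cpl P) : s ≠ 0 := by
  rintro rfl
  obtain ⟨h1, h2⟩ := hs
  apply h2
  have : (⟨0, h1⟩ : B) = 0 := rfl
  rw [this]
  exact P.zero_mem

theorem awayB_mul_le {f g : K} (hf : f ∈ B) (hg : g ∈ B) :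
    awayB B f hf ≤ awayB B (f * g) (B.mul_mem hf hg) := by
  rintro y ⟨m, hm⟩
  refine ⟨m, ?_⟩
  rw [mul_pow, mul_right_comm, mul_comm]
  exact B.mul_mem (B.pow_mem hg m) hm

theorem isLocalization_awayB {f g : K} (hf : f ∈ B) (hg : g ∈ B) (hf0 : f ≠ 0) (hg0 : g ≠ 0) :
    @IsLocalization.Away (awayB B f hf) _ ⟨g, le_awayB f hf hg⟩
      (awayB B (f * g) (B.mul_mem hf hg)) _
      (Subalgebra.inclusion (awayB_mul_le hf hg)).toRingHom.toAlgebra := by
  let i1 : Algebra (awayB B f hf) (awayB B (f * g) (B.mul_mem hf hg)) :=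
    (Subalgebra.inclusion (awayB_mul_le hf hg)).toRingHom.toAlgebra
  have hfg0 : f * g ≠ 0 := mul_ne_zero hf0 hg0
  have hginv : g⁻¹ ∈ awayB B (f * g) (B.mul_mem hf hg) := ⟨1, by
    rw [pow_one, mul_assoc, mul_inv_cancel₀ hg0, mul_one]; exact hf⟩
  refine IsLocalization.Away.mk (S := awayB B (f * g) (B.mul_mem hf hg))
    (⟨g, le_awayB f hf hg⟩ : awayB B f hf) ?_ ?_ ?_
  · refine IsUnit.of_mul_eq_one (⟨g⁻¹, hginv⟩ : awayB B (f * g) (B.mul_mem hf hg)) ?_
    refine Subtype.ext ?_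
    change g * g⁻¹ = 1
    exact mul_inv_cancel₀ hg0
  · rintro ⟨y, m, hm⟩
    have h1 : y * g ^ m ∈ awayB B f hf := by
      refine ⟨m, ?_⟩
      rw [mul_pow] at hm
      have h2 : f ^ m * (y * g ^ m) = f ^ m * g ^ m * y := by ring
      rw [h2]
      exact hm
    exact ⟨m, ⟨y * g ^ m, h1⟩, Subtype.ext rfl⟩
  · intro a b h
    refine ⟨0, ?_⟩
    have h1 : a = b := Subtype.ext (congrArg
      (Subtype.val : awayB B (f * g) (B.mul_mem hf hg) → K) h)
    rw [h1]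

end

end Rg

variable {k K G : Type} [Field k] [Field K] [Algebra k K] [Group G]
  {B : Subalgebra k K} {φ : G →* (K ≃ₐ[k] K)} {P : Ideal B} [P.IsPrime] {H : Subgroup G}

/-- After shrinking the neighbourhood the étale coordinates are rigid. -/
theorem exists_rig [Finite G] (hst : ∀ g, ∀ b ∈ B, φ g b ∈ B) (hfg : B.FG) (htriv : Triv φ P H)
    (E : EtLin B φ P H) : ∃ E' : EtLin B φ P H, E'.Rig := by
  classical
  have := Fintype.ofFinite G
  choose s hs hs' using fun g : H => Rg.exists_mul_mem hst hfg htriv E g g.2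
  let S : K := ∏ g : H, s g
  have hS : S ∈ cpl P := Rg.prod_mem_cpl _ _ fun g _ => hs g
  let N : K := ∏ g : H, φ g S
  have hN : N ∈ cpl P := Rg.prod_mem_cpl _ _ fun g _ => Rg.act_mem_cpl hst htriv g.2 hS
  have hN0 := Rg.cpl_ne_zero hN
  obtain ⟨hNB, hNP⟩ := hN
  have hf0 := Rg.ne_zero E
  have hNfix : ∀ g ∈ H, φ g N = N := by
    intro g hg
    change φ g (∏ g : H, φ g S) = ∏ g : H, φ g S
    rw [map_prod]
    refine Fintype.prod_equiv (Equiv.mulLeft (⟨g, hg⟩ : H)) _ _ fun x => ?_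
    change φ g (φ x S) = φ (g * x) S
    rw [map_mul]; rfl
  have hdiv : ∀ g : H, ∃ n ∈ B, N = s g * n := by
    intro g
    refine ⟨(∏ x ∈ Finset.univ.erase g, s x) * ∏ x ∈ Finset.univ.erase (1 : H), φ x S, ?_, ?_⟩
    · refine B.mul_mem (Subalgebra.prod_mem _ fun x _ => (hs x).1)
        (Subalgebra.prod_mem _ fun x _ => hst _ _ hS.1)
    · rw [← mul_assoc, Finset.mul_prod_erase Finset.univ s (Finset.mem_univ g)]
      have h1 : φ ((1 : H) : G) S = S := by rw [Subgroup.coe_one, map_one]; rfl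
      have h2 := Finset.mul_prod_erase Finset.univ (fun x : H => φ x S) (Finset.mem_univ 1)
      rw [h1] at h2
      exact h2.symm
  have hle : E.C ≤ awayB B (E.f * N) (B.mul_mem E.fB hNB) := Rg.awayB_mul_le E.fB hNB
  refine ⟨{ E with
    f := E.f * N
    fB := B.mul_mem E.fB hNB
    fP := ?_
    ff := ?_
    le := E.le.trans hle
    etale := ?_ }, ?_⟩
  · intro h
    have h1 : (⟨E.f * N, B.mul_mem E.fB hNB⟩ : B) = ⟨E.f, E.fB⟩ * ⟨N, hNB⟩ := rfl
    rw [h1] at h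
    rcases Ideal.IsPrime.mem_or_mem inferInstance h with h | h
    · exact E.fP h
    · exact hNP h
  · intro g hg
    rw [map_mul, E.ff g hg, hNfix g hg]
  · have h1 : (Subalgebra.inclusion (E.le.trans hle)).toRingHom =
        (Subalgebra.inclusion hle).toRingHom.comp (Subalgebra.inclusion E.le).toRingHom := rfl
    rw [h1]
    refine RingHom.Etale.stableUnderComposition _ _ E.etale ?_
    let i1 : Algebra (awayB B E.f E.fB) (awayB B (E.f * N) (B.mul_mem E.fB hNB)) :=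
      (Subalgebra.inclusion (Rg.awayB_mul_le E.fB hNB)).toRingHom.toAlgebra
    have i2 : IsLocalization.Away (⟨N, Rg.le_awayB E.f E.fB hNB⟩ : awayB B E.f E.fB)
      (awayB B (E.f * N) (B.mul_mem E.fB hNB)) := Rg.isLocalization_awayB E.fB hNB hf0 hN0
    have i3 : Algebra.Etale (awayB B E.f E.fB) (awayB B (E.f * N) (B.mul_mem E.fB hNB)) :=
      Algebra.Etale.of_isLocalizationAway (⟨N, Rg.le_awayB E.f E.fB hNB⟩ : awayB B E.f E.fB)
    exact i3
  · intro h hh b hb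
    obtain ⟨n, hn, hNn⟩ := hdiv ⟨h, hh⟩
    have h1 := Rg.fspan_mono' hle _ (hs' ⟨h, hh⟩ b hb)
    have hs0 := Rg.cpl_ne_zero (hs ⟨h, hh⟩)
    have h2 : (s ⟨h, hh⟩)⁻¹ ∈ awayB B (E.f * N) (B.mul_mem E.fB hNB) := by
      refine ⟨1, ?_⟩
      rw [pow_one, hNn]
      have h3 : E.f * (s ⟨h, hh⟩ * n) * (s ⟨h, hh⟩)⁻¹ = E.f * n := by
        field_simp
      rw [h3]
      exact B.mul_mem E.fB hn
    have h4 := Rg.mul_mem_fspan h2 h1
    rw [← mul_assoc, inv_mul_cancel₀ hs0, one_mul] at h4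
    exact h4

end Pool.Agent.MP_b525bf_ag_X
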