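import Pool.Agent.Lib.MP_b525bf_ag_X.Local
import Pool.Agent.Lib.MP_b525bf_ag_X.Grp
import Pool.Agent.Lib.MP_b525bf_ag_X.Rigid
import Pool.Agent.Lib.MP_b525bf_ag_X.FlatSpan
import Pool.Agent.Lib.MP_b525bf_ag_X.EtSmooth

/-!
# Y5: étale linear coordinates give local models
-/

set_option autoImplicit false

namespace Pool.Agent.MP_b525bf_ag_X

open Pool.Agent.MP_b525bf_ag Pool.Agent.MP_b525bf_ag_W

variable {k K G : Type} [Field k] [Field K] [Algebra k K] [Group G]
  {B : Subalgebra k K} {φ : G →* (K ≃ₐ[k] K)} {P : Ideal B} [P.IsPrime] {H : Subgroup G}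
  {p : ℕ}

namespace Mdl

/-! ### Spans with coefficients -/

section

variable {C : Subalgebra k K} {X Y Z : Set K}

theorem subset_fspan {x : K} (hx : x ∈ X) : x ∈ fspan C X :=
  Submodule.subset_span ⟨1, C.one_mem, x, hx, (one_mul x).symm⟩

theorem fspan_mono (h : X ⊆ Y) : fspan C X ≤ fspan C Y := by
  refine Submodule.span_mono ?_
  rintro _ ⟨c, hc, x, hx, rfl⟩
  exact ⟨c, hc, x, h hx, rfl⟩

theorem smul_mem_fspan {c y : K} (hc : c ∈ C) (hy : y ∈ fspan C X) : c * y ∈ fspan C X := by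
  refine Submodule.span_induction (p := fun y _ => c * y ∈ fspan C X) ?_ ?_ ?_ ?_ hy
  · rintro _ ⟨c', hc', x, hx, rfl⟩
    exact Submodule.subset_span ⟨c * c', C.mul_mem hc hc', x, hx, by ring⟩
  · rw [mul_zero]
    exact Submodule.zero_mem _
  · intro x y _ _ hx hy
    rw [mul_add]
    exact Submodule.add_mem _ hx hy
  · intro a x _ hx
    rw [mul_smul_comm]
    exact Submodule.smul_mem _ _ hx

theorem fspan_le (h : ∀ x ∈ X, x ∈ fspan C Y) : fspan C X ≤ fspan C Y := by
  refine Submodule.span_le.2 ?_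
  rintro _ ⟨c, hc, x, hx, rfl⟩
  exact smul_mem_fspan hc (h x hx)

theorem mul_mem_fspan (h : ∀ x ∈ X, ∀ y ∈ Y, x * y ∈ fspan C Z) {x y : K}
    (hx : x ∈ fspan C X) (hy : y ∈ fspan C Y) : x * y ∈ fspan C Z := by
  refine Submodule.span_induction (p := fun x _ => x * y ∈ fspan C Z) ?_ ?_ ?_ ?_ hx
  · rintro _ ⟨c, hc, x, hx, rfl⟩
    rw [mul_assoc]
    refine smul_mem_fspan hc ?_
    refine Submodule.span_induction (p := fun y _ => x * y ∈ fspan C Z) ?_ ?_ ?_ ?_ hy
    · rintro _ ⟨c', hc', y, hy, rfl⟩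
      rw [mul_left_comm]
      exact smul_mem_fspan hc' (h x hx y hy)
    · rw [mul_zero]
      exact Submodule.zero_mem _
    · intro x y _ _ hx hy
      rw [mul_add]
      exact Submodule.add_mem _ hx hy
    · intro a x _ hx
      rw [mul_smul_comm]
      exact Submodule.smul_mem _ _ hx
  · rw [zero_mul]
    exact Submodule.zero_mem _
  · intro x y _ _ hx hy
    rw [add_mul]
    exact Submodule.add_mem _ hx hy
  · intro a x _ hx
    rw [smul_mul_assoc]
    exact Submodule.smul_mem _ _ hx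

end

/-! ### The ring of coordinates -/

section

variable (E : EtLin B φ P H)

omit [P.IsPrime] in
theorem f_ne_zero : E.f ≠ 0 := by
  intro h
  apply E.fP
  have : (⟨E.f, E.fB⟩ : B) = 0 := Subtype.ext h
  rw [this]
  exact P.zero_mem

theorem pow_f_mem_cpl (n : ℕ) : E.f ^ n ∈ cpl P := by
  refine ⟨B.pow_mem E.fB n, fun h => E.fP ?_⟩
  have : (⟨E.f ^ n, B.pow_mem E.fB n⟩ : B) = (⟨E.f, E.fB⟩ : B) ^ n := Subtype.ext rfl
  rw [this] at h
  exact Ideal.IsPrime.mem_of_pow_mem inferInstance n h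

omit [P.IsPrime] in
theorem mem_C {y : K} : y ∈ E.C ↔ ∃ m : ℕ, E.f ^ m * y ∈ B := Iff.rfl

omit [P.IsPrime] in
theorem le_C {y : K} (hy : y ∈ B) : y ∈ E.C := ⟨0, by rwa [pow_zero, one_mul]⟩

omit [P.IsPrime] in
theorem inv_mem_C (n : ℕ) : (E.f ^ n)⁻¹ ∈ E.C :=
  ⟨n, by rw [mul_inv_cancel₀ (pow_ne_zero _ (f_ne_zero E))]; exact B.one_mem⟩

omit [P.IsPrime] in
theorem lin_mem_C (u : E.U) : E.lin u ∈ E.C := E.le (Algebra.subset_adjoin ⟨u, rfl⟩)

theorem C_sub_lc {c : K} (hc : c ∈ E.C) : c ∈ lc P (Subalgebra.toSubmodule B) := by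
  obtain ⟨n, hn⟩ := hc
  exact ⟨E.f ^ n, pow_f_mem_cpl E n, hn⟩

/-- The filtration of `C` given by the flag. -/
def J (β : Set E.U) (I : Idx G) (m : ℤ) : Submodule k K :=
  fspan E.C (Mon E.lin β {I} (fun I => lev (flg E.ρ I)) fun _ => m)

variable {E} {β : Set E.U} {I : Idx G}

omit [P.IsPrime] in
theorem J_anti {m m' : ℤ} (h : m ≤ m') : J E β I m' ≤ J E β I m := by
  refine fspan_mono ?_
  rintro _ ⟨t, ht, h', rfl⟩
  exact ⟨t, ht, fun i hi => h.trans (h' i hi), rfl⟩

omit [P.IsPrime] in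
theorem J_mul {m m' : ℤ} {x y : K} (hx : x ∈ J E β I m) (hy : y ∈ J E β I m') :
    x * y ∈ J E β I (m + m') := by
  refine mul_mem_fspan ?_ hx hy
  rintro _ ⟨t, ht, h, rfl⟩ _ ⟨t', ht', h', rfl⟩
  refine subset_fspan ⟨t ++ t', ?_, ?_, ?_⟩
  · intro b hb
    rcases List.mem_append.1 hb with hb | hb
    · exact ht b hb
    · exact ht' b hb
  · intro i hi
    have h1 := h i hi
    have h2 := h' i hi
    rw [List.map_append, List.sum_append, Nat.cast_add]
    exact add_le_add h1 h2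
  · rw [List.map_append, List.prod_append]

omit [P.IsPrime] in
theorem C_le_J {m : ℤ} (hm : m ≤ 0) {c : K} (hc : c ∈ E.C) : c ∈ J E β I m := by
  have h1 : (1 : K) ∈ J E β I m := by
    refine subset_fspan ⟨[], by simp, fun i hi => ?_, by simp⟩
    simpa using hm
  have := smul_mem_fspan hc h1
  rwa [mul_one] at this

omit [P.IsPrime] in
theorem lin_mem_J (hβ : IsBasis k β) (hfl : IsFlag (flg E.ρ I))
    (had : ∀ m, Adapted β (flg E.ρ I m)) {m : ℕ} {u : E.U} (hu : u ∈ flg E.ρ I m) :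
    E.lin u ∈ J E β I m := by
  have h1 : u ∈ Submodule.span k (β ∩ flg E.ρ I m) := had m hu
  have h2 : Submodule.span k (β ∩ flg E.ρ I m) ≤ (J E β I m).comap E.lin := by
    refine Submodule.span_le.2 ?_
    rintro b ⟨hb, hb'⟩
    refine subset_fspan ⟨[b], by simpa using hb, ?_, by simp⟩
    rintro i rfl
    have := (mem_iff_le_lev hfl (hβ.ne_zero hb)).1 hb'
    simpa using this
  exact h2 h1

omit [P.IsPrime] in
/-- Rigidity for the ring `C`. -/
theorem diff_C_mem_J (hrig : E.Rig) (hI : I.grp ≤ H) (hβ : IsBasis k β)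
    (hfl : IsFlag (flg E.ρ I)) (had : ∀ m, Adapted β (flg E.ρ I m)) {h : G} (hh : h ∈ I.grp)
    {c : K} (hc : c ∈ E.C) : φ h c - c ∈ J E β I 1 := by
  have hB : ∀ b ∈ B, φ h b - b ∈ J E β I 1 := by
    intro b hb
    have h1 := hrig h (hI hh) b hb
    refine (fspan_le (C := E.C) ?_) h1
    rintro _ ⟨u, rfl⟩
    rw [← map_sub]
    have h2 : E.ρ h u - u ∈ flg E.ρ I 1 := by
      rw [flg_one]
      exact mem_AN E.ρ hh u
    exact lin_mem_J hβ hfl had h2
  obtain ⟨n, hn⟩ := hc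
  have h1 := hB _ hn
  rw [map_mul, map_pow, E.ff h (hI hh), ← mul_sub] at h1
  have h2 := smul_mem_fspan (inv_mem_C E n) h1
  rwa [← mul_assoc, inv_mul_cancel₀ (pow_ne_zero _ (f_ne_zero E)), one_mul] at h2

omit [P.IsPrime] in
theorem prod_mem_J (t : List E.U) (ht : ∀ b ∈ t, b ∈ β) :
    (t.map E.lin).prod ∈ J E β I ((t.map (lev (flg E.ρ I))).sum : ℕ) :=
  subset_fspan ⟨t, ht, by rintro i rfl; exact le_rfl, rfl⟩

omit [P.IsPrime] in
theorem diff_prod_mem_J (hβ : IsBasis k β) (hfl : IsFlag (flg E.ρ I))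
    (had : ∀ m, Adapted β (flg E.ρ I m)) {P' N : Subgroup G} (hIe : I = Idx.w P' N)
    (hP' : P' ≤ N) (hN : N ≤ H) {s : G} (hs : s ∈ P')
    (t : List E.U) (ht : ∀ b ∈ t, b ∈ β) :
    φ s (t.map E.lin).prod - (t.map E.lin).prod ∈
      J E β I (((t.map (lev (flg E.ρ I))).sum : ℕ) + 1) := by
  induction t with
  | nil =>
    simp only [List.map_nil, List.prod_nil, map_one, sub_self]
    exact Submodule.zero_mem _
  | cons b t ih =>
    have hb : b ∈ β := ht b List.mem_cons_self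
    have ht' : ∀ b ∈ t, b ∈ β := fun b' hb' => ht b' (List.mem_cons_of_mem _ hb')
    have h1 := ih ht'
    have hb0 := hβ.ne_zero hb
    have h2 : b ∈ flg E.ρ I (lev (flg E.ρ I) b) := (mem_iff_le_lev hfl hb0).2 le_rfl
    have h3 : E.ρ s b - b ∈ flg E.ρ I (lev (flg E.ρ I) b + 1) := by
      subst hIe
      exact flg_w_diff E.ρ hP' hs _ h2
    have h4 := lin_mem_J hβ hfl had h3
    have h5 := lin_mem_J hβ hfl had h2
    rw [map_sub] at h4
    have e : φ s ((b :: t).map E.lin).prod - ((b :: t).map E.lin).prod =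
        E.lin b * (φ s (t.map E.lin).prod - (t.map E.lin).prod) +
        (E.lin (E.ρ s b) - E.lin b) * ((φ s (t.map E.lin).prod - (t.map E.lin).prod) +
          (t.map E.lin).prod) := by
      rw [List.map_cons, List.prod_cons, map_mul, E.hφ s (hN (hP' hs))]
      ring
    rw [e, List.map_cons, List.sum_cons]
    have h6 := J_mul h5 h1
    have h7 : (φ s (t.map E.lin).prod - (t.map E.lin).prod) + (t.map E.lin).prod ∈
        J E β I ((t.map (lev (flg E.ρ I))).sum : ℕ) :=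
      Submodule.add_mem _ (J_anti (by omega) h1) (prod_mem_J t ht')
    have h8 := J_mul h4 h7
    refine Submodule.add_mem _ (J_anti ?_ h6) (J_anti ?_ h8)
    · rw [Nat.cast_add]; omega
    · rw [Nat.cast_add, Nat.cast_add, Nat.cast_one]; omega

omit [P.IsPrime] in
theorem diff_mem_J (hrig : E.Rig) (hβ : IsBasis k β) (hfl : IsFlag (flg E.ρ I))
    (had : ∀ m, Adapted β (flg E.ρ I m)) {P' N : Subgroup G} (hIe : I = Idx.w P' N)
    (hP' : P' ≤ N) (hN : N ≤ H) {s : G} (hs : s ∈ P') {m : ℤ} {x : K} (hx : x ∈ J E β I m) :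
    φ s x - x ∈ J E β I (m + 1) := by
  have hgrp : I.grp = N := by rw [hIe]; rfl
  refine Submodule.span_induction (p := fun x _ => φ s x - x ∈ J E β I (m + 1)) ?_ ?_ ?_ ?_ hx
  · rintro _ ⟨c, hc, _, ⟨t, ht, hm, rfl⟩, rfl⟩
    have hm' : m ≤ ((t.map (lev (flg E.ρ I))).sum : ℕ) := hm I rfl
    have h1 := diff_prod_mem_J hβ hfl had hIe hP' hN hs t ht
    have h2 := prod_mem_J (I := I) t ht
    have h3 : (φ s (t.map E.lin).prod - (t.map E.lin).prod) + (t.map E.lin).prod ∈
        J E β I ((t.map (lev (flg E.ρ I))).sum : ℕ) :=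
      Submodule.add_mem _ (J_anti (by omega) h1) h2
    have h4 := diff_C_mem_J hrig (by rw [hgrp]; exact hN) hβ hfl had
      (h := s) (by rw [hgrp]; exact hP' hs) hc
    have e : φ s (c * (t.map E.lin).prod) - c * (t.map E.lin).prod =
        (φ s c - c) * ((φ s (t.map E.lin).prod - (t.map E.lin).prod) + (t.map E.lin).prod) +
        c * (φ s (t.map E.lin).prod - (t.map E.lin).prod) := by
      rw [map_mul]
      ring
    rw [e]
    refine Submodule.add_mem _ (J_anti ?_ (J_mul h4 h3))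
      (smul_mem_fspan hc (J_anti ?_ h1))
    · omega
    · omega
  · rw [map_zero, sub_zero]
    exact Submodule.zero_mem _
  · intro x y _ _ hx hy
    have := Submodule.add_mem _ hx hy
    rw [map_add]
    convert this using 1
    ring
  · intro a x _ hx
    rw [map_smul, ← smul_sub]
    exact Submodule.smul_mem _ _ hx

omit [P.IsPrime] in
/-- The filtration of `B` given by the flag has the closure properties. -/
theorem clo_J (hst : ∀ g, ∀ b ∈ B, φ g b ∈ B) (hrig : E.Rig) (hI : Adm p H I)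
    (hβ : IsBasis k β) (hfl : IsFlag (flg E.ρ I)) (had : ∀ m, Adapted β (flg E.ρ I m)) :
    Clo B φ I (fun m => Subalgebra.toSubmodule B ⊓ J E β I m) where
  le m := inf_le_left
  zero := by
    refine le_antisymm inf_le_left fun b hb => ⟨hb, C_le_J (by simp) (le_C E hb)⟩
  anti m := inf_le_inf le_rfl (J_anti (by push_cast; omega))
  mul m m' x y hx hy := ⟨B.mul_mem hx.1 hy.1, by
    have := J_mul hx.2 hy.2
    push_cast
    exact this⟩
  one h hh b hb := ⟨B.sub_mem (hst h b hb) hb, by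
    have := diff_C_mem_J hrig hI.1 hβ hfl had hh (le_C E hb)
    exact_mod_cast this⟩
  diff P' N hIe s hs m x hx := ⟨B.sub_mem (hst s x hx.1) hx.1, by
    have h1 := (hI.2 P' N hIe).1
    have h2 : N ≤ H := by
      have := hI.1
      rw [hIe] at this
      exact this
    have := diff_mem_J hrig hβ hfl had hIe h1 h2 hs hx.2
    push_cast
    exact this⟩

end

end Mdl

open Mdl

omit [P.IsPrime] in
/-- In rigid étale coordinates the canonical filtration is contained in the filtration given by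
the flag. -/
theorem can_le_fspan [CharP k p] (hp : p.Prime) (hst : ∀ g, ∀ b ∈ B, φ g b ∈ B)
    (E : EtLin B φ P H) (hrig : E.Rig) {I : Idx G}
    (hI : Adm p H I) {β : Set E.U} (hβ : IsBasis k β) (had : ∀ m, Adapted β (flg E.ρ I m))
    (m : ℤ) :
    can B φ I m ≤ fspan E.C (Mon E.lin β {I} (fun I => lev (flg E.ρ I)) fun _ => m) := by
  have hfl : IsFlag (flg E.ρ I) := isFlag_of_adm E.rep hp hI
  have h1 := can_le (clo_J hst hrig hI hβ hfl had) m.toNat
  have h2 : can B φ I m ≤ can B φ I (m.toNat : ℕ) := by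
    rw [can, can, Int.toNat_natCast]
  refine h2.trans (h1.trans (inf_le_right.trans (J_anti (Int.self_le_toNat m))))

namespace Mdl

section

variable {I : Idx G}

omit [P.IsPrime] in
theorem mem_can {m : ℕ} {x : K} :
    x ∈ can B φ I m ↔ ∀ Φ : ℕ → Submodule k K, Clo B φ I Φ → x ∈ Φ m := by
  simp only [can, Submodule.mem_iInf, Int.toNat_natCast]

theorem mem_can_zero {x : K} (hx : x ∈ B) : x ∈ can B φ I (0 : ℕ) :=
  mem_can.2 fun Φ h => by rw [h.zero]; exact hx

theorem can_mul {m m' : ℕ} {x y : K} (hx : x ∈ can B φ I m) (hy : y ∈ can B φ I m') :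
    x * y ∈ can B φ I (m + m' : ℕ) :=
  mem_can.2 fun Φ h => h.mul _ _ _ _ (mem_can.1 hx Φ h) (mem_can.1 hy Φ h)

theorem mul_mem_can {m : ℕ} {x y : K} (hx : x ∈ B) (hy : y ∈ can B φ I m) :
    x * y ∈ can B φ I m := by
  have := can_mul (mem_can_zero (φ := φ) (I := I) hx) hy
  rwa [zero_add] at this

theorem mem_can_one {h : G} (hh : h ∈ I.grp) {b : K} (hb : b ∈ B) :
    φ h b - b ∈ can B φ I (1 : ℕ) :=
  mem_can.2 fun _ hΦ => hΦ.one h hh b hb

theorem can_diff {P' N : Subgroup G} (hI : I = Idx.w P' N) {s : G} (hs : s ∈ P') {m : ℕ} {x : K}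
    (hx : x ∈ can B φ I m) : φ s x - x ∈ can B φ I (m + 1 : ℕ) :=
  mem_can.2 fun Φ hΦ => hΦ.diff P' N hI s hs m x (mem_can.1 hx Φ hΦ)

/-- The elements which lie locally in the canonical filtration. -/
def lcS (B : Subalgebra k K) (φ : G →* (K ≃ₐ[k] K)) (P : Ideal B) [P.IsPrime] (I : Idx G)
    (m : ℕ) : Submodule k K where
  carrier := lc P (can B φ I m)
  add_mem' := by
    rintro x y ⟨f, hf, hx⟩ ⟨g, hg, hy⟩
    refine ⟨f * g, mul_mem_cpl hf hg, ?_⟩
    have h1 := mul_mem_can hg.1 hx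
    have h2 := mul_mem_can hf.1 hy
    have := Submodule.add_mem _ h1 h2
    convert this using 1
    ring
  zero_mem' := ⟨1, one_mem_cpl, by rw [mul_zero]; exact Submodule.zero_mem _⟩
  smul_mem' := by
    rintro r x ⟨f, hf, hx⟩
    refine ⟨f, hf, ?_⟩
    rw [mul_smul_comm]
    exact Submodule.smul_mem _ _ hx

end

end Mdl

theorem flg_w_succ {U : Type} [AddCommGroup U] [Module k U] (ρ : G → U →ₗ[k] U)
    (P' N : Subgroup G) (m : ℕ) :
    flg ρ (.w P' N) (m + 1 + 1) = DP ρ P' (flg ρ (.w P' N) (m + 1)) := by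
  have h : ∀ n, flg ρ (.w P' N) (n + 1) = (DP ρ P')^[n] (AN ρ N) := fun n => by rw [flg]
  rw [h, h, Function.iterate_succ_apply']

/-- The forms in the flag lie locally in the canonical filtration. -/
theorem lin_mem_can [Finite G] (hst : ∀ g, ∀ b ∈ B, φ g b ∈ B) (htriv : Triv φ P H)
    (E : EtLin B φ P H) {I : Idx G}
    (hI : Adm p H I) (m : ℕ) {u : E.U} (hu : u ∈ flg E.ρ I m) :
    E.lin u ∈ lc P (can B φ I m) := by
  suffices h : flg E.ρ I m ≤ (lcS B φ P I m).comap E.lin from h hu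
  clear hu u
  -- degree zero
  have h0 : ∀ u : E.U, E.lin u ∈ lcS B φ P I 0 := by
    intro u
    obtain ⟨n, hn⟩ := lin_mem_C E u
    exact ⟨E.f ^ n, pow_f_mem_cpl E n, mem_can_zero hn⟩
  -- degree one
  have h1 : AN E.ρ I.grp ≤ (lcS B φ P I 1).comap E.lin := by
    refine iSup₂_le fun h hh => ?_
    rintro _ ⟨u, rfl⟩
    obtain ⟨n, hn⟩ := lin_mem_C E u
    refine ⟨E.f ^ n, pow_f_mem_cpl E n, ?_⟩
    have h2 := mem_can_one (φ := φ) (I := I) hh hn
    rw [map_mul, map_pow, E.ff h (hI.1 hh), ← mul_sub, E.hφ h (hI.1 hh), ← map_sub] at h2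
    exact h2
  match I, m, hI, h0, h1 with
  | .t N, 0, _, h0, _ => exact fun u _ => h0 u
  | .w P' N, 0, _, h0, _ => exact fun u _ => h0 u
  | .t N, 1, _, _, h1 => exact h1
  | .t N, m + 2, _, _, _ => rw [flg_t_two]; exact bot_le
  | .w P' N, m + 1, hI, _, h1 =>
    induction m with
    | zero => exact h1
    | succ m ih =>
      rw [flg_w_succ]
      have hP' := (hI.2 P' N rfl).1
      refine iSup₂_le fun s hs => ?_
      rintro _ ⟨u, hu, rfl⟩
      obtain ⟨g, hg, ha⟩ := ih hu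
      have hsH : s ∈ H := hI.1 (hP' hs)
      have hsg : φ s g ∈ cpl P := by
        refine ⟨hst s g hg.1, fun h => ?_⟩
        obtain ⟨hgB, hgP⟩ := hg
        obtain ⟨h3, h4⟩ := htriv s hsH g hgB
        apply hgP
        have : (⟨g, hgB⟩ : B) = ⟨φ s g, hst s g hgB⟩ - ⟨φ s g - g, h3⟩ :=
          Subtype.ext (by simp)
        rw [this]
        exact P.sub_mem h h4
      refine ⟨g * φ s g, mul_mem_cpl hg hsg, ?_⟩
      have h5 := can_diff rfl hs ha
      have h6 := mul_mem_can hg.1 h5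
      have h7 := mem_can_one (φ := φ) (I := .w P' N) (h := s) (hP' hs) hg.1
      have h8 := can_mul ha h7
      have h9 := Submodule.sub_mem _ h6 h8
      have h10 : E.lin ((E.ρ s - (LinearMap.id : E.U →ₗ[k] E.U)) u) =
          φ s (E.lin u) - E.lin u := by
        rw [LinearMap.sub_apply, LinearMap.id_apply, map_sub, E.hφ s hsH]
      rw [h10]
      convert h9 using 1
      rw [map_mul]
      ring

namespace Mdl

section

variable {F : Idx G → ℤ → Submodule k K}

theorem cpl_mono {P' : Ideal B} (hle : P' ≤ P) : cpl P ⊆ cpl P' := by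
  rintro f ⟨hf, hfP⟩
  exact ⟨hf, fun h => hfP (hle h)⟩

theorem lc_mono_left {P' : Ideal B} (hle : P' ≤ P) (W : Submodule k K) : lc P W ⊆ lc P' W := by
  rintro y ⟨f, hf, hy⟩
  exact ⟨f, cpl_mono hle hf, hy⟩

theorem mul_mem_lspan {c y : K} {X : Set K}
    (hc : ∀ c' ∈ lc P (Subalgebra.toSubmodule B), c * c' ∈ lc P (Subalgebra.toSubmodule B))
    (hy : y ∈ lspan P X) : c * y ∈ lspan P X := by
  refine Submodule.span_induction (p := fun y _ => c * y ∈ lspan P X) ?_ ?_ ?_ ?_ hy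
  · rintro _ ⟨c', hc', x, hx, rfl⟩
    exact Submodule.subset_span ⟨c * c', hc c' hc', x, hx, by ring⟩
  · rw [mul_zero]
    exact Submodule.zero_mem _
  · intro x y _ _ hx hy
    rw [mul_add]
    exact Submodule.add_mem _ hx hy
  · intro a x _ hx
    rw [mul_smul_comm]
    exact Submodule.smul_mem _ _ hx

theorem lspan_mono_left {P' : Ideal B} (hle : P' ≤ P) (X : Set K) : lspan P X ≤ lspan P' X := by
  refine Submodule.span_mono ?_
  rintro _ ⟨c, hc, x, hx, rfl⟩
  exact ⟨c, lc_mono_left hle _ hc, x, hx, rfl⟩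

theorem inv_mul_mem_lc {f c : K} (hf : f ∈ cpl P) (hc : c ∈ lc P (Subalgebra.toSubmodule B)) :
    f⁻¹ * c ∈ lc P (Subalgebra.toSubmodule B) := by
  obtain ⟨g, hg, hgc⟩ := hc
  refine ⟨f * g, mul_mem_cpl hf hg, ?_⟩
  have : f * g * (f⁻¹ * c) = g * c := by
    have := ne_zero_of_mem_cpl hf
    field_simp
  rwa [this]

theorem mem_lspan_of_mul {f y : K} {X : Set K} (hf : f ∈ cpl P) (hy : f * y ∈ lspan P X) :
    y ∈ lspan P X := by
  have h1 := mul_mem_lspan (c := f⁻¹) (fun c' hc' => inv_mul_mem_lc hf hc') hy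
  rwa [← mul_assoc, inv_mul_cancel₀ (ne_zero_of_mem_cpl hf), one_mul] at h1

end

end Mdl

namespace Mdl

section

variable {W : Submodule k K}

/-- The elements which lie locally in the subspace `W`. -/
def lcW (P : Ideal B) [P.IsPrime] (W : Submodule k K) (hW : ∀ b ∈ B, ∀ w ∈ W, b * w ∈ W) :
    Submodule k K where
  carrier := lc P W
  add_mem' := by
    rintro x y ⟨f, hf, hx⟩ ⟨g, hg, hy⟩
    refine ⟨f * g, mul_mem_cpl hf hg, ?_⟩
    have h1 := hW _ hg.1 _ hx
    have h2 := hW _ hf.1 _ hy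
    have := Submodule.add_mem _ h1 h2
    convert this using 1
    ring
  zero_mem' := ⟨1, one_mem_cpl, by rw [mul_zero]; exact Submodule.zero_mem _⟩
  smul_mem' := by
    rintro r x ⟨f, hf, hx⟩
    refine ⟨f, hf, ?_⟩
    rw [mul_smul_comm]
    exact Submodule.smul_mem _ _ hx

theorem mul_mem_lcW (hW : ∀ b ∈ B, ∀ w ∈ W, b * w ∈ W) {c y : K}
    (hc : c ∈ lc P (Subalgebra.toSubmodule B)) (hy : y ∈ lc P W) : c * y ∈ lc P W := by
  obtain ⟨g, hg, hgc⟩ := hc
  obtain ⟨f, hf, hfy⟩ := hy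
  refine ⟨g * f, mul_mem_cpl hg hf, ?_⟩
  have := hW _ hgc _ hfy
  convert this using 1
  ring

theorem lspan_le_lcW (hW : ∀ b ∈ B, ∀ w ∈ W, b * w ∈ W) {X : Set K}
    (hX : ∀ x ∈ X, x ∈ lc P W) {y : K} (hy : y ∈ lspan P X) : y ∈ lc P W := by
  have : lspan P X ≤ lcW P W hW := by
    refine Submodule.span_le.2 ?_
    rintro _ ⟨c, hc, x, hx, rfl⟩
    exact mul_mem_lcW hW hc (hX x hx)
  exact this hy

theorem fspan_le_lspan (E : EtLin B φ P H) (X : Set K) : fspan E.C X ≤ lspan P X := by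
  refine Submodule.span_mono ?_
  rintro _ ⟨c, hc, x, hx, rfl⟩
  exact ⟨c, C_sub_lc E hc, x, hx, rfl⟩

omit [P.IsPrime] in
theorem can_toNat (I : Idx G) (m : ℤ) : can B φ I m = can B φ I (m.toNat : ℕ) := by
  rw [can, can, Int.toNat_natCast]

omit [P.IsPrime] in
theorem mul_mem_can' {I : Idx G} {m : ℤ} {x y : K} (hx : x ∈ B) (hy : y ∈ can B φ I m) :
    x * y ∈ can B φ I m := by
  rw [can_toNat] at hy ⊢
  exact mul_mem_can hx hy

/-- Monomials lie locally in the ring. -/
theorem prod_mem_lc (E : EtLin B φ P H) (t : List E.U) :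
    (t.map E.lin).prod ∈ lc P (Subalgebra.toSubmodule B) := by
  induction t with
  | nil => exact mem_lc (by rw [List.map_nil, List.prod_nil]; exact B.one_mem)
  | cons b t ih =>
    rw [List.map_cons, List.prod_cons]
    exact mul_mem_lcW (fun b hb w hw => B.mul_mem hb hw) (C_sub_lc E (lin_mem_C E b)) ih

/-- Monomials lie locally in the canonical filtration. -/
theorem prod_mem_can [Finite G] (hst : ∀ g, ∀ b ∈ B, φ g b ∈ B) (htriv : Triv φ P H)
    (hF : FilSys B φ (can B φ)) (E : EtLin B φ P H) {I : Idx G} (hI : Adm p H I)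
    (hfl : IsFlag (flg E.ρ I)) (t : List E.U) (ht : ∀ b ∈ t, b ≠ 0) :
    (t.map E.lin).prod ∈ lc P (can B φ I ((t.map (lev (flg E.ρ I))).sum : ℕ)) := by
  induction t with
  | nil =>
    refine mem_lc ?_
    rw [hF.nonpos I _ (by simp), List.map_nil, List.prod_nil]
    exact B.one_mem
  | cons b t ih =>
    have h1 := ih fun b' hb' => ht b' (List.mem_cons_of_mem _ hb')
    have h2 := lin_mem_can hst htriv E hI (lev (flg E.ρ I) b) (u := b)
      ((mem_iff_le_lev hfl (ht b List.mem_cons_self)).2 le_rfl)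
    have h3 := lc_mul hF h2 h1
    rw [← Nat.cast_add] at h3
    simpa only [List.map_cons, List.prod_cons, List.sum_cons] using h3

end

end Mdl

/-- Étale linear coordinates give a local model. -/
theorem nonempty_LM [Finite G] [CharP k p] (hp : p.Prime) (hst : ∀ g, ∀ b ∈ B, φ g b ∈ B)
    (hinj : Function.Injective φ) (hfg : B.FG)
    (hfr : ∀ z : K, ∃ a ∈ B, ∃ b ∈ B, b ≠ 0 ∧ z * b = a) (htriv : Triv φ P H)
    (hmax : ∀ g, (∀ b ∈ B, ∃ h : φ g b - b ∈ B, (⟨φ g b - b, h⟩ : B) ∈ P) → g ∈ H)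
    (E : EtLin B φ P H) : Nonempty (LM p φ (can B φ) P H) := by
  obtain ⟨E, hrig⟩ := exists_rig hst hfg htriv E
  have hF : FilSys B φ (can B φ) := filSys_can hst hinj hfr
  have hfin : Finite (Idx G) := by
    have : Finite (Subgroup G ⊕ Subgroup G × Subgroup G) := inferInstance
    refine Finite.of_surjective (α := Subgroup G ⊕ Subgroup G × Subgroup G)
      (fun x => match x with
        | .inl N => .t N
        | .inr P => .w P.1 P.2) ?_
    rintro (N | ⟨P, N⟩)
    · exact ⟨.inl N, rfl⟩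
    · exact ⟨.inr (P, N), rfl⟩
  -- elements with given values are combinations of monomials
  have key : ∀ (S : Set (Idx G)), (∀ I ∈ S, Adm p H I) → ∀ β : Set E.U, IsBasis k β →
      (∀ I ∈ S, ∀ m, Adapted β (flg E.ρ I m)) → ∀ (m : Idx G → ℤ) (y : K), y ∈ B →
      (∀ I ∈ S, y ∈ can B φ I (m I)) →
      y ∈ fspan E.C (Mon E.lin β S (fun I => lev (flg E.ρ I)) m) := by
    intro S hS β hβ had m y hyB hy
    refine fspan_inter E hβ (Set.toFinite S) _ m (le_C E hyB) fun I hI => ?_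
    have h1 := can_le_fspan hp hst E hrig (hS I hI) hβ (had I hI) (m I) (hy I hI)
    refine Mdl.fspan_mono ?_ h1
    rintro _ ⟨t, ht, h, rfl⟩
    refine ⟨t, ht, fun j hj => ?_, rfl⟩
    rw [Set.mem_singleton_iff] at hj
    subst hj
    exact h j rfl
  exact ⟨{
    U := E.U
    lin := E.lin
    ρ := E.ρ
    rep := E.rep
    hφ := E.hφ
    inert := hmax
    mem := fun u => C_sub_lc E (lin_mem_C E u)
    gen := fun I hI m u hu => lin_mem_can hst htriv E hI m hu
    span := by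
      rintro S hS β hβ had m y ⟨f, hf, hfB, hfy⟩
      exact mem_lspan_of_mul hf (fspan_le_lspan E _ (key S hS β hβ had m _ hfB hfy))
    smooth := by
      intro ι _ _ _ l e S hS ⟨β, hβ, had⟩ hd
      obtain ⟨C, hC1, hC2, hC3, hC4⟩ := exists_smooth_fam hfg E hβ (Set.toFinite S)
        (fun I => lev (flg E.ρ I)) l e hd
      refine ⟨C, hC1, hC2, fun d y hy => ?_, fun d y hyB hy => ?_, hC4⟩
      · rw [hC3] at hy
        have hy' := fspan_le_lspan E _ hy
        refine mem_lc_inter hF (Set.toFinite S) (m := fun I => l I d) ?_ fun I hI => ?_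
        · refine lspan_le_lcW (fun b hb w hw => B.mul_mem hb hw) ?_ hy'
          rintro _ ⟨t, ht, h, rfl⟩
          exact prod_mem_lc E t
        · refine lspan_le_lcW (fun b hb w hw => mul_mem_can' hb hw) ?_ hy'
          rintro _ ⟨t, ht, h, rfl⟩
          have h1 := prod_mem_can hst htriv hF E (hS I hI) (isFlag_of_adm E.rep hp (hS I hI)) t
            fun b hb => hβ.ne_zero (ht b hb)
          exact lc_mono (hF.anti I _ _ (h I hI)) h1
      · rw [hC3]
        exact key S hS β hβ had (fun I => l I d) y hyB hy }⟩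

/-- Local models generize. -/
theorem nonempty_LM_of_le {F : Idx G → ℤ → Submodule k K} {P' : Ideal B} [P'.IsPrime]
    (hF : FilSys B φ F) (hle : P' ≤ P)
    (h : Nonempty (LM p φ F P H)) : Nonempty (LM p φ F P' H) := by
  obtain ⟨Λ⟩ := h
  exact ⟨{
    U := Λ.U
    lin := Λ.lin
    ρ := Λ.ρ
    rep := Λ.rep
    hφ := Λ.hφ
    inert := fun g hg => Λ.inert g fun b hb => by
      obtain ⟨h1, h2⟩ := hg b hb
      exact ⟨h1, hle h2⟩
    mem := fun u => lc_mono_left hle _ (Λ.mem u)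
    gen := fun E hE m u hu => lc_mono_left hle _ (Λ.gen E hE m u hu)
    span := by
      rintro S hS β hβ had m y ⟨f, hf, hfB, hfy⟩
      have h1 := Λ.span S hS β hβ had m (f * y) ⟨1, one_mem_cpl, by rwa [one_mul], fun E hE => by
        rw [one_mul]; exact hfy E hE⟩
      exact mem_lspan_of_mul hf (lspan_mono_left hle _ h1)
    smooth := by
      intro ι _ _ _ l e S hS had hd
      obtain ⟨C, h1, h2, h3, h4, h5⟩ := Λ.smooth ι l e S hS had hd
      refine ⟨C, h1, h2, fun d y hy => ?_, h4, h5⟩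
      obtain ⟨f, hf, hfy⟩ := h3 d y hy
      exact ⟨f, cpl_mono hle hf, hfy⟩ }⟩

end Pool.Agent.MP_b525bf_ag_X
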