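import Pool.Agent.Lib.MP_b525bf_ag_X.Inv
import Pool.Agent.Lib.MP_b525bf_ag_X.Model
import Pool.Agent.Lib.MP_b525bf_ag_W.Final
import Pool.Agent.Lib.MP_b525bf_ag_X.Linear

/-!
# Y6: the final theorem
-/

set_option autoImplicit false

namespace Pool.Agent.MP_b525bf_ag_X

open Pool.Agent.MP_b525bf_ag Pool.Agent.MP_b525bf_ag_W MvPolynomial

variable {k B : Type} [Field k] [CommRing B] [IsDomain B] [Algebra k B]

omit [IsDomain B] in
/-- At a prime with trivial inertia group every smooth algebra is linear. -/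
theorem linearAt_of_bot [Algebra.Smooth k B] (G : Subgroup (B ≃ₐ[k] B)) (P : Ideal B) [P.IsPrime]
    (h : inertiaGroup G P = ⊥) : LinearAt G P := by
  have h1 : ∀ g ∈ inertiaGroup G P, g = 1 := by
    intro g hg
    rwa [h, Subgroup.mem_bot] at hg
  obtain ⟨f, hfP, H⟩ := Algebra.IsSmoothAt.exists_notMem_isStandardSmooth k P
  obtain ⟨n, φ, hgC, hg⟩ := RingHom.IsStandardSmooth.exists_etale_mvPolynomial
    (f := algebraMap k (Localization.Away f)) (by simpa [RingHom.isStandardSmooth_algebraMap])
  refine ⟨f, fun g hg' => by rw [h1 g hg', AlgEquiv.one_apply], hfP, n, fun i => φ (X i), ?_, ?_⟩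
  · have h2 : (aeval (fun i => φ (X i)) : MvPolynomial (Fin n) k →ₐ[k] Localization.Away f).toRingHom
        = φ := by
      refine MvPolynomial.ringHom_ext (fun r => ?_) fun i => ?_
      · change (aeval (fun i => φ (X i)) : MvPolynomial (Fin n) k →ₐ[k] Localization.Away f) (C r) = _
        rw [aeval_C]
        exact (RingHom.congr_fun hgC r).symm
      · change (aeval (fun i => φ (X i)) : MvPolynomial (Fin n) k →ₐ[k] Localization.Away f) (X i) = _
        rw [aeval_X]
    rw [h2]
    exact hg
  · intro g hg'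
    have h3 := h1 g hg'
    subst h3
    refine ⟨1, fun j => ?_⟩
    have h4 : ∀ z, awayMap (1 : B ≃ₐ[k] B) f rfl z = z := by
      intro z
      have : awayMap (1 : B ≃ₐ[k] B) f rfl = RingHom.id _ := by
        refine IsLocalization.ringHom_ext (Submonoid.powers f) (RingHom.ext fun b => ?_)
        have h5 : awayMap (1 : B ≃ₐ[k] B) f rfl (algebraMap B _ b) =
            algebraMap B _ ((1 : B ≃ₐ[k] B) b) := IsLocalization.map_eq _ b
        exact h5
      rw [this, RingHom.id_apply]
    refine (h4 _).trans ?_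
    simp only [Matrix.one_apply, ite_smul, one_smul, zero_smul, Finset.sum_ite_eq',
      Finset.mem_univ, if_true]

/-- Linear étale coordinates in the fraction field. -/
theorem exists_etLin (G : Subgroup (B ≃ₐ[k] B)) [Finite G] (P : Ideal B) [P.IsPrime]
    (h : LinearAt G P) (P' : Ideal (copy k B))
    (hP' : ∀ (b : B) (hb : algebraMap B (FractionRing B) b ∈ copy k B),
      (⟨_, hb⟩ : copy k B) ∈ P' ↔ b ∈ P) :
    Nonempty (EtLin (G := G) (copy k B) (fracHom.comp G.subtype) P'
      ((inertiaGroup G P).subgroupOf G)) := by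
  classical
  obtain ⟨f, hf, hfP, n, x, het, hA⟩ := h
  have hf0 : f ≠ 0 := by
    rintro rfl
    exact hfP (Ideal.zero_mem _)
  let χ : MvPolynomial (Fin n) k →ₐ[k] FractionRing B := (awayIncl (k := k) f hf0).comp (aeval x)
  have hnt : Nontrivial (Localization.Away f) :=
    (awayIncl (k := k) f hf0).toRingHom.domain_nontrivial
  have hχ : Function.Injective χ :=
    (awayIncl_injective (k := k) f hf0).comp (injective_of_etale _ het)
  have hχX : ∀ i, χ (X i) = awayIncl (k := k) f hf0 (x i) := fun i => by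
    change awayIncl (k := k) f hf0 (aeval x (X i)) = _
    rw [aeval_X]
  have hlin : ∀ z, ∃ A : Matrix (Fin n) (Fin n) k, z ∈ (inertiaGroup G P).subgroupOf G →
      ∀ u, fracHom (z : B ≃ₐ[k] B) (χ (linP k n u)) = χ (linP k n (A.mulVec u)) := by
    intro z
    by_cases hz : z ∈ (inertiaGroup G P).subgroupOf G
    · obtain ⟨A, hA'⟩ := hA z hz
      refine ⟨A, fun _ => ?_⟩
      have h1 : (fracHom (z : B ≃ₐ[k] B)).toLinearMap ∘ₗ χ.toLinearMap ∘ₗ linP k n =
          χ.toLinearMap ∘ₗ linP k n ∘ₗ A.mulVecLin := by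
        refine LinearMap.pi_ext' fun j => LinearMap.ext_ring ?_
        change fracEquiv (z : B ≃ₐ[k] B) (χ (linP k n (Pi.single j 1))) =
          χ (linP k n (A.mulVec (Pi.single j 1)))
        rw [linP_single, hχX, ← awayIncl_awayMap f hf0 (z : B ≃ₐ[k] B) (hf z hz), hA',
          map_sum, linP_apply, map_sum]
        refine Finset.sum_congr rfl fun i _ => ?_
        rw [Matrix.mulVec_single_one, map_smul, map_mul, ← hχX, ← algebraMap_eq,
          AlgHom.commutes, Algebra.smul_def]
        rfl
      exact fun u => LinearMap.congr_fun h1 u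
    · exact ⟨1, fun h => absurd h hz⟩
  choose A hA' using hlin
  have hχl : Function.Injective fun u => χ (linP k n u) := by
    intro u v huv
    have h1 := hχ huv
    funext i
    have h2 := congrArg (coeff (Finsupp.single i 1)) h1
    simpa [linP_apply, coeff_sum, coeff_C_mul, coeff_X, Finsupp.single_left_inj] using h2
  let ρ : G → (Fin n → k) →ₗ[k] (Fin n → k) := fun z => (A z).mulVecLin
  have hφ : ∀ z ∈ (inertiaGroup G P).subgroupOf G, ∀ u, fracHom (z : B ≃ₐ[k] B)
      (χ (linP k n u)) = χ (linP k n (ρ z u)) := hA'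
  have hrange : χ.range = Algebra.adjoin k (Set.range (χ.toLinearMap ∘ₗ linP k n)) := by
    refine le_antisymm ?_ ?_
    · rintro _ ⟨z, rfl⟩
      have hz : z ∈ Algebra.adjoin k (Set.range (X : Fin n → MvPolynomial (Fin n) k)) := by
        rw [MvPolynomial.adjoin_range_X]; trivial
      have h1 : (Algebra.adjoin k (Set.range (X : Fin n → MvPolynomial (Fin n) k))).map χ ≤
          Algebra.adjoin k (Set.range (χ.toLinearMap ∘ₗ linP k n)) := by
        rw [AlgHom.map_adjoin, Algebra.adjoin_le_iff]
        rintro _ ⟨_, ⟨i, rfl⟩, rfl⟩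
        apply Algebra.subset_adjoin
        refine ⟨Pi.single i 1, ?_⟩
        change χ (linP k n (Pi.single i 1)) = _
        rw [linP_single]
      exact h1 ⟨z, hz, rfl⟩
    · rw [Algebra.adjoin_le_iff]
      rintro _ ⟨u, rfl⟩
      exact ⟨linP k n u, rfl⟩
  have hle : Algebra.adjoin k (Set.range (χ.toLinearMap ∘ₗ linP k n)) ≤
      awayB (copy k B) (algebraMap B _ f) (mem_copy_algebraMap f) := by
    rw [← hrange]
    rintro _ ⟨z, rfl⟩
    exact awayIncl_mem f hf0 _
  refine ⟨
    { U := Fin n → k
      lin := χ.toLinearMap ∘ₗ linP k n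
      ρ := ρ
      rep :=
        { one := ?_
          mul := ?_ }
      hφ := hφ
      indep := fun b => (indep_linP k n b).map' (f := χ) hχ
      f := algebraMap B _ f
      fB := mem_copy_algebraMap f
      fP := fun h => hfP ((hP' _ _).1 h)
      ff := ?_
      le := hle
      etale := ?_ }⟩
  · refine LinearMap.ext fun u => hχl ?_
    have h1 := hφ 1 (Subgroup.one_mem _) u
    refine h1.symm.trans ?_
    rw [Subgroup.coe_one, map_one]
    rfl
  · intro g hg h hh
    refine LinearMap.ext fun u => hχl ?_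
    change χ (linP k n _) = χ (linP k n (ρ g (ρ h u)))
    rw [← hφ g hg, ← hφ h hh, ← hφ _ (Subgroup.mul_mem _ hg hh), Subgroup.coe_mul, map_mul]
    rfl
  · intro g hg
    change fracEquiv (g : B ≃ₐ[k] B) (algebraMap B _ f) = _
    rw [fracEquiv_algebraMap]
    exact congrArg _ (hf _ hg)
  · let e1 : MvPolynomial (Fin n) k ≃ₐ[k]
        Algebra.adjoin k (Set.range (χ.toLinearMap ∘ₗ linP k n)) :=
      (AlgEquiv.ofInjective χ hχ).trans (Subalgebra.equivOfEq _ _ hrange)
    let e2 : Localization.Away f ≃+*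
        awayB (copy k B) (algebraMap B _ f) (mem_copy_algebraMap (k := k) f) :=
      (awayEquiv (k := k) f hf0).toRingEquiv
    have h1 := RingHom.Etale.respectsIso.2 _ e1.symm.toRingEquiv het
    have h2 := RingHom.Etale.respectsIso.1 _ e2 h1
    convert h2 using 1
    refine RingHom.ext fun z => ?_
    obtain ⟨x', rfl⟩ := e1.surjective z
    refine Subtype.ext ?_
    change χ x' = awayIncl (k := k) f hf0 (aeval x (e1.symm (e1 x')))
    rw [AlgEquiv.symm_apply_apply]; rfl

/-- Theorem X. -/
theorem hasResolution_etaleLinear (p : ℕ) [Fact p.Prime] [Infinite k] [CharP k p]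
    [Algebra.Smooth k B] (G : Subgroup (B ≃ₐ[k] B)) [Finite G]
    (hlin : ∀ P : Ideal B, P.IsMaximal → inertiaGroup G P ≠ ⊥ → LinearAt G P)
    (hp : ∀ P : Ideal B, P.IsMaximal → ¬ p ^ 2 ∣ Nat.card (inertiaGroup G P)) :
    HasResolution k (FixedPoints.subalgebra k B G) := by
  classical
  let φ : G →* (FractionRing B ≃ₐ[k] FractionRing B) := fracHom.comp G.subtype
  have hφ : ∀ (g : G) (b : B), φ g (algebraMap B (FractionRing B) b) =
      algebraMap B (FractionRing B) ((g : B ≃ₐ[k] B) b) := fun g b => fracEquiv_algebraMap _ b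
  have hinjK := IsFractionRing.injective B (FractionRing B)
  have hinj : Function.Injective φ := by
    intro g h hgh
    refine Subtype.ext (AlgEquiv.ext fun b => hinjK ?_)
    rw [← hφ, ← hφ, hgh]
  have hst : ∀ g, ∀ b ∈ copy k B, φ g b ∈ copy k B := fun g => copy_stable _
  have hfg : (copy k B).FG := copy_fg
  have hfr : ∀ z : FractionRing B, ∃ a ∈ copy k B, ∃ b ∈ copy k B, b ≠ 0 ∧ z * b = a :=
    exists_mul_eq
  have hsys := filSys_can hst hinj hfr
  have hc : Ctx (copy k B) φ (can (copy k B) φ) p :=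
    { hp := Fact.out
      fg := hfg
      sys := hsys
      inj := hinj
      model := by
        intro P' hP'
        obtain ⟨P₁, hP₁, hle⟩ := Ideal.exists_le_maximal P' hP'.ne_top
        let P : Ideal B := P₁.comap (copyEquiv k B)
        have hPm : P.IsMaximal := Ideal.comap_isMaximal_of_equiv (copyEquiv k B)
        have hcard : Nat.card ((inertiaGroup G P).subgroupOf G) =
            Nat.card (inertiaGroup G P) :=
          Nat.card_congr (Subgroup.subgroupOfEquivOfLe (H := inertiaGroup G P) (K := G)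
            fun g hg => hg.1).toEquiv
        refine ⟨(inertiaGroup G P).subgroupOf G, by rw [hcard]; exact hp P hPm, ?_⟩
        have hlin' : LinearAt G P := by
          by_cases h : inertiaGroup G P = ⊥
          · exact linearAt_of_bot G P h
          · exact hlin P hPm h
        have hmem : ∀ (b : B) (hb : algebraMap B (FractionRing B) b ∈ copy k B),
            (⟨_, hb⟩ : copy k B) ∈ P₁ ↔ b ∈ P := fun b hb => Iff.rfl
        obtain ⟨E⟩ := exists_etLin G P hlin' P₁ hmem
        have hdiff : ∀ (g : G) (b : B), φ g (algebraMap B (FractionRing B) b) -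
            algebraMap B (FractionRing B) b =
            algebraMap B (FractionRing B) ((g : B ≃ₐ[k] B) b - b) := by
          intro g b
          rw [hφ, map_sub]
        have htriv : Triv φ P₁ ((inertiaGroup G P).subgroupOf G) := by
          rintro g hg _ ⟨b, rfl⟩
          have h1 : φ g (algebraMap B (FractionRing B) b) - algebraMap B (FractionRing B) b ∈
              copy k B := ⟨_, (hdiff g b).symm⟩
          refine ⟨h1, ?_⟩
          have h2 := (hmem ((g : B ≃ₐ[k] B) b - b) ⟨_, rfl⟩).2 (hg.2 b)
          convert h2 using 2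
          exact hdiff g b
        have hmax : ∀ g, (∀ b ∈ copy k B, ∃ h : φ g b - b ∈ copy k B,
            (⟨φ g b - b, h⟩ : copy k B) ∈ P₁) → g ∈ (inertiaGroup G P).subgroupOf G := by
          intro g hg
          refine ⟨g.2, fun b => ?_⟩
          obtain ⟨h1, h2⟩ := hg (algebraMap B (FractionRing B) b) ⟨b, rfl⟩
          refine (hmem ((g : B ≃ₐ[k] B) b - b) ⟨_, rfl⟩).1 ?_
          convert h2 using 2
          exact (hdiff g b).symm
        exact nonempty_LM_of_le hsys hle
          (nonempty_LM Fact.out hst hinj hfg hfr htriv hmax E) }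
  obtain ⟨M, hM, h0⟩ := exists_goodC hc
  refine hasResolution_of_goodC_one k _ (FractionRing B) ?_ M hM ?_
  · exact hinjK.comp Subtype.val_injective
  · intro z
    rw [h0]
    constructor
    · rintro ⟨⟨b, rfl⟩, hz⟩
      refine ⟨⟨b, mem_fixedPoints.2 fun g hg => ?_⟩, rfl⟩
      exact hinjK ((hφ ⟨g, hg⟩ b).symm.trans (hz ⟨g, hg⟩))
    · rintro ⟨x, rfl⟩
      refine ⟨⟨x, rfl⟩, fun g => ?_⟩
      change φ g (algebraMap B _ (x : B)) = algebraMap B _ (x : B)
      rw [hφ]
      exact congrArg _ (mem_fixedPoints.1 x.2 g g.2)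

end Pool.Agent.MP_b525bf_ag_X
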