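import Pool.Agent.Lib.MP_b525bf_ag_X.Final
import Pool.Agent.Lib.MP_b525bf_ag_X.Tame

/-!
# Theorem X for algebraically closed fields: linearity only at the wild points
-/

set_option autoImplicit false

namespace Pool.Agent.MP_b525bf_ag_X

open Pool.Agent.MP_b525bf_ag Pool.Agent.MP_b525bf_ag_W

variable {k B : Type} [Field k] [CommRing B] [IsDomain B] [Algebra k B]

/-- Theorem X for algebraically closed fields: only the wild inertia groups are assumed to act
linearly in étale coordinates. -/
theorem hasResolution_etaleLinear_wild (p : ℕ) [Fact p.Prime] [IsAlgClosed k] [CharP k p]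
    [Algebra.Smooth k B] (G : Subgroup (B ≃ₐ[k] B)) [Finite G]
    (hlin : ∀ P : Ideal B, P.IsMaximal → p ∣ Nat.card (inertiaGroup G P) → LinearAt G P)
    (hp : ∀ P : Ideal B, P.IsMaximal → ¬ p ^ 2 ∣ Nat.card (inertiaGroup G P)) :
    HasResolution k (FixedPoints.subalgebra k B G) := by
  have hinf : Infinite k := IsAlgClosed.instInfinite
  refine hasResolution_etaleLinear p G (fun P hP _ => ?_) hp
  by_cases h : p ∣ Nat.card (inertiaGroup G P)
  · exact hlin P hP h
  · have hle : inertiaGroup G P ≤ G := fun g hg => hg.1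
    have hfin : Finite (inertiaGroup G P) :=
      Finite.of_injective (Subgroup.inclusion hle) (Subgroup.inclusion_injective hle)
    exact exists_linear_coords_of_tame P (inertiaGroup G P) (fun g hg => hg.2)
      (fun h0 => h ((CharP.cast_eq_zero_iff k p _).1 h0))

/-- Theorem X, both forms in one. -/
theorem hasResolution_etaleLinear_all (p : ℕ) [Fact p.Prime] [Infinite k] [CharP k p]
    [Algebra.Smooth k B] (G : Subgroup (B ≃ₐ[k] B)) [Finite G]
    (hlin : ∀ P : Ideal B, P.IsMaximal → inertiaGroup G P ≠ ⊥ →
      (IsAlgClosed k → p ∣ Nat.card (inertiaGroup G P)) → LinearAt G P)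
    (hp : ∀ P : Ideal B, P.IsMaximal → ¬ p ^ 2 ∣ Nat.card (inertiaGroup G P)) :
    HasResolution k (FixedPoints.subalgebra k B G) := by
  by_cases hk : IsAlgClosed k
  · refine hasResolution_etaleLinear_wild p G (fun P hP hpP => hlin P hP ?_ fun _ => hpP) hp
    intro h
    rw [h, Subgroup.card_bot] at hpP
    exact (Fact.out : p.Prime).one_lt.ne' (Nat.dvd_one.1 hpP)
  · exact hasResolution_etaleLinear p G (fun P hP h => hlin P hP h fun h' => absurd h' hk) hp

end Pool.Agent.MP_b525bf_ag_X
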