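import Mathlib

/-!
# Y7, second part: an étale criterion for local coordinates
-/

set_option autoImplicit false

namespace Pool.Agent.MP_b525bf_ag_X

open TensorProduct KaehlerDifferential IsLocalRing

/-- A homomorphism of algebras, the second one formally smooth, which maps a basis of the
differentials to a basis is formally étale. -/
theorem formallyEtale_of_basis {k A S : Type} [CommRing k] [CommRing A] [CommRing S] [Algebra k A]
    [Algebra A S] [Algebra k S] [IsScalarTower k A S] [Algebra.FormallySmooth k S] {ι : Type}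
    (bA : Module.Basis ι A Ω[A⁄k]) (bS : Module.Basis ι S Ω[S⁄k])
    (h : ∀ i, mapBaseChange k A S (1 ⊗ₜ bA i) = bS i) : Algebra.FormallyEtale A S := by
  have hbij : Function.Bijective (mapBaseChange k A S) := by
    let b1 : Module.Basis ι S (S ⊗[A] Ω[A⁄k]) := bA.baseChange S
    have h1 : mapBaseChange k A S = (b1.equiv bS (Equiv.refl ι)).toLinearMap := by
      refine b1.ext fun i => ?_
      rw [LinearEquiv.coe_coe, Module.Basis.equiv_apply, Equiv.refl_apply,
        Module.Basis.baseChange_apply, h]
    rw [h1]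
    exact (b1.equiv bS (Equiv.refl ι)).bijective
  rw [Algebra.formallyEtale_iff]
  constructor
  · have h2 := KaehlerDifferential.exact_mapBaseChange_map k A S
    refine ⟨fun a b => ?_⟩
    obtain ⟨a, rfl⟩ := KaehlerDifferential.map_surjective k A S a
    obtain ⟨b, rfl⟩ := KaehlerDifferential.map_surjective k A S b
    obtain ⟨a, rfl⟩ := hbij.2 a
    obtain ⟨b, rfl⟩ := hbij.2 b
    rw [(h2 _).2 ⟨a, rfl⟩, (h2 _).2 ⟨b, rfl⟩]
  · have h2 := Algebra.H1Cotangent.exact_map_δ k A S
    have h3 := Algebra.H1Cotangent.exact_δ_mapBaseChange k A S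
    have h0 : Subsingleton (Algebra.H1Cotangent k S) := inferInstance
    refine ⟨fun a b => ?_⟩
    have h4 : ∀ a : Algebra.H1Cotangent A S, a = 0 := by
      intro a
      have h5 : Algebra.H1Cotangent.δ k A S a = 0 := by
        apply hbij.1
        rw [map_zero]
        exact (h3 _).2 ⟨a, rfl⟩
      obtain ⟨c, rfl⟩ := (h2 a).1 h5
      rw [Subsingleton.elim c 0, map_zero]
    rw [h4 a, h4 b]

/-- Elements of the maximal ideal which are a basis of the cotangent space have differentials
which are a basis. -/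
theorem exists_basis_kaehler {k S : Type} [Field k] [CommRing S] [IsLocalRing S] [Algebra k S]
    [Algebra.FormallySmooth k S] [Module.FinitePresentation S Ω[S⁄k]]
    (hres : ∀ s : S, ∃ c : k, s - algebraMap k S c ∈ maximalIdeal S) {ι : Type} [Fintype ι]
    (x : ι → S) (hx : ∀ i, x i ∈ maximalIdeal S)
    (h1 : ∀ b ∈ maximalIdeal S, ∃ c : ι → k, b - ∑ i, c i • x i ∈ maximalIdeal S ^ 2)
    (h2 : ∀ c : ι → k, ∑ i, c i • x i ∈ maximalIdeal S ^ 2 → c = 0) :
    ∃ b : Module.Basis ι S Ω[S⁄k], ∀ i, b i = D k S (x i) := by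
  classical
  set κ := ResidueField S with hκ
  have hsurj : Function.Surjective (algebraMap S κ) := residue_surjective
  have hker : RingHom.ker (algebraMap S κ) = maximalIdeal S := ker_residue
  have hkκ : Function.Bijective (algebraMap k κ) := by
    refine ⟨(algebraMap k κ).injective, fun z => ?_⟩
    obtain ⟨s, rfl⟩ := hsurj z
    obtain ⟨c, hc⟩ := hres s
    refine ⟨c, ?_⟩
    rw [← hker, RingHom.mem_ker, map_sub, sub_eq_zero] at hc
    rw [hc, IsScalarTower.algebraMap_apply k S κ]
  have hbk : Algebra.FormallyEtale k κ := by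
    let e : k ≃ₐ[k] κ := AlgEquiv.ofBijective (Algebra.ofId k κ) hkκ
    exact Algebra.FormallyEtale.of_equiv e
  have hsm : Algebra.FormallySmooth k κ := inferInstance
  obtain ⟨l, hl⟩ := (Algebra.FormallySmooth.iff_split_injection (R := k) (P := S) (A := κ) hsurj).1
    hsm
  have hinj : Function.Injective (kerCotangentToTensor k S κ) := by
    intro a b hab
    have := congrArg l hab
    rwa [← LinearMap.comp_apply, ← LinearMap.comp_apply, hl] at this
  have hsub : Subsingleton Ω[κ⁄k] := inferInstance
  have hsurj' : Function.Surjective (kerCotangentToTensor k S κ) := by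
    intro t
    exact (exact_kerCotangentToTensor_mapBaseChange k S κ hsurj t).1 (Subsingleton.elim _ _)
  have hxk : ∀ i, x i ∈ RingHom.ker (algebraMap S κ) := fun i => by rw [hker]; exact hx i
  have hcot : ∀ c : ι → k, ∀ hc : ∑ i, c i • x i ∈ RingHom.ker (algebraMap S κ),
      kerCotangentToTensor k S κ (Ideal.toCotangent _ ⟨∑ i, c i • x i, hc⟩) =
        ∑ i, algebraMap k κ (c i) • ((1 : κ) ⊗ₜ[S] D k S (x i)) := by
    intro c hc
    rw [kerCotangentToTensor_toCotangent]
    simp only [map_sum, TensorProduct.tmul_sum]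
    refine Finset.sum_congr rfl fun i _ => ?_
    rw [Derivation.map_smul_of_tower, algebraMap_smul, TensorProduct.tmul_smul]
  have hsumk : ∀ c : ι → k, ∑ i, c i • x i ∈ RingHom.ker (algebraMap S κ) := by
    intro c
    refine Submodule.sum_mem _ fun i _ => ?_
    rw [Algebra.smul_def]
    exact Ideal.mul_mem_left _ _ (hxk i)
  refine Module.exists_basis_of_basis_baseChange (fun i => D k S (x i)) ?_ ?_
    (Module.Flat.rTensor_preserves_injective_linearMap (maximalIdeal S).subtype
      Subtype.val_injective)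
  · rw [Fintype.linearIndependent_iff]
    intro a ha
    choose c hc using fun i => hkκ.2 (a i)
    have h3 : ∑ i, algebraMap k κ (c i) • ((1 : κ) ⊗ₜ[S] D k S (x i)) = 0 := by
      rw [← ha]
      refine Finset.sum_congr rfl fun i _ => ?_
      rw [hc]
      rfl
    rw [← hcot c (hsumk c)] at h3
    have h4 : Ideal.toCotangent _ ⟨∑ i, c i • x i, hsumk c⟩ = 0 := by
      apply hinj
      rw [h3, map_zero]
    rw [Ideal.toCotangent_eq_zero] at h4
    have h5 : c = 0 := h2 c (by rw [← hker]; exact h4)
    intro i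
    rw [← hc, h5, Pi.zero_apply, map_zero]
  · rw [eq_top_iff]
    intro t _
    obtain ⟨z, rfl⟩ := hsurj' t
    obtain ⟨⟨y, hy⟩, rfl⟩ := Ideal.toCotangent_surjective _ z
    obtain ⟨c, hc⟩ := h1 y (by rw [← hker]; exact hy)
    have h3 : Ideal.toCotangent _ (⟨y, hy⟩ : RingHom.ker (algebraMap S κ)) =
        Ideal.toCotangent _ ⟨∑ i, c i • x i, hsumk c⟩ := by
      rw [Ideal.toCotangent_eq]
      change y - ∑ i, c i • x i ∈ RingHom.ker (algebraMap S κ) ^ 2
      rw [hker]
      exact hc
    rw [h3, hcot]
    refine Submodule.sum_mem _ fun i _ => Submodule.smul_mem _ _ (Submodule.subset_span ⟨i, rfl⟩)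

end Pool.Agent.MP_b525bf_ag_X
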