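import Pool.Agent.Lib.MP_b525bf_ag_X.Defs

/-!
# Y1: the canonical filtrations
-/

set_option autoImplicit false

namespace Pool.Agent.MP_b525bf_ag_X

open Pool.Agent.MP_b525bf_ag Pool.Agent.MP_b525bf_ag_W

variable {k K G : Type} [Field k] [Field K] [Algebra k K] [Group G]

/-- The closure properties of the filtration with index `E`. -/
structure Clo (B : Subalgebra k K) (φ : G →* (K ≃ₐ[k] K)) (E : Idx G) (Φ : ℕ → Submodule k K) :
    Prop where
  le : ∀ m, Φ m ≤ Subalgebra.toSubmodule B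
  zero : Φ 0 = Subalgebra.toSubmodule B
  anti : ∀ m, Φ (m + 1) ≤ Φ m
  mul : ∀ m m' x y, x ∈ Φ m → y ∈ Φ m' → x * y ∈ Φ (m + m')
  one : ∀ h ∈ E.grp, ∀ b ∈ B, φ h b - b ∈ Φ 1
  diff : ∀ P N, E = Idx.w P N → ∀ s ∈ P, ∀ m, ∀ x ∈ Φ m, φ s x - x ∈ Φ (m + 1)

/-- The canonical filtration: the smallest one with the closure properties. -/
def can (B : Subalgebra k K) (φ : G →* (K ≃ₐ[k] K)) (E : Idx G) (m : ℤ) : Submodule k K :=
  ⨅ (Φ : ℕ → Submodule k K) (_ : Clo B φ E Φ), Φ m.toNat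

theorem can_le {B : Subalgebra k K} {φ : G →* (K ≃ₐ[k] K)} {E : Idx G} {Φ : ℕ → Submodule k K}
    (h : Clo B φ E Φ) (m : ℕ) : can B φ E m ≤ Φ m := by
  unfold can
  exact (iInf₂_le Φ h).trans (le_of_eq (by rw [Int.toNat_natCast]))

/-- The constant filtration has the closure properties. -/
theorem clo_const {B : Subalgebra k K} {φ : G →* (K ≃ₐ[k] K)}
    (hst : ∀ g, ∀ b ∈ B, φ g b ∈ B) (E : Idx G) :
    Clo B φ E (fun _ => Subalgebra.toSubmodule B) where
  le _ := le_rfl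
  zero := rfl
  anti _ := le_rfl
  mul _ _ _ _ hx hy := B.mul_mem hx hy
  one h _ b hb := B.sub_mem (hst h b hb) hb
  diff _ _ _ s _ _ x hx := B.sub_mem (hst s x hx) hx

theorem mem_can {B : Subalgebra k K} {φ : G →* (K ≃ₐ[k] K)} {E : Idx G} {m : ℤ} {x : K} :
    x ∈ can B φ E m ↔ ∀ Φ : ℕ → Submodule k K, Clo B φ E Φ → x ∈ Φ m.toNat := by
  simp only [can, Submodule.mem_iInf]

theorem Clo.antitone {B : Subalgebra k K} {φ : G →* (K ≃ₐ[k] K)} {E : Idx G}
    {Φ : ℕ → Submodule k K} (h : Clo B φ E Φ) : Antitone Φ := antitone_nat_of_succ_le h.anti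

/-- The pullback of a filtration with index `E.cj g` is a filtration with index `E`. -/
theorem Clo.comap {B : Subalgebra k K} {φ : G →* (K ≃ₐ[k] K)}
    (hst : ∀ g, ∀ b ∈ B, φ g b ∈ B) {E : Idx G} (g : G)
    {Φ : ℕ → Submodule k K} (h : Clo B φ (E.cj g) Φ) :
    Clo B φ E (fun m => (Φ m).comap (φ g).toLinearMap) := by
  have hback : ∀ x, φ g x ∈ B → x ∈ B := by
    intro x hx
    have := hst g⁻¹ _ hx
    rwa [← AlgEquiv.mul_apply, ← map_mul, inv_mul_cancel, map_one, AlgEquiv.one_apply] at this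
  have hconj : ∀ s x, φ g (φ s x - x) = φ (g * s * g⁻¹) (φ g x) - φ g x := by
    intro s x
    rw [map_sub, ← AlgEquiv.mul_apply, ← AlgEquiv.mul_apply, ← map_mul, ← map_mul]
    simp
  refine ⟨?_, ?_, ?_, ?_, ?_, ?_⟩
  · intro m x hx
    exact hback x (h.le m hx)
  · refine le_antisymm ?_ ?_
    · intro x hx
      exact hback x (h.le 0 hx)
    · intro x hx
      change φ g x ∈ Φ 0
      rw [h.zero]
      exact hst g x hx
  · intro m x hx
    exact h.anti m hx
  · intro m m' x y hx hy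
    change φ g (x * y) ∈ Φ (m + m')
    rw [map_mul]
    exact h.mul m m' _ _ hx hy
  · intro s hs b hb
    change φ g (φ s b - b) ∈ Φ 1
    rw [hconj]
    refine h.one _ ?_ _ (hst g b hb)
    cases E with
    | t N => exact ⟨s, hs, rfl⟩
    | w P N => exact ⟨s, hs, rfl⟩
  · intro P N hE s hs m x hx
    change φ g (φ s x - x) ∈ Φ (m + 1)
    rw [hconj]
    subst hE
    exact h.diff (MP_b525bf_ag_W.cj g P) (MP_b525bf_ag_W.cj g N) rfl _ ⟨s, hs, rfl⟩ m _ hx

/-- The canonical filtrations form a system of filtrations. -/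
theorem filSys_can [Finite G] {B : Subalgebra k K} {φ : G →* (K ≃ₐ[k] K)}
    (hst : ∀ g, ∀ b ∈ B, φ g b ∈ B) (hinj : Function.Injective φ)
    (hfr : ∀ z : K, ∃ a ∈ B, ∃ b ∈ B, b ≠ 0 ∧ z * b = a) : FilSys B φ (can B φ) := by
  have hle : ∀ E m, can B φ E m ≤ Subalgebra.toSubmodule B := by
    intro E m x hx
    exact mem_can.1 hx _ (clo_const hst E)
  refine ⟨hst, hle, ?_, ?_, ?_, ?_, ?_, ?_, ?_, ?_⟩
  · intro E m hm
    refine le_antisymm (hle E m) ?_
    intro x hx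
    refine mem_can.2 fun Φ hΦ => ?_
    rw [Int.toNat_of_nonpos hm, hΦ.zero]
    exact hx
  · intro E m m' hmm x hx
    refine mem_can.2 fun Φ hΦ => ?_
    exact hΦ.antitone (Int.toNat_le_toNat hmm) (mem_can.1 hx Φ hΦ)
  · intro E m m' x y hx hy
    refine mem_can.2 fun Φ hΦ => ?_
    refine hΦ.antitone ?_ (hΦ.mul _ _ _ _ (mem_can.1 hx Φ hΦ) (mem_can.1 hy Φ hΦ))
    omega
  · intro g E m x hx
    refine mem_can.2 fun Φ hΦ => ?_
    exact mem_can.1 hx _ (hΦ.comap hst g)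
  · intro E h hh b hb
    refine mem_can.2 fun Φ hΦ => ?_
    exact hΦ.one h hh b hb
  · intro P N s hs m x hx
    refine mem_can.2 fun Φ hΦ => ?_
    rcases lt_or_ge m 0 with hm | hm
    · rw [Int.toNat_of_nonpos (by omega), hΦ.zero]
      have hxB : x ∈ B := hle _ _ hx
      exact B.sub_mem (hst s x hxB) hxB
    · have e : (m + 1).toNat = m.toNat + 1 := by omega
      rw [e]
      exact hΦ.diff P N rfl s hs _ x (mem_can.1 hx Φ hΦ)
  · intro P N m x hx
    refine mem_can.2 fun Φ hΦ => ?_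
    exact mem_can.1 hx Φ ⟨hΦ.le, hΦ.zero, hΦ.anti, hΦ.mul, hΦ.one, fun _ _ h => by cases h⟩
  · intro E hE
    obtain ⟨a0, ha0⟩ := Subgroup.ne_bot_iff_exists_ne_one.1 hE
    obtain ⟨h, hh, hne⟩ : ∃ h, h ∈ E.grp ∧ h ≠ 1 :=
      ⟨a0.1, a0.2, fun e => ha0 (Subtype.ext e)⟩
    have hex : ∃ b ∈ B, φ h b ≠ b := by
      by_contra hcon
      push Not at hcon
      apply hne
      apply hinj
      rw [map_one]
      refine AlgEquiv.ext fun z => ?_
      obtain ⟨a, ha, b, hb, hb0, hz⟩ := hfr z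
      have h1 : φ h z * b = z * b := by
        have h2 : φ h (z * b) = z * b := by rw [hz]; exact hcon a ha
        rw [map_mul, hcon b hb] at h2
        exact h2
      exact mul_right_cancel₀ hb0 h1
    obtain ⟨b, hb, hbne⟩ := hex
    refine ⟨φ h b - b, mem_can.2 fun Φ hΦ => hΦ.one h hh b hb, sub_ne_zero.2 hbne⟩

end Pool.Agent.MP_b525bf_ag_X
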