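import Pool.Agent.Lib.MP_b525bf_ag_X.Local
import Pool.Agent.Lib.MP_b525bf_ag_X.Grp
import Pool.Agent.Lib.MP_b525bf_ag_W.Chart

/-!
# X3: charts
-/

set_option autoImplicit false

namespace Pool.Agent.MP_b525bf_ag_X

open Pool.Agent.MP_b525bf_ag Pool.Agent.MP_b525bf_ag_W Module AddMonoidAlgebra

variable {k K G ι : Type} [Field k] [Field K] [Algebra k K] [Group G] [Finite G] [AddCommGroup ι]
  {B : Subalgebra k K} {φ : G →* (K ≃ₐ[k] K)} {F : Idx G → ℤ → Submodule k K} {p : ℕ}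
  {l : Idx G → ι →+ ℤ} {e : Idx G → ι} {S : Set (Idx G)}

omit [Finite G] in
/-- Smoothness from charts. -/
theorem smooth_of_charts [Module.Free ℤ ι] [Module.Finite ℤ ι] (hF : FilSys B φ F)
    (M : Fam k K ι) (a : ι) (hfg : M.alg.FG) (h0 : M.s 0 = Subalgebra.toSubmodule B)
    (hB : ∀ d, M.s d ≤ Subalgebra.toSubmodule B)
    (hch : ∀ (q : Ideal M.alg) [q.IsPrime], Semi M a q → ∃ (P : Ideal B) (_ : P.IsPrime)
      (H : Subgroup G) (Λ : LM p φ F P H) (S : Set (Idx G)), Under M q P ∧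
      (∀ E ∈ S, Adm p H E) ∧ AdaptedTo (flg Λ.ρ) S ∧ Dual l e S ∧
      (∀ E ∈ S, ∀ d, M.s d ≤ F E (l E d)) ∧ ∀ d, CT F P l S d ⊆ (atP M q).s d) :
    ∀ n : ℕ, 0 < n → ∀ (x : K) (hx : x ∈ M.s (n • a)), x ≠ 0 →
      Algebra.FormallySmooth k (M.loc hx).alg := by
  intro n hn x hx hx0
  refine M.formallySmooth_loc_of_cover hfg hx hx0 fun q _ hq => ?_
  obtain ⟨P, _, H, Λ, S, _, hS, had, hdual, hle, hle'⟩ := hch q ⟨n, hn, x, hx, hq⟩
  obtain ⟨C, hCfg, hCsm, hC1, hC2, -⟩ := Λ.smooth ι l e S hS had hdual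
  have hMC : ∀ d, M.s d ≤ C.s d := fun d y hy => hC2 d y (hB d hy) fun E hE => hle E hE d hy
  have hCq : ∀ d, C.s d ≤ (atP M q).s d := fun d y hy => hle' d (hC1 d y hy)
  obtain ⟨c, f, hf, hfq, hf'⟩ := exists_loc_le M q C hCfg hCq
  refine ⟨c, f, hf, hfq, ?_⟩
  have hf0 : f ≠ 0 := by
    rintro rfl
    apply hfq
    have : M.el hf = 0 := Subtype.ext (by simp)
    rw [this]; exact Ideal.zero_mem _
  have h1 : Algebra.FormallySmooth k (M.loc hf).alg := by
    rw [← loc_eq_of_le (C := C) hf hMC hf']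
    exact Fam.formallySmooth_loc _ _ hf0 hCsm
  rw [loc_congr M (M.mul' hx hf) (M.mul' hf hx) (add_comm _ _) (mul_comm _ _)]
  exact Fam.formallySmooth_loc_mul M hf hx hx0 h1

/-- Blueprint 0.4. -/
theorem chart_drop (hF : FilSys B φ F) {M : Fam k K ι} {q : Ideal M.alg} [q.IsPrime]
    {P : Ideal B} [P.IsPrime] (hdual : Dual l e S)
    (hch : ∀ d, CT F P l S d ⊆ (atP M q).s d) (T : Set (Idx G))
    (hT : ∀ E ∈ S, E ∉ T → (1 : K) ∈ (atP M q).s (e E)) (d : ι) :
    CT F P l (S ∩ T) d ⊆ (atP M q).s d := by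
  classical
  intro y hy
  rw [mem_CT hF] at hy
  have hS : S.Finite := Set.toFinite S
  let Fs : Finset (Idx G) := hS.toFinset.filter (· ∉ T)
  have hFs : ∀ {E}, E ∈ Fs ↔ E ∈ S ∧ E ∉ T := by intro E; simp [Fs]
  let c : ι := ∑ E ∈ Fs, (l E d).natAbs • e E
  have h1 : (1 : K) ∈ (atP M q).s c := by
    refine Finset.sum_induction _ (fun c => (1 : K) ∈ (atP M q).s c) ?_ (atP M q).one' ?_
    · intro a b ha hb
      simpa using (atP M q).mul' ha hb
    · intro E hE
      simpa using (atP M q).pow' (hT E (hFs.1 hE).1 (hFs.1 hE).2) (l E d).natAbs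
  have hlc : ∀ E ∈ S, l E c = if E ∈ T then 0 else ((l E d).natAbs : ℤ) := by
    intro E hE
    rw [map_sum]
    split_ifs with hET
    · refine Finset.sum_eq_zero fun E' hE' => ?_
      have hne : E ≠ E' := by rintro rfl; exact (hFs.1 hE').2 hET
      rw [map_nsmul, hdual.ne E hE E' (hFs.1 hE').1 hne, smul_zero]
    · rw [Finset.sum_eq_single E]
      · rw [map_nsmul, hdual.self E hE]; simp
      · intro E' hE' hne
        rw [map_nsmul, hdual.ne E hE E' (hFs.1 hE').1 hne.symm, smul_zero]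
      · intro h; exact absurd (hFs.2 ⟨hE, hET⟩) h
  have h2 : y ∈ CT F P l S (d - c) := by
    rw [mem_CT hF]
    refine ⟨hy.1, fun E hE => ?_⟩
    rw [map_sub, hlc E hE]
    split_ifs with hET
    · rw [sub_zero]; exact hy.2 E ⟨hE, hET⟩
    · exact lc_nonpos hF (by omega) hy.1
  have h3 := (atP M q).mul' (hch _ h2) h1
  rwa [mul_one, sub_add_cancel] at h3

/-- Monomials in a chart, with an additional condition for one more flag. -/
theorem chart_span {P : Ideal B} [P.IsPrime] {H : Subgroup G} (hF : FilSys B φ F)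
    (Λ : LM p φ F P H) {E0 : Idx G} (hS : ∀ E ∈ insert E0 S, Adm p H E) {β : Set Λ.U}
    (hβ : IsBasis k β) (had : ∀ E ∈ insert E0 S, ∀ m, Adapted β (flg Λ.ρ E m)) {d : ι} {m : ℤ}
    {y : K} (hy : y ∈ CT F P l S d) (hyv : y ∈ lc P (F E0 m)) :
    y ∈ lspan P {y1 | ∃ t : List Λ.U, (∀ b ∈ t, b ∈ β) ∧
      (∀ E ∈ S, l E d ≤ ((t.map (lev (flg Λ.ρ E))).sum : ℕ)) ∧
      m ≤ ((t.map (lev (flg Λ.ρ E0))).sum : ℕ) ∧ y1 = (t.map Λ.lin).prod} := by
  classical
  rw [mem_CT hF] at hy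
  let m' : Idx G → ℤ := fun E => if E = E0 then (if E0 ∈ S then max (l E0 d) m else m) else l E d
  have h1 : ∀ E ∈ insert E0 S, y ∈ lc P (F E (m' E)) := by
    rintro E (rfl | hE)
    · simp only [m', if_true]
      split_ifs with h
      · rcases max_choice (l E d) m with h2 | h2
        · rw [h2]; exact hy.2 E h
        · rw [h2]; exact hyv
      · exact hyv
    · simp only [m']
      split_ifs with h h2
      · subst h
        rcases max_choice (l E d) m with h2 | h2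
        · rw [h2]; exact hy.2 E hE
        · rw [h2]; exact hyv
      · subst h
        exact hyv
      · exact hy.2 E hE
  obtain ⟨f, hf, hfy, hfS⟩ := mem_lc_inter hF (Set.toFinite (insert E0 S)) hy.1 h1
  have h2 := Λ.span (insert E0 S) hS β hβ had m' y ⟨f, hf, hfy, hfS⟩
  refine Submodule.span_mono ?_ h2
  rintro _ ⟨c, hc, x, ⟨t, ht, hm, rfl⟩, rfl⟩
  refine ⟨c, hc, _, ⟨t, ht, fun E hE => ?_, ?_, rfl⟩, rfl⟩
  · have h3 := hm E (Set.mem_insert_of_mem _ hE)
    refine le_trans ?_ h3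
    simp only [m']
    split_ifs with h h4
    · rw [h]; exact le_max_left _ _
    · subst h; exact absurd hE h4
    · exact le_rfl
  · have h3 := hm E0 (Set.mem_insert _ _)
    refine le_trans ?_ h3
    simp only [m', if_true]
    split_ifs with h
    · exact le_max_right _ _
    · exact le_rfl

theorem l_finsum_mem (hd : Dual l e S) {E : Idx G} (hE : E ∈ S) (n : Idx G → ℕ) :
    l E (∑ᶠ E' ∈ S, n E' • e E') = n E := by
  classical
  have hf : S.Finite := Set.toFinite S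
  rw [finsum_mem_eq_finite_toFinset_sum _ hf, map_sum, Finset.sum_eq_single E]
  · rw [map_nsmul, hd.self E hE, nsmul_eq_mul, mul_one]
  · intro E' hE' hne
    rw [map_nsmul, hd.ne E hE E' (hf.mem_toFinset.1 hE') hne.symm, smul_zero]
  · intro h
    exact absurd (hf.mem_toFinset.2 hE) h

/-- A factor `z` of a unit monomial of the chart is a unit of degree `Σ v_E(z) e_E`. -/
theorem isU_factor (hF : FilSys B φ F) (hp : p.Prime) [CharP k p] {M : Fam k K ι}
    {q : Ideal M.alg} [q.IsPrime] {P : Ideal B} [P.IsPrime] {H : Subgroup G}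
    (Λ : LM p φ F P H) (hS : ∀ E ∈ S, Adm p H E) (hdual : Dual l e S)
    (hch : ∀ d, CT F P l S d ⊆ (atP M q).s d) {t : List Λ.U} (ht : ∀ z ∈ t, z ≠ 0) {d : ι}
    (h : ∀ E ∈ S, l E d ≤ ((t.map (lev (flg Λ.ρ E))).sum : ℕ))
    (hU : IsU (atP M q) d (t.map Λ.lin).prod) {z : Λ.U} (hz : z ∈ t) :
    IsU (atP M q) (∑ᶠ E ∈ S, lev (flg Λ.ρ E) z • e E) (Λ.lin z) := by
  classical
  have hfl : ∀ E ∈ S, IsFlag (flg Λ.ρ E) := fun E hE => isFlag_of_adm Λ.rep hp (hS E hE)
  set dz : ι := ∑ᶠ E ∈ S, lev (flg Λ.ρ E) z • e E with hdz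
  have hperm := List.perm_cons_erase hz
  have h1 : (t.map Λ.lin).prod = Λ.lin z * ((t.erase z).map Λ.lin).prod := by
    rw [(hperm.map Λ.lin).prod_eq, List.map_cons, List.prod_cons]
  have h2 : ∀ E : Idx G, (t.map (lev (flg Λ.ρ E))).sum
      = lev (flg Λ.ρ E) z + ((t.erase z).map (lev (flg Λ.ρ E))).sum := by
    intro E
    rw [(hperm.map _).sum_eq, List.map_cons, List.sum_cons]
  have h3 : Λ.lin z ∈ (atP M q).s dz := by
    apply hch
    have h4 := Λ.prod_mem_CT (l := l) (S := S) hF hS hfl [z]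
      (by intro b hb; rw [List.mem_singleton] at hb; rw [hb]; exact ht z hz) (d := dz) (by
        intro E hE
        rw [hdz, l_finsum_mem hdual hE, List.map_singleton, List.sum_singleton])
    rwa [List.map_singleton, List.prod_singleton] at h4
  have h5 : ((t.erase z).map Λ.lin).prod ∈ (atP M q).s (d - dz) := by
    apply hch
    apply Λ.prod_mem_CT hF hS hfl _ (fun b hb => ht b (List.mem_of_mem_erase hb))
    intro E hE
    have h6 := h E hE
    rw [h2 E] at h6
    rw [map_sub, hdz, l_finsum_mem hdual hE]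
    push_cast at h6 ⊢
    linarith
  have h7 : IsU (atP M q) (dz + (d - dz)) (Λ.lin z * ((t.erase z).map Λ.lin).prod) := by
    rw [← h1, add_sub_cancel]
    exact hU
  exact IsU.of_mul_left h3 h5 h7

end Pool.Agent.MP_b525bf_ag_X
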