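import Pool.Agent.Lib.MP_b525bf_ag_W.Grp
import Pool.Agent.Lib.MP_b525bf_ag_W.Sem

/-!
# Theorem X (the étale-local version of Theorem W): definitions

Blueprint: team-store `b525bf_X_blueprint.md`.
-/

set_option autoImplicit false

namespace Pool.Agent.MP_b525bf_ag_X

open Pool.Agent.MP_b525bf_ag Pool.Agent.MP_b525bf_ag_W AddMonoidAlgebra

section Filtrations

variable {k K G : Type} [Field k] [Field K] [Algebra k K] [Group G]

/-- The global filtrations `F E` of the ring `B` (blueprint X1). -/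
structure FilSys (B : Subalgebra k K) (φ : G →* (K ≃ₐ[k] K)) (F : Idx G → ℤ → Submodule k K) :
    Prop where
  stab : ∀ g, ∀ b ∈ B, φ g b ∈ B
  le : ∀ E m, F E m ≤ Subalgebra.toSubmodule B
  nonpos : ∀ E m, m ≤ 0 → F E m = Subalgebra.toSubmodule B
  anti : ∀ E m m', m ≤ m' → F E m' ≤ F E m
  mul : ∀ E m m' x y, x ∈ F E m → y ∈ F E m' → x * y ∈ F E (m + m')
  cj : ∀ g E m x, x ∈ F E m → φ g x ∈ F (E.cj g) m
  diff_one : ∀ E : Idx G, ∀ h ∈ E.grp, ∀ b ∈ B, φ h b - b ∈ F E 1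
  diff : ∀ P N, ∀ s ∈ P, ∀ m, ∀ x ∈ F (.w P N) m, φ s x - x ∈ F (.w P N) (m + 1)
  t_le : ∀ P N m, F (.t N) m ≤ F (.w P N) m
  ne : ∀ E : Idx G, E.grp ≠ ⊥ → ∃ x ∈ F E 1, x ≠ 0

/-- The complement of a prime ideal of `B`. -/
def cpl {B : Subalgebra k K} (P : Ideal B) : Set K := {f | ∃ h : f ∈ B, (⟨f, h⟩ : B) ∉ P}

/-- The elements of `K` which lie in the subspace `W` of `B` locally at the prime ideal `P`. -/
def lc {B : Subalgebra k K} (P : Ideal B) (W : Submodule k K) : Set K := {y | ∃ f ∈ cpl P, f * y ∈ W}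

/-- The span of a set with coefficients in the local ring at the prime ideal `P`. -/
def lspan {B : Subalgebra k K} (P : Ideal B) (X : Set K) : Submodule k K :=
  Submodule.span k {y | ∃ c ∈ lc P (Subalgebra.toSubmodule B), ∃ x ∈ X, y = c * x}

end Filtrations

section Rep

variable {k U G : Type} [Field k] [AddCommGroup U] [Module k U] [Group G]

/-- `ρ` is a representation of the subgroup `H`. -/
structure PRep (H : Subgroup G) (ρ : G → U →ₗ[k] U) : Prop where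
  one : ρ 1 = LinearMap.id
  mul : ∀ g ∈ H, ∀ h ∈ H, ρ (g * h) = ρ g ∘ₗ ρ h

variable (ρ : G → U →ₗ[k] U)

/-- `A_N`. -/
def AN (N : Subgroup G) : Submodule k U := ⨆ h ∈ N, LinearMap.range (ρ h - LinearMap.id)

/-- `D_P X`. -/
def DP (P : Subgroup G) (X : Submodule k U) : Submodule k U :=
  ⨆ h ∈ P, X.map (ρ h - LinearMap.id)

/-- The flags. -/
def flg : Idx G → ℕ → Submodule k U
  | _, 0 => ⊤
  | .t N, 1 => AN ρ N
  | .t _, _ + 2 => ⊥
  | .w P N, m + 1 => (DP ρ P)^[m] (AN ρ N)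

/-- The index `E` is admissible for the local group `H`. -/
def Adm (p : ℕ) (H : Subgroup G) (E : Idx G) : Prop :=
  E.grp ≤ H ∧ ∀ P N, E = Idx.w P N → P ≤ N ∧ Nat.card P = p

end Rep

/-- A local model of the action near the prime ideal `P` of `B`: the group `H` acts linearly on the
space `U` of local coordinates. -/
structure LM {k K G : Type} [Field k] [Field K] [Algebra k K] [Group G] (p : ℕ)
    {B : Subalgebra k K} (φ : G →* (K ≃ₐ[k] K)) (F : Idx G → ℤ → Submodule k K) (P : Ideal B)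
    (H : Subgroup G) where
  U : Type
  [acg : AddCommGroup U]
  [mod : Module k U]
  [fin : FiniteDimensional k U]
  lin : U →ₗ[k] K
  ρ : G → U →ₗ[k] U
  rep : PRep H ρ
  hφ : ∀ g ∈ H, ∀ u, φ g (lin u) = lin (ρ g u)
  inert : ∀ g, (∀ b ∈ B, ∃ h : φ g b - b ∈ B, (⟨φ g b - b, h⟩ : B) ∈ P) → g ∈ H
  mem : ∀ u, lin u ∈ lc P (Subalgebra.toSubmodule B)
  gen : ∀ E, Adm p H E → ∀ m : ℕ, ∀ u ∈ flg ρ E m, lin u ∈ lc P (F E m)
  span : ∀ S : Set (Idx G), (∀ E ∈ S, Adm p H E) → ∀ β : Set U, IsBasis k β →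
    (∀ E ∈ S, ∀ m, Adapted β (flg ρ E m)) → ∀ (m : Idx G → ℤ) (y : K),
    (∃ f ∈ cpl P, f * y ∈ B ∧ ∀ E ∈ S, f * y ∈ F E (m E)) →
    y ∈ lspan P {y1 | ∃ t : List U, (∀ b ∈ t, b ∈ β) ∧
      (∀ E ∈ S, m E ≤ ((t.map (lev (flg ρ E))).sum : ℕ)) ∧ y1 = (t.map lin).prod}
  smooth : ∀ (ι : Type) [AddCommGroup ι] [Module.Free ℤ ι] [Module.Finite ℤ ι]
    (l : Idx G → ι →+ ℤ) (e : Idx G → ι) (S : Set (Idx G)), (∀ E ∈ S, Adm p H E) →
    AdaptedTo (flg ρ) S → Dual l e S → ∃ C : Fam k K ι, C.alg.FG ∧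
      Algebra.FormallySmooth k C.alg ∧
      (∀ d, ∀ y ∈ C.s d, ∃ f ∈ cpl P, f * y ∈ B ∧ ∀ E ∈ S, f * y ∈ F E (l E d)) ∧
      (∀ d, ∀ y ∈ B, (∀ E ∈ S, y ∈ F E (l E d)) → y ∈ C.s d) ∧
      ∃ hs : ∀ E : S, (1 : K) ∈ C.s (-(e E)), (MvPolynomial.aeval fun E : S => C.el (hs E) :
        MvPolynomial S k →ₐ[k] C.alg).toRingHom.FormallySmooth

attribute [instance] LM.acg LM.mod LM.fin

section Chart

variable {k K G ι : Type} [Field k] [Field K] [Algebra k K] [Group G] [AddCommGroup ι]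

/-- The chart `C_S` in degree `d`, locally at `P`. -/
def CT {B : Subalgebra k K} (F : Idx G → ℤ → Submodule k K) (P : Ideal B) (l : Idx G → ι →+ ℤ)
    (S : Set (Idx G)) (d : ι) : Set K :=
  {y | ∃ f ∈ cpl P, f * y ∈ B ∧ ∀ E ∈ S, f * y ∈ F E (l E d)}

/-- The pieces of the filtration `F_O`. -/
def FOs (F : Idx G → ℤ → Submodule k K) (M : Fam k K ι) (O : Set (Idx G)) (lam : ι →+ ℤ)
    (b : ℕ) (d : ι) : Submodule k K :=
  M.s d ⊓ ⨅ E ∈ O, F E (b + lam d)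

/-- The generators of the Rees family. -/
def rgens (F : Idx G → ℤ → Submodule k K) (M : Fam k K ι) (O : Set (Idx G))
    (lam : ι →+ ℤ) (bmax : ℕ) : Set (AddMonoidAlgebra K (ι × ℤ)) :=
  {Q | ∃ (d : ι), ∃ x ∈ M.s d, Q = single (d, 0) x} ∪ {single (0, -1) 1} ∪
    {Q | ∃ (d : ι) (b : ℕ), 1 ≤ b ∧ b ≤ bmax ∧ ∃ y ∈ FOs F M O lam b d,
      Q = single (d, (b : ℤ)) y}

/-- The ideal `F_E(1)` is contained in the prime `q`. -/
def Cen (F : Idx G → ℤ → Submodule k K) (M : Fam k K ι) (lam : ι →+ ℤ)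
    (q : Ideal M.alg) (E : Idx G) : Prop :=
  ∀ (d : ι) (y : K) (hy : y ∈ M.s d), y ∈ F E (1 + lam d) → M.el hy ∈ q

/-- The Rees family. -/
noncomputable def rees (F : Idx G → ℤ → Submodule k K) (M : Fam k K ι) (O : Set (Idx G))
    (lam : ι →+ ℤ) (bmax : ℕ) : Fam k K (ι × ℤ) :=
  Fam.ofSub (Algebra.adjoin k (rgens F M O lam bmax))

/-- The prime ideal `P` of `B` is the contraction of the prime `q` of `M`. -/
def Under {B : Subalgebra k K} (M : Fam k K ι) (q : Ideal M.alg) (P : Ideal B) : Prop :=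
  ∀ (f : K) (h : f ∈ B) (h' : f ∈ M.s 0), (⟨f, h⟩ : B) ∈ P ↔ M.el h' ∈ q

end Chart

end Pool.Agent.MP_b525bf_ag_X
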