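import Pool.Agent.Lib.MP_b525bf_ag_X.Canon

/-!
# Y0: étale linear coordinates
-/

set_option autoImplicit false

namespace Pool.Agent.MP_b525bf_ag_X

open Pool.Agent.MP_b525bf_ag Pool.Agent.MP_b525bf_ag_W

variable {k K G : Type} [Field k] [Field K] [Algebra k K] [Group G]

/-- The subalgebra `B[1/f]` of the field `K`. -/
def awayB (B : Subalgebra k K) (f : K) (hf : f ∈ B) : Subalgebra k K where
  carrier := {y | ∃ m : ℕ, f ^ m * y ∈ B}
  mul_mem' := by
    rintro x y ⟨m, hx⟩ ⟨m', hy⟩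
    refine ⟨m + m', ?_⟩
    have := B.mul_mem hx hy
    rwa [show f ^ m * x * (f ^ m' * y) = f ^ (m + m') * (x * y) by ring] at this
  add_mem' := by
    rintro x y ⟨m, hx⟩ ⟨m', hy⟩
    refine ⟨m + m', ?_⟩
    have h1 := B.mul_mem (B.pow_mem hf m') hx
    have h2 := B.mul_mem (B.pow_mem hf m) hy
    have := B.add_mem h1 h2
    rwa [show f ^ m' * (f ^ m * x) + f ^ m * (f ^ m' * y) = f ^ (m + m') * (x + y) by ring]
      at this
  algebraMap_mem' r := ⟨0, by rw [pow_zero, one_mul]; exact B.algebraMap_mem r⟩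

/-- The span of a set with coefficients in the subalgebra `C`. -/
def fspan (C : Subalgebra k K) (X : Set K) : Submodule k K :=
  Submodule.span k {y | ∃ c ∈ C, ∃ x ∈ X, y = c * x}

/-- Étale coordinates near the prime `P` of `B` on which the group `H` acts linearly. -/
structure EtLin (B : Subalgebra k K) (φ : G →* (K ≃ₐ[k] K)) (P : Ideal B) (H : Subgroup G) where
  U : Type
  [acg : AddCommGroup U]
  [mod : Module k U]
  [fin : FiniteDimensional k U]
  lin : U →ₗ[k] K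
  ρ : G → U →ₗ[k] U
  rep : PRep H ρ
  hφ : ∀ g ∈ H, ∀ u, φ g (lin u) = lin (ρ g u)
  indep : ∀ {κ : Type} (b : Module.Basis κ k U), AlgebraicIndependent k fun i => lin (b i)
  f : K
  fB : f ∈ B
  fP : (⟨f, fB⟩ : B) ∉ P
  ff : ∀ g ∈ H, φ g f = f
  le : Algebra.adjoin k (Set.range lin) ≤ awayB B f fB
  etale : (Subalgebra.inclusion le).toRingHom.Etale

attribute [instance] EtLin.acg EtLin.mod EtLin.fin

/-- The ring `B[1/f]`. -/
def EtLin.C {B : Subalgebra k K} {φ : G →* (K ≃ₐ[k] K)} {P : Ideal B} {H : Subgroup G}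
    (E : EtLin B φ P H) : Subalgebra k K := awayB B E.f E.fB

/-- The elements of `H` act trivially modulo the ideal generated by the `h u - u`, for `u` in the
space of coordinates. -/
def EtLin.Rig {B : Subalgebra k K} {φ : G →* (K ≃ₐ[k] K)} {P : Ideal B} {H : Subgroup G}
    (E : EtLin B φ P H) : Prop :=
  ∀ h ∈ H, ∀ b ∈ B, φ h b - b ∈ fspan E.C {y | ∃ u, y = E.lin (E.ρ h u) - E.lin u}

/-- The elements of `H` act trivially modulo `P`. -/
def Triv {B : Subalgebra k K} (φ : G →* (K ≃ₐ[k] K)) (P : Ideal B) (H : Subgroup G) : Prop :=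
  ∀ g ∈ H, ∀ b ∈ B, ∃ h : φ g b - b ∈ B, (⟨φ g b - b, h⟩ : B) ∈ P

/-- The monomials in the set `β` with given conditions on the weights. -/
def Mon {U : Type} (lin : U → K) (β : Set U) {Ix : Type} (S : Set Ix) (w : Ix → U → ℕ)
    (m : Ix → ℤ) : Set K :=
  {y1 | ∃ t : List U, (∀ b ∈ t, b ∈ β) ∧ (∀ i ∈ S, m i ≤ ((t.map (w i)).sum : ℕ)) ∧
    y1 = (t.map lin).prod}

end Pool.Agent.MP_b525bf_ag_X
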