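import Pool.Agent.Lib.MP_b525bf_ag_X.Step2
import Pool.Agent.Lib.MP_b525bf_ag_W.Inv
import Pool.Agent.Lib.MP_b525bf_ag_W.Destack

/-!
# X11: invariants of the final stage
-/

set_option autoImplicit false
set_option linter.unusedSectionVars false

namespace Pool.Agent.MP_b525bf_ag_X

open Pool.Agent.MP_b525bf_ag Pool.Agent.MP_b525bf_ag_W Module AddMonoidAlgebra

variable {k K G ι : Type} [Field k] [Field K] [Algebra k K] [Group G] [Finite G] [AddCommGroup ι]

variable {B : Subalgebra k K} {φ : G →* (K ≃ₐ[k] K)} {F : Idx G → ℤ → Submodule k K} {p : ℕ}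
  {M : Fam k K ι} {a : ι} {EE : Set (Idx G)} {l : Idx G → ι →+ ℤ} {e : Idx G → ι}

/-- Smoothness of the localisations of the final stage. -/
theorem smooth_final [Module.Free ℤ ι] [Module.Finite ℤ ι]
    (hG : Glob B φ F M a EE l e)
    (hloc : ∀ (q : Ideal M.alg) [q.IsPrime], Semi M a q → ∃ (P : Ideal B) (H : Subgroup G)
      (Λ : LM p φ F P H) (S : Set (Idx G)), Loc Λ M EE l e q S) :
    ∀ n : ℕ, 0 < n → ∀ (x : K) (hx : x ∈ M.s (n • a)), x ≠ 0 →
      Algebra.FormallySmooth k (M.loc hx).alg := by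
  refine smooth_of_charts (l := l) (e := e) (p := p) hG.sys M a hG.fg hG.zero hG.leB
    fun q hq hs => ?_
  obtain ⟨P, H, Λ, S, hS⟩ := hloc q hs
  exact ⟨P, hS.prime, H, Λ, S, hS.under, hS.adm, hS.adapt, dual_of_loc hG hS,
    fun E hE d => hG.val E (hS.sub hE) d, hS.chart⟩

/-- The difference operator of an element of the inertia group raises the degree by `eps`. -/
theorem diff_mem (hG : Glob B φ F M a EE l e) {q : Ideal M.alg} [q.IsPrime] {P : Ideal B}
    {H : Subgroup G} {Λ : LM p φ F P H} {S : Set (Idx G)} (hS : Loc Λ M EE l e q S) {s : G}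
    (hs : s ∈ inertia φ M q) {d : ι} {y : K} (hy : y ∈ M.s d) :
    φ s y - y ∈ (atP M q).s (d + epsS e S) := by
  have := hS.prime
  apply hS.chart
  have hd := dual_of_loc hG hS
  have hyB : y ∈ B := hG.leB d hy
  refine mem_CT_of_mem (Subalgebra.sub_mem _ (hG.sys.stab s y hyB) hyB) fun E hE => ?_
  rw [map_add, l_epsS hd hE]
  have hval := hG.val E (hS.sub hE) d hy
  cases E with
  | t N =>
    rw [show ((Idx.t N).wt : ℤ) = 0 from rfl, add_zero]
    refine Submodule.sub_mem _ ?_ hval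
    have h1 := hG.sys.cj s (Idx.t N) _ y hval
    rwa [hS.fix s hs _ hE] at h1
  | w P N =>
    rw [show ((Idx.w P N).wt : ℤ) = 1 from rfl]
    exact hG.sys.diff P N s (hS.wle P N hE hs) _ y hval

/-- Goodness can be seen on elements of the family itself. -/
theorem good_in_M (hG : Glob B φ F M a EE l e) {q : Ideal M.alg} [q.IsPrime] {P : Ideal B}
    {H : Subgroup G} {Λ : LM p φ F P H} {S : Set (Idx G)} (hS : Loc Λ M EE l e q S)
    (hgood : Good φ M e q S) {s : G} (hs : s ∈ inertia φ M q) (hs1 : s ≠ 1) :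
    ∃ (d : ι) (y : K), y ∈ M.s d ∧ IsU (atP M q) (d + epsS e S) (φ s y - y) := by
  obtain ⟨d, y, hy, hyU⟩ := hgood s hs hs1
  obtain ⟨c, f, hf, hfq, hf0, hfy⟩ := exists_frac M q hy
  have hsf : φ s f ∈ M.s c := hG.stable s c f hf
  have hfU : IsU (atP M q) c f := (isU_atP_iff M q hf).2 hfq
  have hsfU : IsU (atP M q) c (φ s f) := by
    have h2 : IsU (atP M q) c (φ s f) ∨ IsU (atP M q) c (-(φ s f - f)) := by
      apply isU_add M q (le_atP M q c hsf) (Submodule.neg_mem _ (le_atP M q c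
        (Submodule.sub_mem _ hsf hf)))
      rw [show φ s f + -(φ s f - f) = f by ring]
      exact hfU
    rcases h2 with h2 | h2
    · exact h2
    · exfalso
      apply inertia_not_isU φ M q hs (le_atP M q c hf)
      refine ⟨fun h0 => h2.1 (by rw [h0, neg_zero]), le_atP M q c (Submodule.sub_mem _ hsf hf), ?_⟩
      have h3 := Submodule.neg_mem _ h2.2.2
      rwa [inv_neg, neg_neg] at h3
  set g0 : K := f * y with hg0
  have hh : f * (φ s g0 - g0) + -(g0 * (φ s f - f)) = φ s f * f * (φ s y - y) := by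
    rw [hg0, map_mul]; ring
  have hhU : IsU (atP M q) (c + c + (d + epsS e S)) (f * (φ s g0 - g0) + -(g0 * (φ s f - f))) := by
    rw [hh]
    exact (hsfU.mul hfU).mul hyU
  have m1 : f ∈ (atP M q).s c := le_atP M q c hf
  have m2 : φ s g0 - g0 ∈ (atP M q).s (c + d + epsS e S) := diff_mem hG hS hs hfy
  have m3 : g0 ∈ (atP M q).s (c + d) := le_atP M q _ hfy
  have m4 : φ s f - f ∈ (atP M q).s (c + epsS e S) := diff_mem hG hS hs hf
  have e1 : c + (c + d + epsS e S) = c + c + (d + epsS e S) := by abel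
  have e2 : c + d + (c + epsS e S) = c + c + (d + epsS e S) := by abel
  have n1 : f * (φ s g0 - g0) ∈ (atP M q).s (c + c + (d + epsS e S)) := e1 ▸ (atP M q).mul' m1 m2
  have n2 : g0 * (φ s f - f) ∈ (atP M q).s (c + c + (d + epsS e S)) := e2 ▸ (atP M q).mul' m3 m4
  rcases isU_add M q n1 (Submodule.neg_mem _ n2) hhU with h1 | h1
  · refine ⟨c + d, g0, hfy, ?_⟩
    rw [← e1] at h1
    exact IsU.of_mul_right m1 m2 h1
  · refine ⟨c, f, hf, ?_⟩
    have h2 : IsU (atP M q) (c + c + (d + epsS e S)) (g0 * (φ s f - f)) := by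
      refine ⟨fun h0 => h1.1 (by rw [h0, neg_zero]), n2, ?_⟩
      have h3 := Submodule.neg_mem _ h1.2.2
      rwa [inv_neg, neg_neg] at h3
    rw [← e2] at h2
    exact IsU.of_mul_right m3 m4 h2

/-- The group acts faithfully, because the generic point is good. -/
theorem eq_one_of_trivial [Module.Free ℤ ι]
    (hloc : ∀ (q : Ideal M.alg) [q.IsPrime], Semi M a q → ∃ (P : Ideal B) (H : Subgroup G)
      (Λ : LM p φ F P H) (S : Set (Idx G)), Loc Λ M EE l e q S ∧
      (inertia φ M q = ⊥ ∨ Nat.card (inertia φ M q) = p) ∧ Good φ M e q S)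
    {n : ℕ} (hn : 0 < n) {x : K} (hx : x ∈ M.s (n • a)) (hx0 : x ≠ 0) {g : G}
    (hg : ∀ d, ∀ y ∈ M.s d, φ g y = y) : g = 1 := by
  have := isDomain_alg M
  have hbot : (⊥ : Ideal M.alg).IsPrime := Ideal.isPrime_bot
  have hsemi : Semi M a (⊥ : Ideal M.alg) := by
    refine ⟨n, hn, x, hx, fun h => hx0 ?_⟩
    have h1 : ((M.el hx : M.alg) : AddMonoidAlgebra K ι) = 0 := by
      rw [(Ideal.mem_bot).1 h]
      rfl
    rw [Fam.coe_el] at h1
    exact (AddMonoidAlgebra.single_eq_zero).1 h1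
  obtain ⟨P, H, Λ, S, hS, -, hgood⟩ := hloc ⊥ hsemi
  by_contra hg1
  have hin : g ∈ inertia φ M (⊥ : Ideal M.alg) := by
    intro d y hy
    have h0 : φ g y - y = 0 := by rw [hg d y hy, sub_self]
    have h1 : φ g y - y ∈ M.s d := by rw [h0]; exact Submodule.zero_mem _
    refine ⟨h1, ?_⟩
    have h2 : M.el h1 = 0 := by
      apply Subtype.ext
      show single d (φ g y - y) = 0
      rw [h0, single_zero]
    rw [h2]
    exact Ideal.zero_mem _
  obtain ⟨d, y, hy, hyU⟩ := hgood g hin hg1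
  obtain ⟨c, f, hf, hfq, hf0, hfy⟩ := exists_frac M _ hy
  apply hyU.1
  have h1 := hg _ _ hfy
  rw [map_mul, hg _ _ hf] at h1
  rw [mul_left_cancel₀ hf0 h1, sub_self]

/-- Smoothness of the localisations of the invariants: Theorem E. -/
theorem smooth_fixFam [Infinite k] [CharP k p] [Module.Free ℤ ι]
    [Module.Finite ℤ ι] (hc : Ctx B φ F p) (hG : Glob B φ F M a EE l e)
    (hloc : ∀ (q : Ideal M.alg) [q.IsPrime], Semi M a q → ∃ (P : Ideal B) (H : Subgroup G)
      (Λ : LM p φ F P H) (S : Set (Idx G)), Loc Λ M EE l e q S ∧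
      (inertia φ M q = ⊥ ∨ Nat.card (inertia φ M q) = p) ∧ Good φ M e q S) :
    ∀ n : ℕ, 0 < n → ∀ (x : K) (hx : x ∈ (fixFam φ M).s (n • a)), x ≠ 0 →
      Algebra.FormallySmooth k ((fixFam φ M).loc hx).alg := by
  intro n hn x hx hx0
  rw [loc_fixFam hx hx0]
  have hxM : x ∈ M.s (n • a) := hx.1
  have hst := hG.stable
  have hst' := loc_stable (φ := φ) hst hxM hx.2
  have := isDomain_alg (M.loc hxM)
  have := M.finiteType_loc hG.fg hxM hx0
  have := smooth_final hG (fun q hq hs => by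
    obtain ⟨P, H, Λ, S, hS, -⟩ := hloc q hs
    exact ⟨P, H, Λ, S, hS⟩) n hn x hxM hx0
  suffices h : Algebra.FormallySmooth k (fixA φ (M.loc hxM)) from
    Algebra.FormallySmooth.of_equiv (A := fixA φ (M.loc hxM)) (B := (fixFam φ (M.loc hxM)).alg)
      (fixEquiv φ (M.loc hxM)).symm
  have hinj : Function.Injective (act φ (M.loc hxM) hst') := by
    classical
    rw [injective_iff_map_eq_one]
    intro g hg
    refine eq_one_of_trivial hloc hn hxM hx0 fun d y hy => ?_
    have h0 : y ∈ (M.loc hxM).s d := M.le_loc hxM d hy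
    have h1 := coeff_act (M.loc hxM) hst' g ((M.loc hxM).el h0) d
    rw [hg] at h1
    have h2 : (((M.loc hxM).el h0 : (M.loc hxM).alg) : AddMonoidAlgebra K ι).coeff d = y := by
      rw [Fam.coe_el, AddMonoidAlgebra.coeff_single, Finsupp.single_eq_same]
    have h3 : y = φ g y := by
      rw [h2] at h1
      rw [← h1]
      exact h2.symm
    exact h3.symm
  refine formallySmooth_fixed (act φ (M.loc hxM) hst') hinj _ (mem_fixA _ hst') ?_
  intro q hq s hs1 hsq
  -- the prime below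
  set q₁ : Ideal M.alg := q.comap (M.toLoc hxM) with hq₁
  have hq₁p : q₁.IsPrime := Ideal.comap_isPrime _ _
  have hmem : ∀ {d : ι} {y : K} (hy : y ∈ M.s d),
      M.el hy ∈ q₁ ↔ (M.loc hxM).el (M.le_loc hxM d hy) ∈ q := fun hy => Iff.rfl
  have hunit : ∀ m : ℕ, (M.loc hxM).el (M.le_loc hxM _ (M.pow' hxM m)) ∉ q := by
    intro m hmem
    refine hq.ne_top (Ideal.eq_top_of_isUnit_mem _ hmem ?_)
    refine IsUnit.of_mul_eq_one ((M.loc hxM).el ((M.loc hxM).pow' (M.inv_mem_loc hxM hx0) m)) ?_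
    rw [Fam.el_mul, ← Fam.el_one]
    refine Fam.el_eq _ _ _ (by simp) ?_
    rw [inv_pow, mul_inv_cancel₀ (pow_ne_zero m hx0)]
  have hsemi : Semi M a q₁ := by
    refine ⟨n, hn, x, hxM, fun h => ?_⟩
    apply hunit 1
    rw [hmem] at h
    rwa [Fam.el_eq _ (M.le_loc hxM _ (M.pow' hxM 1)) (M.le_loc hxM _ hxM) (one_nsmul _)
      (pow_one x)]
  obtain ⟨P, H, Λ, S, hS, hin, hgood⟩ := hloc q₁ hsemi
  -- inertia
  have hinert : ∀ g : G, (∀ F, act φ (M.loc hxM) hst' g F - F ∈ q) → g ∈ inertia φ M q₁ := by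
    intro g hg d y hy
    have h1 : φ g y - y ∈ M.s d := Submodule.sub_mem _ (hst g d y hy) hy
    refine ⟨h1, ?_⟩
    rw [hmem]
    have h2 := hg ((M.loc hxM).el (M.le_loc hxM d hy))
    rw [act_el] at h2
    have h3 : (M.loc hxM).el (M.le_loc hxM d h1) = (M.loc hxM).el (hst' g d y (M.le_loc hxM d hy))
        - (M.loc hxM).el (M.le_loc hxM d hy) := by
      apply Subtype.ext
      show single d (φ g y - y) = single d (φ g y) - single d y
      rw [single_sub]
    rw [h3]
    exact h2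
  have hsI := hinert s hsq
  have hcard : Nat.card (inertia φ M q₁) = p := by
    rcases hin with h1 | h1
    · rw [h1, Subgroup.mem_bot] at hsI
      exact absurd hsI hs1
    · exact h1
  have hzle : Subgroup.zpowers s ≤ inertia φ M q₁ := by
    rw [Subgroup.zpowers_le]
    exact hsI
  have hos : orderOf s = p := by
    have h1 : orderOf s ∣ p := by
      rw [← hcard]
      exact Subgroup.orderOf_dvd_natCard _ hsI
    rcases (Nat.dvd_prime hc.hp).1 h1 with h2 | h2
    · exact absurd (orderOf_eq_one_iff.1 h2) hs1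
    · exact h2
  have hzeq : Subgroup.zpowers s = inertia φ M q₁ :=
    eq_of_le_of_card (p := p) (by rw [Nat.card_zpowers, hos]) hcard hzle
  refine ⟨fun g hg => ?_, ?_, ?_⟩
  · rw [hzeq]
    exact hinert g hg
  · rw [hos]
    exact hc.hp
  · obtain ⟨d', y', hy', hyU⟩ := good_in_M hG hS hgood hsI hs1
    set Y : (M.loc hxM).alg := (M.loc hxM).el (M.le_loc hxM d' hy') with hY
    set δ : (M.loc hxM).alg := act φ (M.loc hxM) hst' s Y - Y with hδ
    have hδ' : (δ : AddMonoidAlgebra K ι) = single d' (φ s y' - y') := by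
      rw [hδ, hY, act_el]
      show single d' (φ s y') - single d' y' = _
      rw [← single_sub]
    refine ⟨Y, ?_⟩
    intro F
    refine Fam.alg_induction (M.loc hxM) (p := fun F => ∃ f ∉ q, ∃ z : (M.loc hxM).alg,
      f * (act φ (M.loc hxM) hst' s F - F) = z * δ) ?_ ?_ ?_ F
    · exact ⟨1, (Ideal.ne_top_iff_one q).1 hq.ne_top, 0, by simp⟩
    · rintro F F' ⟨f, hf, z, hz⟩ ⟨f', hf', z', hz'⟩
      refine ⟨f * f', hq.mul_notMem hf hf', f' * z + f * z', ?_⟩
      rw [map_add]
      linear_combination f' * hz + f * hz'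
    · intro b w hwb
      obtain ⟨m, hm⟩ := id hwb
      -- the difference of the numerator
      have h1 : φ s (x ^ m * w) - x ^ m * w ∈ (atP M q₁).s (m • n • a + b + epsS e S) :=
        diff_mem hG hS hsI hm
      have h2 : (φ s (x ^ m * w) - x ^ m * w) * (φ s y' - y')⁻¹ ∈
          (atP M q₁).s (m • n • a + b + epsS e S + -(d' + epsS e S)) :=
        (atP M q₁).mul' h1 hyU.2.2
      have e1 : m • n • a + b + epsS e S + -(d' + epsS e S) = m • n • a + b - d' := by abel
      rw [e1] at h2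
      obtain ⟨c, f, hf, hfq, hf0, hfz⟩ := exists_frac M q₁ h2
      have h3 : (M.loc hxM).el (M.le_loc hxM c hf) ∉ q := fun h => hfq ((hmem hf).2 h)
      refine ⟨(M.loc hxM).el (M.le_loc hxM c hf) * (M.loc hxM).el (M.le_loc hxM _ (M.pow' hxM m)),
        hq.mul_notMem h3 (hunit m), (M.loc hxM).el (M.le_loc hxM _ hfz), ?_⟩
      apply Subtype.ext
      rw [MulMemClass.coe_mul, MulMemClass.coe_mul, MulMemClass.coe_mul, hδ', act_el]
      show single c f * single (m • n • a) (x ^ m) * (single b (φ s w) - single b w)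
        = single (c + (m • n • a + b - d')) _ * single d' (φ s y' - y')
      rw [← single_sub, single_mul_single, single_mul_single, single_mul_single]
      have e2 : c + m • n • a + b = c + (m • n • a + b - d') + d' := by abel
      rw [e2]
      congr 1
      rw [map_mul, map_pow, hx.2 s]
      have h4 : φ s y' - y' ≠ 0 := hyU.1
      field_simp

/-- The family of invariants satisfies the hypotheses of the destackification theorem. -/
theorem goodM_fixFam [Infinite k] [CharP k p] [Module.Free ℤ ι]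
    [Module.Finite ℤ ι] (hc : Ctx B φ F p) (hG : Glob B φ F M a EE l e)
    (hloc : ∀ (q : Ideal M.alg) [q.IsPrime], Semi M a q → ∃ (P : Ideal B) (H : Subgroup G)
      (Λ : LM p φ F P H) (S : Set (Idx G)), Loc Λ M EE l e q S ∧
      (inertia φ M q = ⊥ ∨ Nat.card (inertia φ M q) = p) ∧ Good φ M e q S) :
    GoodM (fixFam φ M) a := by
  have hfg := fg_fixFam hG.fg hG.stable
  have hone : ∀ d : ι, (1 : K) ∈ M.s d → (1 : K) ∈ (fixFam φ M).s d := fun d h =>
    ⟨h, fun g => map_one _⟩
  have hcard : 0 < Nat.card G := Nat.card_pos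
  have hint : ∀ (q0 : Ideal (fixFam φ M).alg) [q0.IsPrime], Semi (fixFam φ M) a q0 →
      IntA (fixFam φ M) a q0 := by
    intro q0 hq0 hs d
    obtain ⟨q, hq, hov⟩ := exists_over_fixFam hG.stable q0
    have hs' : Semi M a q := by
      obtain ⟨n, hn, hna⟩ := hs
      exact ⟨n, hn, hov.degs (fun d => fix_le M d) hna⟩
    obtain ⟨m, hm, w, hw0, hmem⟩ := hG.int q hs' d
    refine ⟨m, hm, Nat.card G * w, Nat.mul_pos hcard hw0, ?_⟩
    rw [mul_nsmul']
    exact degs_fixFam hG.stable q0 q hov hmem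
  refine ⟨hfg, smooth_fixFam hc hG hloc, exists_index _ a hfg hint, hint, ?_, ?_, ?_⟩
  · intro n
    exact hone _ (hG.neg n)
  · obtain ⟨n, hn, x, hx, hx0⟩ := hG.nontriv
    classical
    have := Fintype.ofFinite G
    have key : ∀ s : Finset G, (∏ g ∈ s, φ g x) ∈ M.s (s.card • n • a) := by
      intro s
      induction s using Finset.induction_on with
      | empty => simpa using M.one'
      | insert g s hg ih =>
        rw [Finset.prod_insert hg, Finset.card_insert_of_notMem hg, succ_nsmul']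
        exact M.mul' (hG.stable g _ x hx) ih
    refine ⟨Nat.card G * n, Nat.mul_pos hcard hn, ∏ g, φ g x, ⟨?_, ?_⟩, ?_⟩
    · have h1 := key Finset.univ
      rw [Finset.card_univ, ← Nat.card_eq_fintype_card] at h1
      rwa [mul_nsmul']
    · intro g
      rw [map_prod]
      have h4 : ∀ g', φ g (φ g' x) = φ (g * g') x := by
        intro g'
        rw [map_mul, AlgEquiv.mul_apply]
      simp_rw [h4]
      exact Equiv.prod_comp (Equiv.mulLeft g) (fun g' => φ g' x)
    · rw [Finset.prod_ne_zero_iff]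
      intro g _
      exact (map_ne_zero_iff _ (φ g).injective).2 hx0
  · intro d
    obtain ⟨c, h1, h2⟩ := hG.gen d
    exact ⟨c, ⟨1, hone _ h1, one_ne_zero⟩, 1, hone _ h2, one_ne_zero⟩

/-- The abstract form of the theorem. -/
theorem exists_goodC [Infinite k] [CharP k p] (hc : Ctx B φ F p) :
    ∃ M : Fam k K ℤ, GoodC M 1 ∧ ∀ x, x ∈ M.s 0 ↔ x ∈ B ∧ ∀ g, φ g x = x := by
  obtain ⟨ι, i1, i2, i3, M, a, EE, l, e, hG, hloc⟩ := hasFin hc
  obtain ⟨M', hM', hM0⟩ := (goodM_fixFam hc hG hloc).exists_goodC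
  refine ⟨M', hM', fun x => ?_⟩
  rw [hM0, mem_fixFam, hG.zero]
  rfl

end Pool.Agent.MP_b525bf_ag_X
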