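import Pool.Agent.Lib.MP_b525bf_ag_X.Step1

/-!
# X9a: Step 2, good points, key lemma, centres (blueprint 5.1-5.4)
-/

set_option autoImplicit false
set_option linter.unusedSectionVars false

namespace Pool.Agent.MP_b525bf_ag_X

open Pool.Agent.MP_b525bf_ag Pool.Agent.MP_b525bf_ag_W Module AddMonoidAlgebra

variable {k K G ι : Type} [Field k] [Field K] [Algebra k K] [Group G] [Finite G] [AddCommGroup ι]

variable {B : Subalgebra k K} {φ : G →* (K ≃ₐ[k] K)} {F : Idx G → ℤ → Submodule k K} {p : ℕ}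
  {M : Fam k K ι} {a : ι} {l : Idx G → ι →+ ℤ} {e : Idx G → ι} {EE : Set (Idx G)}
  {q : Ideal M.alg} [q.IsPrime] {S : Set (Idx G)} {P : Ideal B} {H : Subgroup G}
  {Λ : LM p φ F P H}

/-! ### Auxiliary lemmas -/

theorem ne_zero_of_basis {U : Type} [AddCommGroup U] [Module k U] {β : Set U} (hβ : IsBasis k β)
    {t : List U} (ht : ∀ b ∈ t, b ∈ β) : ∀ z ∈ t, z ≠ 0 := fun z hz =>
  hβ.1.ne_zero (⟨z, ht z hz⟩ : β)

theorem card_not_dvd_of_le {N H : Subgroup G} (hH : ¬ p ^ 2 ∣ Nat.card H) (h : N ≤ H) :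
    ¬ p ^ 2 ∣ Nat.card N := fun h1 => hH (h1.trans (Subgroup.card_dvd_of_le h))

/-- A unit linear form in `D_P Y` makes the point good. -/
theorem good_of_unit [CharP k p] (hc : Ctx B φ F p)
    (hG : Glob B φ F M a EE l e) (hS : Loc Λ M EE l e q S)
    (hcard : Nat.card (inertia φ M q) = p) (hpt : PtHyp p (inertia φ M q) S)
    {Y : Submodule k Λ.U}
    (hY : (∃ N, Y = AN Λ.ρ N ∧ N ≤ H ∧ PPerf p N ∧ inertia φ M q ≤ N ∧
        (∀ E ∈ S, PPerf p E.grp → E.grp ≤ N ∨ N ≤ E.grp) ∧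
        ∀ N1, Idx.t N1 ∈ S → p ∣ Nat.card N1 → N ≤ N1) ∨
      (Y = ⊤ ∧ ∀ N1, Idx.t N1 ∈ S → ¬ p ∣ Nat.card N1))
    {z : Λ.U} (hz : z ∈ DP Λ.ρ (inertia φ M q) Y) (hz0 : z ≠ 0)
    (hzu : IsU (atP M q) (∑ᶠ E ∈ S, lev (flg Λ.ρ E) z • e E) (Λ.lin z)) : Good φ M e q S := by
  intro s hs hs1
  have hprime := hS.prime
  have hd := dual_of_loc hG hS
  have hIH : inertia φ M q ≤ H := inertia_le hc.sys hG.zero hS.under Λ
  have hSH : ∀ E ∈ S, Idx.grp E ≤ H := fun E hE => (hS.adm E hE).1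
  have hfl : ∀ E ∈ S, IsFlag (flg Λ.ρ E) := fun E hE => isFlag_of_adm Λ.rep hc.hp (hS.adm E hE)
  obtain ⟨y, hy, hyE⟩ := lift_lemma Λ.rep hc.hp hS.cardH hcard hIH hpt hSH hs hs1 hY hz
    (fun E => lev (flg Λ.ρ E) z) (fun E hE => (mem_iff_le_lev (hfl E hE) hz0).2 le_rfl)
  refine ⟨(∑ᶠ E ∈ S, lev (flg Λ.ρ E) z • e E) - epsS e S, Λ.lin y, ?_, ?_⟩
  · apply hS.chart
    rw [mem_CT hc.sys]
    refine ⟨Λ.mem y, fun E hE => ?_⟩
    have h1 := Λ.gen E (hS.adm E hE) _ y (hyE E hE)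
    refine lc_mono (hc.sys.anti E _ _ ?_) h1
    rw [map_sub, l_finsum_mem hd hE, l_epsS hd hE]
    omega
  · rw [sub_add_cancel, Λ.hφ s (hIH hs), ← map_sub, hy]
    exact hzu

/-- Blueprint 5.2, wild case. -/
theorem key_wild [CharP k p] (hc : Ctx B φ F p)
    (hG : Glob B φ F M a EE l e) (hS : Loc Λ M EE l e q S)
    (hcard : Nat.card (inertia φ M q) = p) {N : Subgroup G}
    (hpt : PtHyp p (inertia φ M q) (insert (Idx.w (inertia φ M q) N) S)) (hN : PPerf p N)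
    (hPN : inertia φ M q ≤ N) (ht : Idx.t N ∈ S)
    (hmin : ∀ N1, Idx.t N1 ∈ S → p ∣ Nat.card N1 → N ≤ N1)
    {d : ι} {y : K} (hy : y ∈ M.s d) (hyq : M.el hy ∉ q)
    (hyv : y ∈ F (.w (inertia φ M q) N) (1 + l (.t N) d)) : Good φ M e q S := by
  have hprime := hS.prime
  have hd := dual_of_loc hG hS
  have hIH : inertia φ M q ≤ H := inertia_le hc.sys hG.zero hS.under Λ
  have hfl : ∀ E ∈ S, IsFlag (flg Λ.ρ E) := fun E hE => isFlag_of_adm Λ.rep hc.hp (hS.adm E hE)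
  have hadmw : Adm p H (.w (inertia φ M q) N) := by
    refine ⟨(hS.adm _ ht).1, ?_⟩
    intro P' N' h
    cases h
    exact ⟨hPN, hcard⟩
  have hadm : ∀ E ∈ insert (Idx.w (inertia φ M q) N) S, Adm p H E := by
    rintro E (rfl | hE)
    · exact hadmw
    · exact hS.adm E hE
  obtain ⟨β, hβ, had⟩ := adapted_of_ptHyp Λ.rep hc.hp hS.cardH hcard hIH hpt
    (fun E hE => (hadm E hE).1)
  have hyC : y ∈ CT F P l S d := mem_CT_of_mem (hG.leB d hy)
    (fun E hE => hG.val E (hS.sub hE) d hy)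
  have hv : IsFlag (flg Λ.ρ (.w (inertia φ M q) N)) := isFlag_of_adm Λ.rep hc.hp hadmw
  have hspan := chart_span hc.sys Λ hadm hβ had hyC (mem_lc hyv)
  obtain ⟨y1, ⟨t, htβ, htS, htv, rfl⟩, hyU⟩ := exists_isU_of_lspan hG.zero hS.under (by
    rintro y1 ⟨t, ht, htS, -, rfl⟩
    exact hS.chart d (Λ.prod_mem_CT hc.sys hS.adm hfl t (ne_zero_of_basis hβ ht) htS)) hspan
    ((isU_atP_iff M q hy).2 hyq)
  -- the value for `t N` is exact
  have h1 : ((t.map (lev (flg Λ.ρ (.t N)))).sum : ℤ) ≤ l (.t N) d := by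
    by_contra hlt
    push Not at hlt
    have h2 : (t.map Λ.lin).prod ∈ (atP M q).s (d + e (.t N)) := by
      apply hS.chart
      apply Λ.prod_mem_CT hc.sys hS.adm hfl t (ne_zero_of_basis hβ htβ)
      intro E hE
      rw [map_add]
      by_cases hEN : E = .t N
      · rw [hEN, hd.self _ ht]
        omega
      · rw [hd.ne E hE (.t N) ht hEN, add_zero]
        exact htS E hE
    have h3 : (1 : K) ∈ (atP M q).s (-(e (.t N))) := le_atP M q _ (hG.sec _ (hS.sub ht))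
    have h4 : IsU (atP M q) (-(e (.t N)) + (d + e (.t N))) (1 * (t.map Λ.lin).prod) := by
      rw [one_mul, show -(e (.t N)) + (d + e (.t N)) = d by abel]
      exact hyU
    have h5 := (IsU.of_mul_left h3 h2 h4).2.2
    rw [neg_neg, inv_one] at h5
    exact hS.non _ ht h5
  have h2 : (t.map (lev (flg Λ.ρ (.t N)))).sum
      < (t.map (lev (flg Λ.ρ (.w (inertia φ M q) N)))).sum := by
    have : ((t.map (lev (flg Λ.ρ (.t N)))).sum : ℤ)
        < ((t.map (lev (flg Λ.ρ (.w (inertia φ M q) N)))).sum : ℕ) := by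
      linarith
    exact_mod_cast this
  obtain ⟨z, hz, hlt⟩ := List.exists_lt_of_sum_lt _ _ h2
  have hz0 : z ≠ 0 := ne_zero_of_basis hβ htβ z hz
  have hz1 : z ∈ flg Λ.ρ (.w (inertia φ M q) N) 1 :=
    (mem_iff_le_lev hv hz0).2 (by omega)
  have hz2 : 1 ≤ lev (flg Λ.ρ (.t N)) z := by
    rw [← mem_iff_le_lev (hfl _ ht) hz0]
    rw [flg_one] at hz1 ⊢
    exact hz1
  have hz3 : z ∈ flg Λ.ρ (.w (inertia φ M q) N) 2 :=
    (mem_iff_le_lev hv hz0).2 (by omega)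
  have hz4 : z ∈ DP Λ.ρ (inertia φ M q) (AN Λ.ρ N) := hz3
  refine good_of_unit hc hG hS hcard (ptHyp_mono hpt (Set.subset_insert _ _)) (Y := AN Λ.ρ N)
    (Or.inl ⟨N, rfl, (hS.adm _ ht).1, hN, hPN, fun E hE hE' => hS.comp E hE _ ht hE' hN, hmin⟩)
    hz4 hz0 (isU_factor hc.sys hc.hp Λ hS.adm hd hS.chart (ne_zero_of_basis hβ htβ) htS hyU hz)

/-- Blueprint 5.2, tame case. -/
theorem key_tame [CharP k p] (hc : Ctx B φ F p)
    (hG : Glob B φ F M a EE l e) (hS : Loc Λ M EE l e q S)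
    (hcard : Nat.card (inertia φ M q) = p)
    (hpt : PtHyp p (inertia φ M q) (insert (Idx.w (inertia φ M q) (inertia φ M q)) S))
    (hno : ∀ N1, Idx.t N1 ∈ S → ¬ p ∣ Nat.card N1)
    {d : ι} {y : K} (hy : y ∈ M.s d) (hyq : M.el hy ∉ q)
    (hyv : y ∈ F (.w (inertia φ M q) (inertia φ M q)) 1) : Good φ M e q S := by
  have hprime := hS.prime
  have hd := dual_of_loc hG hS
  have hIH : inertia φ M q ≤ H := inertia_le hc.sys hG.zero hS.under Λ
  have hfl : ∀ E ∈ S, IsFlag (flg Λ.ρ E) := fun E hE => isFlag_of_adm Λ.rep hc.hp (hS.adm E hE)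
  have hadmw : Adm p H (.w (inertia φ M q) (inertia φ M q)) := by
    refine ⟨hIH, ?_⟩
    intro P' N' h
    cases h
    exact ⟨le_rfl, hcard⟩
  have hadm : ∀ E ∈ insert (Idx.w (inertia φ M q) (inertia φ M q)) S, Adm p H E := by
    rintro E (rfl | hE)
    · exact hadmw
    · exact hS.adm E hE
  obtain ⟨β, hβ, had⟩ := adapted_of_ptHyp Λ.rep hc.hp hS.cardH hcard hIH hpt
    (fun E hE => (hadm E hE).1)
  have hyC : y ∈ CT F P l S d := mem_CT_of_mem (hG.leB d hy)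
    (fun E hE => hG.val E (hS.sub hE) d hy)
  have hv : IsFlag (flg Λ.ρ (.w (inertia φ M q) (inertia φ M q))) :=
    isFlag_of_adm Λ.rep hc.hp hadmw
  have hspan := chart_span hc.sys Λ hadm hβ had hyC (mem_lc hyv)
  obtain ⟨y1, ⟨t, htβ, htS, htv, rfl⟩, hyU⟩ := exists_isU_of_lspan hG.zero hS.under (by
    rintro y1 ⟨t, ht, htS, -, rfl⟩
    exact hS.chart d (Λ.prod_mem_CT hc.sys hS.adm hfl t (ne_zero_of_basis hβ ht) htS)) hspan
    ((isU_atP_iff M q hy).2 hyq)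
  have h2 : (t.map (fun _ : Λ.U => 0)).sum
      < (t.map (lev (flg Λ.ρ (.w (inertia φ M q) (inertia φ M q))))).sum := by
    have h3 : (t.map (fun _ : Λ.U => 0)).sum = 0 := by simp
    rw [h3]
    have : (1 : ℤ) ≤ ((t.map (lev (flg Λ.ρ (.w (inertia φ M q) (inertia φ M q))))).sum : ℕ) := htv
    have h4 : 1 ≤ (t.map (lev (flg Λ.ρ (.w (inertia φ M q) (inertia φ M q))))).sum := by
      exact_mod_cast this
    omega
  obtain ⟨z, hz, hlt⟩ := List.exists_lt_of_sum_lt _ _ h2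
  have hz0 : z ≠ 0 := ne_zero_of_basis hβ htβ z hz
  have hz1 : z ∈ flg Λ.ρ (.w (inertia φ M q) (inertia φ M q)) 1 :=
    (mem_iff_le_lev hv hz0).2 (by omega)
  have hz4 : z ∈ DP Λ.ρ (inertia φ M q) ⊤ := by
    rw [flg_one] at hz1
    simpa only [DP, Submodule.map_top, AN, Idx.grp] using hz1
  exact good_of_unit hc hG hS hcard (ptHyp_mono hpt (Set.subset_insert _ _)) (Y := ⊤)
    (Or.inr ⟨rfl, hno⟩) hz4 hz0
    (isU_factor hc.sys hc.hp Λ hS.adm hd hS.chart (ne_zero_of_basis hβ htβ) htS hyU hz)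

/-- The divisors of Step 2 and Step 3: `PP` are the processed wild groups, `QQ` the processed
groups of order `p`. -/
def EE3 (p : ℕ) (PP QQ : Set (Subgroup G)) : Set (Idx G) :=
  {E | (∃ N, E = Idx.t N ∧ PPerf p N ∧ N ≠ ⊥) ∨
    (∃ P N, E = Idx.w P N ∧ N ∈ PP ∧ P ≤ N ∧ Nat.card P = p) ∨
    ∃ P, E = Idx.w P P ∧ P ∈ QQ}

/-- The wild `p`-perfect groups whose order is not divisible by `p ^ 2`. -/
def WW (G : Type) [Group G] (p : ℕ) : Set (Subgroup G) :=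
  {N | PPerf p N ∧ p ∣ Nat.card N ∧ ¬ p ^ 2 ∣ Nat.card N}

/-- The subgroups of order `p`. -/
def PG (G : Type) [Group G] (p : ℕ) : Set (Subgroup G) := {P | Nat.card P = p}

variable {PP QQ : Set (Subgroup G)}

theorem pperf_of_t_mem3 {N : Subgroup G} (h : Idx.t N ∈ EE3 p PP QQ) : PPerf p N ∧ N ≠ ⊥ := by
  rcases h with ⟨N', h1, h2, h3⟩ | ⟨P', N', h1, -⟩ | ⟨P', h1, -⟩
  · cases h1
    exact ⟨h2, h3⟩
  · cases h1
  · cases h1

theorem of_w_mem3 {P1 N : Subgroup G} (h : Idx.w P1 N ∈ EE3 p PP QQ) :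
    (N ∈ PP ∧ P1 ≤ N ∧ Nat.card P1 = p) ∨ (N = P1 ∧ P1 ∈ QQ) := by
  rcases h with ⟨N', h1, -⟩ | ⟨P', N', h1, h2, h3, h4⟩ | ⟨P', h1, h2⟩
  · cases h1
  · cases h1
    exact Or.inl ⟨h2, h3, h4⟩
  · cases h1
    exact Or.inr ⟨rfl, h2⟩

theorem ptHyp_of_loc (hc : Ctx B φ F p) (hPP : PP ⊆ WW G p) (hQQ : QQ ⊆ PG G p)
    (hS : Loc Λ M (EE3 p PP QQ) l e q S) (hcard : Nat.card (inertia φ M q) = p) :
    PtHyp p (inertia φ M q) S := by
  refine ⟨?_, ?_, hS.comp⟩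
  · intro N hN
    refine ⟨(pperf_of_t_mem3 (hS.sub hN)).1, fun g hg => ?_⟩
    have := hS.fix g hg _ hN
    simpa [Idx.cj] using this
  · intro P' N hN
    rcases of_w_mem3 (hS.sub hN) with ⟨h1, h2, h3⟩ | ⟨h1, h2⟩
    · have h4 := eq_of_le_of_card hcard h3 (hS.wle _ _ hN)
      exact ⟨h4.symm, Or.inr ⟨(hPP h1).1, h4 ▸ h2⟩⟩
    · have h4 := eq_of_le_of_card hcard (hQQ h2) (hS.wle _ _ hN)
      exact ⟨h4.symm, Or.inl (h1.trans h4.symm)⟩

/-- The extended configuration for the centre. -/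
theorem ptHyp_insert (hc : Ctx B φ F p) (hPP : PP ⊆ WW G p) (hQQ : QQ ⊆ PG G p)
    (hS : Loc Λ M (EE3 p PP QQ) l e q S) (hcard : Nat.card (inertia φ M q) = p)
    {N : Subgroup G} (hN : N = inertia φ M q ∨ PPerf p N ∧ inertia φ M q ≤ N ∧ Idx.t N ∈ S) :
    PtHyp p (inertia φ M q) (insert (Idx.w (inertia φ M q) N) S) := by
  have h := ptHyp_of_loc hc hPP hQQ hS hcard
  refine ⟨?_, ?_, ?_⟩
  · rintro N' (hN' | hN')
    · cases hN'
    · exact h.t N' hN'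
  · rintro P' N' (hN' | hN')
    · cases hN'
      refine ⟨rfl, ?_⟩
      rcases hN with h1 | h1
      · exact Or.inl h1
      · exact Or.inr ⟨h1.1, h1.2.1⟩
    · exact h.w P' N' hN'
  · -- comparability
    have key : ∀ E' ∈ S, PPerf p N → PPerf p E'.grp → E'.grp ≤ N ∨ N ≤ E'.grp := by
      intro E' hE' h1 h2
      rcases hN with h3 | h3
      · rw [h3] at h1
        exact absurd h1 (key_not_pperf hc.hp hcard)
      · exact h.comp E' hE' _ h3.2.2 h2 h1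
    rintro E (hE | hE) E' (hE' | hE') h1 h2
    · rw [hE, hE']
      exact Or.inl le_rfl
    · rw [hE] at h1 ⊢
      exact (key E' hE' h1 h2).symm
    · rw [hE'] at h2 ⊢
      exact key E hE h2 h1
    · exact h.comp E hE E' hE' h1 h2

/-- Blueprint 5.3 (i), (ii): a point in the centre has inertia group `P` and is bad. -/
theorem bad_of_cen [CharP k p] (hc : Ctx B φ F p)
    (hG : Glob B φ F M a EE l e) (hS : Loc Λ M EE l e q S)
    (hin : inertia φ M q = ⊥ ∨ Nat.card (inertia φ M q) = p)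
    {P1 N : Subgroup G} (hP : Nat.card P1 = p) (hPN : P1 ≤ N) {lam : ι →+ ℤ}
    (hr0 : ∀ d, M.s d ≤ F (.w P1 N) (lam d))
    (hlam : ∀ P' N', Idx.w P' N' ∈ S → lam (e (.w P' N')) = 0)
    (hcen : Cen F M lam q (.w P1 N)) :
    inertia φ M q = P1 ∧ ¬ Good φ M e q S := by
  have hdiff : ∀ g ∈ P1, ∀ (m : ℤ) (y : K), y ∈ F (.w P1 N) m → φ g y - y ∈ F (.w P1 N) (m + 1) :=
    fun g hg m y hy => hc.sys.diff P1 N g hg m y hy
  have hPi : P1 ≤ inertia φ M q := by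
    intro g hg d x hx
    have h1 : φ g x - x ∈ M.s d := Submodule.sub_mem _ (hG.stable g d x hx) hx
    refine ⟨h1, hcen d _ h1 ?_⟩
    rw [add_comm]
    exact hdiff g hg _ x (hr0 d hx)
  have hcard : Nat.card (inertia φ M q) = p := by
    rcases hin with h1 | h1
    · exfalso
      rw [h1, le_bot_iff] at hPi
      rw [hPi, Subgroup.card_bot] at hP
      exact hc.hp.one_lt.ne hP
    · exact h1
  have hinP : inertia φ M q = P1 := (eq_of_le_of_card hP hcard hPi).symm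
  refine ⟨hinP, fun hgood => ?_⟩
  -- a nontrivial element
  obtain ⟨s, hsP, hs1⟩ : ∃ s ∈ P1, s ≠ 1 := by
    by_contra hno
    push Not at hno
    have : P1 = ⊥ := by
      rw [Subgroup.eq_bot_iff_forall]
      exact hno
    rw [this, Subgroup.card_bot] at hP
    exact hc.hp.one_lt.ne hP
  obtain ⟨d, y, hy, hyU⟩ := hgood s (hPi hsP) hs1
  obtain ⟨c, f, hf, hfq, hf0, hfy⟩ := exists_frac M q hy
  -- `s f` is a unit
  have hsf : φ s f ∈ M.s c := hG.stable s c f hf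
  have hfU : IsU (atP M q) c f := (isU_atP_iff M q hf).2 hfq
  have hsfU : IsU (atP M q) c (φ s f) := by
    have h2 : IsU (atP M q) c (φ s f) ∨ IsU (atP M q) c (-(φ s f - f)) := by
      apply isU_add M q (le_atP M q c hsf) (Submodule.neg_mem _ (le_atP M q c
        (Submodule.sub_mem _ hsf hf)))
      rw [show φ s f + -(φ s f - f) = f by ring]
      exact hfU
    rcases h2 with h2 | h2
    · exact h2
    · exfalso
      apply inertia_not_isU φ M q (hPi hsP) (le_atP M q c hf)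
      refine ⟨fun h0 => h2.1 (by rw [h0, neg_zero]), le_atP M q c (Submodule.sub_mem _ hsf hf), ?_⟩
      have h3 := Submodule.neg_mem _ h2.2.2
      rwa [inv_neg, neg_neg] at h3
  -- the numerator
  set g0 : K := f * y with hg0
  set h0 : K := f * (φ s g0 - g0) - g0 * (φ s f - f) with hh0
  have hh : h0 = φ s f * f * (φ s y - y) := by
    rw [hh0, hg0, map_mul]; ring
  have hhU : IsU (atP M q) (c + c + (d + epsS e S)) h0 := by
    rw [hh]
    exact (hsfU.mul hfU).mul hyU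
  obtain ⟨c', f', hf', hfq', hf0', hfh⟩ := exists_frac M q hhU.2.1
  have hU' : IsU (atP M q) (c' + (c + c + (d + epsS e S))) (f' * h0) :=
    ((isU_atP_iff M q hf').2 hfq').mul hhU
  have hnot := (isU_atP_iff M q hfh).1 hU'
  apply hnot
  apply hcen
  -- the value
  have heps : lam (epsS e S) = 0 := by
    have hfin : {E | E ∈ S ∧ E.wt = 1}.Finite := finite_idx_set _
    rw [epsS, finsum_mem_eq_finite_toFinset_sum _ hfin, map_sum]
    refine Finset.sum_eq_zero fun E hE => ?_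
    obtain ⟨h1, h2⟩ := hfin.mem_toFinset.1 hE
    cases E with
    | t N => exact absurd h2 (by simp [Idx.wt])
    | w P' N' => exact hlam P' N' h1
  have v1 : f * (φ s g0 - g0) ∈ F (.w P1 N) (lam c + (lam (c + d) + 1)) :=
    hc.sys.mul _ _ _ _ _ (hr0 c hf) (hdiff s hsP _ _ (hr0 _ hfy))
  have v2 : g0 * (φ s f - f) ∈ F (.w P1 N) (lam (c + d) + (lam c + 1)) :=
    hc.sys.mul _ _ _ _ _ (hr0 _ hfy) (hdiff s hsP _ _ (hr0 _ hf))
  have v3 : h0 ∈ F (.w P1 N) (lam c + (lam (c + d) + 1)) := by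
    refine Submodule.sub_mem _ v1 ?_
    rw [show lam c + (lam (c + d) + 1) = lam (c + d) + (lam c + 1) by ring]
    exact v2
  have v4 := hc.sys.mul _ _ _ _ _ (hr0 _ hf') v3
  refine hc.sys.anti _ _ _ (le_of_eq ?_) v4
  simp only [map_add, heps]
  ring

/-- Blueprint 5.3 (iii), (iv). -/
theorem t_mem_of_cen [CharP k p] (hc : Ctx B φ F p)
    (hPP : PP ⊆ WW G p) (hQQ : QQ ⊆ PG G p) (hG : Glob B φ F M a (EE3 p PP QQ) l e)
    (hS : Loc Λ M (EE3 p PP QQ) l e q S)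
    (hbad : ∀ N, Idx.t N ∈ S → p ∣ Nat.card N → N ∉ PP)
    {N : Subgroup G} (hN : N ∈ WW G p) (hmin : ∀ N1 ∈ WW G p, N1 < N → N1 ∈ PP)
    {P1 : Subgroup G} (hP : Nat.card P1 = p) (hPN : P1 ≤ N) (hin : inertia φ M q = P1)
    (hcen : Cen F M (l (.t N)) q (.w P1 N)) :
    Idx.t N ∈ S ∧ ∀ N1, Idx.t N1 ∈ S → p ∣ Nat.card N1 → N ≤ N1 := by
  have hprime := hS.prime
  have hNE : Idx.t N ∈ EE3 p PP QQ := Or.inl ⟨N, rfl, hN.1, by
    rintro rfl
    have h1 := hN.2.1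
    rw [Subgroup.card_bot] at h1
    exact hc.hp.one_lt.ne' (Nat.dvd_one.1 h1)⟩
  have h1 : ∃ g, (Idx.t N).cj g ∈ S := by
    by_contra hno
    push Not at hno
    obtain ⟨c, f, hf, hfq, -, hfe⟩ := exists_frac M q (hS.uni _ hNE hno)
    rw [mul_one] at hfe
    apply hfq
    apply hcen c f hf
    have h2 := hc.sys.t_le P1 N _ (hG.val _ hNE _ hfe)
    refine hc.sys.anti _ _ _ (le_of_eq ?_) h2
    rw [map_add, hG.self _ hNE, add_comm]
  have htN : Idx.t N ∈ S := by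
    obtain ⟨g, hg⟩ := h1
    by_cases hgN : (Idx.t N).cj g = Idx.t N
    · rwa [hgN] at hg
    · exfalso
      have hg' : Idx.t (cj g N) ∈ S := hg
      have h2 : cj g⁻¹ (cj g N) = N := by
        rw [← cj_mul, inv_mul_cancel, cj_one]
      have h3 : cj g⁻¹ (cj g N) ≠ cj g N := by
        rw [h2]
        intro h4
        apply hgN
        show Idx.t (cj g N) = Idx.t N
        rw [← h4]
      obtain ⟨d, y, hy, hyq, hyv, hyl⟩ := hS.sep _ hg' g⁻¹ h3
      apply hyq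
      apply hcen d y hy
      rw [h2] at hyv
      have h5 : l (Idx.t (cj g N)) = l (Idx.t N) := hG.lcj g _ hNE
      rw [h5] at hyl
      rw [hyl, add_zero]
      exact hc.sys.t_le P1 N _ hyv
  refine ⟨htN, fun N1 h2 h3 => ?_⟩
  have h4 := (pperf_of_t_mem3 (hS.sub h2)).1
  rcases hS.comp _ h2 _ htN h4 hN.1 with h5 | h5
  · rcases eq_or_lt_of_le h5 with h6 | h6
    · exact le_of_eq h6.symm
    · exact absurd (hmin N1 ⟨h4, h3, card_not_dvd_of_le hS.cardH (hS.adm _ h2).1⟩ h6) (hbad N1 h2 h3)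
  · exact h5

/-- Converse of 5.3, wild case. -/
theorem cen_of_bad_wild [CharP k p] (hc : Ctx B φ F p)
    (hPP : PP ⊆ WW G p) (hQQ : QQ ⊆ PG G p)
    (hG : Glob B φ F M a (EE3 p PP QQ) l e) (hS : Loc Λ M (EE3 p PP QQ) l e q S)
    (hcard : Nat.card (inertia φ M q) = p) (hngood : ¬ Good φ M e q S)
    (hbad : ∀ N, Idx.t N ∈ S → p ∣ Nat.card N → N ∉ PP)
    {N : Subgroup G} (ht : Idx.t N ∈ S) (hN : N ∈ WW G p)
    (hmin : ∀ N1 ∈ WW G p, N1 < N → N1 ∈ PP) :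
    inertia φ M q ≤ N ∧ Cen F M (l (.t N)) q (.w (inertia φ M q) N) := by
  have hprime := hS.prime
  have hpt := ptHyp_of_loc hc hPP hQQ hS hcard
  have hIH : inertia φ M q ≤ H := inertia_le hc.sys hG.zero hS.under Λ
  have hPN : inertia φ M q ≤ N := le_of_dvd_card_of_le hc.hp hS.cardH hIH (hS.adm _ ht).1 hcard
    (hpt.t N ht).2 hN.2.1
  refine ⟨hPN, ?_⟩
  by_contra hcen
  apply hngood
  unfold Cen at hcen
  push Not at hcen
  obtain ⟨d, y, hy, hyv, hyq⟩ := hcen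
  refine key_wild hc hG hS hcard (ptHyp_insert hc hPP hQQ hS hcard (Or.inr ⟨hN.1, hPN, ht⟩)) hN.1
    hPN ht (fun N1 h2 h3 => ?_) hy hyq hyv
  have h4 := (pperf_of_t_mem3 (hS.sub h2)).1
  rcases hS.comp _ h2 _ ht h4 hN.1 with h5 | h5
  · rcases eq_or_lt_of_le h5 with h6 | h6
    · exact le_of_eq h6.symm
    · exact absurd (hmin N1 ⟨h4, h3, card_not_dvd_of_le hS.cardH (hS.adm _ h2).1⟩ h6) (hbad N1 h2 h3)
  · exact h5

/-- Converse of 5.3, tame case. -/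
theorem cen_of_bad_tame [CharP k p] (hc : Ctx B φ F p) (hPP : PP ⊆ WW G p) (hQQ : QQ ⊆ PG G p)
    (hG : Glob B φ F M a (EE3 p PP QQ) l e)
    (hS : Loc Λ M (EE3 p PP QQ) l e q S)
    (hcard : Nat.card (inertia φ M q) = p) (hngood : ¬ Good φ M e q S)
    (hno : ∀ N, Idx.t N ∈ S → ¬ p ∣ Nat.card N) :
    Cen F M 0 q (.w (inertia φ M q) (inertia φ M q)) := by
  by_contra hcen
  apply hngood
  unfold Cen at hcen
  push Not at hcen
  obtain ⟨d, y, hy, hyv, hyq⟩ := hcen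
  refine key_tame hc hG hS hcard (ptHyp_insert hc hPP hQQ hS hcard (Or.inl rfl)) hno hy hyq ?_
  simpa using hyv

end Pool.Agent.MP_b525bf_ag_X
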