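import Pool.Agent.Lib.MP_b525bf_ag_X.Defs

/-!
# X1: local elements, local spans, local models
-/

set_option autoImplicit false

namespace Pool.Agent.MP_b525bf_ag_X

open Pool.Agent.MP_b525bf_ag Pool.Agent.MP_b525bf_ag_W AddMonoidAlgebra

variable {k K G ι ι' : Type} [Field k] [Field K] [Algebra k K] [Group G] [AddCommGroup ι]
  [AddCommGroup ι'] {B : Subalgebra k K} {φ : G →* (K ≃ₐ[k] K)}
  {F : Idx G → ℤ → Submodule k K} {P : Ideal B} [P.IsPrime]

theorem one_mem_cpl : (1 : K) ∈ cpl P :=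
  ⟨B.one_mem, (Ideal.ne_top_iff_one P).1 (Ideal.IsPrime.ne_top ‹_›)⟩

theorem mul_mem_cpl {f g : K} (hf : f ∈ cpl P) (hg : g ∈ cpl P) : f * g ∈ cpl P := by
  obtain ⟨hf, hfP⟩ := hf
  obtain ⟨hg, hgP⟩ := hg
  exact ⟨B.mul_mem hf hg, Ideal.IsPrime.mul_notMem ‹_› hfP hgP⟩

omit [P.IsPrime] in
theorem cpl_le {f : K} (hf : f ∈ cpl P) : f ∈ B := hf.1

theorem ne_zero_of_mem_cpl {f : K} (hf : f ∈ cpl P) : f ≠ 0 := by
  rintro rfl
  exact hf.2 (Ideal.zero_mem P)

theorem mem_lc {W : Submodule k K} {y : K} (hy : y ∈ W) : y ∈ lc P W :=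
  ⟨1, one_mem_cpl, by rwa [one_mul]⟩

theorem lc_mono {W W' : Submodule k K} (h : W ≤ W') : lc P W ⊆ lc P W' := by
  rintro y ⟨f, hf, hy⟩
  exact ⟨f, hf, h hy⟩

omit [P.IsPrime] in
theorem FilSys.mulB (hF : FilSys B φ F) {E : Idx G} {m : ℤ} {c x : K} (hc : c ∈ B)
    (hx : x ∈ F E m) : c * x ∈ F E m := by
  have h1 : c ∈ F E 0 := by rw [hF.nonpos E 0 le_rfl]; exact hc
  have h2 := hF.mul E 0 m c x h1 hx
  rwa [zero_add] at h2

/-- A common denominator for finitely many filtrations. -/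
theorem mem_lc_inter (hF : FilSys B φ F) {S : Set (Idx G)} (hS : S.Finite) {m : Idx G → ℤ} {y : K}
    (hy : y ∈ lc P (Subalgebra.toSubmodule B)) (h : ∀ E ∈ S, y ∈ lc P (F E (m E))) :
    ∃ f ∈ cpl P, f * y ∈ B ∧ ∀ E ∈ S, f * y ∈ F E (m E) := by
  induction S, hS using Set.Finite.induction_on with
  | empty =>
    obtain ⟨f, hf, hfy⟩ := hy
    exact ⟨f, hf, hfy, fun E hE => absurd hE (Set.notMem_empty E)⟩
  | insert _ _ ih =>
    obtain ⟨f, hf, hfy, hfS⟩ := ih fun E hE => h E (Set.mem_insert_of_mem _ hE)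
    obtain ⟨g, hg, hgy⟩ := h _ (Set.mem_insert _ _)
    refine ⟨f * g, mul_mem_cpl hf hg, ?_, ?_⟩
    · have := B.mul_mem hg.1 hfy
      convert this using 1
      ring
    · rintro E (rfl | hE)
      · rw [mul_assoc]
        exact hF.mulB hf.1 hgy
      · have := hF.mulB hg.1 (hfS E hE)
        convert this using 1
        ring

theorem lc_mul (hF : FilSys B φ F) {E : Idx G} {m m' : ℤ} {x y : K} (hx : x ∈ lc P (F E m))
    (hy : y ∈ lc P (F E m')) : x * y ∈ lc P (F E (m + m')) := by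
  obtain ⟨f, hf, hfx⟩ := hx
  obtain ⟨g, hg, hgy⟩ := hy
  refine ⟨f * g, mul_mem_cpl hf hg, ?_⟩
  have := hF.mul E m m' _ _ hfx hgy
  convert this using 1
  ring

theorem lc_add (hF : FilSys B φ F) {E : Idx G} {m : ℤ} {x y : K} (hx : x ∈ lc P (F E m))
    (hy : y ∈ lc P (F E m)) : x + y ∈ lc P (F E m) := by
  obtain ⟨f, hf, hfx⟩ := hx
  obtain ⟨g, hg, hgy⟩ := hy
  refine ⟨f * g, mul_mem_cpl hf hg, ?_⟩
  have := Submodule.add_mem _ (hF.mulB hg.1 hfx) (hF.mulB hf.1 hgy)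
  convert this using 1
  ring

theorem lc_nonpos (hF : FilSys B φ F) {E : Idx G} {m : ℤ} (hm : m ≤ 0) {x : K}
    (hx : x ∈ lc P (Subalgebra.toSubmodule B)) : x ∈ lc P (F E m) := by
  rw [hF.nonpos E m hm]
  exact hx

omit [P.IsPrime] in
theorem lc_le_B (hF : FilSys B φ F) {E : Idx G} {m : ℤ} :
    lc P (F E m) ⊆ lc P (Subalgebra.toSubmodule B) := by
  rintro y ⟨f, hf, hy⟩
  exact ⟨f, hf, hF.le E m hy⟩

instance [Finite G] : Finite (Idx G) := by
  let f : Idx G → Subgroup G ⊕ (Subgroup G × Subgroup G) := fun E =>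
    match E with
    | .t N => Sum.inl N
    | .w P N => Sum.inr (P, N)
  refine Finite.of_injective f ?_
  rintro (N | ⟨P, N⟩) (N' | ⟨P', N'⟩) h <;> simp [f] at h ⊢ <;> exact h

/-! ### Charts -/

/-- `CT` in terms of the local filtrations. -/
theorem mem_CT [Finite G] (hF : FilSys B φ F) {l : Idx G → ι →+ ℤ} {S : Set (Idx G)} {d : ι}
    {y : K} : y ∈ CT F P l S d ↔
      y ∈ lc P (Subalgebra.toSubmodule B) ∧ ∀ E ∈ S, y ∈ lc P (F E (l E d)) := by
  constructor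
  · rintro ⟨f, hf, hy, h⟩
    exact ⟨⟨f, hf, hy⟩, fun E hE => ⟨f, hf, h E hE⟩⟩
  · rintro ⟨hy, h⟩
    exact mem_lc_inter hF (Set.toFinite S) hy h

theorem CT_mul (hF : FilSys B φ F) {l : Idx G → ι →+ ℤ} {S : Set (Idx G)} {d d' : ι} {x y : K}
    (hx : x ∈ CT F P l S d) (hy : y ∈ CT F P l S d') : x * y ∈ CT F P l S (d + d') := by
  obtain ⟨f, hf, hfx, hfS⟩ := hx
  obtain ⟨g, hg, hgy, hgS⟩ := hy
  refine ⟨f * g, mul_mem_cpl hf hg, ?_, fun E hE => ?_⟩
  · have := B.mul_mem hfx hgy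
    convert this using 1
    ring
  · have := hF.mul E _ _ _ _ (hfS E hE) (hgS E hE)
    rw [map_add]
    convert this using 1
    ring

theorem CT_add (hF : FilSys B φ F) {l : Idx G → ι →+ ℤ} {S : Set (Idx G)} {d : ι} {x y : K}
    (hx : x ∈ CT F P l S d) (hy : y ∈ CT F P l S d) : x + y ∈ CT F P l S d := by
  obtain ⟨f, hf, hfx, hfS⟩ := hx
  obtain ⟨g, hg, hgy, hgS⟩ := hy
  refine ⟨f * g, mul_mem_cpl hf hg, ?_, fun E hE => ?_⟩
  · have := B.add_mem (B.mul_mem hg.1 hfx) (B.mul_mem hf.1 hgy)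
    convert this using 1
    ring
  · have := Submodule.add_mem _ (hF.mulB hg.1 (hfS E hE)) (hF.mulB hf.1 (hgS E hE))
    convert this using 1
    ring

theorem one_mem_CT (hF : FilSys B φ F) {l : Idx G → ι →+ ℤ} {S : Set (Idx G)} {d : ι}
    (h : ∀ E ∈ S, l E d ≤ 0) : (1 : K) ∈ CT F P l S d := by
  refine ⟨1, one_mem_cpl, by rw [one_mul]; exact B.one_mem, fun E hE => ?_⟩
  rw [hF.nonpos E _ (h E hE), one_mul]
  exact B.one_mem

/-- Global elements of the chart. -/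
theorem mem_CT_of_mem {l : Idx G → ι →+ ℤ} {S : Set (Idx G)} {d : ι} {y : K} (hy : y ∈ B)
    (h : ∀ E ∈ S, y ∈ F E (l E d)) : y ∈ CT F P l S d :=
  ⟨1, one_mem_cpl, by rwa [one_mul], fun E hE => by rw [one_mul]; exact h E hE⟩

/-! ### The local model -/

section

variable {p : ℕ} {H : Subgroup G} (Λ : LM p φ F P H)

theorem LM.lin_mem_lev {E : Idx G} (hE : Adm p H E) (hfl : IsFlag (flg Λ.ρ E)) {z : Λ.U}
    (hz : z ≠ 0) : Λ.lin z ∈ lc P (F E (lev (flg Λ.ρ E) z)) :=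
  Λ.gen E hE _ z ((mem_iff_le_lev hfl hz).2 le_rfl)

/-- Monomials. -/
theorem LM.prod_mem (hF : FilSys B φ F) {E : Idx G} (hE : Adm p H E)
    (hfl : IsFlag (flg Λ.ρ E)) (t : List Λ.U) (ht : ∀ z ∈ t, z ≠ 0) :
    (t.map Λ.lin).prod ∈ lc P (F E ((t.map (lev (flg Λ.ρ E))).sum : ℕ)) := by
  induction t with
  | nil =>
    simp only [List.map_nil, List.prod_nil, List.sum_nil]
    exact lc_nonpos hF le_rfl (mem_lc B.one_mem)
  | cons z t ih =>
    simp only [List.map_cons, List.prod_cons, List.sum_cons]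
    have h1 := Λ.lin_mem_lev hE hfl (ht z List.mem_cons_self)
    have h2 := ih fun z hz => ht z (List.mem_cons_of_mem _ hz)
    have h3 := lc_mul hF h1 h2
    rwa [← Nat.cast_add] at h3

theorem LM.prod_mem_B (t : List Λ.U) :
    (t.map Λ.lin).prod ∈ lc P (Subalgebra.toSubmodule B) := by
  induction t with
  | nil => exact mem_lc B.one_mem
  | cons z t ih =>
    simp only [List.map_cons, List.prod_cons]
    obtain ⟨f, hf, hfx⟩ := Λ.mem z
    obtain ⟨g, hg, hgy⟩ := ih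
    refine ⟨f * g, mul_mem_cpl hf hg, ?_⟩
    have := B.mul_mem hfx hgy
    have e : f * g * (Λ.lin z * (t.map Λ.lin).prod)
        = f * Λ.lin z * (g * (t.map Λ.lin).prod) := by ring
    rw [e]
    exact this

/-- Monomials in the chart. -/
theorem LM.prod_mem_CT [Finite G] (hF : FilSys B φ F) {S : Set (Idx G)} (hS : ∀ E ∈ S, Adm p H E)
    (hfl : ∀ E ∈ S, IsFlag (flg Λ.ρ E)) {l : Idx G → ι →+ ℤ} {d : ι} (t : List Λ.U)
    (ht : ∀ z ∈ t, z ≠ 0)
    (h : ∀ E ∈ S, l E d ≤ ((t.map (lev (flg Λ.ρ E))).sum : ℕ)) :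
    (t.map Λ.lin).prod ∈ CT F P l S d := by
  rw [mem_CT hF]
  refine ⟨Λ.prod_mem_B t, fun E hE => ?_⟩
  exact lc_mono (hF.anti E _ _ (h E hE)) (Λ.prod_mem hF (hS E hE) (hfl E hE) t ht)

end

/-! ### Homogeneous localisations -/

section

variable {M : Fam k K ι} {q : Ideal M.alg} [q.IsPrime]

theorem lc_le_atP (h0 : M.s 0 = Subalgebra.toSubmodule B) (hP : Under M q P) {c : K}
    (hc : c ∈ lc P (Subalgebra.toSubmodule B)) : c ∈ (atP M q).s 0 := by
  obtain ⟨f, hf, hfc⟩ := hc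
  have hf0 : f ∈ M.s 0 := by rw [h0]; exact hf.1
  refine ⟨0, f, hf0, ?_, by rw [add_zero, h0]; exact hfc⟩
  exact fun h => hf.2 ((hP f hf.1 hf0).2 h)

theorem mul_mem_atP (h0 : M.s 0 = Subalgebra.toSubmodule B) (hP : Under M q P) {c y : K} {d : ι}
    (hc : c ∈ lc P (Subalgebra.toSubmodule B)) (hy : y ∈ (atP M q).s d) :
    c * y ∈ (atP M q).s d := by
  have := (atP M q).mul' (lc_le_atP h0 hP hc) hy
  rwa [zero_add] at this

theorem isU_of_mem_cpl (h0 : M.s 0 = Subalgebra.toSubmodule B) (hP : Under M q P) {f : K}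
    (hf : f ∈ cpl P) : IsU (atP M q) 0 f := by
  have hf0 : f ∈ M.s 0 := by rw [h0]; exact hf.1
  exact (isU_atP_iff M q hf0).2 fun h => hf.2 ((hP f hf.1 hf0).2 h)

/-- Locally at `P`, elements of `M` are elements of the homogeneous localisation. -/
theorem mem_atP_of_mul {f y : K} {d : ι} (h0 : M.s 0 = Subalgebra.toSubmodule B)
    (hP : Under M q P) (hf : f ∈ cpl P) (hy : f * y ∈ (atP M q).s d) : y ∈ (atP M q).s d := by
  have h1 := isU_of_mem_cpl h0 hP hf
  have h2 := (atP M q).mul' h1.2.2 hy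
  rwa [neg_zero, zero_add, inv_mul_cancel_left₀ h1.1] at h2

theorem lspan_le_atP (h0 : M.s 0 = Subalgebra.toSubmodule B) (hP : Under M q P) {X : Set K}
    {d : ι} (hX : ∀ x ∈ X, x ∈ (atP M q).s d) : lspan P X ≤ (atP M q).s d := by
  refine Submodule.span_le.2 ?_
  rintro y ⟨c, hc, x, hx, rfl⟩
  exact mul_mem_atP h0 hP hc (hX x hx)

theorem exists_isU_of_lspan (h0 : M.s 0 = Subalgebra.toSubmodule B) (hP : Under M q P)
    {X : Set K} {d : ι} (hX : ∀ x ∈ X, x ∈ (atP M q).s d) {y : K} (hy : y ∈ lspan P X)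
    (hU : IsU (atP M q) d y) : ∃ x ∈ X, IsU (atP M q) d x := by
  obtain ⟨t, ⟨c, hc, x, hx, rfl⟩, ht⟩ := exists_isU_of_span M q (T := {y | ∃ c ∈ lc P
    (Subalgebra.toSubmodule B), ∃ x ∈ X, y = c * x}) (by
      rintro y ⟨c, hc, x, hx, rfl⟩
      exact mul_mem_atP h0 hP hc (hX x hx)) hy hU
  refine ⟨x, hx, IsU.of_mul_right (d := 0) (lc_le_atP h0 hP hc) (hX x hx) ?_⟩
  rwa [zero_add]

/-- The inertia group of `q` is contained in the group of the local model. -/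
theorem inertia_le [Finite G] (hF : FilSys B φ F) (h0 : M.s 0 = Subalgebra.toSubmodule B)
    (hP : Under M q P) {p : ℕ} {H : Subgroup G} (Λ : LM p φ F P H) : inertia φ M q ≤ H := by
  intro g hg
  refine Λ.inert g fun b hb => ?_
  have hb0 : b ∈ M.s 0 := by rw [h0]; exact hb
  obtain ⟨h1, h2⟩ := hg 0 b hb0
  have h3 : φ g b - b ∈ B := B.sub_mem (hF.stab g b hb) hb
  exact ⟨h3, (hP _ h3 h1).2 h2⟩

/-- A divisor whose centre contains `q` has its group in the group of the local model. -/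
theorem grp_le_of_cen (hF : FilSys B φ F) (h0 : M.s 0 = Subalgebra.toSubmodule B)
    (hP : Under M q P) {p : ℕ} {H : Subgroup G} (Λ : LM p φ F P H) {lam : ι →+ ℤ} {E : Idx G}
    (hcen : Cen F M lam q E) : E.grp ≤ H := by
  intro g hg
  refine Λ.inert g fun b hb => ?_
  have h3 : φ g b - b ∈ B := B.sub_mem (hF.stab g b hb) hb
  have h1 : φ g b - b ∈ M.s 0 := by rw [h0]; exact h3
  refine ⟨h3, (hP _ h3 h1).2 (hcen 0 _ h1 ?_)⟩
  rw [map_zero, add_zero]
  exact hF.diff_one E g hg b hb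

/-- The contraction of `q`. -/
theorem exists_under (h0 : M.s 0 = Subalgebra.toSubmodule B) (q : Ideal M.alg) [q.IsPrime] :
    ∃ P : Ideal B, P.IsPrime ∧ Under M q P := by
  have hm : ∀ b : B, (b : K) ∈ M.s 0 := fun b => by rw [h0]; exact b.2
  let f : B →+* M.alg :=
    { toFun := fun b => M.el (hm b)
      map_one' := Subtype.ext rfl
      map_mul' := fun b c => Subtype.ext (by
        change single 0 ((b : K) * (c : K)) = single 0 (b : K) * single 0 (c : K)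
        rw [single_mul_single, add_zero])
      map_zero' := Subtype.ext (by
        change single 0 (0 : K) = 0
        exact single_zero _)
      map_add' := fun b c => Subtype.ext (by
        change single 0 ((b : K) + (c : K)) = single 0 (b : K) + single 0 (c : K)
        rw [single_add]) }
  exact ⟨q.comap f, inferInstance, fun g h h' => Iff.rfl⟩

theorem Under.over {M' : Fam k K ι'} {j : ι →+ ι'} {q' : Ideal M'.alg} [q'.IsPrime]
    (h0 : M.s 0 = Subalgebra.toSubmodule B) (h0' : M'.s 0 = Subalgebra.toSubmodule B)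
    (hov : Over M M' j q q') (hP : Under M q P) : Under M' q' P := by
  intro f h h'
  have h1 : f ∈ M.s 0 := by rw [h0]; exact h
  have h2 : f ∈ M'.s (j 0) := by rw [map_zero]; exact h'
  have h3 : M'.el h2 = M'.el h' := by
    refine Subtype.ext ?_
    change single (j 0) f = single 0 f
    rw [map_zero]
  rw [hP f h h1, hov 0 f h1 h2, h3]

end

end Pool.Agent.MP_b525bf_ag_X
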