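import Pool.Agent.Lib.MP_b525bf_ag_X.Rees_mem

/-!
# X5: the Rees step, charts at the centre
-/

set_option autoImplicit false

namespace Pool.Agent.MP_b525bf_ag_X

open Pool.Agent.MP_b525bf_ag Pool.Agent.MP_b525bf_ag_W Module AddMonoidAlgebra

variable {k K G ι : Type} [Field k] [Field K] [Algebra k K] [Group G] [Finite G] [AddCommGroup ι]
  {B : Subalgebra k K} {φ : G →* (K ≃ₐ[k] K)} {F : Idx G → ℤ → Submodule k K} {p : ℕ}
  {M : Fam k K ι} {O : Set (Idx G)} {lam : ι →+ ℤ} {bmax : ℕ}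

section

omit [Finite G] [Group G] in
theorem rees_mul_list {V : Type} {N : Fam k K ι} (t : List V) (d : V → ι) (x : V → K)
    (hx : ∀ b ∈ t, x b ∈ N.s (d b)) : (t.map x).prod ∈ N.s ((t.map d).sum) := by
  induction t with
  | nil => simpa using N.one'
  | cons b t ih =>
    simp only [List.map_cons, List.prod_cons, List.sum_cons]
    exact N.mul' (hx b List.mem_cons_self) (ih fun b' hb' => hx b' (List.mem_cons_of_mem _ hb'))

omit [Finite G] in
theorem rees_one_sum {N : Fam k K ι} (R : Finset (Idx G)) (m : Idx G → ℕ) (e : Idx G → ι)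
    (he : ∀ E ∈ R, (1 : K) ∈ N.s (e E)) : (1 : K) ∈ N.s (∑ E ∈ R, m E • e E) := by
  classical
  induction R using Finset.induction_on with
  | empty => simpa using N.one'
  | insert E R hE ih =>
    rw [Finset.sum_insert hE]
    have h1 := N.pow' (he E (Finset.mem_insert_self _ _)) (m E)
    rw [one_pow] at h1
    have := N.mul' h1 (ih fun E' hE' => he E' (Finset.mem_insert_of_mem hE'))
    rwa [mul_one] at this

/-- Blueprint 1.4. -/
theorem chart_rees (hp : p.Prime) [CharP k p] (h : RHyp B φ F M O lam p)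
    {q' : Ideal (rees F M O lam p).alg} [q'.IsPrime] {q : Ideal M.alg} [q.IsPrime]
    {P : Ideal B} [P.IsPrime]
    (hP : Under M q P) {H : Subgroup G} (Λ : LM p φ F P H)
    (hov : Over M (rees F M O lam p) (inlZ ι) q q') {E : Idx G} (hE : E ∈ O)
    (hcen : Cen F M lam q E) (huniq : ∀ E' ∈ O, E' ≠ E → ¬ Cen F M lam q E')
    {S : Set (Idx G)} {l : Idx G → ι →+ ℤ} {e : Idx G → ι} (hES : E ∉ S)
    (hadm : ∀ E' ∈ insert E S, Adm p H E') (had : AdaptedTo (flg Λ.ρ) (insert E S))
    (hdual : Dual l e S) (hch : ∀ d, CT F P l S d ⊆ (atP M q).s d)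
    (hker : ∀ z, (∀ E' ∈ S, l E' z = 0) → lam z = 0)
    (hlam : ∀ E' ∈ S, 0 ≤ lam (e E') ∧ lam (e E') ≤ p)
    (hpos : ∀ z : Λ.U, z ≠ 0 →
      lam (∑ᶠ E' ∈ S, lev (flg Λ.ρ E') z • e E') ≤ (lev (flg Λ.ρ E) z : ℕ))
    {l' : Idx G → ι × ℤ →+ ℤ} (hl' : ∀ E' ∈ S, ∀ (d : ι) (n : ℤ), l' E' (d, n) = l E' d)
    (hl'E : ∀ (d : ι) (n : ℤ), l' E (d, n) = n + lam d) (d : ι × ℤ) :
    CT F P l' (insert E S) d ⊆ (atP (rees F M O lam p) q').s d := by
  classical
  have hfi : Finite (Idx G) := rees_finite_idx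
  have hS : S.Finite := Set.toFinite S
  set v := flg Λ.ρ with hv
  obtain ⟨d, n⟩ := d
  intro y hy
  obtain ⟨β, hβ, hadβ⟩ := had
  have hE1 : IsFlag (v E) := isFlag_of_adm Λ.rep hp (hadm E (Set.mem_insert _ _))
  have hflS : ∀ E' ∈ S, IsFlag (v E') := fun E' hE' =>
    isFlag_of_adm Λ.rep hp (hadm E' (Set.mem_insert_of_mem _ hE'))
  have hspan := Λ.span (insert E S) hadm β hβ hadβ (fun E' => l' E' (d, n)) y hy
  have h0' : (rees F M O lam p).s 0 = Subalgebra.toSubmodule B := by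
    rw [← h.zero]
    exact rees_nonpos le_rfl
  have hP' : Under (rees F M O lam p) q' P := Under.over h.zero h0' hov hP
  refine lspan_le_atP h0' hP' ?_ hspan
  rintro y1 ⟨t, htβ, htS', rfl⟩
  have htE : n + lam d ≤ ((t.map (lev (v E))).sum : ℕ) := by
    rw [← hl'E]
    exact htS' E (Set.mem_insert _ _)
  have htS : ∀ E' ∈ S, l E' d ≤ ((t.map (lev (v E'))).sum : ℕ) := by
    intro E' hE'
    rw [← hl' E' hE' d n]
    exact htS' E' (Set.mem_insert_of_mem _ hE')
  set N := atP (rees F M O lam p) q' with hN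
  -- the degree of a basis vector
  set R := hS.toFinset with hR
  have hRS : ∀ E', E' ∈ R ↔ E' ∈ S := fun E' => by rw [hR, Set.Finite.mem_toFinset]
  have hfin : ∀ m : Idx G → ℕ, ∑ᶠ E' ∈ S, m E' • e E' = ∑ E' ∈ R, m E' • e E' := by
    intro m
    rw [finsum_mem_eq_finite_toFinset_sum _ hS]
  set db : Λ.U → ι := fun b => ∑ E' ∈ R, lev (v E') b • e E' with hdb
  have hldb : ∀ E' ∈ S, ∀ m : Idx G → ℕ, l E' (∑ E'' ∈ R, m E'' • e E'') = m E' := by
    intro E' hE' m
    rw [map_sum, Finset.sum_eq_single_of_mem E' ((hRS E').2 hE')]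
    · rw [map_nsmul, hdual.self E' hE']
      simp
    · intro x hx hne
      rw [map_nsmul, hdual.ne E' hE' x ((hRS x).1 hx) (Ne.symm hne), smul_zero]
  have hlamsum : ∀ m : Idx G → ℕ,
      lam (∑ E'' ∈ R, m E'' • e E'') = ∑ E'' ∈ R, m E'' * lam (e E'') := by
    intro m
    rw [map_sum]
    exact Finset.sum_congr rfl fun x _ => by rw [map_nsmul, nsmul_eq_mul]
  have hlam0 : ∀ m : Idx G → ℕ, 0 ≤ lam (∑ E'' ∈ R, m E'' • e E'') := by
    intro m
    rw [hlamsum]
    refine Finset.sum_nonneg ?_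
    intro x hx
    exact mul_nonneg (by positivity) (hlam x ((hRS x).1 hx)).1
  -- basis vectors
  have hb : ∀ b ∈ t, Λ.lin b ∈ N.s (db b, (lev (v E) b : ℤ) - lam (db b)) := by
    intro b hb
    have hb0 : b ≠ 0 := hβ.ne_zero (htβ b hb)
    have h1 : Λ.lin b ∈ CT F P l S (db b) := by
      rw [mem_CT h.sys]
      refine ⟨Λ.mem b, fun E' hE' => ?_⟩
      rw [hldb E' hE']
      exact Λ.lin_mem_lev (hadm E' (Set.mem_insert_of_mem _ hE')) (hflS E' hE') hb0
    have h2 := hch _ h1
    have h3 : Λ.lin b ∈ lc P (F E (lev (v E) b : ℕ)) :=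
      Λ.lin_mem_lev (hadm E (Set.mem_insert _ _)) hE1 hb0
    have h4 : lam (db b) ≤ lev (v E) b := by
      have h5 := hpos b hb0
      rwa [hfin] at h5
    have h5 : lev (v E) b ≤ p := by
      by_contra h6
      push Not at h6
      have h7 := (mem_iff_le_lev hE1 hb0).2 (Nat.succ_le_of_lt h6)
      rw [Nat.succ_eq_add_one, hv, flg_eq_bot_of_adm Λ.rep hp
        (hadm E (Set.mem_insert _ _))] at h7
      exact hb0 ((Submodule.mem_bot k).1 h7)
    have h6 : (((lev (v E) b : ℤ) - lam (db b)).toNat : ℤ) = (lev (v E) b : ℤ) - lam (db b) :=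
      Int.toNat_of_nonneg (by omega)
    have h7 := mem_atP_rees h hP hov huniq h2 (b := ((lev (v E) b : ℤ) - lam (db b)).toNat)
      (by have := hlam0 (fun E' => lev (v E') b); simp only [hdb] at *; omega) (by
        rw [h6, sub_add_cancel]
        exact h3)
    rw [h6] at h7
    exact h7
  -- the sections of the old divisors
  have he : ∀ E' ∈ R, (1 : K) ∈ N.s (-(e E'), lam (e E')) := by
    intro E' hE'
    have hE'' := (hRS E').1 hE'
    obtain ⟨h0, h1⟩ := hlam E' hE''
    have h2 : (1 : K) ∈ (atP M q).s (-(e E')) := by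
      refine hch _ ?_
      refine one_mem_CT h.sys fun E2 hE2 => ?_
      rw [map_neg]
      by_cases h3 : E2 = E'
      · subst h3
        rw [hdual.self E2 hE2]
        omega
      · rw [hdual.ne E2 hE2 E' hE'' h3]
        simp
    have h6 : ((lam (e E')).toNat : ℤ) = lam (e E') := Int.toNat_of_nonneg h0
    have h7 := mem_atP_rees h hP hov huniq h2 (b := (lam (e E')).toNat) (by omega) (by
        rw [h6, map_neg, add_neg_cancel]
        exact lc_nonpos h.sys le_rfl (mem_lc B.one_mem))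
    rw [h6] at h7
    exact h7
  -- exponents
  set be : Idx G → ℕ := fun E' => (((t.map (lev (v E'))).sum : ℕ) - l E' d).toNat with hbe
  have hbe' : ∀ E' ∈ S, (be E' : ℤ) = ((t.map (lev (v E'))).sum : ℕ) - l E' d := by
    intro E' hE'
    exact Int.toNat_of_nonneg (by have := htS E' hE'; omega)
  -- the sum of the degrees of the basis vectors
  have hsum : (t.map db).sum = ∑ E' ∈ R, (t.map (lev (v E'))).sum • e E' := by
    clear hb htβ htS htS' htE hbe hbe'
    induction t with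
    | nil => simp
    | cons b t ih =>
      rw [List.map_cons, List.sum_cons, ih, hdb, ← Finset.sum_add_distrib]
      refine Finset.sum_congr rfl fun x _ => ?_
      rw [List.map_cons, List.sum_cons, add_smul]
  set ζ : ι := d - (t.map db).sum + ∑ E' ∈ R, be E' • e E' with hζ
  have hζ0 : ∀ E' ∈ S, l E' ζ = 0 := by
    intro E' hE'
    rw [hζ, map_add, map_sub, hsum, hldb E' hE', hldb E' hE', hbe' E' hE']
    ring
  have hlamζ : lam ζ = 0 := hker ζ hζ0
  have hζ1 : (1 : K) ∈ N.s (ζ, 0) := by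
    have h2 : (1 : K) ∈ (atP M q).s ζ := by
      refine hch _ ?_
      refine one_mem_CT h.sys fun E2 hE2 => ?_
      rw [hζ0 E2 hE2]
    exact Over.atP (j := inlZ ι) (fun d => le_rees d) hov ζ h2
  have hs : ∀ m : ℕ, (1 : K) ∈ N.s (0, -(m : ℤ)) := by
    intro m
    have h1 : (1 : K) ∈ N.s (0, -1) := le_atP _ _ _ one_rees
    have h2 := N.pow' h1 m
    rw [one_pow] at h2
    convert h2 using 2
    ext <;> simp
  have h1 := rees_mul_list t (fun b => (db b, (lev (v E) b : ℤ) - lam (db b))) Λ.lin hb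
  have h2 := rees_one_sum R be (fun E' => (-(e E'), lam (e E'))) he
  have h3 := N.mul' (N.mul' h1 h2) (N.mul' hζ1
    (hs ((((t.map (lev (v E))).sum : ℕ) - (n + lam d)).toNat)))
  rw [mul_one, mul_one, mul_one] at h3
  refine (congrArg (fun z => (t.map Λ.lin).prod ∈ N.s z) ?_).mp h3
  have hfst : ∀ t : List Λ.U, (t.map fun b => (db b, (lev (v E) b : ℤ) - lam (db b))).sum =
      ((t.map db).sum, ((t.map (lev (v E))).sum : ℕ) - lam ((t.map db).sum)) := by
    intro t
    induction t with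
    | nil => simp; rfl
    | cons b t ih =>
      rw [List.map_cons, List.sum_cons, ih]
      simp only [List.map_cons, List.sum_cons, map_add, Prod.mk_add_mk, Nat.cast_add,
        Prod.mk.injEq, true_and]
      ring
  have hsnd : ∑ E' ∈ R, be E' • ((-(e E'), lam (e E')) : ι × ℤ) =
      (-∑ E' ∈ R, be E' • e E', lam (∑ E' ∈ R, be E' • e E')) := by
    ext
    · simp [Prod.fst_sum]
    · simp [Prod.snd_sum, hlamsum]
  have hex : (((((t.map (lev (v E))).sum : ℕ) - (n + lam d)).toNat : ℕ) : ℤ) =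
      ((t.map (lev (v E))).sum : ℕ) - (n + lam d) := Int.toNat_of_nonneg (by omega)
  rw [hfst, hsnd]
  have hl2 : lam ζ = lam d - lam (t.map db).sum + lam (∑ E' ∈ R, be E' • e E') := by
    rw [hζ, map_add, map_sub]
  rw [hlamζ] at hl2
  ext
  · simp only [Prod.fst_add]
    rw [hζ]
    abel
  · simp only [Prod.snd_add]
    rw [hex]
    linarith

end

end Pool.Agent.MP_b525bf_ag_X
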