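import Pool.Agent.Lib.MP_b525bf_ag_X.Rees_formal

/-!
# X5: the Rees step, charts away from the centre
-/

set_option autoImplicit false

namespace Pool.Agent.MP_b525bf_ag_X

open Pool.Agent.MP_b525bf_ag Pool.Agent.MP_b525bf_ag_W Module AddMonoidAlgebra

variable {k K G ι : Type} [Field k] [Field K] [Algebra k K] [Group G] [Finite G] [AddCommGroup ι]
  {B : Subalgebra k K} {φ : G →* (K ≃ₐ[k] K)} {F : Idx G → ℤ → Submodule k K} {p : ℕ}
  {M : Fam k K ι} {O : Set (Idx G)} {lam : ι →+ ℤ} {bmax : ℕ}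

theorem rees_finite_idx : Finite (Idx G) := by
  refine Finite.of_injective (β := Subgroup G ⊕ Subgroup G × Subgroup G)
    (fun E => match E with
      | .t N => Sum.inl N
      | .w P N => Sum.inr (P, N)) ?_
  rintro (N | ⟨P, N⟩) (N' | ⟨P', N'⟩) h
  · simp only [Sum.inl.injEq] at h
    rw [h]
  · simp at h
  · simp at h
  · simp only [Sum.inr.injEq, Prod.mk.injEq] at h
    rw [h.1, h.2]

theorem rees_el_congr {N : Fam k K ι} {d d' : ι} {x x' : K} (h : x ∈ N.s d) (h' : x' ∈ N.s d')
    (e : d = d') (ex : x = x') : N.el h = N.el h' := by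
  subst e ex; rfl

section

variable {q' : Ideal (rees F M O lam bmax).alg} [q'.IsPrime] {q : Ideal M.alg} [q.IsPrime]

omit [q.IsPrime] in
theorem exists_notMem_FOs [hq : q.IsPrime] (h : RHyp B φ F M O lam bmax)
    (hemp : ∀ E ∈ O, ¬ Cen F M lam q E) :
    ∃ (c : ι) (f : K) (hf : f ∈ M.s c), M.el hf ∉ q ∧ f ∈ FOs F M O lam 1 c := by
  classical
  have key : ∀ R : Finset (Idx G), (∀ E ∈ R, E ∈ O) → ∃ (c : ι) (f : K) (hf : f ∈ M.s c),
      M.el hf ∉ q ∧ ∀ E ∈ R, f ∈ F E (1 + lam c) := by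
    intro R
    induction R using Finset.induction_on with
    | empty =>
      intro _
      exact ⟨0, 1, M.one', by rw [M.el_one]; exact (Ideal.ne_top_iff_one q).1 hq.ne_top,
        by simp⟩
    | insert E1 R hE1 ih =>
      intro hR
      obtain ⟨c, f, hf, hfq, hfR⟩ := ih fun E' hE' => hR E' (Finset.mem_insert_of_mem hE')
      have h1 := hemp E1 (hR E1 (Finset.mem_insert_self _ _))
      rw [Cen] at h1
      push Not at h1
      obtain ⟨d, y, hy, hyv, hyq⟩ := h1
      refine ⟨d + c, y * f, M.mul' hy hf, ?_, ?_⟩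
      · rw [← M.el_mul hy hf]
        exact hq.mul_notMem hyq hfq
      · intro E' hE'
        rcases Finset.mem_insert.1 hE' with rfl | hE'
        · have h2 := h.sys.mul _ _ _ _ _ hyv (h.r0 E' (hR E' (Finset.mem_insert_self _ _)) c hf)
          refine h.sys.anti _ _ _ (le_of_eq ?_) h2
          rw [map_add]
          ring
        · have h2 := h.sys.mul _ _ _ _ _ (h.r0 E' (hR E' (Finset.mem_insert_of_mem hE')) _ hy)
            (hfR E' hE')
          refine h.sys.anti _ _ _ (le_of_eq ?_) h2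
          rw [map_add]
          ring
  have hfi : Finite (Idx G) := rees_finite_idx
  obtain ⟨c, f, hf, hfq, hfR⟩ := key (Set.toFinite O).toFinset (by simp)
  refine ⟨c, f, hf, hfq, hf, ?_⟩
  simp only [Submodule.mem_iInf, SetLike.mem_coe]
  intro E hE
  exact hfR E (by simpa using hE)

theorem one_notMem_of_empty (h : RHyp B φ F M O lam bmax)
    (hov : Over M (rees F M O lam bmax) (inlZ ι) q q')
    (hemp : ∀ E ∈ O, ¬ Cen F M lam q E) {n : ℤ}
    (hn : (1 : K) ∈ (rees F M O lam bmax).s (0, n)) (hn0 : n ≤ 0) :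
    (rees F M O lam bmax).el hn ∉ q' := by
  obtain ⟨c, f, hf, hfq, hfF⟩ := exists_notMem_FOs h hemp
  have h1 := FOs_le_rees (bmax := bmax) le_rfl h.pos c hfF
  have h2 : f ∈ (rees F M O lam bmax).s (c, 0) := le_rees c hf
  have h3 : (rees F M O lam bmax).el h2 ∉ q' := by
    exact fun h4 => hfq ((hov c f hf h2).2 h4)
  have h4 : (rees F M O lam bmax).el (one_rees (F := F) (M := M) (O := O)
      (lam := lam) (bmax := bmax)) ∉ q' := by
    intro h5
    apply h3
    have h6 : (rees F M O lam bmax).el h2 = (rees F M O lam bmax).el h1 *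
        (rees F M O lam bmax).el one_rees := by
      rw [Fam.el_mul]
      exact rees_el_congr _ _ (by simp) (by simp)
    rw [h6]
    exact Ideal.mul_mem_left _ _ h5
  intro h5
  have h6 : (rees F M O lam bmax).el hn =
      (rees F M O lam bmax).el (one_rees (F := F) (M := M) (O := O)
      (lam := lam) (bmax := bmax)) ^ (-n).toNat := by
    rw [Fam.el_pow]
    refine rees_el_congr _ _ ?_ (by simp)
    have h : ((-n).toNat : ℤ) = -n := Int.toNat_of_nonneg (by omega)
    rw [Prod.smul_mk, smul_zero, nsmul_eq_mul, h]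
    ring_nf
  rw [h6] at h5
  exact h4 (Ideal.IsPrime.mem_of_pow_mem inferInstance _ h5)

theorem notMem_iff_of_empty (h : RHyp B φ F M O lam bmax)
    (hov : Over M (rees F M O lam bmax) (inlZ ι) q q')
    (hemp : ∀ E ∈ O, ¬ Cen F M lam q E) {d : ι} {n : ℤ} {x : K}
    (hx : x ∈ (rees F M O lam bmax).s (d, n)) (hx' : x ∈ M.s d) :
    (rees F M O lam bmax).el hx ∈ q' ↔ M.el hx' ∈ q := by
  have h2 : x ∈ (rees F M O lam bmax).s (d, 0) := le_rees d hx'
  have h0 : M.el hx' ∈ q ↔ (rees F M O lam bmax).el h2 ∈ q' := hov d x hx' h2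
  rw [h0]
  rcases le_total n 0 with hn | hn
  · have h3 : (rees F M O lam bmax).el hx = (rees F M O lam bmax).el h2 *
        (rees F M O lam bmax).el (one_mem_rees hn) := by
      rw [Fam.el_mul]
      exact rees_el_congr _ _ (by simp) (by simp)
    rw [h3, Ideal.IsPrime.mul_mem_iff_mem_or_mem inferInstance]
    have := one_notMem_of_empty h hov hemp (one_mem_rees hn) hn
    tauto
  · have h3 : (rees F M O lam bmax).el h2 = (rees F M O lam bmax).el hx *
        (rees F M O lam bmax).el (one_mem_rees (n := -n) (by omega)) := by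
      rw [Fam.el_mul]
      exact rees_el_congr _ _ (by simp) (by simp)
    rw [h3, Ideal.IsPrime.mul_mem_iff_mem_or_mem inferInstance]
    have := one_notMem_of_empty h hov hemp (one_mem_rees (n := -n) (by omega)) (by omega)
    tauto

/-- Blueprint 1.3. -/
theorem atP_rees_of_empty (h : RHyp B φ F M O lam bmax)
    (hov : Over M (rees F M O lam bmax) (inlZ ι) q q')
    (hemp : ∀ E ∈ O, ¬ Cen F M lam q E) (d : ι) (n : ℤ) :
    (atP (rees F M O lam bmax) q').s (d, n) = (atP M q).s d := by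
  refine le_antisymm ?_ ?_
  · rintro y ⟨⟨c, m⟩, f, hf, hfq, hfy⟩
    have hf' := rees_le c m hf
    have hfy' := rees_le (c + d) (m + n) hfy
    exact ⟨c, f, hf', fun h1 => hfq ((notMem_iff_of_empty h hov hemp hf hf').2 h1), hfy'⟩
  · rintro y ⟨c, f, hf, hfq, hfy⟩
    have h1 : f ∈ (rees F M O lam bmax).s (c, -|n|) := by
      rw [rees_nonpos (by simp)]
      exact hf
    refine ⟨(c, -|n|), f, h1, fun h2 => hfq ((notMem_iff_of_empty h hov hemp h1 hf).1 h2), ?_⟩
    rw [Prod.mk_add_mk, rees_nonpos (by have := le_abs_self n; omega)]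
    exact hfy

/-- Blueprint 1.3. -/
theorem inertia_rees_of_empty (hst : ∀ g d x, x ∈ M.s d → φ g x ∈ M.s d)
    (hst' : ∀ g d x, x ∈ (rees F M O lam bmax).s d → φ g x ∈ (rees F M O lam bmax).s d)
    (h : RHyp B φ F M O lam bmax)
    (hov : Over M (rees F M O lam bmax) (inlZ ι) q q')
    (hemp : ∀ E ∈ O, ¬ Cen F M lam q E) :
    inertia φ (rees F M O lam bmax) q' = inertia φ M q := by
  refine le_antisymm (Over.inertia_le (j := inlZ ι) φ hst (fun d => le_rees d) hov) ?_
  rintro g hg ⟨d, n⟩ x hx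
  have h1 := Submodule.sub_mem _ (hst' g _ x hx) hx
  obtain ⟨h2, h3⟩ := hg d x (rees_le d n hx)
  exact ⟨h1, (notMem_iff_of_empty h hov hemp h1 h2).2 h3⟩

end

end Pool.Agent.MP_b525bf_ag_X
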