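import Pool.Agent.Lib.MP_b525bf_ag_X.Rees_empty

/-!
# X5: the Rees step, membership (*)
-/

set_option autoImplicit false

namespace Pool.Agent.MP_b525bf_ag_X

open Pool.Agent.MP_b525bf_ag Pool.Agent.MP_b525bf_ag_W Module AddMonoidAlgebra

variable {k K G ι : Type} [Field k] [Field K] [Algebra k K] [Group G] [Finite G] [AddCommGroup ι]
  {B : Subalgebra k K} {φ : G →* (K ≃ₐ[k] K)} {F : Idx G → ℤ → Submodule k K} {p : ℕ}
  {M : Fam k K ι} {O : Set (Idx G)} {lam : ι →+ ℤ} {bmax : ℕ}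

section

variable {q' : Ideal (rees F M O lam bmax).alg} [q'.IsPrime] {q : Ideal M.alg} [q.IsPrime]

omit [Finite G] in
theorem rees_fil_pow (h : FilSys B φ F) {E : Idx G} {m : ℤ} {x : K} (hx : x ∈ F E m) (n : ℕ) :
    x ^ n ∈ F E (n * m) := by
  induction n with
  | zero =>
    rw [pow_zero, h.nonpos E _ (by simp)]
    exact B.one_mem
  | succ n ih =>
    have := h.mul _ _ _ _ _ ih hx
    rw [pow_succ]
    refine h.anti _ _ _ (le_of_eq ?_) this
    push_cast
    ring

omit [Finite G] in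
theorem rees_cpl (h : RHyp B φ F M O lam bmax) {P : Ideal B} (hP : Under M q P) {f : K}
    (hf : f ∈ cpl P) : ∃ hf' : f ∈ M.s 0, M.el hf' ∉ q := by
  obtain ⟨h1, h2⟩ := hf
  have h3 : f ∈ M.s 0 := by
    rw [h.zero]
    exact h1
  exact ⟨h3, fun h4 => h2 ((hP f h1 h3).2 h4)⟩

/-- An element of `F_E'(b)` outside `q`, for all `E' ≠ E` in `O`. -/
theorem exists_notMem_fil (h : RHyp B φ F M O lam bmax) {E : Idx G}
    (huniq : ∀ E' ∈ O, E' ≠ E → ¬ Cen F M lam q E') {b : ℕ} :
    ∃ (c : ι) (f : K) (hf : f ∈ M.s c), M.el hf ∉ q ∧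
      ∀ E' ∈ O, E' ≠ E → f ∈ F E' (b + lam c) := by
  classical
  have key : ∀ R : Finset (Idx G), (∀ E' ∈ R, E' ∈ O ∧ E' ≠ E) → ∃ (c : ι) (f : K) (hf : f ∈ M.s c),
      M.el hf ∉ q ∧ ∀ E' ∈ R, f ∈ F E' (b + lam c) := by
    intro R
    induction R using Finset.induction_on with
    | empty =>
      intro _
      exact ⟨0, 1, M.one', by
        rw [M.el_one]; exact (Ideal.ne_top_iff_one q).1 (Ideal.IsPrime.ne_top inferInstance),
        by simp⟩
    | insert E1 R hE1 ih =>
      intro hR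
      obtain ⟨c, f, hf, hfq, hfR⟩ := ih fun E' hE' => hR E' (Finset.mem_insert_of_mem hE')
      obtain ⟨hE1O, hE1E⟩ := hR E1 (Finset.mem_insert_self _ _)
      have h1 := huniq E1 hE1O hE1E
      rw [Cen] at h1
      push Not at h1
      obtain ⟨d, y, hy, hyv, hyq⟩ := h1
      have hyb : y ^ b ∈ M.s (b • d) := M.pow' hy b
      have hyb' : M.el hyb ∉ q := by
        rw [← M.el_pow hy b]
        intro h2
        exact hyq (Ideal.IsPrime.mem_of_pow_mem inferInstance b h2)
      have hybv : y ^ b ∈ F E1 (b + lam (b • d)) := by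
        have h2 := rees_fil_pow h.sys hyv b
        refine h.sys.anti _ _ _ (le_of_eq ?_) h2
        rw [map_nsmul, nsmul_eq_mul]
        ring
      refine ⟨b • d + c, y ^ b * f, M.mul' hyb hf, ?_, ?_⟩
      · rw [← M.el_mul hyb hf]
        exact Ideal.IsPrime.mul_notMem inferInstance hyb' hfq
      · intro E' hE'
        rcases Finset.mem_insert.1 hE' with rfl | hE'
        · have h2 := h.sys.mul _ _ _ _ _ hybv (h.r0 E' hE1O c hf)
          refine h.sys.anti _ _ _ (le_of_eq ?_) h2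
          rw [map_add]
          ring
        · have h2 := h.sys.mul _ _ _ _ _ (h.r0 E' (hR E' (Finset.mem_insert_of_mem hE')).1 _ hyb)
            (hfR E' hE')
          refine h.sys.anti _ _ _ (le_of_eq ?_) h2
          rw [map_add]
          ring
  have hfi : Finite (Idx G) := rees_finite_idx
  obtain ⟨c, f, hf, hfq, hfR⟩ := key ((Set.toFinite O).toFinset.filter (· ≠ E)) (by
    intro E' hE'
    simpa using hE')
  exact ⟨c, f, hf, hfq, fun E' hE' hne => hfR E' (by simp [hE', hne])⟩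

/-- Blueprint 1.4 (*). -/
theorem mem_atP_rees (h : RHyp B φ F M O lam bmax) {P : Ideal B} [P.IsPrime]
    (hP : Under M q P) (hov : Over M (rees F M O lam bmax) (inlZ ι) q q') {E : Idx G}
    (huniq : ∀ E' ∈ O, E' ≠ E → ¬ Cen F M lam q E') {d : ι} {y : K} (hy : y ∈ (atP M q).s d)
    {b : ℕ} (hb : b ≤ bmax) (hyv : y ∈ lc P (F E (b + lam d))) :
    y ∈ (atP (rees F M O lam bmax) q').s (d, (b : ℤ)) := by
  rcases Nat.eq_zero_or_pos b with rfl | hb0
  · have := Over.atP (j := inlZ ι) (fun d => le_rees d) hov d hy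
    simpa using this
  obtain ⟨c, f1, hf1, hfq1, hfy1⟩ := hy
  obtain ⟨f0, hf0, hf0y⟩ := hyv
  obtain ⟨hf0', hf0q⟩ := rees_cpl h hP hf0
  obtain ⟨f, hfdef⟩ : ∃ f, f = f0 * f1 := ⟨_, rfl⟩
  have hf : f ∈ M.s c := by
    have := M.mul' hf0' hf1
    rw [zero_add, ← hfdef] at this
    exact this
  have hfq : M.el hf ∉ q := by
    have h1 : M.el hf = M.el hf0' * M.el hf1 := by
      rw [M.el_mul]
      exact rees_el_congr _ _ (zero_add c).symm hfdef
    rw [h1]
    exact Ideal.IsPrime.mul_notMem inferInstance hf0q hfq1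
  have hfy : f * y ∈ M.s (c + d) := by
    have := M.mul' hf0' hfy1
    rw [zero_add, ← mul_assoc, ← hfdef] at this
    exact this
  have hfyE : E ∈ O → f * y ∈ F E (lam c + (b + lam d)) := by
    intro hE
    have := h.sys.mul _ _ _ _ _ (h.r0 E hE _ hf1) hf0y
    have e : f * y = f1 * (f0 * y) := by rw [hfdef]; ring
    rwa [e]
  obtain ⟨c', f', hf', hfq', hfv'⟩ := exists_notMem_fil h huniq (b := b)
  have hff : f' * f ∈ M.s (c' + c) := M.mul' hf' hf
  have hffq : M.el hff ∉ q := by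
    rw [← M.el_mul hf' hf]
    exact Ideal.IsPrime.mul_notMem inferInstance hfq' hfq
  have hff' : f' * f ∈ (rees F M O lam bmax).s (inlZ ι (c' + c)) := le_rees _ hff
  refine ⟨inlZ ι (c' + c), f' * f, hff', ?_, ?_⟩
  · rw [← hov (c' + c) (f' * f) hff hff']
    exact hffq
  · have e : f' * f * y = f' * (f * y) := by ring
    have h1 : f' * (f * y) ∈ FOs F M O lam b (c' + (c + d)) := by
      refine ⟨M.mul' hf' hfy, ?_⟩
      simp only [Submodule.mem_iInf, SetLike.mem_coe]
      intro E' hE'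
      by_cases hE : E' = E
      · subst hE
        have h2 := h.sys.mul _ _ _ _ _ (h.r0 E' hE' _ hf') (hfyE hE')
        refine h.sys.anti _ _ _ (le_of_eq ?_) h2
        rw [map_add, map_add]
        ring
      · have h2 := h.sys.mul _ _ _ _ _ (hfv' E' hE' hE) (h.r0 E' hE' _ hfy)
        refine h.sys.anti _ _ _ (le_of_eq ?_) h2
        rw [map_add]
        ring
    have h3 := FOs_le_rees (bmax := bmax) hb0 hb _ h1
    rw [e]
    convert h3 using 2
    rw [inlZ_apply]
    ext
    · simp [add_assoc]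
    · simp


end

end Pool.Agent.MP_b525bf_ag_X
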