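import Pool.Agent.Lib.MP_b525bf_ag_X.Rees_formal
import Pool.Agent.Lib.MP_b525bf_ag_X.Rees_empty
import Pool.Agent.Lib.MP_b525bf_ag_X.Rees_semi
import Pool.Agent.Lib.MP_b525bf_ag_X.Rees_mem
import Pool.Agent.Lib.MP_b525bf_ag_X.Rees_chart

/-!
# X5: the Rees step
-/
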