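import Pool.Agent.Lib.MP_b525bf_ag_X.Chart
import Pool.Agent.Lib.MP_b525bf_ag_helper53.FamLoc

/-!
# X5: the Rees step, formal properties
-/

set_option autoImplicit false

namespace Pool.Agent.MP_b525bf_ag_X

open Pool.Agent.MP_b525bf_ag Pool.Agent.MP_b525bf_ag_W Module AddMonoidAlgebra

variable {k K G ι : Type} [Field k] [Field K] [Algebra k K] [Group G] [Finite G] [AddCommGroup ι]
  {B : Subalgebra k K} {φ : G →* (K ≃ₐ[k] K)} {F : Idx G → ℤ → Submodule k K} {p : ℕ}
  {M : Fam k K ι} {O : Set (Idx G)} {lam : ι →+ ℤ} {bmax : ℕ}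

/-- The hypotheses of the Rees step. -/
structure RHyp (B : Subalgebra k K) (φ : G →* (K ≃ₐ[k] K)) (F : Idx G → ℤ → Submodule k K)
    (M : Fam k K ι) (O : Set (Idx G)) (lam : ι →+ ℤ) (bmax : ℕ) : Prop where
  sys : FilSys B φ F
  fg : M.alg.FG
  zero : M.s 0 = Subalgebra.toSubmodule B
  leB : ∀ d, M.s d ≤ Subalgebra.toSubmodule B
  pos : 1 ≤ bmax
  r0 : ∀ E ∈ O, ∀ d, M.s d ≤ F E (lam d)

/-! ### Formal properties -/

theorem mem_rees {d : ι × ℤ} {x : K} : x ∈ (rees F M O lam bmax).s d ↔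
    single d x ∈ Algebra.adjoin k (rgens F M O lam bmax) := Iff.rfl

theorem rees_alg : (rees F M O lam bmax).alg =
    Algebra.adjoin k (rgens F M O lam bmax) := by
  refine H53.alg_ofSub_adjoin _ ?_
  rintro Q ((⟨d, x, hx, rfl⟩ | hQ) | ⟨d, b, hb, hb', y, hy, rfl⟩)
  · exact ⟨_, _, rfl⟩
  · exact ⟨_, _, hQ⟩
  · exact ⟨_, _, rfl⟩

theorem le_rees (d : ι) : M.s d ≤ (rees F M O lam bmax).s (d, 0) := fun x hx =>
  mem_rees.2 (Algebra.subset_adjoin (Or.inl (Or.inl ⟨d, x, hx, rfl⟩)))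

theorem one_rees : (1 : K) ∈ (rees F M O lam bmax).s (0, -1) :=
  mem_rees.2 (Algebra.subset_adjoin (Or.inl (Or.inr rfl)))

theorem FOs_le_rees {b : ℕ} (hb : 1 ≤ b) (hb' : b ≤ bmax) (d : ι) :
    FOs F M O lam b d ≤ (rees F M O lam bmax).s (d, (b : ℤ)) := fun y hy =>
  mem_rees.2 (Algebra.subset_adjoin (Or.inr ⟨d, b, hb, hb', y, hy, rfl⟩))

theorem rees_le (d : ι) (n : ℤ) : (rees F M O lam bmax).s (d, n) ≤ M.s d := by
  intro x hx
  have h1 : Algebra.adjoin k (rgens F M O lam bmax) ≤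
      (M.comap (AddMonoidHom.fst ι ℤ)).alg := by
    refine Algebra.adjoin_le ?_
    rintro Q ((⟨d, x, hx, rfl⟩ | hQ) | ⟨d, b, hb, hb', y, hy, rfl⟩)
    · exact Fam.single_mem_alg.2 hx
    · rw [Set.mem_singleton_iff] at hQ
      rw [hQ]
      exact Fam.single_mem_alg.2 M.one'
    · exact Fam.single_mem_alg.2 hy.1
  have h2 : x ∈ (M.comap (AddMonoidHom.fst ι ℤ)).s (d, n) :=
    Fam.single_mem_alg.1 (h1 (mem_rees.1 hx))
  exact h2

theorem one_mem_rees {n : ℤ} (hn : n ≤ 0) : (1 : K) ∈ (rees F M O lam bmax).s (0, n) := by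
  have := (rees F M O lam bmax).pow' one_rees (-n).toNat
  rw [one_pow] at this
  convert this using 2
  have h : ((-n).toNat : ℤ) = -n := Int.toNat_of_nonneg (by omega)
  rw [Prod.smul_mk, smul_zero, nsmul_eq_mul, h]
  ring_nf

theorem rees_nonpos {d : ι} {n : ℤ} (hn : n ≤ 0) :
    (rees F M O lam bmax).s (d, n) = M.s d := by
  refine le_antisymm (rees_le d n) fun x hx => ?_
  have := (rees F M O lam bmax).mul' (le_rees (F := F) (O := O) (lam := lam)
    (bmax := bmax) d hx) (one_mem_rees hn)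
  rwa [mul_one, Prod.mk_add_mk, add_zero, zero_add] at this

theorem rees_anti {d : ι} {n n' : ℤ} (hn : n ≤ n') :
    (rees F M O lam bmax).s (d, n') ≤ (rees F M O lam bmax).s (d, n) := by
  intro x hx
  have := (rees F M O lam bmax).mul' hx (one_mem_rees (n := n - n') (by omega))
  rwa [mul_one, Prod.mk_add_mk, add_zero, add_sub_cancel] at this

theorem rees_le_fil (h : RHyp B φ F M O lam bmax) {E : Idx G} (hE : E ∈ O) (d : ι) (n : ℤ) :
    (rees F M O lam bmax).s (d, n) ≤ F E (n + lam d) := by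
  intro x hx
  let N : Fam k K (ι × ℤ) :=
    { s := fun d => F E (d.2 + lam d.1)
      one' := by
        rw [h.sys.nonpos E _ (by simp)]
        exact B.one_mem
      mul' := by
        intro a b x y hx hy
        have := h.sys.mul E _ _ _ _ hx hy
        convert this using 2
        simp only [Prod.fst_add, Prod.snd_add, map_add]
        ring }
  have h1 : Algebra.adjoin k (rgens F M O lam bmax) ≤ N.alg := by
    refine Algebra.adjoin_le ?_
    rintro Q ((⟨d, x, hx, rfl⟩ | hQ) | ⟨d, b, hb, hb', y, hy, rfl⟩)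
    · refine Fam.single_mem_alg.2 ?_
      change x ∈ F E (0 + lam d)
      rw [zero_add]
      exact h.r0 E hE d hx
    · rw [Set.mem_singleton_iff] at hQ
      rw [hQ]
      refine Fam.single_mem_alg.2 ?_
      change (1 : K) ∈ F E (-1 + lam 0)
      rw [h.sys.nonpos E _ (by simp)]
      exact B.one_mem
    · refine Fam.single_mem_alg.2 ?_
      have h2 := hy.2
      simp only [Submodule.mem_iInf, SetLike.mem_coe] at h2
      exact h2 E hE
  exact Fam.single_mem_alg.1 (h1 (mem_rees.1 hx))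

/-- The Rees family is stable under automorphisms which preserve `M` and the filtration. -/
theorem rees_stable (ψ : K ≃ₐ[k] K) (hM : ∀ d x, x ∈ M.s d → ψ x ∈ M.s d)
    (hF : ∀ b d x, x ∈ FOs F M O lam b d → ψ x ∈ FOs F M O lam b d) (d : ι × ℤ) (x : K)
    (hx : x ∈ (rees F M O lam bmax).s d) : ψ x ∈ (rees F M O lam bmax).s d := by
  let N : Fam k K (ι × ℤ) :=
    { s := fun d => ((rees F M O lam bmax).s d).comap ψ.toLinearMap
      one' := by
        rw [Submodule.mem_comap]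
        change ψ 1 ∈ (rees F M O lam bmax).s 0
        rw [map_one]
        exact (rees F M O lam bmax).one'
      mul' := by
        intro a b x y hx hy
        rw [Submodule.mem_comap] at hx hy ⊢
        change ψ (x * y) ∈ (rees F M O lam bmax).s (a + b)
        rw [map_mul]
        exact (rees F M O lam bmax).mul' hx hy }
  have hN : ∀ (d : ι × ℤ) (x : K), x ∈ N.s d ↔ ψ x ∈ (rees F M O lam bmax).s d :=
    fun _ _ => Iff.rfl
  have h1 : Algebra.adjoin k (rgens F M O lam bmax) ≤ N.alg := by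
    refine Algebra.adjoin_le ?_
    rintro Q ((⟨d, x, hx, rfl⟩ | hQ) | ⟨d, b, hb, hb', y, hy, rfl⟩)
    · exact Fam.single_mem_alg.2 ((hN _ _).2 (le_rees d (hM d x hx)))
    · rw [Set.mem_singleton_iff] at hQ
      rw [hQ]
      refine Fam.single_mem_alg.2 ((hN _ _).2 ?_)
      rw [map_one]
      exact one_rees
    · exact Fam.single_mem_alg.2 ((hN _ _).2 (FOs_le_rees hb hb' d (hF b d y hy)))
  exact (hN _ _).1 (Fam.single_mem_alg.1 (h1 (mem_rees.1 hx)))

end Pool.Agent.MP_b525bf_ag_X
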