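import Pool.Agent.Lib.MP_b525bf_ag_X.Rees
import Pool.Agent.Lib.MP_b525bf_ag_W.Step2

/-!
# X7: stages and one Rees step on stages
-/

set_option autoImplicit false
set_option linter.unusedSectionVars false
set_option linter.unusedVariables false

namespace Pool.Agent.MP_b525bf_ag_X

open Pool.Agent.MP_b525bf_ag Pool.Agent.MP_b525bf_ag_W Module AddMonoidAlgebra

variable {k K G ι : Type} [Field k] [Field K] [Algebra k K] [Group G] [Finite G] [AddCommGroup ι]

/-- The global conditions on a stage (blueprint 3). `EE` is the set of processed divisors. -/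
structure Glob (B : Subalgebra k K) (φ : G →* (K ≃ₐ[k] K)) (F : Idx G → ℤ → Submodule k K)
    (M : Fam k K ι) (a : ι) (EE : Set (Idx G)) (l : Idx G → ι →+ ℤ) (e : Idx G → ι) : Prop where
  sys : FilSys B φ F
  fg : M.alg.FG
  zero : M.s 0 = Subalgebra.toSubmodule B
  leB : ∀ d, M.s d ≤ Subalgebra.toSubmodule B
  stable : ∀ g d x, x ∈ M.s d → φ g x ∈ M.s d
  neg : ∀ n : ℕ, (1 : K) ∈ M.s (-(n • a))
  gen : ∀ d : ι, ∃ c : ι, (1 : K) ∈ M.s c ∧ (1 : K) ∈ M.s (c + d)
  nontriv : ∃ n : ℕ, 0 < n ∧ ∃ x ∈ M.s (n • a), x ≠ 0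
  EEcj : ∀ g, ∀ E ∈ EE, E.cj g ∈ EE
  lcj : ∀ g, ∀ E ∈ EE, l (E.cj g) = l E
  ecj : ∀ g, ∀ E ∈ EE, e (E.cj g) = e E
  self : ∀ E ∈ EE, l E (e E) = 1
  dual : ∀ E ∈ EE, ∀ E' ∈ EE, (∀ g, E.cj g ≠ E') → l E (e E') = 0
  val : ∀ E ∈ EE, ∀ d, M.s d ≤ F E (l E d)
  sec : ∀ E ∈ EE, (1 : K) ∈ M.s (-(e E))
  int : ∀ (q : Ideal M.alg) [q.IsPrime], Semi M a q → IntA M a q

/-- The local conditions on a stage at the prime `q` (blueprint 3); `S` is the set of divisors
through `q`, `Λ` a local model at the contraction `P` of `q`. -/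
structure Loc {p : ℕ} {B : Subalgebra k K} {φ : G →* (K ≃ₐ[k] K)}
    {F : Idx G → ℤ → Submodule k K} {P : Ideal B} {H : Subgroup G} (Λ : LM p φ F P H)
    (M : Fam k K ι) (EE : Set (Idx G)) (l : Idx G → ι →+ ℤ) (e : Idx G → ι) (q : Ideal M.alg)
    [q.IsPrime] (S : Set (Idx G)) : Prop where
  prime : P.IsPrime
  cardH : ¬ p ^ 2 ∣ Nat.card H
  under : Under M q P
  adm : ∀ E ∈ S, Adm p H E
  sub : S ⊆ EE
  inj : ∀ E ∈ S, ∀ g, E.cj g ∈ S → E.cj g = E
  chart : ∀ d, CT F P l S d ⊆ (atP M q).s d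
  adapt : AdaptedTo (flg Λ.ρ) S
  non : ∀ E ∈ S, (1 : K) ∉ (atP M q).s (e E)
  uni : ∀ E ∈ EE, (∀ g, E.cj g ∉ S) → (1 : K) ∈ (atP M q).s (e E)
  fix : ∀ g ∈ inertia φ M q, ∀ E ∈ S, E.cj g = E
  wle : ∀ P N, Idx.w P N ∈ S → inertia φ M q ≤ P
  comp : ∀ E ∈ S, ∀ E' ∈ S, PPerf p E.grp → PPerf p E'.grp → E.grp ≤ E'.grp ∨ E'.grp ≤ E.grp
  sep : ∀ N, Idx.t N ∈ S → ∀ g, cj g N ≠ N → ∃ (d : ι) (y : K) (hy : y ∈ M.s d),
    M.el hy ∉ q ∧ y ∈ F (.t (cj g N)) 1 ∧ l (.t N) d = 0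

section

variable {p : ℕ} {B : Subalgebra k K} {φ : G →* (K ≃ₐ[k] K)} {F : Idx G → ℤ → Submodule k K}
  {M : Fam k K ι} {a : ι} {EE : Set (Idx G)} {l : Idx G → ι →+ ℤ} {e : Idx G → ι}
  {E0 : Idx G} {lam : ι →+ ℤ}

omit [Finite G] in
/-- The elements `e E`, `E ∈ S`, are dual to the `l E`. -/
theorem dual_of_loc [Finite G] {q : Ideal M.alg} [q.IsPrime] {S : Set (Idx G)} {P : Ideal B}
    {H : Subgroup G} {Λ : LM p φ F P H} (hG : Glob B φ F M a EE l e)
    (hS : Loc Λ M EE l e q S) : Dual l e S where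
  self := fun E hE => hG.self E (hS.sub hE)
  ne := fun E hE E' hE' hne => hG.dual E (hS.sub hE) E' (hS.sub hE') fun g hg =>
    hne ((hS.inj E hE g (by rw [hg]; exact hE')).symm.trans hg)

/-- The hypotheses on the centre of a Rees step for a stage. -/
structure StepHyp (F : Idx G → ℤ → Submodule k K) (M : Fam k K ι)
    (EE : Set (Idx G)) (e : Idx G → ι) (E0 : Idx G) (lam : ι →+ ℤ) : Prop where
  disj : ∀ g, E0.cj g ∉ EE
  ne : E0.grp ≠ ⊥
  r0 : ∀ g d, M.s d ≤ F (E0.cj g) (lam d)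
  lam01 : ∀ E ∈ EE, lam (e E) = 0 ∨ lam (e E) = 1

omit [Finite G] in
theorem StepHyp.not_orb (h : StepHyp F M EE e E0 lam) {E : Idx G} (hE : E ∈ EE) :
    E ∉ Orb E0 := by
  rintro ⟨g, rfl⟩
  exact h.disj g hE

theorem StepHyp.rHyp (hp : 0 < p) (hG : Glob B φ F M a EE l e) (h : StepHyp F M EE e E0 lam) :
    RHyp B φ F M (Orb E0) lam p where
  sys := hG.sys
  fg := hG.fg
  zero := hG.zero
  leB := hG.leB
  pos := hp
  r0 := by
    rintro _ ⟨g, rfl⟩ d
    exact h.r0 g d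

theorem orb_finite (E0 : Idx G) : (Orb E0).Finite := by
  have h1 : Orb E0 = Set.range fun g => E0.cj g := by
    ext E
    exact ⟨fun ⟨g, hg⟩ => ⟨g, hg.symm⟩, fun ⟨g, hg⟩ => ⟨g, hg.symm⟩⟩
  rw [h1]
  exact Set.finite_range _

omit [Finite G] in
theorem FOs_cj (hG : Glob B φ F M a EE l e) (g : G)
    {b : ℕ} {d : ι} {y : K} (hy : y ∈ FOs F M (Orb E0) lam b d) :
    φ g y ∈ FOs F M (Orb E0) lam b d := by
  obtain ⟨hy1, hy2⟩ := hy
  refine ⟨hG.stable g d y hy1, ?_⟩
  simp only [Submodule.mem_iInf, SetLike.mem_coe] at hy2 ⊢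
  intro E hE
  have h1 := hG.sys.cj g _ _ _ (hy2 (E.cj g⁻¹) (orb_cj hE _))
  rwa [st_cj_cj_inv] at h1

theorem one_mem_rees_of_nonpos {d : ι} {n : ℤ} (hn : n ≤ 0) (h : (1 : K) ∈ M.s d) :
    (1 : K) ∈ (rees F M (Orb E0) lam p).s (d, n) := by
  rw [rees_nonpos hn]; exact h

omit [Finite G] in
theorem grp_cj_ne_bot {E : Idx G} (h : E.grp ≠ ⊥) (g : G) : (E.cj g).grp ≠ ⊥ := by
  intro h1
  apply h
  have h2 : (E.cj g).grp = cj g E.grp := by cases E <;> rfl
  rw [h2] at h1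
  unfold cj at h1
  rw [Subgroup.map_eq_bot_iff] at h1
  have h3 : ((MulAut.conj g).toMonoidHom).ker = ⊥ :=
    (MonoidHom.ker_eq_bot_iff _).2 (MulAut.conj g).injective
  rw [h3] at h1
  exact le_bot_iff.1 h1

/-- A nonzero element in the first step of the filtration. -/
theorem exists_mem_FOs_one (hG : Glob B φ F M a EE l e) (h : StepHyp F M EE e E0 lam) :
    ∃ z : K, z ≠ 0 ∧ z ∈ FOs F M (Orb E0) lam 1 0 := by
  classical
  have h1 : ∀ E ∈ Orb E0, ∃ u ∈ F E 1, u ≠ 0 := by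
    rintro _ ⟨g, rfl⟩
    exact hG.sys.ne _ (grp_cj_ne_bot h.ne g)
  choose! u hu hu0 using h1
  have hfin := orb_finite E0
  have hB : ∀ E ∈ Orb E0, u E ∈ B := fun E hE => hG.sys.le _ _ (hu E hE)
  have hprod : ∀ T : Finset (Idx G), (∀ E ∈ T, E ∈ Orb E0) → ∏ E ∈ T, u E ∈ B := fun T hT =>
    Subalgebra.prod_mem _ fun E hE => hB E (hT E hE)
  refine ⟨∏ E ∈ hfin.toFinset, u E, ?_, ?_, ?_⟩
  · exact Finset.prod_ne_zero_iff.2 fun E hE => hu0 E (hfin.mem_toFinset.1 hE)
  · change _ ∈ M.s 0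
    rw [hG.zero]
    exact hprod _ fun E hE => hfin.mem_toFinset.1 hE
  · simp only [Submodule.mem_iInf, SetLike.mem_coe]
    intro E hE
    rw [← Finset.mul_prod_erase _ _ (hfin.mem_toFinset.2 hE)]
    have h3 : (∏ x ∈ hfin.toFinset.erase E, u x) ∈ F E 0 := by
      rw [hG.sys.nonpos E 0 le_rfl]
      exact hprod _ fun E hE => hfin.mem_toFinset.1 (Finset.mem_of_mem_erase hE)
    have h4 := hG.sys.mul E _ _ _ _ (hu E hE) h3
    rw [map_zero]
    exact h4

/-- A Rees step preserves the global conditions. -/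
theorem glob_step [Module.Free ℤ ι] [Module.Finite ℤ ι] (hp : 0 < p)
    (hG : Glob B φ F M a EE l e) (h : StepHyp F M EE e E0 lam) :
    ∃ a' : ι × ℤ,
      Glob B φ F (rees F M (Orb E0) lam p) a' (EE ∪ Orb E0) (lnew (Orb E0) lam l)
        (enew (Orb E0) lam e) ∧
      ∀ (q' : Ideal (rees F M (Orb E0) lam p).alg) [q'.IsPrime]
        (q : Ideal M.alg) [q.IsPrime], Over M (rees F M (Orb E0) lam p) (inlZ ι) q q' →
        Semi (rees F M (Orb E0) lam p) a' q' →
        Semi M a q ∧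
        (∃ (d : ι) (b : ℕ) (y : K) (_ : y ∈ FOs F M (Orb E0) lam b d)
          (h : y ∈ (rees F M (Orb E0) lam p).s (d, (b : ℤ))), 1 ≤ b ∧
            (rees F M (Orb E0) lam p).el h ∉ q') := by
  classical
  have hR := h.rHyp hp hG
  obtain ⟨r, hr⟩ := rees_semi hR a
  specialize hr r le_rfl
  have hcjEE : ∀ g, ∀ E ∈ EE ∪ Orb E0, E.cj g ∈ EE ∪ Orb E0 := by
    rintro g E (hE | hE)
    · exact Or.inl (hG.EEcj g E hE)
    · exact Or.inr (orb_cj hE g)
  refine ⟨(r • a, 1), ⟨hG.sys, fg_rees hR, ?_, ?_, ?_, ?_, ?_, ?_, hcjEE, ?_, ?_, ?_, ?_, ?_, ?_,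
    ?_⟩, ?_⟩
  · -- zero
    change (rees F M (Orb E0) lam p).s (0, 0) = _
    rw [rees_nonpos le_rfl, hG.zero]
  · -- leB
    rintro ⟨d, n⟩
    exact (rees_le d n).trans (hG.leB d)
  · -- stable
    intro g d x hx
    exact rees_stable (φ g) (hG.stable g) (fun b d x hx => FOs_cj hG g hx) d x hx
  · -- neg
    intro n
    have e1 : -(n • ((r • a, 1) : ι × ℤ)) = (-((n * r) • a), -(n : ℤ)) := by
      refine Prod.ext ?_ ?_
      · change -(n • (r • a)) = _
        rw [mul_nsmul']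
      · change -(n • (1 : ℤ)) = _
        simp
    rw [e1]
    exact one_mem_rees_of_nonpos (by omega) (hG.neg _)
  · -- gen
    rintro ⟨d, n⟩
    obtain ⟨c, hc, hcd⟩ := hG.gen d
    refine ⟨(c, -|n|), one_mem_rees_of_nonpos (by simp) hc, ?_⟩
    change (1 : K) ∈ (rees F M (Orb E0) lam p).s (c + d, -|n| + n)
    exact one_mem_rees_of_nonpos (by linarith [le_abs_self n]) hcd
  · -- nontriv
    obtain ⟨m, hm, x, hx, hx0⟩ := hG.nontriv
    obtain ⟨z, hz0, hz⟩ := exists_mem_FOs_one hG h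
    have h1 : x ∈ (rees F M (Orb E0) lam p).s (m • a, 0) := le_rees _ hx
    have h2 : z ∈ (rees F M (Orb E0) lam p).s (0, ((1 : ℕ) : ℤ)) :=
      FOs_le_rees le_rfl hp _ hz
    have h3 := Fam.mul' _ (Fam.pow' _ h1 r) (Fam.pow' _ h2 m)
    have e1 : r • ((m • a, 0) : ι × ℤ) + m • ((0, ((1 : ℕ) : ℤ)) : ι × ℤ) =
        m • ((r • a, 1) : ι × ℤ) := by
      refine Prod.ext ?_ ?_
      · change r • (m • a) + m • (0 : ι) = m • (r • a)
        rw [smul_zero, add_zero, smul_smul, smul_smul, mul_comm]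
      · change r • (0 : ℤ) + m • ((1 : ℕ) : ℤ) = m • (1 : ℤ)
        simp
    rw [e1] at h3
    exact ⟨m, hm, _, h3, mul_ne_zero (pow_ne_zero _ hx0) (pow_ne_zero _ hz0)⟩
  · -- lcj
    rintro g E (hE | hE)
    · have h1 := h.not_orb hE
      have h2 := h.not_orb (hG.EEcj g E hE)
      refine AddMonoidHom.ext ?_
      rintro ⟨d, n⟩
      rw [lnew_not_orb h1, lnew_not_orb h2, hG.lcj g E hE]
    · refine AddMonoidHom.ext ?_
      rintro ⟨d, n⟩
      rw [lnew_orb hE, lnew_orb (orb_cj hE g)]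
  · -- ecj
    rintro g E (hE | hE)
    · have h1 := h.not_orb hE
      have h2 := h.not_orb (hG.EEcj g E hE)
      rw [enew_not_orb h1, enew_not_orb h2, hG.ecj g E hE]
    · rw [enew_orb hE, enew_orb (orb_cj hE g)]
  · -- self
    rintro E (hE | hE)
    · have h1 := h.not_orb hE
      rw [enew_not_orb h1, lnew_not_orb h1, hG.self E hE]
    · rw [enew_orb hE, lnew_orb hE, map_zero, add_zero]
  · -- dual
    rintro E (hE | hE) E' (hE' | hE') hne
    · have h1 := h.not_orb hE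
      have h2 := h.not_orb hE'
      rw [enew_not_orb h2, lnew_not_orb h1, hG.dual E hE E' hE' hne]
    · have h1 := h.not_orb hE
      rw [enew_orb hE', lnew_not_orb h1, map_zero]
    · have h2 := h.not_orb hE'
      rw [enew_not_orb h2, lnew_orb hE, neg_add_cancel]
    · obtain ⟨g, hg⟩ := exists_cj_of_orb hE hE'
      exact absurd hg (hne g)
  · -- val
    rintro E (hE | hE) ⟨d, n⟩
    · have h1 := h.not_orb hE
      rw [lnew_not_orb h1]
      exact (rees_le d n).trans (hG.val E hE d)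
    · rw [lnew_orb hE]
      exact rees_le_fil hR hE d n
  · -- sec
    rintro E (hE | hE)
    · have h1 := h.not_orb hE
      rw [enew_not_orb h1]
      change (1 : K) ∈ (rees F M (Orb E0) lam p).s (-(e E), - -lam (e E))
      rw [neg_neg]
      rcases h.lam01 E hE with h2 | h2
      · exact one_mem_rees_of_nonpos h2.le (hG.sec E hE)
      · rw [h2]
        have h3 : (1 : K) ∈ FOs F M (Orb E0) lam 1 (-(e E)) := by
          refine ⟨hG.sec E hE, ?_⟩
          simp only [Submodule.mem_iInf, SetLike.mem_coe]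
          intro E' _
          rw [hG.sys.nonpos E' _ (by rw [map_neg, h2]; simp)]
          exact B.one_mem
        exact FOs_le_rees le_rfl hp _ h3
    · rw [enew_orb hE]
      change (1 : K) ∈ (rees F M (Orb E0) lam p).s (-0, -1)
      rw [neg_zero]
      exact one_rees
  · -- int
    intro q' hq' hsemi
    obtain ⟨q, hq, hov⟩ := exists_over (j := inlZ ι)
      (fun x y hxy => congrArg Prod.fst hxy) (fun d => le_rees d) q'
    obtain ⟨h1, _, h3⟩ := hr q' q hov hsemi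
    exact h3 (hG.int q h1)
  · intro q' hq' q hq hov hsemi
    obtain ⟨h1, h2, _⟩ := hr q' q hov hsemi
    exact ⟨h1, h2⟩

variable {q' : Ideal (rees F M (Orb E0) lam p).alg} [q'.IsPrime] {q : Ideal M.alg}
  [q.IsPrime] {S : Set (Idx G)} {P : Ideal B} {H : Subgroup G} {Λ : LM p φ F P H}

theorem rees_stable_glob (hG : Glob B φ F M a EE l e) (g : G) (d : ι × ℤ) (x : K)
    (hx : x ∈ (rees F M (Orb E0) lam p).s d) :
    φ g x ∈ (rees F M (Orb E0) lam p).s d :=
  rees_stable (φ g) (hG.stable g) (fun _ _ _ hx => FOs_cj hG g hx) d x hx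

/-- The separating elements for the new point. -/
theorem sep_new (hov : Over M (rees F M (Orb E0) lam p) (inlZ ι) q q') {N : Subgroup G}
    {g : G}
    (h : ∃ (d : ι) (y : K) (hy : y ∈ M.s d),
      M.el hy ∉ q ∧ y ∈ F (.t (cj g N)) 1 ∧ lnew (Orb E0) lam l (.t N) (d, 0) = 0) :
    ∃ (d : ι × ℤ) (y : K) (hy : y ∈ (rees F M (Orb E0) lam p).s d),
      (rees F M (Orb E0) lam p).el hy ∉ q' ∧ y ∈ F (.t (cj g N)) 1 ∧
        lnew (Orb E0) lam l (.t N) d = 0 := by
  obtain ⟨d, y, hy, h1, h2, h3⟩ := h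
  have h4 : y ∈ (rees F M (Orb E0) lam p).s (inlZ ι d) := le_rees d hy
  exact ⟨(d, 0), y, h4, fun h5 => h1 ((hov d y hy h4).2 h5), h2, h3⟩

/-- The contraction of the new point. -/
theorem under_new [P.IsPrime] (hp : 0 < p) (hG : Glob B φ F M a EE l e) (h : StepHyp F M EE e E0 lam)
    (hov : Over M (rees F M (Orb E0) lam p) (inlZ ι) q q') (hP : Under M q P) :
    Under (rees F M (Orb E0) lam p) q' P := by
  refine Under.over hG.zero ?_ hov hP
  change (rees F M (Orb E0) lam p).s (0, 0) = _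
  rw [rees_nonpos le_rfl, hG.zero]

/-- The local conditions away from the centre. -/
theorem loc_empty (hp : 0 < p)
    (hG : Glob B φ F M a EE l e) (h : StepHyp F M EE e E0 lam)
    (hov : Over M (rees F M (Orb E0) lam p) (inlZ ι) q q')
    (hS : Loc Λ M EE l e q S)
    (hemp : ∀ E ∈ Orb E0, ¬ Cen F M lam q E) :
    Loc Λ (rees F M (Orb E0) lam p) (EE ∪ Orb E0) (lnew (Orb E0) lam l)
      (enew (Orb E0) lam e) q' S ∧
    inertia φ (rees F M (Orb E0) lam p) q' = inertia φ M q ∧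
    ∀ d n, (atP (rees F M (Orb E0) lam p) q').s (d, n) = (atP M q).s d := by
  classical
  have hR := h.rHyp hp hG
  have hprime := hS.prime
  have hat := fun d n => atP_rees_of_empty hR hov hemp d n
  have hin : inertia φ (rees F M (Orb E0) lam p) q' = inertia φ M q :=
    inertia_rees_of_empty hG.stable (fun g d x hx => rees_stable_glob hG g d x hx) hR hov hemp
  refine ⟨⟨hS.prime, hS.cardH, under_new hp hG h hov hS.under, hS.adm,
    hS.sub.trans Set.subset_union_left, hS.inj, ?_, hS.adapt, ?_, ?_, ?_, ?_, hS.comp, ?_⟩,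
    hin, hat⟩
  · rintro ⟨d, n⟩ y hy
    rw [hat]
    refine hS.chart d ?_
    obtain ⟨f, hf, hfB, hfS⟩ := hy
    refine ⟨f, hf, hfB, fun E hE => ?_⟩
    have h1 := hfS E hE
    rwa [lnew_not_orb (h.not_orb (hS.sub hE))] at h1
  · intro E hE
    rw [enew_not_orb (h.not_orb (hS.sub hE)), hat]
    exact hS.non E hE
  · rintro E (hE | hE) hno
    · rw [enew_not_orb (h.not_orb hE), hat]
      exact hS.uni E hE hno
    · rw [enew_orb hE, hat]
      exact (atP M q).one'
  · intro g hg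
    rw [hin] at hg
    exact hS.fix g hg
  · intro P N hPN
    rw [hin]
    exact hS.wle P N hPN
  · intro N hN g hg
    refine sep_new hov ?_
    obtain ⟨d, y, hy, h1, h2, h3⟩ := hS.sep N hN g hg
    exact ⟨d, y, hy, h1, h2, by rw [lnew_not_orb (h.not_orb (hS.sub hN)), h3]⟩

/-- The divisors through a point over the centre. -/
def Snew (F : Idx G → ℤ → Submodule k K) (p : ℕ) (M : Fam k K ι) (e : Idx G → ι)
    (E0 : Idx G) (lam : ι →+ ℤ) (q' : Ideal (rees F M (Orb E0) lam p).alg) [q'.IsPrime]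
    (S : Set (Idx G)) (E : Idx G) : Set (Idx G) :=
  {E' | E' ∈ insert E S ∧
    (1 : K) ∉ (atP (rees F M (Orb E0) lam p) q').s (enew (Orb E0) lam e E')}

/-- The local conditions over the centre. -/
theorem loc_centre (hp : p.Prime) [CharP k p]
    (hG : Glob B φ F M a EE l e) (h : StepHyp F M EE e E0 lam)
    (hov : Over M (rees F M (Orb E0) lam p) (inlZ ι) q q')
    (hS : Loc Λ M EE l e q S) {E : Idx G} (hE : E ∈ Orb E0)
    (hadm : Adm p H E)
    (hcen : Cen F M lam q E) (huniq : ∀ E' ∈ Orb E0, E' ≠ E → ¬ Cen F M lam q E')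
    (had : AdaptedTo (flg Λ.ρ) (insert E S))
    (hker : ∀ z, (∀ E' ∈ S, l E' z = 0) → lam z = 0)
    (hpos : ∀ z : Λ.U, z ≠ 0 →
      lam (∑ᶠ E' ∈ S, lev (flg Λ.ρ E') z • e E') ≤ (lev (flg Λ.ρ E) z : ℕ))
    (hfix : ∀ g ∈ inertia φ M q, E.cj g = E)
    (hwle : ∀ P N, E = Idx.w P N → inertia φ M q ≤ P)
    (hcomp : PPerf p E.grp → ∀ E' ∈ S, PPerf p E'.grp → E.grp ≤ E'.grp ∨ E'.grp ≤ E.grp)
    (hsep : ∀ N, E = Idx.t N → ∀ g, cj g N ≠ N → ∃ (d : ι) (y : K) (hy : y ∈ M.s d),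
      M.el hy ∉ q ∧ y ∈ F (.t (cj g N)) 1 ∧ lam d = 0) :
    Loc Λ (rees F M (Orb E0) lam p) (EE ∪ Orb E0) (lnew (Orb E0) lam l)
      (enew (Orb E0) lam e) q' (Snew F p M e E0 lam q' S E) ∧
    inertia φ (rees F M (Orb E0) lam p) q' ≤ inertia φ M q := by
  classical
  have hp0 : 0 < p := hp.pos
  have hR := h.rHyp hp0 hG
  have hin : inertia φ (rees F M (Orb E0) lam p) q' ≤ inertia φ M q :=
    Over.inertia_le φ hG.stable (fun d => le_rees d) hov
  have hnS : ∀ E' ∈ S, E' ∉ Orb E0 := fun E' hE' => h.not_orb (hS.sub hE')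
  have hES : E ∉ S := fun h1 => hnS E h1 hE
  have hdual : Dual l e S := dual_of_loc hG hS
  have hdual' : Dual (lnew (Orb E0) lam l) (enew (Orb E0) lam e) (insert E S) := by
    constructor
    · rintro E1 (rfl | h1)
      · rw [enew_orb hE, lnew_orb hE, map_zero, add_zero]
      · rw [enew_not_orb (hnS E1 h1), lnew_not_orb (hnS E1 h1), hdual.self E1 h1]
    · rintro E1 (rfl | h1) E2 (rfl | h2) hne
      · exact absurd rfl hne
      · rw [enew_not_orb (hnS E2 h2), lnew_orb hE, neg_add_cancel]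
      · rw [enew_orb hE, lnew_not_orb (hnS E1 h1), map_zero]
      · rw [enew_not_orb (hnS E2 h2), lnew_not_orb (hnS E1 h1), hdual.ne E1 h1 E2 h2 hne]
  have hadm' : ∀ E' ∈ insert E S, Adm p H E' := by
    rintro E1 (rfl | h1)
    · exact hadm
    · exact hS.adm E1 h1
  have hprime := hS.prime
  have hchart : ∀ d, CT F P (lnew (Orb E0) lam l) (insert E S) d ⊆
      (atP (rees F M (Orb E0) lam p) q').s d := by
    refine chart_rees hp hR hS.under Λ hov hE hcen huniq hES hadm' had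
      hdual hS.chart hker ?_ hpos ?_ ?_
    · intro E' hE'
      rcases h.lam01 E' (hS.sub hE') with h1 | h1 <;> rw [h1]
      · exact ⟨le_rfl, by omega⟩
      · exact ⟨by omega, by omega⟩
    · intro E' hE' d n
      exact lnew_not_orb (hnS E' hE') d n
    · intro d n
      exact lnew_orb hE d n
  have hsub : Snew F p M e E0 lam q' S E ⊆ insert E S := fun E' hE' => hE'.1
  have hSnew : Snew F p M e E0 lam q' S E = insert E S ∩
      {E' | (1 : K) ∉ (atP (rees F M (Orb E0) lam p) q').s (enew (Orb E0) lam e E')} :=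
    rfl
  refine ⟨⟨hS.prime, hS.cardH, under_new hp0 hG h hov hS.under, fun E' hE' => hadm' E' (hsub hE'),
    ?_, ?_, ?_, ?_, ?_, ?_, ?_, ?_, ?_, ?_⟩, hin⟩
  · intro E' hE'
    rcases hsub hE' with rfl | h1
    · exact Or.inr hE
    · exact Or.inl (hS.sub h1)
  · intro E1 h1 g h2
    rcases hsub h1 with rfl | h1 <;> rcases hsub h2 with h2 | h2
    · exact h2
    · exact absurd (orb_cj hE g) (hnS _ h2)
    · refine absurd ?_ (hnS _ h1)
      rw [← orb_cj_iff g, h2]
      exact hE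
    · exact hS.inj E1 h1 g h2
  · intro d
    rw [hSnew]
    refine chart_drop hG.sys hdual' hchart _ ?_ d
    intro E' _ h1
    by_contra h2
    exact h1 h2
  · obtain ⟨β, hβ, h1⟩ := had
    exact ⟨β, hβ, fun E' hE' => h1 E' (hsub hE')⟩
  · intro E' hE'
    exact hE'.2
  · rintro E1 (h1 | h1) hno
    · by_cases h2 : ∀ g, E1.cj g ∉ S
      · have h3 := hS.uni E1 h1 h2
        have h4 : (1 : K) ∈ (atP (rees F M (Orb E0) lam p) q').s (e E1, 0) :=
          Over.atP (fun d => le_rees d) hov _ h3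
        rw [enew_not_orb (h.not_orb h1)]
        rcases h.lam01 E1 h1 with h5 | h5 <;> rw [h5]
        · rwa [neg_zero]
        · have h6 : (1 : K) ∈ (atP (rees F M (Orb E0) lam p) q').s (0, -1) :=
            le_atP _ _ _ one_rees
          have h7 := Fam.mul' _ h4 h6
          rw [mul_one, Prod.mk_add_mk, add_zero, zero_add] at h7
          exact h7
      · obtain ⟨g, hg⟩ := not_forall_not.1 h2
        have h3 := hno g
        have h4 : (1 : K) ∈ (atP (rees F M (Orb E0) lam p) q').s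
            (enew (Orb E0) lam e (E1.cj g)) := by
          by_contra h5
          exact h3 ⟨Or.inr hg, h5⟩
        rw [enew_not_orb (hnS _ hg), hG.ecj g E1 h1] at h4
        rwa [enew_not_orb (h.not_orb h1)]
    · obtain ⟨g, hg⟩ := exists_cj_of_orb h1 hE
      have h3 := hno g
      rw [hg] at h3
      have h4 : (1 : K) ∈ (atP (rees F M (Orb E0) lam p) q').s
          (enew (Orb E0) lam e E) := by
        by_contra h5
        exact h3 ⟨Or.inl rfl, h5⟩
      rw [enew_orb hE] at h4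
      rwa [enew_orb h1]
  · intro g hg E1 h1
    rcases hsub h1 with rfl | h1
    · exact hfix g (hin hg)
    · exact hS.fix g (hin hg) E1 h1
  · intro P N hPN
    rcases hsub hPN with h1 | h1
    · exact hin.trans (hwle P N h1.symm)
    · exact hin.trans (hS.wle P N h1)
  · intro E1 h1 E2 h2 hp1 hp2
    rcases hsub h1 with h3 | h3 <;> rcases hsub h2 with h4 | h4
    · rw [h3, h4]
      exact Or.inl le_rfl
    · rw [h3] at hp1 ⊢
      exact hcomp hp1 E2 h4 hp2
    · rw [h4] at hp2 ⊢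
      exact (hcomp hp2 E1 h3 hp1).symm
    · exact hS.comp E1 h3 E2 h4 hp1 hp2
  · intro N hN g hg
    refine sep_new hov ?_
    rcases hsub hN with h1 | h1
    · obtain ⟨d, y, hy, h2, h3, h4⟩ := hsep N h1.symm g hg
      refine ⟨d, y, hy, h2, h3, ?_⟩
      rw [h1, lnew_orb hE, h4, zero_add]
    · obtain ⟨d, y, hy, h2, h3, h4⟩ := hS.sep N h1 g hg
      exact ⟨d, y, hy, h2, h3, by rw [lnew_not_orb (hnS _ h1), h4]⟩

/-- If the section of the new divisor is a unit at the new point, then the old point is not in the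
centre. -/
theorem one_notMem_of_centre (hp : 0 < p) (hG : Glob B φ F M a EE l e)
    (h : StepHyp F M EE e E0 lam)
    (hov : Over M (rees F M (Orb E0) lam p) (inlZ ι) q q') {E : Idx G} (hE : E ∈ Orb E0)
    (hcen : Cen F M lam q E)
    (hgen : ∃ (d : ι) (b : ℕ) (y : K) (_ : y ∈ FOs F M (Orb E0) lam b d)
          (h : y ∈ (rees F M (Orb E0) lam p).s (d, (b : ℤ))), 1 ≤ b ∧
            (rees F M (Orb E0) lam p).el h ∉ q') :
    E ∈ Snew F p M e E0 lam q' S E := by
  classical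
  refine ⟨Or.inl rfl, ?_⟩
  rw [enew_orb hE]
  intro h1
  obtain ⟨d, b, y, hy, hyR, hb, hyq⟩ := hgen
  have h2 : IsU (atP (rees F M (Orb E0) lam p) q') (0, -1) (1 : K) := by
    refine ⟨one_ne_zero, le_atP _ _ _ one_rees, ?_⟩
    rw [inv_one]
    have e1 : -((0, -1) : ι × ℤ) = (0, 1) := by
      refine Prod.ext ?_ ?_
      · exact neg_zero
      · exact neg_neg _
    rw [e1]
    exact h1
  have h3 := (isU_atP_iff _ q' one_rees).1 h2
  have h4 : y ∈ M.s d := hy.1
  have h5 : y ∈ (rees F M (Orb E0) lam p).s (inlZ ι d) := le_rees d h4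
  refine absurd ((hov d y h4 h5).1 (hcen d y h4 ?_)) ?_
  · have h6 := hy.2
    simp only [Submodule.mem_iInf, SetLike.mem_coe] at h6
    refine hG.sys.anti E _ _ ?_ (h6 E hE)
    have : (1 : ℤ) ≤ b := by exact_mod_cast hb
    linarith
  · intro h6
    have h7 : (rees F M (Orb E0) lam p).el h5 =
        (rees F M (Orb E0) lam p).el (one_rees (F := F) (M := M)
          (O := Orb E0) (lam := lam) (bmax := p)) ^ b *
          (rees F M (Orb E0) lam p).el hyR := by
      rw [Fam.el_pow, Fam.el_mul]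
      refine Fam.el_eq _ _ _ ?_ ?_
      · refine Prod.ext ?_ ?_
        · change d = b • (0 : ι) + d
          rw [smul_zero, zero_add]
        · change (0 : ℤ) = b • (-1 : ℤ) + b
          simp
      · rw [one_pow, one_mul]
    rw [h7] at h6
    rcases ‹q'.IsPrime›.mem_or_mem h6 with h8 | h8
    · exact h3 (‹q'.IsPrime›.mem_of_pow_mem _ h8)
    · exact hyq h8

end

end Pool.Agent.MP_b525bf_ag_X
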