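import Pool.Agent.Lib.MP_b525bf_ag_X.Key

/-!
# X9b: Step 2 and Step 3, the steps (blueprint 5.5)
-/

set_option autoImplicit false
set_option linter.unusedSectionVars false

namespace Pool.Agent.MP_b525bf_ag_X

open Pool.Agent.MP_b525bf_ag Pool.Agent.MP_b525bf_ag_W Module AddMonoidAlgebra

variable {k K G ι : Type} [Field k] [Field K] [Algebra k K] [Group G] [Finite G] [AddCommGroup ι]

variable {B : Subalgebra k K} {φ : G →* (K ≃ₐ[k] K)} {F : Idx G → ℤ → Submodule k K} {p : ℕ}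
  {M : Fam k K ι} {a : ι} {l : Idx G → ι →+ ℤ} {e : Idx G → ι} {PP QQ : Set (Subgroup G)}

/-- The stages of Step 2: `PP` is the set of processed wild groups. -/
structure St2 (B : Subalgebra k K) (φ : G →* (K ≃ₐ[k] K)) (F : Idx G → ℤ → Submodule k K) (p : ℕ)
    (M : Fam k K ι) (a : ι) (l : Idx G → ι →+ ℤ) (e : Idx G → ι) (PP : Set (Subgroup G)) :
    Prop where
  glob : Glob B φ F M a (EE3 p PP ∅) l e
  loc : ∀ (q : Ideal M.alg) [q.IsPrime], Semi M a q → ∃ (P : Ideal B) (H : Subgroup G)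
    (Λ : LM p φ F P H) (S : Set (Idx G)), Loc Λ M (EE3 p PP ∅) l e q S ∧
    (inertia φ M q = ⊥ ∨ Nat.card (inertia φ M q) = p) ∧
    (¬ Good φ M e q S → ∀ N, Idx.t N ∈ S → p ∣ Nat.card N → N ∉ PP)

/-- There is a stage of Step 2 with processed groups `PP`. -/
def HasSt2 (B : Subalgebra k K) (φ : G →* (K ≃ₐ[k] K)) (F : Idx G → ℤ → Submodule k K) (p : ℕ)
    (PP : Set (Subgroup G)) : Prop :=
  ∃ (ι : Type) (_ : AddCommGroup ι) (_ : Module.Free ℤ ι) (_ : Module.Finite ℤ ι)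
    (M : Fam k K ι) (a : ι) (l : Idx G → ι →+ ℤ) (e : Idx G → ι), St2 B φ F p M a l e PP

/-- The stages of Step 3: all wild groups are processed, `QQ` is the set of processed groups of
order `p`. -/
structure St3 (B : Subalgebra k K) (φ : G →* (K ≃ₐ[k] K)) (F : Idx G → ℤ → Submodule k K) (p : ℕ)
    (M : Fam k K ι) (a : ι) (l : Idx G → ι →+ ℤ) (e : Idx G → ι) (QQ : Set (Subgroup G)) :
    Prop where
  glob : Glob B φ F M a (EE3 p (WW G p) QQ) l e
  loc : ∀ (q : Ideal M.alg) [q.IsPrime], Semi M a q → ∃ (P : Ideal B) (H : Subgroup G)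
    (Λ : LM p φ F P H) (S : Set (Idx G)), Loc Λ M (EE3 p (WW G p) QQ) l e q S ∧
    (inertia φ M q = ⊥ ∨ Nat.card (inertia φ M q) = p) ∧
    (¬ Good φ M e q S → (∀ N, Idx.t N ∈ S → ¬ p ∣ Nat.card N) ∧ inertia φ M q ∉ QQ)

/-- There is a stage of Step 3 with processed groups `QQ`. -/
def HasSt3 (B : Subalgebra k K) (φ : G →* (K ≃ₐ[k] K)) (F : Idx G → ℤ → Submodule k K) (p : ℕ)
    (QQ : Set (Subgroup G)) : Prop :=
  ∃ (ι : Type) (_ : AddCommGroup ι) (_ : Module.Free ℤ ι) (_ : Module.Finite ℤ ι)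
    (M : Fam k K ι) (a : ι) (l : Idx G → ι →+ ℤ) (e : Idx G → ι), St3 B φ F p M a l e QQ

theorem EE3_empty : EE3 p (∅ : Set (Subgroup G)) ∅ = EE1 {N | PPerf p N ∧ N ≠ ⊥} := by
  ext E
  simp only [EE3, EE1, Set.mem_ofPred_eq, Set.mem_empty_iff_false]
  constructor
  · rintro (⟨N, rfl, h1, h2⟩ | ⟨P, N, -, h, -⟩ | ⟨P, -, h⟩)
    · exact ⟨N, ⟨h1, h2⟩, rfl⟩
    · exact h.elim
    · exact h.elim
  · rintro ⟨N, ⟨h1, h2⟩, rfl⟩
    exact Or.inl ⟨N, rfl, h1, h2⟩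

/-- The end of Step 1 is the beginning of Step 2. -/
theorem hasSt2_empty (hc : Ctx B φ F p) (h : HasSt1 B φ F p {N | PPerf p N ∧ N ≠ ⊥}) :
    HasSt2 B φ F p ∅ := by
  obtain ⟨ι, i1, i2, i3, M, a, l, e, hst⟩ := h
  refine ⟨ι, i1, i2, i3, M, a, l, e, ?_, ?_⟩
  · rw [EE3_empty]; exact hst.glob
  · intro q hq hsemi
    obtain ⟨P, H, Λ, S, hS, h1, -⟩ := hst.loc q hsemi
    have := hS.prime
    refine ⟨P, H, Λ, S, by rw [EE3_empty]; exact hS, ?_, fun _ N _ _ h => h.elim⟩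
    apply card_of_Op_eq_bot_of_le hc.hp hS.cardH
      (inertia_le hst.glob.sys hst.glob.zero hS.under Λ)
    by_contra hne
    exact h1 ⟨pperf_Op _ _, hne⟩

/-- The class of `w P N` is the set of new divisors. -/
theorem orb_w (hc : Ctx B φ F p) {P N : Subgroup G} (hN : ¬ p ^ 2 ∣ Nat.card N)
    (hP : Nat.card P = p) (hPN : P ≤ N) :
    Orb (Idx.w P N) = {E | ∃ P' g, E = Idx.w P' (cj g N) ∧ P' ≤ cj g N ∧ Nat.card P' = p} := by
  ext E
  constructor
  · rintro ⟨g, rfl⟩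
    exact ⟨cj g P, g, rfl, cj_mono g hPN, (card_cj g P).trans hP⟩
  · rintro ⟨P', g, rfl, h1, h2⟩
    obtain ⟨h, hh, hh'⟩ := exists_cj_eq_of_card hc.hp (by rw [card_cj]; exact hN)
      ((card_cj g P).trans hP) h2 (cj_mono g hPN) h1
    refine ⟨h * g, ?_⟩
    change Idx.w P' (cj g N) = Idx.w (cj (h * g) P) (cj (h * g) N)
    rw [cj_mul, cj_mul, hh', cj_eq_self_of_mem hh]

theorem ne_bot_of_WW (hc : Ctx B φ F p) {N : Subgroup G} (hN : N ∈ WW G p) : N ≠ ⊥ := by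
  rintro rfl
  have := hN.2.1
  rw [Subgroup.card_bot] at this
  exact hc.hp.one_lt.ne' (Nat.dvd_one.1 this)

theorem cj_mem_WW {N : Subgroup G} (hN : N ∈ WW G p) (g : G) : cj g N ∈ WW G p :=
  ⟨pperf_cj hN.1 g, by rw [card_cj]; exact hN.2.1, by rw [card_cj]; exact hN.2.2⟩

theorem t_mem_EE3 (hc : Ctx B φ F p) {N : Subgroup G} (hN : N ∈ WW G p) :
    Idx.t N ∈ EE3 p PP QQ := Or.inl ⟨N, rfl, hN.1, ne_bot_of_WW hc hN⟩

theorem not_pperf_of_card (hc : Ctx B φ F p) {P : Subgroup G} (hP : Nat.card P = p) :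
    ¬ PPerf p P := by
  intro h
  have h1 : ∀ x ∈ P, ¬ p ∣ orderOf x → x = 1 := by
    intro x hx hpx
    have h2 : orderOf x ∣ p := by
      rw [← hP, ← Subgroup.orderOf_mk x hx]
      exact orderOf_dvd_natCard _
    rcases (Nat.dvd_prime hc.hp).1 h2 with h3 | h3
    · exact orderOf_eq_one_iff.1 h3
    · exact absurd h3.symm.dvd hpx
  have h4 : P ≤ ⊥ := by
    refine h.trans ((Subgroup.closure_le _).2 ?_)
    rintro x ⟨hx, hpx⟩
    exact Subgroup.mem_bot.2 (h1 x hx hpx)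
  rw [le_bot_iff] at h4
  rw [h4, Subgroup.card_bot] at hP
  exact hc.hp.one_lt.ne hP

section Wild

variable {P N : Subgroup G}

theorem stepHyp_wild (hc : Ctx B φ F p)
    (hPPcj : ∀ g, ∀ N ∈ PP, cj g N ∈ PP) (hG : Glob B φ F M a (EE3 p PP ∅) l e)
    (hN : N ∈ WW G p) (hNP : N ∉ PP) :
    StepHyp F M (EE3 p PP ∅) e (.w P N) (l (.t N)) where
  disj := by
    rintro g (⟨N', h, -⟩ | ⟨P', N', h, h1, -⟩ | ⟨P', -, h⟩)
    · change Idx.w (cj g P) (cj g N) = Idx.t N' at h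
      cases h
    · change Idx.w (cj g P) (cj g N) = Idx.w P' N' at h
      injection h with h2 h3
      rw [← h3] at h1
      apply hNP
      rw [← cj_inv_cj g N]
      exact hPPcj _ _ h1
    · exact h.elim
  ne := ne_bot_of_WW hc hN
  r0 := by
    intro g d y hy
    have h1 := hG.val _ (t_mem_EE3 (PP := PP) (QQ := ∅) hc (cj_mem_WW hN g)) d hy
    have h2 := hG.lcj g _ (t_mem_EE3 (PP := PP) (QQ := ∅) hc hN)
    change l (Idx.t (cj g N)) = l (Idx.t N) at h2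
    rw [h2] at h1
    exact hG.sys.t_le (cj g P) (cj g N) _ h1
  lam01 := by
    intro E hE
    by_cases h : ∃ g, (Idx.t N).cj g = E
    · obtain ⟨g, rfl⟩ := h
      right
      rw [hG.ecj g _ (t_mem_EE3 (PP := PP) (QQ := ∅) hc hN)]
      exact hG.self _ (t_mem_EE3 (PP := PP) (QQ := ∅) hc hN)
    · left
      push Not at h
      exact hG.dual _ (t_mem_EE3 (PP := PP) (QQ := ∅) hc hN) _ hE h

end Wild

/-! ### Goodness away from the centre -/

theorem good_of_empty {E0 : Idx G} {lam : ι →+ ℤ}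
    {q' : Ideal (rees F M (Orb E0) lam p).alg} [q'.IsPrime]
    {q : Ideal M.alg} [q.IsPrime] {S : Set (Idx G)} (hdisj : ∀ E ∈ S, E ∉ Orb E0)
    (hin : inertia φ (rees F M (Orb E0) lam p) q' = inertia φ M q)
    (hat : ∀ d n, (atP (rees F M (Orb E0) lam p) q').s (d, n) = (atP M q).s d)
    (h : Good φ M e q S) :
    Good φ (rees F M (Orb E0) lam p) (enew (Orb E0) lam e) q' S := by
  have hat' : ∀ x : ι × ℤ, (atP (rees F M (Orb E0) lam p) q').s x = (atP M q).s x.1 :=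
    fun x => hat x.1 x.2
  intro s hs hs1
  rw [hin] at hs
  obtain ⟨d, y, hy, h1, h2, h3⟩ := h s hs hs1
  have he := epsS_enew_fst (Orb E0) lam e S hdisj
  refine ⟨(d, 0), y, by rw [hat]; exact hy, h1, ?_, ?_⟩
  · rw [hat']
    change _ ∈ (atP M q).s (d + (epsS (enew (Orb E0) lam e) S).1)
    rw [he]; exact h2
  · rw [hat']
    change _ ∈ (atP M q).s (-(d + (epsS (enew (Orb E0) lam e) S).1))
    rw [he]; exact h3

theorem lev_t_le {p : ℕ} {P : Ideal B} {H : Subgroup G} {Λ : LM p φ F P H} (hp : p.Prime)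
    [CharP k p] {P1 N : Subgroup G} (h : Adm p H (.w P1 N)) {z : Λ.U} (hz : z ≠ 0) :
    lev (flg Λ.ρ (.t N)) z ≤ lev (flg Λ.ρ (.w P1 N)) z := by
  rw [← mem_iff_le_lev (isFlag_of_adm Λ.rep hp h) hz]
  exact flg_t_le _ _ _ _ ((mem_iff_le_lev (isFlag_t _ _) hz).2 le_rfl)

section Wild2

variable {P N : Subgroup G}

/-- Blueprint 5.5: the new points, wild case. -/
theorem loc_wild [CharP k p] [Module.Free ℤ ι] [Module.Finite ℤ ι]
    (hc : Ctx B φ F p) (hPP : PP ⊆ WW G p)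
    (hPPcj : ∀ g, ∀ N ∈ PP, cj g N ∈ PP)
    (hG : Glob B φ F M a (EE3 p PP ∅) l e)
    (hN : N ∈ WW G p) (hNP : N ∉ PP) (hmin : ∀ N1 ∈ WW G p, N1 < N → N1 ∈ PP)
    (hP : Nat.card P = p) (hPN : P ≤ N)
    {q' : Ideal (rees F M (Orb (.w P N)) (l (.t N)) p).alg} [q'.IsPrime]
    {q : Ideal M.alg} [q.IsPrime]
    (hov : Over M (rees F M (Orb (.w P N)) (l (.t N)) p) (inlZ ι) q q')
    {P0 : Ideal B} {H : Subgroup G} {Λ : LM p φ F P0 H}
    {S : Set (Idx G)} (hS : Loc Λ M (EE3 p PP ∅) l e q S)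
    (hin : inertia φ M q = ⊥ ∨ Nat.card (inertia φ M q) = p)
    (hbad : ¬ Good φ M e q S → ∀ N, Idx.t N ∈ S → p ∣ Nat.card N → N ∉ PP)
    (hgen : ∃ (d : ι) (b : ℕ) (y : K)
      (_ : y ∈ FOs F M (Orb (.w P N)) (l (.t N)) b d)
      (h : y ∈ (rees F M (Orb (.w P N)) (l (.t N)) p).s (d, (b : ℤ))), 1 ≤ b ∧
        (rees F M (Orb (.w P N)) (l (.t N)) p).el h ∉ q')
    {a' : ι × ℤ} (hG' : Glob B φ F (rees F M (Orb (.w P N)) (l (.t N)) p) a'
      (EE3 p PP ∅ ∪ Orb (.w P N)) (lnew (Orb (.w P N)) (l (.t N)) l)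
      (enew (Orb (.w P N)) (l (.t N)) e)) :
    ∃ S', Loc Λ (rees F M (Orb (.w P N)) (l (.t N)) p)
        (EE3 p PP ∅ ∪ Orb (.w P N)) (lnew (Orb (.w P N)) (l (.t N)) l)
        (enew (Orb (.w P N)) (l (.t N)) e) q' S' ∧
      (inertia φ (rees F M (Orb (.w P N)) (l (.t N)) p) q' = ⊥ ∨
        Nat.card (inertia φ (rees F M (Orb (.w P N)) (l (.t N)) p) q') = p) ∧
      (¬ Good φ (rees F M (Orb (.w P N)) (l (.t N)) p)
        (enew (Orb (.w P N)) (l (.t N)) e) q' S' → ∀ N1, Idx.t N1 ∈ S' → p ∣ Nat.card N1 →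
        N1 ∉ PP ∪ {N' | ∃ g, N' = cj g N}) := by
  have hQQ : (∅ : Set (Subgroup G)) ⊆ PG G p := Set.empty_subset _
  have hstep := stepHyp_wild (P := P) hc hPPcj hG hN hNP
  have horb := orb_w hc hN.2.2 hP hPN
  have htEE : Idx.t N ∈ EE3 p PP ∅ := t_mem_EE3 hc hN
  have hltc : ∀ g, l (Idx.t (cj g N)) = l (Idx.t N) := fun g => hG.lcj g _ htEE
  have hSO : ∀ E ∈ S, E ∉ Orb (Idx.w P N) := by
    rintro E hE ⟨g, rfl⟩
    exact hstep.disj g (hS.sub hE)
  have hcjP : ∀ g, cj g N ∉ PP := by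
    intro g h
    apply hNP
    rw [← cj_inv_cj g N]
    exact hPPcj _ _ h
  have hcjmin : ∀ g, ∀ N1 ∈ WW G p, N1 < cj g N → N1 ∈ PP := by
    intro g N1 hN1 hlt
    have h1 : cj g⁻¹ N1 ≤ N := by
      rw [← cj_inv_cj g N]; exact cj_mono _ hlt.le
    have h2 : cj g⁻¹ N1 ≠ N := by
      rintro h2
      apply hlt.ne
      rw [← h2, cj_cj_inv]
    have h3 := hmin _ (cj_mem_WW hN1 g⁻¹) (lt_of_le_of_ne h1 h2)
    rw [← cj_cj_inv g N1]
    exact hPPcj _ _ h3
  by_cases hemp : ∀ E ∈ Orb (Idx.w P N), ¬ Cen F M (l (.t N)) q E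
  · obtain ⟨h1, h2, h3⟩ := loc_empty hc.hp.pos hG hstep hov hS hemp
    refine ⟨S, h1, by rw [h2]; exact hin, fun hng N1 hN1 hpN1 hmem => ?_⟩
    have hng0 : ¬ Good φ M e q S := fun h => hng (good_of_empty hSO h2 h3 h)
    rcases hmem with hmem | ⟨g, rfl⟩
    · exact hbad hng0 N1 hN1 hpN1 hmem
    · have hcard : Nat.card (inertia φ M q) = p := by
        rcases hin with h | h
        · exact absurd (good_of_bot h) hng0
        · exact h
      have h4 := cen_of_bad_wild hc hPP hQQ hG hS hcard hng0 (hbad hng0) hN1 (cj_mem_WW hN g)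
        (hcjmin g)
      rw [hltc] at h4
      refine hemp _ ?_ h4.2
      rw [horb]
      exact ⟨_, g, rfl, h4.1, hcard⟩
  · push Not at hemp
    obtain ⟨E, hE, hcen⟩ := hemp
    have hE' := hE
    rw [horb] at hE'
    obtain ⟨P', g, rfl, hP'N, hP'⟩ := hE'
    have hlam0 : ∀ P' N', Idx.w P' N' ∈ S → l (.t N) (e (.w P' N')) = 0 := by
      intro P1 N1 h1
      refine hG.dual _ htEE _ (hS.sub h1) fun g h => ?_
      change Idx.t (cj g N) = _ at h
      cases h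
    have hr0 : ∀ E ∈ Orb (Idx.w P N), ∀ d, M.s d ≤ F E (l (.t N) d) := by
      rintro E ⟨g, rfl⟩ d
      exact hstep.r0 g d
    have key : ∀ P1 g1, P1 ≤ cj g1 N → Nat.card P1 = p →
        Cen F M (l (.t N)) q (.w P1 (cj g1 N)) →
        inertia φ M q = P1 ∧ ¬ Good φ M e q S ∧ Idx.t (cj g1 N) ∈ S ∧
          ∀ N1, Idx.t N1 ∈ S → p ∣ Nat.card N1 → cj g1 N ≤ N1 := by
      intro P1 g1 h1 h2 h3
      have h4 := bad_of_cen hc hG hS hin h2 h1
        (hr0 _ (by rw [horb]; exact ⟨P1, g1, rfl, h1, h2⟩)) hlam0 h3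
      have h5 := t_mem_of_cen hc hPP hQQ hG hS (hbad h4.2) (cj_mem_WW hN g1) (hcjmin g1) h2
        h1 h4.1 (by rw [hltc]; exact h3)
      exact ⟨h4.1, h4.2, h5⟩
    obtain ⟨hI, hng, htS, hminS⟩ := key P' g hP'N hP' hcen
    subst hI
    have huniq : ∀ E' ∈ Orb (Idx.w P N), E' ≠ Idx.w (inertia φ M q) (cj g N) →
        ¬ Cen F M (l (.t N)) q E' := by
      intro E' hE' hne hcen'
      rw [horb] at hE'
      obtain ⟨P1, g1, rfl, h1, h2⟩ := hE'
      obtain ⟨h3, -, h4, -⟩ := key P1 g1 h1 h2 hcen'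
      apply hne
      have h5 := hS.inj _ h4 (g * g1⁻¹) (by
        change Idx.t (cj (g * g1⁻¹) (cj g1 N)) ∈ S
        rw [← cj_mul, inv_mul_cancel_right]; exact htS)
      change Idx.t (cj (g * g1⁻¹) (cj g1 N)) = Idx.t (cj g1 N) at h5
      rw [← cj_mul, inv_mul_cancel_right] at h5
      injection h5 with h5
      rw [h3, h5]
    have hpt := ptHyp_insert hc hPP hQQ hS hP'
      (Or.inr ⟨(cj_mem_WW hN g).1, hP'N, htS⟩ :
        cj g N = inertia φ M q ∨ PPerf p (cj g N) ∧ inertia φ M q ≤ cj g N ∧ Idx.t (cj g N) ∈ S)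
    have hNH : cj g N ≤ H := (hS.adm _ htS).1
    have hadm : Adm p H (Idx.w (inertia φ M q) (cj g N)) :=
      ⟨hNH, fun P1 N1 h => by injection h with h1 h2; rw [← h1, ← h2]; exact ⟨hP'N, hP'⟩⟩
    have hadmS : ∀ E' ∈ insert (Idx.w (inertia φ M q) (cj g N)) S, Idx.grp E' ≤ H := by
      rintro E' (rfl | h)
      · exact hNH
      · exact (hS.adm _ h).1
    have hloc := loc_centre hc.hp hG hstep hov hS hE hadm hcen huniq
      (adapted_of_ptHyp Λ.rep hc.hp hS.cardH hP' (hP'N.trans hNH) hpt hadmS)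
      (fun z hz => by rw [← hltc g]; exact hz _ htS)
      (fun z hz => by
        rw [← hltc g, l_finsum_mem (dual_of_loc hG hS) htS]
        exact_mod_cast lev_t_le hc.hp hadm hz)
      (fun x hx => by
        change Idx.w (cj x (inertia φ M q)) (cj x (cj g N)) = _
        rw [cj_eq_self_of_mem hx, cj_eq_self_of_mem (hP'N hx)])
      (fun P1 N1 h => by injection h with h1 h2; rw [h1])
      (fun h1 E' hE' h2 => hpt.comp _ (Set.mem_insert _ _) _ (Set.mem_insert_of_mem _ hE') h1 h2)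
      (fun N1 h => by cases h)
    obtain ⟨hloc1, hloc2⟩ := hloc
    have hin' := inertia_cases hc.hp hloc2 (Or.inr hP')
    refine ⟨_, hloc1, hin'.imp id And.left, fun hng' N1 hN1 hpN1 hmem => ?_⟩
    obtain ⟨hcard', hI'⟩ : Nat.card (inertia φ (rees F M (Orb (.w P N)) (l (.t N)) p) q')
        = p ∧ inertia φ (rees F M (Orb (.w P N)) (l (.t N)) p) q' = inertia φ M q := by
      rcases hin' with h | h
      · exact absurd (good_of_bot h) hng'
      · exact h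
    have hsub : Snew F p M e (Idx.w P N) (l (.t N)) q' S (Idx.w (inertia φ M q) (cj g N)) ⊆
        insert (Idx.w (inertia φ M q) (cj g N)) S := fun E' h => h.1
    have htN1 : Idx.t N1 ∈ S := by
      rcases hsub hN1 with h | h
      · cases h
      · exact h
    rcases hmem with hmem | ⟨g1, rfl⟩
    · exact hbad hng N1 htN1 hpN1 hmem
    · have h5 := hS.inj _ htS (g1 * g⁻¹) (by
        change Idx.t (cj (g1 * g⁻¹) (cj g N)) ∈ S
        rw [← cj_mul, inv_mul_cancel_right]; exact htN1)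
      change Idx.t (cj (g1 * g⁻¹) (cj g N)) = Idx.t (cj g N) at h5
      rw [← cj_mul, inv_mul_cancel_right] at h5
      injection h5 with h5
      rw [h5] at hN1
      obtain ⟨d, b, y, hyF, hyM, hb, hyq⟩ := hgen
      apply hng'
      have hltO : lnew (Orb (.w P N)) (l (.t N)) l (.t (cj g N)) (d, (b : ℤ)) = l (.t N) d := by
        have : Idx.t (cj g N) ∉ Orb (Idx.w P N) := hSO _ htS
        rw [lnew, if_neg this]
        change l (.t (cj g N)) d = _
        rw [hltc]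
      refine key_wild hc hG' hloc1 hcard' (N := cj g N) ?_ (cj_mem_WW hN g).1 ?_ hN1 ?_ hyM hyq ?_
      · rw [hI']
        refine hpt.subset (Set.insert_subset (Set.mem_insert _ _) hsub)
      · rw [hI']; exact hP'N
      · intro N2 hN2 hpN2
        rcases hsub hN2 with h | h
        · cases h
        · exact hminS N2 h hpN2
      · rw [hI', hltO]
        have h6 := hyF.2
        simp only [Submodule.mem_iInf, SetLike.mem_coe] at h6
        have h7 := h6 _ hE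
        refine hc.sys.anti _ _ _ ?_ h7
        have : (1 : ℤ) ≤ b := by exact_mod_cast hb
        linarith

theorem EE3_union (hc : Ctx B φ F p) (hN : ¬ p ^ 2 ∣ Nat.card N) (hP : Nat.card P = p)
    (hPN : P ≤ N) :
    EE3 p PP ∅ ∪ Orb (Idx.w P N) = EE3 p (PP ∪ {N' | ∃ g, N' = cj g N}) ∅ := by
  rw [orb_w hc hN hP hPN]
  ext E
  constructor
  · rintro ((⟨N1, h1, h2⟩ | ⟨P1, N1, h1, h2, h3⟩ | ⟨P1, -, h⟩) | ⟨P1, g, h1, h2, h3⟩)
    · exact Or.inl ⟨N1, h1, h2⟩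
    · exact Or.inr (Or.inl ⟨P1, N1, h1, Or.inl h2, h3⟩)
    · exact h.elim
    · exact Or.inr (Or.inl ⟨P1, _, h1, Or.inr ⟨g, rfl⟩, h2, h3⟩)
  · rintro (⟨N1, h1, h2⟩ | ⟨P1, N1, h1, h2 | ⟨g, rfl⟩, h3⟩ | ⟨P1, -, h⟩)
    · exact Or.inl (Or.inl ⟨N1, h1, h2⟩)
    · exact Or.inl (Or.inr (Or.inl ⟨P1, N1, h1, h2, h3⟩))
    · exact Or.inr ⟨P1, g, h1, h3⟩
    · exact h.elim

theorem hasSt2_step [CharP k p] (hc : Ctx B φ F p) (hPP : PP ⊆ WW G p)
    (hPPcj : ∀ g, ∀ N ∈ PP, cj g N ∈ PP)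
    (h : HasSt2 B φ F p PP) (hN : N ∈ WW G p) (hNP : N ∉ PP)
    (hmin : ∀ N1 ∈ WW G p, N1 < N → N1 ∈ PP) :
    HasSt2 B φ F p (PP ∪ {N' | ∃ g, N' = cj g N}) := by
  obtain ⟨ι, i1, i2, i3, M, a, l, e, hst⟩ := h
  have : Fact p.Prime := ⟨hc.hp⟩
  obtain ⟨P, hP, hPN⟩ : ∃ P : Subgroup G, Nat.card P = p ∧ P ≤ N := by
    obtain ⟨x, hx⟩ := exists_prime_orderOf_dvd_card' (G := N) p hN.2.1
    refine ⟨Subgroup.zpowers (x : G), ?_, ?_⟩
    · rw [Nat.card_zpowers, Subgroup.orderOf_coe, hx]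
    · rw [Subgroup.zpowers_le]; exact x.2
  have hG := hst.glob
  have hstep := stepHyp_wild (P := P) hc hPPcj hG hN hNP
  obtain ⟨a', hG', hsemi⟩ := glob_step hc.hp.pos hG hstep
  refine ⟨ι × ℤ, inferInstance, inferInstance, inferInstance,
    rees F M (Orb (.w P N)) (l (.t N)) p, a', lnew (Orb (.w P N)) (l (.t N)) l,
    enew (Orb (.w P N)) (l (.t N)) e, ?_, ?_⟩
  · rw [← EE3_union hc hN.2.2 hP hPN]; exact hG'
  · intro q' hq' hs'
    obtain ⟨q, hq, hov⟩ := exists_over (j := inlZ ι) (fun x y hxy => by simpa using hxy)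
      (fun d => le_rees d) q'
    obtain ⟨hs, hgen⟩ := hsemi q' q hov hs'
    obtain ⟨P0, H, Λ, S, hS, hin, hbad⟩ := hst.loc q hs
    have := loc_wild hc hPP hPPcj hG hN hNP hmin hP hPN hov hS hin hbad hgen hG'
    rw [EE3_union hc hN.2.2 hP hPN] at this
    exact ⟨P0, H, Λ, this⟩

end Wild2

/-- Processing of all wild `p`-perfect groups. -/
theorem hasSt2_final [CharP k p] (hc : Ctx B φ F p)
    (h : HasSt2 B φ F p ∅) : HasSt2 B φ F p (WW G p) := by
  classical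
  have key : ∀ n : ℕ, ∀ PP : Set (Subgroup G), PP ⊆ WW G p → (∀ g, ∀ N ∈ PP, cj g N ∈ PP) →
      HasSt2 B φ F p PP → (WW G p \ PP).ncard = n → HasSt2 B φ F p (WW G p) := by
    intro n
    induction n using Nat.strong_induction_on with
    | _ n ih =>
      intro PP hPP hPPcj hst hn
      by_cases hne : (WW G p \ PP).Nonempty
      · obtain ⟨N, hN⟩ := (Set.toFinite (WW G p \ PP)).exists_minimal hne
        have hmin : ∀ N1 ∈ WW G p, N1 < N → N1 ∈ PP := by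
          intro N1 h1 h2
          by_contra h3
          exact absurd (hN.2 (y := N1) ⟨h1, h3⟩ h2.le) (not_le_of_gt h2)
        have h1 := hasSt2_step hc hPP hPPcj hst hN.1.1 hN.1.2 hmin
        refine ih _ ?_ _ ?_ ?_ h1 rfl
        · rw [← hn]
          apply Set.ncard_lt_ncard _ (Set.toFinite _)
          refine ⟨fun N1 h => ⟨h.1, fun h' => h.2 (Or.inl h')⟩, fun h => ?_⟩
          exact (h hN.1).2 (Or.inr ⟨1, (cj_one N).symm⟩)
        · rintro N1 (h2 | ⟨g, rfl⟩)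
          · exact hPP h2
          · exact cj_mem_WW hN.1.1 g
        · rintro g N1 (h2 | ⟨g', rfl⟩)
          · exact Or.inl (hPPcj g N1 h2)
          · exact Or.inr ⟨g * g', (cj_mul g g' N).symm⟩
      · rw [Set.not_nonempty_iff_eq_empty, Set.sdiff_eq_empty] at hne
        rwa [Set.Subset.antisymm hPP hne] at hst
  exact key _ ∅ (Set.empty_subset _) (fun g N h => h.elim) h rfl

/-- The end of Step 2 is the beginning of Step 3. -/
theorem hasSt3_empty (_hc : Ctx B φ F p) (h : HasSt2 B φ F p (WW G p)) : HasSt3 B φ F p ∅ := by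
  obtain ⟨ι, i1, i2, i3, M, a, l, e, hst⟩ := h
  refine ⟨ι, i1, i2, i3, M, a, l, e, hst.glob, fun q hq hs => ?_⟩
  obtain ⟨P0, H, Λ, S, hS, hin, hbad⟩ := hst.loc q hs
  refine ⟨P0, H, Λ, S, hS, hin, fun hng => ⟨fun N hN hpN => ?_, fun h => h.elim⟩⟩
  refine hbad hng N hN hpN ?_
  rcases hS.sub hN with ⟨N2, h3, h4, -⟩ | ⟨P2, N2, h3, -⟩ | ⟨P2, h3, -⟩
  · injection h3 with h3
    rw [h3]
    exact ⟨h4, h3 ▸ hpN, fun h => hS.cardH (h.trans (h3 ▸ Subgroup.card_dvd_of_le (hS.adm _ hN).1))⟩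
  · cases h3
  · cases h3

section Tame

variable {P : Subgroup G}

theorem stepHyp_tame (hc : Ctx B φ F p) (hQQcj : ∀ g, ∀ N ∈ QQ, cj g N ∈ QQ)
    (hG : Glob B φ F M a (EE3 p (WW G p) QQ) l e) (hP : Nat.card P = p) (hPQ : P ∉ QQ) :
    StepHyp F M (EE3 p (WW G p) QQ) e (.w P P) 0 where
  disj := by
    rintro g (⟨N', h, -⟩ | ⟨P', N', h, h1, -⟩ | ⟨P', h, h1⟩)
    · change Idx.w (cj g P) (cj g P) = Idx.t N' at h
      cases h
    · change Idx.w (cj g P) (cj g P) = Idx.w P' N' at h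
      injection h with h2 h3
      rw [← h3] at h1
      exact not_pperf_of_card hc ((card_cj g P).trans hP) h1.1
    · change Idx.w (cj g P) (cj g P) = Idx.w P' P' at h
      injection h with h2 h3
      rw [← h2] at h1
      apply hPQ
      rw [← cj_inv_cj g P]
      exact hQQcj _ _ h1
  ne := by
    rintro (h : P = ⊥)
    rw [h, Subgroup.card_bot] at hP
    exact hc.hp.one_lt.ne hP
  r0 := by
    intro g d y hy
    change y ∈ F _ 0
    rw [hG.sys.nonpos _ _ le_rfl]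
    exact hG.leB d hy
  lam01 := fun E hE => Or.inl rfl

theorem WW_le (hc : Ctx B φ F p) {EE : Set (Idx G)} {q : Ideal M.alg} [q.IsPrime] {P0 : Ideal B}
    {H : Subgroup G} {Λ : LM p φ F P0 H} {S : Set (Idx G)}
    (hS : Loc Λ M EE l e q S) (hG : Glob B φ F M a EE l e) {P1 : Subgroup G}
    (h : inertia φ M q = P1) : P1 ≤ H := by
  have := hS.prime
  rw [← h]
  exact inertia_le hc.sys hG.zero hS.under Λ

/-- Blueprint 5.5: the new points, tame case. -/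
theorem loc_tame [CharP k p] [Module.Free ℤ ι] [Module.Finite ℤ ι]
    (hc : Ctx B φ F p) (hQQ : QQ ⊆ PG G p) (hQQcj : ∀ g, ∀ N ∈ QQ, cj g N ∈ QQ)
    (hG : Glob B φ F M a (EE3 p (WW G p) QQ) l e)
    (hP : Nat.card P = p) (hPQ : P ∉ QQ)
    {q' : Ideal (rees F M (Orb (.w P P)) 0 p).alg} [q'.IsPrime]
    {q : Ideal M.alg} [q.IsPrime]
    (hov : Over M (rees F M (Orb (.w P P)) 0 p) (inlZ ι) q q')
    {P0 : Ideal B} {H : Subgroup G} {Λ : LM p φ F P0 H}
    {S : Set (Idx G)} (hS : Loc Λ M (EE3 p (WW G p) QQ) l e q S)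
    (hin : inertia φ M q = ⊥ ∨ Nat.card (inertia φ M q) = p)
    (hbad : ¬ Good φ M e q S → (∀ N, Idx.t N ∈ S → ¬ p ∣ Nat.card N) ∧ inertia φ M q ∉ QQ)
    (hgen : ∃ (d : ι) (b : ℕ) (y : K)
      (_ : y ∈ FOs F M (Orb (.w P P)) 0 b d)
      (h : y ∈ (rees F M (Orb (.w P P)) 0 p).s (d, (b : ℤ))), 1 ≤ b ∧
        (rees F M (Orb (.w P P)) 0 p).el h ∉ q')
    {a' : ι × ℤ} (hG' : Glob B φ F (rees F M (Orb (.w P P)) 0 p) a'
      (EE3 p (WW G p) QQ ∪ Orb (.w P P)) (lnew (Orb (.w P P)) 0 l) (enew (Orb (.w P P)) 0 e)) :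
    ∃ S', Loc Λ (rees F M (Orb (.w P P)) 0 p)
        (EE3 p (WW G p) QQ ∪ Orb (.w P P)) (lnew (Orb (.w P P)) 0 l)
        (enew (Orb (.w P P)) 0 e) q' S' ∧
      (inertia φ (rees F M (Orb (.w P P)) 0 p) q' = ⊥ ∨
        Nat.card (inertia φ (rees F M (Orb (.w P P)) 0 p) q') = p) ∧
      (¬ Good φ (rees F M (Orb (.w P P)) 0 p) (enew (Orb (.w P P)) 0 e) q' S' →
        (∀ N, Idx.t N ∈ S' → ¬ p ∣ Nat.card N) ∧
        inertia φ (rees F M (Orb (.w P P)) 0 p) q' ∉ QQ ∪ {N' | ∃ g, N' = cj g P}) := by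
  have hstep := stepHyp_tame hc hQQcj hG hP hPQ
  have hSO : ∀ E ∈ S, E ∉ Orb (Idx.w P P) := by
    rintro E hE ⟨g, rfl⟩
    exact hstep.disj g (hS.sub hE)
  by_cases hemp : ∀ E ∈ Orb (Idx.w P P), ¬ Cen F M 0 q E
  · obtain ⟨h1, h2, h3⟩ := loc_empty hc.hp.pos hG hstep hov hS hemp
    refine ⟨S, h1, by rw [h2]; exact hin, fun hng => ?_⟩
    have hng0 : ¬ Good φ M e q S := fun h => hng (good_of_empty hSO h2 h3 h)
    obtain ⟨h5, h6⟩ := hbad hng0
    refine ⟨h5, ?_⟩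
    rw [h2]
    rintro (h7 | ⟨g, hg⟩)
    · exact h6 h7
    · have hcard : Nat.card (inertia φ M q) = p := by rw [hg, card_cj]; exact hP
      have h4 := cen_of_bad_tame hc le_rfl hQQ hG hS hcard hng0 h5
      exact hemp _ ⟨g, by rw [hg]; rfl⟩ h4
  · push Not at hemp
    obtain ⟨E, hE, hcen⟩ := hemp
    have key : ∀ E ∈ Orb (Idx.w P P), Cen F M 0 q E →
        E = Idx.w (inertia φ M q) (inertia φ M q) ∧ Nat.card (inertia φ M q) = p ∧
          ¬ Good φ M e q S := by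
      rintro E ⟨g, rfl⟩ h
      have h1 : Nat.card (cj g P) = p := (card_cj g P).trans hP
      have h2 := bad_of_cen hc hG hS hin h1 le_rfl (fun d => hstep.r0 g d)
        (fun _ _ _ => rfl) h
      refine ⟨?_, by rw [h2.1]; exact h1, h2.2⟩
      rw [h2.1]; rfl
    obtain ⟨rfl, hcard, hng⟩ := key E hE hcen
    have hno := (hbad hng).1
    have hpt := ptHyp_insert hc le_rfl hQQ hS hcard
      (Or.inl rfl : inertia φ M q = inertia φ M q ∨ PPerf p (inertia φ M q) ∧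
        inertia φ M q ≤ inertia φ M q ∧ Idx.t (inertia φ M q) ∈ S)
    have hnp : ¬ PPerf p (inertia φ M q) := not_pperf_of_card hc hcard
    have hIH : inertia φ M q ≤ H := WW_le hc hS hG rfl
    have hadm : Adm p H (Idx.w (inertia φ M q) (inertia φ M q)) :=
      ⟨hIH, fun P1 N1 h => by injection h with h1 h2; rw [← h1, ← h2]; exact ⟨le_rfl, hcard⟩⟩
    have hadmS : ∀ E' ∈ insert (Idx.w (inertia φ M q) (inertia φ M q)) S, Idx.grp E' ≤ H := by
      rintro E' (rfl | h)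
      · exact hIH
      · exact (hS.adm _ h).1
    have hloc := loc_centre hc.hp hG hstep hov hS hE hadm hcen
      (fun E' hE' hne h => hne (key E' hE' h).1)
      (adapted_of_ptHyp Λ.rep hc.hp hS.cardH hcard hIH hpt hadmS) (fun z _ => rfl)
      (fun z _ => by change (0 : ℤ) ≤ _; exact Int.natCast_nonneg _)
      (fun x hx => by
        change Idx.w (cj x (inertia φ M q)) (cj x (inertia φ M q)) = _
        rw [cj_eq_self_of_mem hx])
      (fun P1 N1 h => by injection h with h1 h2; rw [h1])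
      (fun h1 => absurd h1 hnp)
      (fun N1 h => by cases h)
    obtain ⟨hloc1, hloc2⟩ := hloc
    have hin' := inertia_cases hc.hp hloc2 (Or.inr hcard)
    refine ⟨_, hloc1, hin'.imp id And.left, fun hng' => absurd ?_ hng'⟩
    rcases hin' with h | ⟨hcard', hI'⟩
    · exact good_of_bot h
    have hsub : Snew F p M e (Idx.w P P) 0 q' S (Idx.w (inertia φ M q) (inertia φ M q)) ⊆
        insert (Idx.w (inertia φ M q) (inertia φ M q)) S := fun E' h => h.1
    obtain ⟨d, b, y, hyF, hyM, hb, hyq⟩ := hgen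
    refine key_tame hc hG' hloc1 hcard' ?_ ?_ hyM hyq ?_
    · rw [hI']
      exact hpt.subset (Set.insert_subset (Set.mem_insert _ _) hsub)
    · intro N2 hN2
      rcases hsub hN2 with h | h
      · cases h
      · exact hno N2 h
    · rw [hI']
      have h6 := hyF.2
      simp only [Submodule.mem_iInf, SetLike.mem_coe] at h6
      have h7 := h6 _ hE
      refine hc.sys.anti _ _ _ ?_ h7
      change (1 : ℤ) ≤ b + 0
      have : (1 : ℤ) ≤ b := by exact_mod_cast hb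
      linarith

theorem EE3_union' :
    EE3 p (WW G p) QQ ∪ Orb (Idx.w P P) = EE3 p (WW G p) (QQ ∪ {N' | ∃ g, N' = cj g P}) := by
  ext E
  constructor
  · rintro ((h | h | ⟨P1, h1, h2⟩) | ⟨g, h1⟩)
    · exact Or.inl h
    · exact Or.inr (Or.inl h)
    · exact Or.inr (Or.inr ⟨P1, h1, Or.inl h2⟩)
    · exact Or.inr (Or.inr ⟨cj g P, h1, Or.inr ⟨g, rfl⟩⟩)
  · rintro (h | h | ⟨P1, h1, h2 | ⟨g, rfl⟩⟩)
    · exact Or.inl (Or.inl h)
    · exact Or.inl (Or.inr (Or.inl h))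
    · exact Or.inl (Or.inr (Or.inr ⟨P1, h1, h2⟩))
    · exact Or.inr ⟨g, h1⟩

theorem hasSt3_step [CharP k p] (hc : Ctx B φ F p) (hQQ : QQ ⊆ PG G p)
    (hQQcj : ∀ g, ∀ N ∈ QQ, cj g N ∈ QQ)
    (h : HasSt3 B φ F p QQ) (hP : Nat.card P = p) (hPQ : P ∉ QQ) :
    HasSt3 B φ F p (QQ ∪ {N' | ∃ g, N' = cj g P}) := by
  obtain ⟨ι, i1, i2, i3, M, a, l, e, hst⟩ := h
  have : Fact p.Prime := ⟨hc.hp⟩
  have hG := hst.glob
  have hstep := stepHyp_tame hc hQQcj hG hP hPQ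
  obtain ⟨a', hG', hsemi⟩ := glob_step hc.hp.pos hG hstep
  refine ⟨ι × ℤ, inferInstance, inferInstance, inferInstance,
    rees F M (Orb (.w P P)) 0 p, a', lnew (Orb (.w P P)) 0 l,
    enew (Orb (.w P P)) 0 e, ?_, ?_⟩
  · rw [← EE3_union']; exact hG'
  · intro q' hq' hs'
    obtain ⟨q, hq, hov⟩ := exists_over (j := inlZ ι) (fun x y hxy => by simpa using hxy)
      (fun d => le_rees d) q'
    obtain ⟨hs, hgen⟩ := hsemi q' q hov hs'
    obtain ⟨P0, H, Λ, S, hS, hin, hbad⟩ := hst.loc q hs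
    have := loc_tame hc hQQ hQQcj hG hP hPQ hov hS hin hbad hgen hG'
    rw [EE3_union'] at this
    exact ⟨P0, H, Λ, this⟩

end Tame

/-- Processing of all groups of order `p`. -/
theorem hasSt3_final [CharP k p] (hc : Ctx B φ F p)
    (h : HasSt3 B φ F p ∅) : HasSt3 B φ F p (PG G p) := by
  classical
  have key : ∀ n : ℕ, ∀ QQ : Set (Subgroup G), QQ ⊆ PG G p → (∀ g, ∀ N ∈ QQ, cj g N ∈ QQ) →
      HasSt3 B φ F p QQ → (PG G p \ QQ).ncard = n → HasSt3 B φ F p (PG G p) := by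
    intro n
    induction n using Nat.strong_induction_on with
    | _ n ih =>
      intro QQ hQQ hQQcj hst hn
      by_cases hne : (PG G p \ QQ).Nonempty
      · obtain ⟨P, hP⟩ := hne
        have h1 := hasSt3_step hc hQQ hQQcj hst hP.1 hP.2
        refine ih _ ?_ _ ?_ ?_ h1 rfl
        · rw [← hn]
          apply Set.ncard_lt_ncard _ (Set.toFinite _)
          refine ⟨fun N1 h => ⟨h.1, fun h' => h.2 (Or.inl h')⟩, fun h => ?_⟩
          exact (h hP).2 (Or.inr ⟨1, (cj_one P).symm⟩)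
        · rintro N1 (h2 | ⟨g, rfl⟩)
          · exact hQQ h2
          · exact (card_cj g P).trans hP.1
        · rintro g N1 (h2 | ⟨g', rfl⟩)
          · exact Or.inl (hQQcj g N1 h2)
          · exact Or.inr ⟨g * g', (cj_mul g g' P).symm⟩
      · rw [Set.not_nonempty_iff_eq_empty, Set.sdiff_eq_empty] at hne
        rwa [Set.Subset.antisymm hQQ hne] at hst
  exact key _ ∅ (Set.empty_subset _) (fun g N h => h.elim) h rfl

/-- The final stage: all semistable points are good. -/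
def HasFin (B : Subalgebra k K) (φ : G →* (K ≃ₐ[k] K)) (F : Idx G → ℤ → Submodule k K) (p : ℕ) :
    Prop :=
  ∃ (ι : Type) (_ : AddCommGroup ι) (_ : Module.Free ℤ ι) (_ : Module.Finite ℤ ι)
    (M : Fam k K ι) (a : ι) (EE : Set (Idx G)) (l : Idx G → ι →+ ℤ) (e : Idx G → ι),
    Glob B φ F M a EE l e ∧
    ∀ (q : Ideal M.alg) [q.IsPrime], Semi M a q → ∃ (P : Ideal B) (H : Subgroup G)
      (Λ : LM p φ F P H) (S : Set (Idx G)), Loc Λ M EE l e q S ∧
      (inertia φ M q = ⊥ ∨ Nat.card (inertia φ M q) = p) ∧ Good φ M e q S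

/-- All points can be made good. -/
theorem hasFin [CharP k p] (hc : Ctx B φ F p) : HasFin B φ F p := by
  obtain ⟨ι, i1, i2, i3, M, a, l, e, hst⟩ := hasSt3_final hc
    (hasSt3_empty hc (hasSt2_final hc (hasSt2_empty hc (hasSt1_final hc))))
  refine ⟨ι, i1, i2, i3, M, a, _, l, e, hst.glob, fun q hq hs => ?_⟩
  obtain ⟨P0, H, Λ, S, hS, hin, hbad⟩ := hst.loc q hs
  refine ⟨P0, H, Λ, S, hS, hin, ?_⟩
  by_contra hng
  rcases hin with h | h
  · exact hng (good_of_bot h)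
  · exact (hbad hng).2 h

end Pool.Agent.MP_b525bf_ag_X
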