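import Mathlib

/-!
# Y7, first part: equivariant coordinates at a tame point
-/

set_option autoImplicit false

namespace Pool.Agent.MP_b525bf_ag_X

variable {k B : Type} [Field k] [CommRing B] [Algebra k B]

/-- Equivariant local coordinates for a finite group of order prime to the characteristic which
acts trivially on `B ⧸ P`. -/
theorem exists_equivariant_coords (P : Ideal B) (I : Subgroup (B ≃ₐ[k] B)) [Finite I]
    (hI : ∀ g ∈ I, ∀ b, g b - b ∈ P) (hcard : (Nat.card I : k) ≠ 0) (hfg : P.FG)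
    (hres : ∀ b : B, ∃ c : k, b - algebraMap k B c ∈ P) :
    ∃ (n : ℕ) (x : Fin n → B), (∀ i, x i ∈ P) ∧
      (∀ g ∈ I, ∃ A : Matrix (Fin n) (Fin n) k, ∀ j, g (x j) = ∑ i, A i j • x i) ∧
      (∀ b ∈ P, ∃ c : Fin n → k, b - ∑ i, c i • x i ∈ P ^ 2) ∧
      (∀ c : Fin n → k, ∑ i, c i • x i ∈ P ^ 2 → c = 0) := by
  classical
  let _ : Fintype I := Fintype.ofFinite I
  set Pk : Submodule k B := P.restrictScalars k with hPk
  set P2 : Submodule k B := (P ^ 2).restrictScalars k with hP2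
  have hP2P : P2 ≤ Pk := fun b hb => Ideal.pow_le_self two_ne_zero hb
  -- the group preserves `P` and `P ^ 2`
  have hgP : ∀ g ∈ I, ∀ b ∈ P, g b ∈ P := by
    intro g hg b hb
    have := P.add_mem (hI g hg b) hb
    rwa [sub_add_cancel] at this
  have hgP2 : ∀ g ∈ I, ∀ b ∈ P ^ 2, g b ∈ P ^ 2 := by
    intro g hg b hb
    rw [pow_two] at hb ⊢
    refine Submodule.mul_induction_on hb ?_ ?_
    · intro a ha c hc
      rw [map_mul]
      exact Ideal.mul_mem_mul (hgP g hg a ha) (hgP g hg c hc)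
    · intro a c ha hc
      rw [map_add]
      exact Ideal.add_mem _ ha hc
  -- the averaged projection
  obtain ⟨π, hπ⟩ := LinearMap.exists_leftInverse_of_injective P2.subtype P2.ker_subtype
  let π0 : B →ₗ[k] B := P2.subtype ∘ₗ π
  have hπ0 : ∀ b, π0 b ∈ P2 := fun b => (π b).2
  have hπ0' : ∀ b ∈ P2, π0 b = b := by
    intro b hb
    have := LinearMap.congr_fun hπ ⟨b, hb⟩
    exact congrArg Subtype.val this
  let π1 : B →ₗ[k] B := (Nat.card I : k)⁻¹ • ∑ g : I,
    (g : B ≃ₐ[k] B).toLinearMap ∘ₗ π0 ∘ₗ ((g⁻¹ : I) : B ≃ₐ[k] B).toLinearMap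
  have hπ1 : ∀ b, π1 b = (Nat.card I : k)⁻¹ • ∑ g : I,
      (g : B ≃ₐ[k] B) (π0 (((g⁻¹ : I) : B ≃ₐ[k] B) b)) := by
    intro b
    simp [π1, LinearMap.sum_apply]
  have hπ1P : ∀ b, π1 b ∈ P2 := by
    intro b
    rw [hπ1]
    exact P2.smul_mem _ (P2.sum_mem fun g _ => hgP2 g g.2 _ (hπ0 _))
  have hπ1' : ∀ b ∈ P2, π1 b = b := by
    intro b hb
    rw [hπ1]
    have h1 : ∀ g : I, (g : B ≃ₐ[k] B) (π0 (((g⁻¹ : I) : B ≃ₐ[k] B) b)) = b := by
      intro g
      rw [hπ0' _ (hgP2 _ (g⁻¹).2 _ hb)]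
      change ((g : B ≃ₐ[k] B) * ((g⁻¹ : I) : B ≃ₐ[k] B)) b = b
      rw [Subgroup.coe_inv, mul_inv_cancel]
      rfl
    rw [Finset.sum_congr rfl fun g _ => h1 g, Finset.sum_const, Finset.card_univ,
      ← Nat.card_eq_fintype_card, ← Nat.cast_smul_eq_nsmul k, smul_smul, inv_mul_cancel₀ hcard,
      one_smul]
  have heq : ∀ h ∈ I, ∀ b, π1 (h b) = h (π1 b) := by
    intro h hh b
    rw [hπ1, hπ1, map_smul, map_sum]
    congr 1
    refine (Fintype.sum_equiv (Equiv.mulLeft (⟨h, hh⟩ : I)) _ _ fun g => ?_).symm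
    have e1 : (((((Equiv.mulLeft (⟨h, hh⟩ : I)) g)⁻¹ : I) : B ≃ₐ[k] B)) (h b) =
        ((g⁻¹ : I) : B ≃ₐ[k] B) b := by
      change ((((⟨h, hh⟩ : I) * g)⁻¹ : I) : B ≃ₐ[k] B) (h b) = _
      rw [mul_inv_rev, Subgroup.coe_mul, AlgEquiv.mul_apply]
      congr 1
      change (h⁻¹ * h) b = b
      rw [inv_mul_cancel]
      rfl
    rw [e1]
    rfl
  -- the complement
  let U : Submodule k B := Pk ⊓ LinearMap.ker π1
  have hUfin : Module.Finite k U := by
    obtain ⟨T, hT⟩ := hfg
    have h1 : U ≤ (Submodule.span k (T : Set B)).map (LinearMap.id - π1) := by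
      rintro b ⟨hbP, hbK⟩
      have h2 : ∀ b ∈ P, b ∈ Submodule.span k (T : Set B) ⊔ P2 := by
        intro b hb
        rw [← hT] at hb
        refine Submodule.span_induction (p := fun b _ => b ∈ Submodule.span k (T : Set B) ⊔ P2)
          ?_ ?_ ?_ ?_ hb
        · intro t ht
          exact Submodule.mem_sup_left (Submodule.subset_span ht)
        · exact Submodule.zero_mem _
        · intro x y _ _ hx hy
          exact Submodule.add_mem _ hx hy
        · intro a x hxT hx
          obtain ⟨c, hc⟩ := hres a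
          have hxP : x ∈ P := by rw [← hT]; exact hxT
          have e : a • x = c • x + (a - algebraMap k B c) * x := by
            rw [smul_eq_mul, Algebra.smul_def]
            ring
          rw [e]
          refine Submodule.add_mem _ (Submodule.smul_mem _ _ hx) (Submodule.mem_sup_right ?_)
          change _ ∈ P ^ 2
          rw [pow_two]
          exact Ideal.mul_mem_mul hc hxP
      obtain ⟨y, hy, z, hz, hyz⟩ := Submodule.mem_sup.1 (h2 b hbP)
      refine ⟨y, hy, ?_⟩
      have hbK' : π1 b = 0 := hbK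
      have hz1 : π1 z = z := hπ1' z hz
      have hy1 : y = b - z := by rw [← hyz]; ring
      rw [LinearMap.sub_apply, LinearMap.id_apply, hy1, map_sub, hbK', hz1]
      ring
    have h3 : (Submodule.span k (T : Set B)).FG := ⟨T, rfl⟩
    have : Module.Finite k (Submodule.span k (T : Set B)) := Module.Finite.iff_fg.2 h3
    have : Module.Finite k ((Submodule.span k (T : Set B)).map (LinearMap.id - π1)) :=
      inferInstance
    exact Submodule.finiteDimensional_of_le h1
  have hU0 : ∀ u ∈ U, u ∈ P2 → u = 0 := by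
    intro u hu hu2
    have h1 : π1 u = 0 := hu.2
    rw [hπ1' u hu2] at h1
    exact h1
  let bs := Module.finBasis k U
  refine ⟨Module.finrank k U, fun i => (bs i : B), fun i => (bs i).2.1, ?_, ?_, ?_⟩
  · intro g hg
    have hgU : ∀ u ∈ U, g u ∈ U := by
      intro u hu
      refine ⟨hgP g hg u hu.1, ?_⟩
      have h1 : π1 u = 0 := hu.2
      change π1 (g u) = 0
      rw [heq g hg, h1, map_zero]
    refine ⟨fun i j => bs.repr ⟨g (bs j), hgU _ (bs j).2⟩ i, fun j => ?_⟩
    have h1 := congrArg Subtype.val (bs.sum_repr ⟨g (bs j), hgU _ (bs j).2⟩)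
    rw [AddSubmonoidClass.coe_finsetSum] at h1
    exact h1.symm
  · intro b hb
    have hbU : b - π1 b ∈ U := by
      refine ⟨Ideal.sub_mem _ hb (hP2P (hπ1P b)), ?_⟩
      change π1 (b - π1 b) = 0
      rw [map_sub, hπ1' _ (hπ1P b), sub_self]
    refine ⟨fun i => bs.repr ⟨b - π1 b, hbU⟩ i, ?_⟩
    have h1 := congrArg Subtype.val (bs.sum_repr ⟨b - π1 b, hbU⟩)
    rw [AddSubmonoidClass.coe_finsetSum] at h1
    have h2 : ∑ i, (bs.repr ⟨b - π1 b, hbU⟩ i) • (bs i : B) = b - π1 b := h1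
    rw [h2, sub_sub_cancel]
    exact hπ1P b
  · intro c hc
    have h1 : (∑ i, c i • bs i : U) = 0 := by
      refine Subtype.ext ?_
      refine hU0 _ (∑ i, c i • bs i : U).2 ?_
      rw [AddSubmonoidClass.coe_finsetSum]
      exact hc
    have h2 := Fintype.linearIndependent_iff.1 bs.linearIndependent c h1
    exact funext h2

end Pool.Agent.MP_b525bf_ag_X
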